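import Pool.Agent.Lib.Unif.BI1

set_option autoImplicit false
set_option linter.unusedSectionVars false

open Set Filter Topology Metric
open scoped ComplexConjugate Manifold ContDiff

namespace Pool.Agent.Lib.Unif

theorem affine_of_homeo (T : ℂ ≃ₜ ℂ) (h : Differentiable ℂ T) :
    ∃ a b : ℂ, a ≠ 0 ∧ ∀ z, T z = a * z + b := by
  obtain ⟨g, hg⟩ : ∃ g : ℂ → ℂ, g = fun w => (T w⁻¹ - T 0)⁻¹ := ⟨_, rfl⟩
  have g0 : g 0 = 0 := by simp [hg]
  have hT : Tendsto T (Bornology.cobounded ℂ) (Bornology.cobounded ℂ) := by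
    rw [Metric.cobounded_eq_cocompact]
    exact T.map_cocompact.le
  have hc : ContinuousAt g 0 := by
    rw [← continuousWithinAt_compl_self, ContinuousWithinAt, g0, hg]
    exact tendsto_inv₀_cobounded.comp ((tendsto_sub_const_cobounded (T 0)).comp
      (hT.comp tendsto_inv₀_nhdsNE_zero))
  have hd : ∀ᶠ w in 𝓝[≠] (0 : ℂ), DifferentiableAt ℂ g w := by
    filter_upwards [self_mem_nhdsWithin] with w hw
    have hw' : w ≠ 0 := hw
    rw [hg]
    refine (((h _).comp w (differentiableAt_inv hw')).sub_const _).inv ?_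
    exact sub_ne_zero.2 fun e => inv_ne_zero hw' (T.injective e)
  have ha : AnalyticAt ℂ g 0 :=
    Complex.analyticAt_of_differentiable_on_punctured_nhds_of_continuousAt hd hc
  have hi : LocInj g 0 := ⟨univ, univ_mem, fun a _ b _ hab => by
    rw [hg] at hab
    exact inv_injective (T.injective (sub_left_injective (inv_injective hab)))⟩
  have hd0 := deriv_ne_zero_of_locInj ha hi
  have h1 := ((hasDerivAt_iff_tendsto_slope.1 ha.differentiableAt.hasDerivAt).comp
    tendsto_inv₀_cobounded').inv₀ hd0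
  have h2 : Tendsto (dslope T 0) (cocompact ℂ) (𝓝 (deriv g 0)⁻¹) := by
    rw [← Metric.cobounded_eq_cocompact]
    refine h1.congr' ?_
    filter_upwards [Bornology.eventually_ne_cobounded (0 : ℂ)] with z hz
    rw [dslope_of_ne _ hz]
    simp only [Function.comp, slope_def_field, g0]
    simp only [hg, sub_zero, inv_inv, inv_div, div_inv_eq_mul]
    rw [mul_inv, inv_inv, div_eq_mul_inv]
  have h3 : Differentiable ℂ (dslope T 0) :=
    differentiableOn_univ.1 ((Complex.differentiableOn_dslope univ_mem).2 h.differentiableOn)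
  refine ⟨(deriv g 0)⁻¹, T 0, inv_ne_zero hd0, fun z => ?_⟩
  have h4 := sub_smul_dslope T 0 z
  rw [h3.apply_eq_of_tendsto_cocompact z h2, sub_zero, smul_eq_mul] at h4
  rw [mul_comm, h4, sub_add_cancel]

end Pool.Agent.Lib.Unif
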