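import Pool.Agent.Lib.Unif.Iso2

set_option autoImplicit false
set_option linter.unusedSectionVars false

open Set Filter Topology Metric
open scoped ComplexConjugate Manifold ContDiff

namespace Pool.Agent.Lib.Unif

theorem plane_atlas1 {V : Type*} [NormedAddCommGroup V] [InnerProductSpace ℝ V] {a : ℂ → V}
    {U : Set ℂ} (hU : IsOpen U) {z₀ : ℂ} (hz : z₀ ∈ U) (ha : ContDiffOn ℝ 4 a U)
    (hi : Function.Injective (fderiv ℝ a z₀)) :
    ∃ η : OpenPartialHomeomorph ℂ ℂ, z₀ ∈ η.source ∧ η.source ⊆ U ∧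
      ContDiffOn ℝ 1 η η.source ∧ ContDiffOn ℝ 1 η.symm η.target ∧
      ∀ w ∈ η.target, ∃ l : ℝ, 0 < l ∧ ∀ v, ‖fderiv ℝ (a ∘ η.symm) w v‖ = l * ‖v‖ := by
  obtain ⟨h, hh, hc⟩ := exists_isothermal (ha.contDiffAt (hU.mem_nhds hz)) hi
  have hinj : Function.Injective (fderiv ℝ h z₀) := by
    obtain ⟨l, -, hl⟩ := hc.self_of_nhds
    rw [injective_iff_map_eq_zero]
    intro v hv
    have h1 := hl v
    rw [hv, norm_zero, mul_zero, norm_eq_zero] at h1
    exact hi (by rw [h1, map_zero])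
  let A : ℂ ≃L[ℝ] ℂ :=
    (LinearEquiv.ofInjectiveEndo (fderiv ℝ h z₀ : ℂ →ₗ[ℝ] ℂ) hinj).toContinuousLinearEquiv
  have hd : ∀ z, HasFDerivAt h (fderiv ℝ h z) z := fun z =>
    (hh.differentiable one_ne_zero z).hasFDerivAt
  have hA : HasFDerivAt h (A : ℂ →L[ℝ] ℂ) z₀ := by
    have e : (A : ℂ →L[ℝ] ℂ) = fderiv ℝ h z₀ := by
      ext v
      rfl
    rw [e]
    exact hd z₀
  let η := (hh.contDiffAt (x := z₀)).toOpenPartialHomeomorph h hA one_ne_zero
  have h0 : z₀ ∈ η.source := ContDiffAt.mem_toOpenPartialHomeomorph_source _ _ _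
  have h1 : ContDiffAt ℝ 1 η.symm (h z₀) := (hh.contDiffAt (x := z₀)).to_localInverse hA one_ne_zero
  have h2 : ∀ᶠ z in 𝓝 z₀, ContDiffAt ℝ 1 η.symm (h z) :=
    hh.continuous.continuousAt.eventually (h1.eventually (by simp))
  obtain ⟨O, hO, hOo, hzO⟩ := _root_.eventually_nhds_iff.1
    ((hc.and h2).and (hU.eventually_mem hz))
  have key : ∀ w ∈ (η.restrOpen O hOo).target,
      w ∈ η.target ∧ η.symm w ∈ O ∧ h (η.symm w) = w := fun w hw =>
    ⟨hw.1, by simpa [hOo.interior_eq] using hw.2, η.right_inv hw.1⟩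
  refine ⟨η.restrOpen O hOo, ⟨h0, hzO⟩, fun z hz => (hO z hz.2).2, hh.contDiffOn, ?_, ?_⟩
  · intro w hw
    obtain ⟨-, k2, k3⟩ := key w hw
    have := (hO _ k2).1.2
    rw [k3] at this
    exact this.contDiffWithinAt
  · intro w hw
    obtain ⟨k1, k2, k3⟩ := key w hw
    obtain ⟨⟨⟨l, hl, hl'⟩, k4⟩, k5⟩ := hO _ k2
    rw [k3] at k4
    have d1 : HasFDerivAt η.symm (fderiv ℝ η.symm w) w :=
      (k4.differentiableAt one_ne_zero).hasFDerivAt
    have d2 : HasFDerivAt a (fderiv ℝ a (η.symm w)) (η.symm w) :=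
      ((ha.contDiffAt (hU.mem_nhds k5)).differentiableAt (by norm_num)).hasFDerivAt
    have d3 := (d2.comp w d1).fderiv
    have d4 := (hd (η.symm w)).comp w d1
    have d5 : HasFDerivAt (h ∘ η.symm) (ContinuousLinearMap.id ℝ ℂ) w :=
      (hasFDerivAt_id w).congr_of_eventuallyEq (η.eventually_right_inverse k1)
    have d6 := d4.unique d5
    refine ⟨l, hl, fun v => ?_⟩
    have d7 : fderiv ℝ h (η.symm w) (fderiv ℝ η.symm w v) = v := congrArg (fun T => T v) d6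
    show ‖fderiv ℝ (a ∘ η.symm) w v‖ = l * ‖v‖
    rw [d3, ContinuousLinearMap.comp_apply, hl', d7]

variable {S : Type*} [TopologicalSpace S] [ChartedSpace (EuclideanSpace ℝ (Fin 2)) S]
  [IsManifold (𝓡 2) ∞ S]

theorem chart_atlas1 {n : ℕ} {e : S → EuclideanSpace ℝ (Fin n)}
    (he : ContMDiff (𝓡 2) (𝓡 n) ∞ e) (hi : ∀ x, Function.Injective (mfderiv (𝓡 2) (𝓡 n) e x))
    (x : S) : ∃ κ : OpenPartialHomeomorph S ℂ, x ∈ κ.source ∧
      ContMDiffOn (𝓡 2) 𝓘(ℝ, ℂ) ∞ κ κ.source ∧ ContMDiffOn 𝓘(ℝ, ℂ) (𝓡 2) ∞ κ.symm κ.target ∧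
      Function.Injective (fderiv ℝ (e ∘ κ.symm) (κ x)) := by
  let L : ℂ ≃L[ℝ] EuclideanSpace ℝ (Fin 2) :=
    Complex.orthonormalBasisOneI.repr.toContinuousLinearEquiv
  let c := chartAt (EuclideanSpace ℝ (Fin 2)) x
  have hx : x ∈ c.source := mem_chart_source _ x
  refine ⟨c.transHomeomorph L.symm.toHomeomorph, hx, ?_, ?_, ?_⟩
  · exact L.symm.contDiff.contMDiff.comp_contMDiffOn contMDiffOn_chart
  · exact (contMDiffOn_chart_symm (x := x)).comp L.contDiff.contMDiff.contMDiffOn fun _ hw => hw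
  · have hc : c.MDifferentiable (𝓡 2) (𝓡 2) := mdifferentiable_chart x
    have e1 : L (L.symm (c x)) = c x := L.apply_symm_apply _
    have t1 : L (L.symm (c x)) ∈ c.symm.source := by
      rw [e1]
      exact c.map_source hx
    have d1 : HasMFDerivAt 𝓘(ℝ, ℂ) (𝓡 2) L (L.symm (c x))
        (L : ℂ →L[ℝ] EuclideanSpace ℝ (Fin 2)) := L.hasFDerivAt.hasMFDerivAt
    have d2 := (hc.symm.mdifferentiableAt t1).hasMFDerivAt
    have d3 := (he.mdifferentiable (by simp) (c.symm (L (L.symm (c x))))).hasMFDerivAt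
    have d4 := (HasMFDerivAt.comp (f := c.symm ∘ L) (L.symm (c x)) d3
      (d2.comp (L.symm (c x)) d1)).mfderiv
    show Function.Injective (fderiv ℝ (e ∘ c.symm ∘ L) (L.symm (c x)))
    rw [← mfderiv_eq_fderiv, d4]
    exact (hi _).comp ((hc.symm.mfderiv_injective t1).comp L.injective)

theorem exists_confChart {n : ℕ} {e : S → EuclideanSpace ℝ (Fin n)}
    (he : ContMDiff (𝓡 2) (𝓡 n) ∞ e) (hi : ∀ x, Function.Injective (mfderiv (𝓡 2) (𝓡 n) e x))
    (x : S) : ∃ ψ : OpenPartialHomeomorph S ℂ, x ∈ ψ.source ∧ ConfChart e ψ := by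
  obtain ⟨κ, hx, k1, k2, k3⟩ := chart_atlas1 he hi x
  have ha : ContDiffOn ℝ 4 (e ∘ κ.symm) κ.target :=
    (contMDiffOn_iff_contDiffOn.1 (he.comp_contMDiffOn k2)).of_le
      (WithTop.coe_le_coe.2 (le_top : ((4 : ℕ) : ℕ∞) ≤ ⊤))
  obtain ⟨η, h0, h1, h2, h3, h4⟩ := plane_atlas1 κ.open_target (κ.map_source hx) ha k3
  refine ⟨κ.trans η, ⟨hx, h0⟩, ?_, ?_, fun w hw => h4 w hw.1⟩
  · exact h2.contMDiffOn.comp ((k1.of_le (by exact_mod_cast le_top)).mono inter_subset_left)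
      fun _ hy => hy.2
  · exact (k2.of_le (by exact_mod_cast le_top)).comp (h3.contMDiffOn.mono inter_subset_left)
      fun _ hy => hy.2

end Pool.Agent.Lib.Unif
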