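import Pool.Agent.Lib.Unif.Defs

set_option autoImplicit false
set_option linter.unusedSectionVars false

open Set Filter Topology Metric
open scoped ComplexConjugate Manifold ContDiff

namespace Pool.Agent.Lib.Unif

theorem alg_cf {A : ℂ →L[ℝ] ℂ} (h : ∃ l : ℝ, 0 < l ∧ ∀ v, ‖A v‖ = l * ‖v‖) :
    A 1 ≠ 0 ∧ (A Complex.I - Complex.I * A 1) * (A Complex.I + Complex.I * A 1) = 0 := by
  obtain ⟨l, hl, h⟩ := h
  have h0 : A 1 ≠ 0 := norm_pos_iff.1 (by rw [h, norm_one, mul_one]; exact hl)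
  have k : ∀ v, A v * conj (A v) = (l : ℂ) ^ 2 * (v * conj v) := fun v => by
    rw [Complex.mul_conj', Complex.mul_conj', h]
    push_cast
    ring
  have h1 := k 1
  have h2 := k Complex.I
  have h3 := k (1 + Complex.I)
  simp only [map_add, map_one, Complex.conj_I] at h1 h2 h3
  refine ⟨h0, mul_left_cancel₀ ((map_ne_zero (starRingEnd ℂ)).2 h0) ?_⟩
  generalize conj (A 1) = a' at h1 h3 ⊢
  generalize conj (A Complex.I) = b' at h2 h3
  generalize A 1 = a at h1 h3 ⊢
  generalize A Complex.I = b at h2 h3 ⊢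
  linear_combination (a - b) * h1 - (a + b) * h2 + b * h3 +
    (-a ^ 2 * a' + (l : ℂ) ^ 2 * a) * Complex.I_mul_I

theorem di_of_conformal {T : ℂ → ℂ} {z : ℂ} (hT : ContDiffAt ℝ 1 T z)
    (hc : ∀ᶠ w in 𝓝 z, ∃ l : ℝ, 0 < l ∧ ∀ v, ‖fderiv ℝ T w v‖ = l * ‖v‖) : Di T z := by
  have hd : ∀ᶠ w in 𝓝 z, DifferentiableAt ℝ T w :=
    (hT.eventually (by simp)).mono fun w hw => hw.differentiableAt one_ne_zero
  have hf : ContinuousAt (fderiv ℝ T) z := hT.continuousAt_fderiv one_ne_zero
  have c1 : ContinuousAt (fun w => fderiv ℝ T w 1) z := hf.clm_apply continuousAt_const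
  have c2 : ContinuousAt (fun w => fderiv ℝ T w Complex.I) z := hf.clm_apply continuousAt_const
  obtain ⟨h0, h1⟩ := alg_cf hc.self_of_nhds
  have h2 := mul_ne_zero two_ne_zero (mul_ne_zero Complex.I_ne_zero h0)
  rcases mul_eq_zero.1 h1 with h | h
  · have h3 := (c2.add (c1.const_mul Complex.I)).eventually_ne (y := 0)
      fun e => h2 (by simp only [Pi.add_apply] at e; linear_combination e - h)
    refine Or.inl (Complex.analyticAt_iff_eventually_differentiableAt.2 ?_)
    filter_upwards [hd, hc, h3] with w w1 w2 w3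
    exact differentiableAt_complex_iff_differentiableAt_real.2
      ⟨w1, sub_eq_zero.1 ((mul_eq_zero.1 (alg_cf w2).2).resolve_right w3)⟩
  · have h3 := (c2.sub (c1.const_mul Complex.I)).eventually_ne (y := 0)
      fun e => h2 (by simp only [Pi.sub_apply] at e; linear_combination h - e)
    refine Or.inr (Complex.analyticAt_iff_eventually_differentiableAt.2 ?_)
    filter_upwards [hd, hc, h3] with w w1 w2 w3
    have w4 : HasFDerivAt (fun w => conj (T w))
        ((Complex.conjCLE : ℂ →L[ℝ] ℂ).comp (fderiv ℝ T w)) w :=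
      (Complex.conjCLE : ℂ →L[ℝ] ℂ).hasFDerivAt.comp w w1.hasFDerivAt
    refine differentiableAt_complex_iff_differentiableAt_real.2 ⟨w4.differentiableAt, ?_⟩
    have w5 := eq_neg_of_add_eq_zero_left ((mul_eq_zero.1 (alg_cf w2).2).resolve_left w3)
    rw [w4.fderiv]
    simp [w5]

end Pool.Agent.Lib.Unif
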