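import Pool.Agent.Lib.Unif.Atlas1
import Pool.Agent.Lib.Unif.CF

set_option autoImplicit false
set_option linter.unusedSectionVars false

open Set Filter Topology Metric
open scoped ComplexConjugate Manifold ContDiff

namespace Pool.Agent.Lib.Unif

variable {S : Type*} [TopologicalSpace S] [ChartedSpace (EuclideanSpace ℝ (Fin 2)) S]
  [IsManifold (𝓡 2) ∞ S]

theorem ConfChart.at_atlas2 {V : Type*} [NormedAddCommGroup V] [NormedSpace ℝ V] {e : S → V}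
    {ψ : OpenPartialHomeomorph S ℂ} (h : ConfChart e ψ) {x : S} (hx : x ∈ ψ.source) :
    ContMDiffAt (𝓡 2) 𝓘(ℝ, ℂ) 1 ψ x ∧ ContMDiffAt 𝓘(ℝ, ℂ) (𝓡 2) 1 ψ.symm (ψ x) :=
  ⟨h.c1.contMDiffAt (ψ.open_source.mem_nhds hx),
    h.c2.contMDiffAt (ψ.open_target.mem_nhds (ψ.map_source hx))⟩

theorem ConfChart.trans_atlas2 {V : Type*} [NormedAddCommGroup V] [NormedSpace ℝ V] {e : S → V}
    {ψ ψ' : OpenPartialHomeomorph S ℂ} (h : ConfChart e ψ) (h' : ConfChart e ψ') {w : ℂ}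
    (hw : w ∈ ψ'.target) (hw' : ψ'.symm w ∈ ψ.source) : ContDiffAt ℝ 1 (ψ ∘ ψ'.symm) w :=
  contMDiffAt_iff_contDiffAt.1
    ((h.at_atlas2 hw').1.comp w (h'.c2.contMDiffAt (ψ'.open_target.mem_nhds hw)))

theorem ConfChart.di {n : ℕ} {e : S → EuclideanSpace ℝ (Fin n)}
    (he : ContMDiff (𝓡 2) (𝓡 n) ∞ e) {ψ ψ' : OpenPartialHomeomorph S ℂ} (h : ConfChart e ψ)
    (h' : ConfChart e ψ') {x : S} (hx : x ∈ ψ.source) (hx' : x ∈ ψ'.source) :
    Di (ψ ∘ ψ'.symm) (ψ' x) := by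
  have hO : ∀ᶠ w in 𝓝 (ψ' x), w ∈ (ψ'.symm.trans ψ).source :=
    (ψ'.symm.trans ψ).open_source.mem_nhds
      ⟨ψ'.map_source hx', by simpa [ψ'.left_inv hx'] using hx⟩
  refine di_of_conformal (h.trans_atlas2 h' (ψ'.map_source hx') (by rwa [ψ'.left_inv hx'])) ?_
  filter_upwards [hO.eventually_nhds] with w hw
  have h0 : w ∈ ψ'.target ∧ ψ'.symm w ∈ ψ.source := hw.self_of_nhds
  have hT := (h.trans_atlas2 h' h0.1 h0.2).differentiableAt one_ne_zero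
  have hE : DifferentiableAt ℝ (e ∘ ψ.symm) ((ψ ∘ ψ'.symm) w) :=
    (contMDiffAt_iff_contDiffAt.1 ((he.of_le (by norm_cast)).contMDiffAt.comp _
      (h.at_atlas2 h0.2).2)).differentiableAt one_ne_zero
  have heq : e ∘ ψ'.symm =ᶠ[𝓝 w] (e ∘ ψ.symm) ∘ (ψ ∘ ψ'.symm) := by
    filter_upwards [hw] with z hz
    have k : ψ'.symm z ∈ ψ.source := hz.2
    simp only [Function.comp_apply, ψ.left_inv k]
  obtain ⟨l, hl, hlv⟩ := h.conf _ (ψ.map_source h0.2)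
  obtain ⟨l', hl', hlv'⟩ := h'.conf _ h0.1
  refine ⟨l' / l, by positivity, fun v => ?_⟩
  have := hlv' v
  rw [heq.fderiv_eq, fderiv_comp w hE hT, ContinuousLinearMap.comp_apply, Function.comp_apply,
    hlv] at this
  field_simp
  linarith

theorem exists_di_atlas (S : Type*) [TopologicalSpace S]
    [ChartedSpace (EuclideanSpace ℝ (Fin 2)) S] [IsManifold (𝓡 2) ∞ S] [T2Space S]
    [CompactSpace S] : ∃ ψ : S → OpenPartialHomeomorph S ℂ, (∀ x, x ∈ (ψ x).source) ∧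
      (∀ x, ContMDiffAt 𝓘(ℝ, ℂ) (𝓡 2) 1 (ψ x).symm (ψ x x) ∧
        MDifferentiableAt (𝓡 2) 𝓘(ℝ, ℂ) (ψ x) x) ∧
      ∀ x y z, z ∈ (ψ x).source → z ∈ (ψ y).source → Di (ψ x ∘ (ψ y).symm) (ψ y z) := by
  obtain ⟨n, e, he, -, hi⟩ := exists_embedding_euclidean_of_compact (I := 𝓡 2) (M := S)
  choose ψ hψ hc using exists_confChart he hi
  exact ⟨ψ, hψ, fun x => ⟨((hc x).at_atlas2 (hψ x)).2,
    ((hc x).at_atlas2 (hψ x)).1.mdifferentiableAt one_ne_zero⟩,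
    fun x y z hx hy => (hc x).di he (hc y) hx hy⟩

end Pool.Agent.Lib.Unif
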