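import Pool.Agent.Lib.Unif.Defs

set_option autoImplicit false
set_option linter.unusedSectionVars false

open Set Filter Topology Metric
open scoped ComplexConjugate Manifold ContDiff

namespace Pool.Agent.Lib.Unif

open Complex in
private theorem deriv_ne_zero_bi1 {f : ℂ → ℂ} {c : ℂ} {U : Set ℂ} (hf : AnalyticAt ℂ f c)
    (hU : U ∈ 𝓝 c) (hi : InjOn f U) : deriv f c ≠ 0 := by
  have hc := mem_of_mem_nhds hU
  obtain ⟨m, g, ga, g0, hg⟩ := (AnalyticAt.exists_eventuallyEq_pow_smul_nonzero_iff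
    (f := fun z => f z - f c) (hf.sub analyticAt_const)).mpr fun h => by
      have : ∀ᶠ z in 𝓝[≠] c, False := by
        filter_upwards [nhdsWithin_le_nhds h, nhdsWithin_le_nhds hU, self_mem_nhdsWithin]
          with z a b d using d (hi b hc (sub_eq_zero.mp a))
      exact this.exists.elim fun _ => id
  intro hd
  match m with
  | 0 => exact g0 (by simpa using hg.self_of_nhds.symm)
  | 1 =>
    have a : HasDerivAt (fun z => (z - c) * g z) (1 * g c + (c - c) * deriv g c) c :=
      ((hasDerivAt_id c).sub_const c).mul ga.differentiableAt.hasDerivAt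
    have b := (a.congr_of_eventuallyEq (f₁ := fun z => f z - f c) (by
      filter_upwards [hg] with z hz using by simpa using hz)).deriv
    rw [deriv_sub_const, hd] at b
    exact g0 (by simpa using b.symm)
  | m + 2 =>
    set k : ℂ → ℂ := fun z => (g z / g c) ^ ((m + 2 : ℕ) : ℂ)⁻¹ with hk
    have ka : AnalyticAt ℂ k c :=
      (ga.div_const).cpow analyticAt_const (by rw [div_self g0]; exact one_mem_slitPlane)
    have a : HasStrictDerivAt (fun z => (z - c) * k z) (1 * k c + (c - c) * deriv k c) c := by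
      have := ((hasStrictDerivAt_id c).sub (hasStrictDerivAt_const c c)).mul ka.hasStrictDerivAt
      rw [sub_zero] at this
      exact this
    have b := a.map_nhds_eq (by simp [hk, div_self g0])
    have hW : (fun z => (z - c) * k z) '' (U ∩ {z | f z - f c = (z - c) ^ (m + 2) • g z}) ∈
        𝓝 (0 : ℂ) := by
      have := image_mem_map (m := fun z => (z - c) * k z) (inter_mem hU hg)
      rwa [b, sub_self, zero_mul] at this
    obtain ⟨ε, ε0, hε⟩ := Metric.mem_nhds_iff.mp hW
    have hp := Complex.isPrimitiveRoot_exp (m + 2) (by omega)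
    set ζ := exp (2 * Real.pi * I / (m + 2 : ℕ))
    have hn : ‖ζ‖ = 1 := hp.norm'_eq_one (by omega)
    have hε2 : ‖((ε / 2 : ℝ) : ℂ)‖ < ε := by
      rw [norm_real, Real.norm_eq_abs, abs_of_pos (by positivity)]; linarith
    obtain ⟨z, ⟨z1, z2⟩, z3⟩ := hε (mem_ball_zero_iff.mpr hε2)
    obtain ⟨w, ⟨w1, w2⟩, w3⟩ := hε (a := ζ * ((ε / 2 : ℝ) : ℂ))
      (mem_ball_zero_iff.mpr (by rwa [norm_mul, hn, one_mul]))
    have key : ∀ z, (z - c) ^ (m + 2) • g z = ((z - c) * k z) ^ (m + 2) * g c := fun z => by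
      rw [mul_pow, hk, cpow_nat_inv_pow _ (by omega), smul_eq_mul, mul_assoc,
        div_mul_cancel₀ _ g0]
    dsimp only at z3 w3
    rw [mem_ofPred_eq, key] at z2 w2
    rw [w3, mul_pow, hp.pow_eq_one, one_mul, ← z3, ← z2] at w2
    rw [hi w1 z1 (sub_left_inj.mp w2), z3] at w3
    refine hp.ne_one (by omega) (mul_right_cancel₀ (b := ((ε / 2 : ℝ) : ℂ)) ?_ ?_)
    · exact_mod_cast (half_pos ε0).ne'
    · rw [← w3, one_mul]

private theorem line_bi1 {F : ℂ → ℂ} {z a : ℂ} (h : HasDerivAt F a z) (v : ℂ) :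
    HasDerivAt (fun t : ℝ => F (z + t * v)) (a * v) 0 := by
  have h1 : HasDerivAt (fun w : ℂ => z + w * v) v ((0 : ℝ) : ℂ) := by
    simpa using ((hasDerivAt_id ((0 : ℝ) : ℂ)).mul_const v).const_add z
  have h2 : HasDerivAt F a (z + ((0 : ℝ) : ℂ) * v) := by simpa using h
  exact (h2.comp ((0 : ℝ) : ℂ) h1).comp_ofReal

theorem deriv_ne_zero_of_locInj {F : ℂ → ℂ} {z : ℂ} (h : AnalyticAt ℂ F z) (hi : LocInj F z) :
    deriv F z ≠ 0 := by
  obtain ⟨U, hU, hi⟩ := hi
  exact deriv_ne_zero_bi1 h hU hi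

theorem not_anti_of_locInj {F : ℂ → ℂ} {z : ℂ} (hi : LocInj F z) (h : AnalyticAt ℂ F z) :
    ¬ AnalyticAt ℂ (fun w => conj (F w)) z := by
  intro h'
  have key : ∀ v : ℂ, conj (deriv F z * v) = deriv (fun w => conj (F w)) z * v := fun v =>
    (line_bi1 h.differentiableAt.hasDerivAt v).star.unique
      (line_bi1 h'.differentiableAt.hasDerivAt v)
  have k1 := key 1
  have k2 := key Complex.I
  rw [mul_one, mul_one] at k1
  rw [map_mul, Complex.conj_I, ← k1] at k2
  have k3 : conj (deriv F z) * Complex.I = 0 := by linear_combination (-1 / 2 : ℂ) * k2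
  rcases mul_eq_zero.1 k3 with k4 | k4
  · exact deriv_ne_zero_of_locInj h hi (by simpa using k4)
  · exact Complex.I_ne_zero k4

theorem analyticAt_conj_conj {F : ℂ → ℂ} {z : ℂ} (h : AnalyticAt ℂ F z) :
    AnalyticAt ℂ (fun w => conj (F (conj w))) (conj z) := by
  rw [Complex.analyticAt_iff_eventually_differentiableAt] at h ⊢
  have ht : Tendsto (fun w : ℂ => conj w) (𝓝 (conj z)) (𝓝 z) :=
    Complex.continuous_conj.tendsto' _ _ (Complex.conj_conj z)
  filter_upwards [ht.eventually h] with w hw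
  exact differentiableAt_conj_conj_iff.2 hw

end Pool.Agent.Lib.Unif
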