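import Pool.Agent.Lib.Unif.Hol2
import Pool.Agent.Lib.Unif.BI1

set_option autoImplicit false
set_option linter.unusedSectionVars false

open Set Filter Topology Metric
open scoped ComplexConjugate Manifold ContDiff

namespace Pool.Agent.Lib.Unif

variable {W : Type*} [TopologicalSpace W] [ChartedSpace ℂ W] [RS W]
  {p q x p₀ p₁ p₂ : W} {f f' e φ : W → ℂ} {u v w s g g' : W → ℝ} {r t R T M C : ℝ} {Ω U K D : Set W}

theorem locInj_chart_bi2 (hi : LocInj f p) :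
    LocInj (f ∘ (chartAt ℂ p).symm) (chartAt ℂ p p) := by
  obtain ⟨U, hU, hinj⟩ := hi
  have hp := mem_chart_source ℂ p
  have ht : Tendsto (chartAt ℂ p).symm (𝓝 (chartAt ℂ p p)) (𝓝 p) := (chartAt ℂ p).tendsto_symm hp
  refine ⟨(chartAt ℂ p).target ∩ (chartAt ℂ p).symm ⁻¹' U,
    inter_mem (chart_target_mem_nhds ℂ p) (ht hU), ?_⟩
  intro a ha b hb hab
  exact (chartAt ℂ p).symm.injOn ha.1 hb.1 (hinj ha.2 hb.2 hab)

theorem deriv_ne_bi2 (h : Hol f p) (hi : LocInj f p) :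
    deriv (f ∘ (chartAt ℂ p).symm) (chartAt ℂ p p) ≠ 0 :=
  deriv_ne_zero_of_locInj h (locInj_chart_bi2 hi)

theorem eventuallyEq_chart_bi2 (f : W → ℂ) (p : W) :
    f =ᶠ[𝓝 p] (f ∘ (chartAt ℂ p).symm) ∘ chartAt ℂ p := by
  filter_upwards [(chartAt ℂ p).eventually_left_inverse (mem_chart_source ℂ p)] with x hx
  simp only [Function.comp_apply, hx]

theorem deriv_factor_bi2 (he : Hol e p) (hf : ∀ᶠ x in 𝓝 p, f x = e x * lc p x) :
    Hol f p ∧ deriv (f ∘ (chartAt ℂ p).symm) (chartAt ℂ p p) = e p := by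
  have hp := mem_chart_source ℂ p
  have ht : Tendsto (chartAt ℂ p).symm (𝓝 (chartAt ℂ p p)) (𝓝 p) := (chartAt ℂ p).tendsto_symm hp
  have h1 : (f ∘ (chartAt ℂ p).symm) =ᶠ[𝓝 (chartAt ℂ p p)]
      fun z => (e ∘ (chartAt ℂ p).symm) z * (z - chartAt ℂ p p) := by
    filter_upwards [ht.eventually hf, (chartAt ℂ p).eventually_right_inverse' hp] with z hz hz'
    simp only [Function.comp_apply, hz, lc, hz']
  have he' : AnalyticAt ℂ (e ∘ (chartAt ℂ p).symm) (chartAt ℂ p p) := he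
  have h2 : AnalyticAt ℂ (fun z : ℂ => z - chartAt ℂ p p) (chartAt ℂ p p) := by fun_prop
  refine ⟨(he'.mul h2).congr h1.symm, ?_⟩
  rw [h1.deriv_eq]
  have h3 : HasDerivAt (fun z : ℂ => z - chartAt ℂ p p) 1 (chartAt ℂ p p) :=
    (hasDerivAt_id' _).sub_const _
  have h4 := (he'.differentiableAt.hasDerivAt.fun_mul h3).deriv
  rw [h4]
  simp only [Function.comp_apply, sub_self, mul_zero, mul_one, zero_add,
    (chartAt ℂ p).left_inv hp]

theorem Hol.simple_factor (h : Hol f p) (h0 : f p = 0) (hi : LocInj f p) :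
    ∃ e, Hol e p ∧ e p ≠ 0 ∧ ∀ᶠ x in 𝓝 p, f x = e x * lc p x := by
  obtain ⟨e, he, hf⟩ := h.exists_factor h0
  refine ⟨e, he, ?_, hf⟩
  rw [← (deriv_factor_bi2 he hf).2]
  exact deriv_ne_bi2 h hi

theorem Hol.locInj_of_factor (he : Hol e p) (h0 : e p ≠ 0)
    (hf : ∀ᶠ x in 𝓝 p, f x = e x * lc p x) : LocInj f p := by
  obtain ⟨h1, h2⟩ := deriv_factor_bi2 he hf
  have hp := mem_chart_source ℂ p
  have h1' : AnalyticAt ℂ (f ∘ (chartAt ℂ p).symm) (chartAt ℂ p p) := h1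
  have hd : deriv (f ∘ (chartAt ℂ p).symm) (chartAt ℂ p p) ≠ 0 := by rw [h2]; exact h0
  have h3 := h1'.hasStrictDerivAt.eventually_left_inverse hd
  have hc : Tendsto (chartAt ℂ p) (𝓝 p) (𝓝 (chartAt ℂ p p)) := (chartAt ℂ p).continuousAt hp
  have h4 := (hc.eventually h3).and (chart_source_mem_nhds ℂ p)
  refine ⟨_, h4, ?_⟩
  intro a ha b hb hab
  have ha1 := ha.1
  have hb1 := hb.1
  simp only [Function.comp_apply, (chartAt ℂ p).left_inv ha.2] at ha1
  simp only [Function.comp_apply, (chartAt ℂ p).left_inv hb.2] at hb1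
  refine (chartAt ℂ p).injOn ha.2 hb.2 ?_
  rw [← ha1, ← hb1, hab]

theorem Hol.map_nhds (h : Hol f p) (hi : LocInj f p) : map f (𝓝 p) = 𝓝 (f p) := by
  have hp := mem_chart_source ℂ p
  have h' : AnalyticAt ℂ (f ∘ (chartAt ℂ p).symm) (chartAt ℂ p p) := h
  have h1 := h'.hasStrictDerivAt.map_nhds_eq (deriv_ne_bi2 h hi)
  rw [map_congr (eventuallyEq_chart_bi2 f p), ← map_map, (chartAt ℂ p).map_nhds_eq hp, h1]
  simp only [Function.comp_apply, (chartAt ℂ p).left_inv hp]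

theorem Hol.continuousAt_inv (h : Hol f p) (hi : LocInj f p) {G : ℂ → W}
    (hG : ∀ᶠ x in 𝓝 p, G (f x) = x) : ContinuousAt G (f p) := by
  have h0 : G (f p) = p := hG.self_of_nhds
  unfold ContinuousAt
  rw [h0, ← h.map_nhds hi, tendsto_map'_iff]
  exact tendsto_id.congr' (hG.mono fun x hx => hx.symm)

theorem Hol.analyticAt_inv (h : Hol f p) (hi : LocInj f p) {G : ℂ → W}
    (hG : ∀ᶠ x in 𝓝 p, G (f x) = x) (h' : Hol f' p) : AnalyticAt ℂ (f' ∘ G) (f p) := by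
  have hp := mem_chart_source ℂ p
  have h1 : AnalyticAt ℂ (f ∘ (chartAt ℂ p).symm) (chartAt ℂ p p) := h
  have h2 : AnalyticAt ℂ (f' ∘ (chartAt ℂ p).symm) (chartAt ℂ p p) := h'
  have ht : Tendsto (chartAt ℂ p).symm (𝓝 (chartAt ℂ p p)) (𝓝 p) := (chartAt ℂ p).tendsto_symm hp
  have h3 := analyticAt_comp_iff_of_deriv_ne_zero (g := f' ∘ G) h1 (deriv_ne_bi2 h hi)
  have h4 : (f ∘ (chartAt ℂ p).symm) (chartAt ℂ p p) = f p := by
    simp only [Function.comp_apply, (chartAt ℂ p).left_inv hp]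
  rw [h4] at h3
  refine h3.1 (h2.congr ?_)
  filter_upwards [ht.eventually hG] with z hz
  simp only [Function.comp_apply, hz]

theorem isOpenEmbedding_of_hol (h : ∀ x, Hol f x) (hi : Function.Injective f) :
    IsOpenEmbedding f := by
  rw [isOpenEmbedding_iff_continuous_injective_isOpenMap]
  refine ⟨continuous_iff_continuousAt.2 fun x => (h x).continuousAt, hi, ?_⟩
  rw [isOpenMap_iff_nhds_le]
  intro x
  exact ((h x).map_nhds ⟨univ, univ_mem, hi.injOn⟩).ge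

end Pool.Agent.Lib.Unif
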