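import Pool.Agent.Lib.Unif.Defs

set_option autoImplicit false
set_option linter.unusedSectionVars false

open Set Filter Topology Metric
open scoped ComplexConjugate Manifold ContDiff

namespace Pool.Agent.Lib.Unif

section

open MeasureTheory
open scoped ENNReal

/-- The multiplication map of the Neumann series. -/
noncomputable def mul_neu (p : (ℂ × ℂ) × (ℂ × ℂ)) : ℂ × ℂ :=
  (p.1.1 * (p.2.1 * (conj p.2.2 / p.2.2)), p.1.2 + p.2.2)

theorem meas_conj_neu : Measurable (fun z : ℂ => conj z / z) :=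
  Complex.continuous_conj.measurable.div measurable_id

theorem meas_mul_neu : Measurable mul_neu := by
  unfold mul_neu
  refine Measurable.prodMk ?_ ?_
  · refine measurable_fst.fst.mul (measurable_snd.fst.mul ?_)
    exact meas_conj_neu.comp measurable_snd.snd
  · exact measurable_fst.snd.add measurable_snd.snd

/-- The terms of the Neumann series. -/
noncomputable def term_neu (ν₀ : Measure (ℂ × ℂ)) : ℕ → Measure (ℂ × ℂ)
  | 0 => ν₀
  | n + 1 => (ν₀.prod (term_neu ν₀ n)).map mul_neu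

theorem sfinite_term_neu (ν₀ : Measure (ℂ × ℂ)) [SFinite ν₀] (n : ℕ) :
    SFinite (term_neu ν₀ n) := by
  induction n with
  | zero => exact (inferInstance : SFinite ν₀)
  | succ n ih => exact (inferInstance : SFinite ((ν₀.prod (term_neu ν₀ n)).map mul_neu))

theorem norm_conj_div_neu (z : ℂ) : ‖conj z / z‖ ≤ 1 := by
  rw [norm_div, Complex.norm_conj]
  exact div_self_le_one _

theorem meas_en_neu : Measurable (fun y : ℂ × ℂ => ‖y.1‖ₑ) := measurable_fst.enorm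

theorem lint_map_neu (ν₀ ν : Measure (ℂ × ℂ)) [SFinite ν] :
    ∫⁻ y, ‖y.1‖ₑ ∂((ν₀.prod ν).map mul_neu) ≤ (∫⁻ y, ‖y.1‖ₑ ∂ν₀) * ∫⁻ y, ‖y.1‖ₑ ∂ν := by
  rw [lintegral_map meas_en_neu meas_mul_neu,
    ← lintegral_prod_mul meas_en_neu.aemeasurable meas_en_neu.aemeasurable]
  refine lintegral_mono fun p => ?_
  simp only [mul_neu, enorm_mul]
  refine mul_le_mul_right ?_ _
  have h1 : ‖conj p.2.2 / p.2.2‖ₑ ≤ 1 := by
    rw [← ofReal_norm]
    exact ENNReal.ofReal_le_one.2 (norm_conj_div_neu _)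
  calc ‖p.2.1‖ₑ * ‖conj p.2.2 / p.2.2‖ₑ ≤ ‖p.2.1‖ₑ * 1 := mul_le_mul_right h1 _
    _ = ‖p.2.1‖ₑ := mul_one _

theorem lint_term_neu (ν₀ : Measure (ℂ × ℂ)) [SFinite ν₀] (a : ℝ≥0∞)
    (ha : ∫⁻ y, ‖y.1‖ₑ ∂ν₀ ≤ a) (n : ℕ) : ∫⁻ y, ‖y.1‖ₑ ∂(term_neu ν₀ n) ≤ a * a ^ n := by
  induction n with
  | zero => simpa [term_neu] using ha
  | succ n ih =>
    have := sfinite_term_neu ν₀ n
    calc ∫⁻ y, ‖y.1‖ₑ ∂(term_neu ν₀ (n + 1))
        ≤ (∫⁻ y, ‖y.1‖ₑ ∂ν₀) * ∫⁻ y, ‖y.1‖ₑ ∂(term_neu ν₀ n) := lint_map_neu ν₀ _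
      _ ≤ a * (a * a ^ n) := mul_le_mul' ha ih
      _ = a * a ^ (n + 1) := by rw [pow_succ']

theorem sum_term_neu (ν₀ : Measure (ℂ × ℂ)) [SFinite ν₀] :
    Measure.sum (term_neu ν₀) =
      ν₀ + (ν₀.prod (Measure.sum (term_neu ν₀))).map mul_neu := by
  have := sfinite_term_neu ν₀
  rw [Measure.prod_sum_right, Measure.map_sum meas_mul_neu.aemeasurable]
  ext s hs
  rw [Measure.add_apply, Measure.sum_apply _ hs, Measure.sum_apply _ hs,
    tsum_eq_zero_add' ENNReal.summable]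
  rfl

theorem ex_add_neu (ξ η z : ℂ) : ex (ξ + η) z = ex ξ z * ex η z := by
  unfold ex
  rw [← Complex.exp_add]
  congr 1
  simp only [Complex.add_re, Complex.add_im]
  push_cast
  ring

theorem norm_ex_neu (ξ z : ℂ) : ‖ex ξ z‖ = 1 := by
  unfold ex
  have : (2 * Real.pi * Complex.I * ((ξ.re * z.re + ξ.im * z.im : ℝ) : ℂ)) =
      ((2 * Real.pi * (ξ.re * z.re + ξ.im * z.im) : ℝ) : ℂ) * Complex.I := by
    push_cast
    ring
  rw [this, Complex.norm_exp_ofReal_mul_I]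

theorem cont_ex_neu (z : ℂ) : Continuous (fun ξ => ex ξ z) := by
  unfold ex
  fun_prop

theorem meas_g_neu (z : ℂ) : Measurable (fun y : ℂ × ℂ => y.1 * ex y.2 z) :=
  measurable_fst.mul ((cont_ex_neu z).measurable.comp measurable_snd)

theorem integ_g_neu (ν : Measure (ℂ × ℂ)) (h : Integrable Prod.fst ν) (z : ℂ) :
    Integrable (fun y : ℂ × ℂ => y.1 * ex y.2 z) ν := by
  refine h.mono (meas_g_neu z).aestronglyMeasurable (Eventually.of_forall fun y => ?_)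
  rw [norm_mul, norm_ex_neu, mul_one]

theorem integ_fst_neu (ν : Measure (ℂ × ℂ)) (h : ∫⁻ y, ‖y.1‖ₑ ∂ν < ⊤) :
    Integrable Prod.fst ν :=
  ⟨measurable_fst.aestronglyMeasurable, hasFiniteIntegral_iff_enorm.2 h⟩

theorem geo_neu : ∑' n : ℕ, ENNReal.ofReal (1 / 3) * ENNReal.ofReal (1 / 3) ^ n =
    ENNReal.ofReal (1 / 2) := by
  have h1 : ∀ n : ℕ, ENNReal.ofReal (1 / 3) * ENNReal.ofReal (1 / 3) ^ n =
      ENNReal.ofReal (1 / 3 * (1 / 3) ^ n) := fun n => by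
    rw [ENNReal.ofReal_mul (by norm_num), ENNReal.ofReal_pow (by norm_num)]
  simp only [h1]
  have h2 : HasSum (fun n : ℕ => (1 / 3 : ℝ) * (1 / 3) ^ n) (1 / 3 * (1 - 1 / 3)⁻¹) :=
    (hasSum_geometric_of_lt_one (by norm_num) (by norm_num)).mul_left _
  rw [← ENNReal.ofReal_tsum_of_nonneg (fun n => by positivity) h2.summable, h2.tsum_eq]
  norm_num

end

open MeasureTheory in
theorem exists_neumann (ν₀ : Measure (ℂ × ℂ)) [SFinite ν₀] (h : Integrable Prod.fst ν₀)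
    (hs : ∫ y, ‖y.1‖ ∂ν₀ ≤ 1 / 3) : ∃ ν : Measure (ℂ × ℂ), Integrable Prod.fst ν ∧
      ∫ y, ‖y.1‖ ∂ν ≤ 1 / 2 ∧ ∀ z, ∫ y, y.1 * ex y.2 z ∂ν =
        (∫ y, y.1 * ex y.2 z ∂ν₀) * (1 + ∫ y, y.1 * (conj y.2 / y.2) * ex y.2 z ∂ν) := by
  have := sfinite_term_neu ν₀
  have h0 : ∫⁻ y, ‖y.1‖ₑ ∂ν₀ ≤ ENNReal.ofReal (1 / 3) := by
    rw [← ofReal_integral_norm_eq_lintegral_enorm h]
    exact ENNReal.ofReal_le_ofReal hs
  have h1 : ∫⁻ y, ‖y.1‖ₑ ∂(Measure.sum (term_neu ν₀)) ≤ ENNReal.ofReal (1 / 2) := by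
    rw [lintegral_sum_measure, ← geo_neu]
    exact ENNReal.tsum_le_tsum (lint_term_neu ν₀ _ h0)
  have h2 : Integrable Prod.fst (Measure.sum (term_neu ν₀)) :=
    integ_fst_neu _ (h1.trans_lt ENNReal.ofReal_lt_top)
  refine ⟨Measure.sum (term_neu ν₀), h2, ?_, fun z => ?_⟩
  · rw [← ofReal_integral_norm_eq_lintegral_enorm h2] at h1
    exact (ENNReal.ofReal_le_ofReal_iff (by norm_num)).1 h1
  · have h3 : Integrable Prod.fst ((ν₀.prod (Measure.sum (term_neu ν₀))).map mul_neu) := by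
      refine integ_fst_neu _ ((lint_map_neu ν₀ _).trans_lt ?_)
      exact ENNReal.mul_lt_top (h0.trans_lt ENNReal.ofReal_lt_top)
        (h1.trans_lt ENNReal.ofReal_lt_top)
    have h4 : ∫ y, y.1 * ex y.2 z ∂((ν₀.prod (Measure.sum (term_neu ν₀))).map mul_neu) =
        (∫ y, y.1 * ex y.2 z ∂ν₀) *
          ∫ y, y.1 * (conj y.2 / y.2) * ex y.2 z ∂(Measure.sum (term_neu ν₀)) := by
      rw [integral_map meas_mul_neu.aemeasurable (meas_g_neu z).aestronglyMeasurable,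
        ← integral_prod_mul]
      refine integral_congr_ae (Eventually.of_forall fun p => ?_)
      simp only [mul_neu, ex_add_neu]
      ring
    conv_lhs => rw [sum_term_neu ν₀]
    rw [integral_add_measure (integ_g_neu _ h z) (integ_g_neu _ h3 z), h4]
    ring

end Pool.Agent.Lib.Unif
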