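import Pool.Agent.Lib.Unif.Defs

set_option autoImplicit false
set_option linter.unusedSectionVars false

open Set Filter Topology Metric
open scoped ComplexConjugate Manifold ContDiff

namespace Pool.Agent.Lib.Unif

theorem tsupport_sub_wien1 {f : ℂ → ℂ} (h0 : ∀ z, 2 ≤ ‖z‖ → f z = 0) :
    tsupport f ⊆ closedBall (0 : ℂ) 2 := by
  refine closure_minimal (fun z hz => ?_) isClosed_closedBall
  rw [mem_closedBall_zero_iff]
  by_contra h
  exact hz (h0 z (not_le.1 h).le)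

open MeasureTheory in
theorem int_deriv_wien1 {f : ℂ → ℂ} {δ : ℝ} (hf : ContDiff ℝ 3 f)
    (h0 : ∀ z, 2 ≤ ‖z‖ → f z = 0) (hδ : ∀ j ≤ 3, ∀ z, ‖iteratedFDeriv ℝ j f z‖ ≤ δ)
    (j : ℕ) (hj : j ≤ 3) :
    Integrable (fun v => ‖iteratedFDeriv ℝ j f v‖) ∧
      ∫ v, ‖iteratedFDeriv ℝ j f v‖ ≤ (volume : Measure ℂ).real (closedBall 0 2) * δ := by
  have hs := tsupport_sub_wien1 h0
  have hc : HasCompactSupport f := (isCompact_closedBall (0 : ℂ) 2).of_isClosed_subset
    (isClosed_tsupport f) hs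
  have hcont : Continuous (iteratedFDeriv ℝ j f) :=
    hf.continuous_iteratedFDeriv (by exact_mod_cast hj)
  have hi : Integrable (iteratedFDeriv ℝ j f) :=
    hcont.integrable_of_hasCompactSupport (hc.iteratedFDeriv j)
  refine ⟨hi.norm, ?_⟩
  have hb : ∀ v, ‖iteratedFDeriv ℝ j f v‖ ≤ (closedBall (0 : ℂ) 2).indicator (fun _ => δ) v := by
    intro v
    by_cases hv : v ∈ closedBall (0 : ℂ) 2
    · rw [indicator_of_mem hv]; exact hδ j hj v
    · rw [indicator_of_notMem hv]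
      have : iteratedFDeriv ℝ j f v = 0 := by
        by_contra h
        exact hv (hs (support_iteratedFDeriv_subset j h))
      rw [this, norm_zero]
  have hI : Integrable ((closedBall (0 : ℂ) 2).indicator (fun _ => δ)) :=
    (integrable_indicator_iff measurableSet_closedBall).2
      (integrableOn_const (measure_closedBall_lt_top.ne))
  refine (integral_mono hi.norm hI hb).trans (le_of_eq ?_)
  rw [integral_indicator_const _ measurableSet_closedBall, smul_eq_mul]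

open MeasureTheory FourierTransform in
theorem decay_wien1 {f : ℂ → ℂ} {δ : ℝ} (hf : ContDiff ℝ 3 f)
    (h0 : ∀ z, 2 ≤ ‖z‖ → f z = 0) (hδ : ∀ j ≤ 3, ∀ z, ‖iteratedFDeriv ℝ j f z‖ ≤ δ) (ξ : ℂ) :
    ‖𝓕 f ξ‖ ≤ 132 * ((volume : Measure ℂ).real (closedBall 0 2) * δ) *
      (1 + ‖ξ‖) ^ (-(3 : ℝ)) := by
  set V := (volume : Measure ℂ).real (closedBall 0 2) * δ with hV
  have hI := int_deriv_wien1 hf h0 hδ
  have h'f : ∀ (k n : ℕ), (k : ℕ∞) ≤ (0 : ℕ∞) → (n : ℕ∞) ≤ (3 : ℕ∞) →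
      Integrable (fun v : ℂ => ‖v‖ ^ k * ‖iteratedFDeriv ℝ n f v‖) := by
    intro k n hk hn
    have hk0 : k = 0 := by simpa using hk
    have hn3 : n ≤ 3 := by exact_mod_cast hn
    subst hk0
    simpa using (hI n hn3).1
  have hf' : ContDiff ℝ ((3 : ℕ∞) : WithTop ℕ∞) f := hf
  have a0 := Real.pow_mul_norm_iteratedFDeriv_fourier_le (K := 0) (N := 3) hf' h'f
    (k := 0) (n := 0) (by simp) (by simp) ξ
  have a3 := Real.pow_mul_norm_iteratedFDeriv_fourier_le (K := 0) (N := 3) hf' h'f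
    (k := 0) (n := 3) (by simp) (by simp) ξ
  simp only [pow_zero, one_mul, norm_iteratedFDeriv_zero, Finset.sum_product, zero_add,
    Finset.sum_range_succ, Finset.range_one, Finset.sum_singleton, Nat.cast_zero, mul_zero] at a0 a3
  have b0 := (hI 0 (by norm_num)).2
  have b1 := (hI 1 (by norm_num)).2
  have b2 := (hI 2 (by norm_num)).2
  have b3 := (hI 3 (by norm_num)).2
  simp only [norm_iteratedFDeriv_zero] at b0
  have c0 : ‖𝓕 f ξ‖ ≤ V := by linarith
  have c3 : ‖ξ‖ ^ 3 * ‖𝓕 f ξ‖ ≤ 32 * V := by linarith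
  have hp : 0 < 1 + ‖ξ‖ := by positivity
  rw [Real.rpow_neg hp.le, ← div_eq_mul_inv, le_div_iff₀ (by positivity)]
  have e : (1 + ‖ξ‖) ^ (3 : ℝ) = (1 + ‖ξ‖) ^ 3 := by
    rw [← Real.rpow_natCast]; norm_num
  rw [e]
  have hs := norm_nonneg ξ
  have hw := norm_nonneg (𝓕 f ξ)
  have d : (1 + ‖ξ‖) ^ 3 ≤ 4 * (1 + ‖ξ‖ ^ 3) := by
    nlinarith [mul_nonneg hp.le (sq_nonneg (‖ξ‖ - 1))]
  have := mul_le_mul_of_nonneg_left d hw
  nlinarith

open MeasureTheory FourierTransform in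
theorem exists_fourier_bound : ∃ A : ℝ, 0 < A ∧ ∀ (f : ℂ → ℂ) (δ : ℝ), ContDiff ℝ 3 f →
    (∀ z, 2 ≤ ‖z‖ → f z = 0) → (∀ j ≤ 3, ∀ z, ‖iteratedFDeriv ℝ j f z‖ ≤ δ) →
      Continuous (𝓕 f) ∧ Integrable (𝓕 f) ∧ ∫ ξ, ‖𝓕 f ξ‖ ≤ A * δ ∧
        ∀ z, f z = ∫ ξ, 𝓕 f ξ * ex ξ z := by
  have hJ : Integrable (fun ξ : ℂ => (1 + ‖ξ‖) ^ (-(3 : ℝ))) :=
    integrable_one_add_norm (by rw [Complex.finrank_real_complex]; norm_num)
  set V := (volume : Measure ℂ).real (closedBall 0 2) with hV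
  set J := ∫ ξ : ℂ, (1 + ‖ξ‖) ^ (-(3 : ℝ)) with hJd
  have hV0 : 0 ≤ V := measureReal_nonneg
  have hJ0 : 0 ≤ J := integral_nonneg fun ξ => by positivity
  refine ⟨132 * V * J + 1, by positivity, fun f δ hf h0 hδ => ?_⟩
  have hδ0 : 0 ≤ δ := (norm_nonneg _).trans (hδ 0 (by norm_num) 0)
  have hc : HasCompactSupport f := (isCompact_closedBall (0 : ℂ) 2).of_isClosed_subset
    (isClosed_tsupport f) (tsupport_sub_wien1 h0)
  have hi : Integrable f := hf.continuous.integrable_of_hasCompactSupport hc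
  have hcF : Continuous (𝓕 f) :=
    VectorFourier.fourierIntegral_continuous Real.continuous_fourierChar
      (innerSL ℝ).continuous₂ hi
  have hb := decay_wien1 hf h0 hδ
  have hiF : Integrable (𝓕 f) :=
    (hJ.const_mul (132 * (V * δ))).mono' hcF.aestronglyMeasurable (Eventually.of_forall hb)
  refine ⟨hcF, hiF, ?_, fun z => ?_⟩
  · refine (integral_mono hiF.norm (hJ.const_mul (132 * (V * δ))) hb).trans ?_
    rw [integral_const_mul]
    nlinarith
  · have h1 := congrFun (hf.continuous.fourierInv_fourier_eq hi hiF) z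
    rw [← h1, Real.fourierInv_eq']
    refine integral_congr_ae (Eventually.of_forall fun ξ => ?_)
    simp only [smul_eq_mul, ex, Complex.inner]
    rw [mul_comm]
    congr 2
    have : (z * conj ξ).re = ξ.re * z.re + ξ.im * z.im := by
      simp only [Complex.mul_re, Complex.conj_re, Complex.conj_im]; ring
    rw [this]
    push_cast
    ring

end Pool.Agent.Lib.Unif
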