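import Pool.Agent.Lib.Unif.Defs

set_option autoImplicit false
set_option linter.unusedSectionVars false

open Set Filter Topology Metric
open scoped ComplexConjugate Manifold ContDiff

namespace Pool.Agent.Lib.Unif

theorem global_wien2 {μ : ℂ → ℂ} (hμ : ContDiffAt ℝ 3 μ 0) :
    ∃ g : ℂ → ℂ, ContDiff ℝ 3 g ∧ HasCompactSupport g ∧
      ∃ r : ℝ, 0 < r ∧ ∀ z, ‖z‖ < r → g z = μ z := by
  have h1 : ∀ᶠ y in 𝓝 (0 : ℂ), ContDiffAt ℝ 3 μ y := hμ.eventually (by decide)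
  obtain ⟨R, hR, hb⟩ := Metric.nhds_basis_closedBall.eventually_iff.1 h1
  let b : ContDiffBump (0 : ℂ) := ⟨R / 2, R, half_pos hR, half_lt_self hR⟩
  refine ⟨fun z => b z • μ z, ?_, b.hasCompactSupport.smul_right, R / 2, half_pos hR, ?_⟩
  · rw [contDiff_iff_contDiffAt]
    intro x
    by_cases hx : x ∈ closedBall (0 : ℂ) R
    · exact (b.contDiffAt (n := 3)).smul (hb hx)
    · have h2 : ∀ᶠ y in 𝓝 x, y ∉ closedBall (0 : ℂ) R :=
        isClosed_closedBall.isOpen_compl.mem_nhds hx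
      refine (contDiffAt_const (c := (0 : ℂ))).congr_of_eventuallyEq ?_
      filter_upwards [h2] with y hy
      have h3 : b y = 0 := b.zero_of_le_dist (not_le.1 hy).le
      simp only [h3, zero_smul]
  · intro z hz
    have h3 : b z = 1 := b.one_of_mem_closedBall (by simpa using hz.le)
    simp only [h3, one_smul]

theorem bound_wien2 {E : Type*} [NormedAddCommGroup E] [NormedSpace ℝ E] {g : ℂ → E}
    (hg : ContDiff ℝ 3 g) (hc : HasCompactSupport g) :
    ∃ B : ℝ, 0 < B ∧ ∀ i ≤ 3, ∀ z, ‖iteratedFDeriv ℝ i g z‖ ≤ B := by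
  have h : ∀ i : ℕ, ∃ B : ℝ, i ≤ 3 → ∀ z, ‖iteratedFDeriv ℝ i g z‖ ≤ B := by
    intro i
    by_cases hi : i ≤ 3
    · obtain ⟨B, hB⟩ := (hc.iteratedFDeriv (𝕜 := ℝ) i).exists_bound_of_continuous
        (hg.continuous_iteratedFDeriv (by exact_mod_cast hi))
      exact ⟨B, fun _ => hB⟩
    · exact ⟨0, fun h => absurd h hi⟩
  choose B hB using h
  refine ⟨1 + ∑ i ∈ Finset.range 4, |B i|, by positivity, fun i hi z => ?_⟩
  have h1 : |B i| ≤ ∑ i ∈ Finset.range 4, |B i| :=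
    Finset.single_le_sum (f := fun i => |B i|) (fun _ _ => abs_nonneg _)
      (Finset.mem_range.2 (by omega))
  have h2 := hB i hi z
  have h3 := le_abs_self (B i)
  linarith

theorem scale_wien2 {g : ℂ → ℂ} (hg : ContDiff ℝ 3 g) (hc : HasCompactSupport g) (h0 : g 0 = 0)
    {η r : ℝ} (hη : 0 < η) (hr : 0 < r) : ∃ ε : ℝ, 0 < ε ∧ ε ≤ r ∧ ∀ l ≤ 3, ∀ z : ℂ, ‖z‖ ≤ 2 →
      ‖iteratedFDeriv ℝ l (fun z => g (ε • z)) z‖ ≤ η := by
  obtain ⟨B, hB, hb⟩ := bound_wien2 hg hc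
  obtain ⟨ρ, hρ, h1⟩ := Metric.continuousAt_iff.1 (hg.continuous.continuousAt (x := 0)) η hη
  refine ⟨min (min r 1) (min (η / B) (ρ / 3)), by positivity,
    (min_le_left _ _).trans (min_le_left _ _), ?_⟩
  set ε := min (min r 1) (min (η / B) (ρ / 3)) with hε
  have e0 : 0 < ε := by positivity
  have e1 : ε ≤ 1 := (min_le_left _ _).trans (min_le_right _ _)
  have e2 : ε ≤ η / B := (min_le_right _ _).trans (min_le_left _ _)
  have e3 : ε ≤ ρ / 3 := (min_le_right _ _).trans (min_le_right _ _)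
  intro l hl z hz
  rcases Nat.eq_zero_or_pos l with rfl | hl0
  · rw [norm_iteratedFDeriv_zero]
    have h2 : dist (ε • z) 0 < ρ := by
      rw [dist_zero_right, norm_smul, Real.norm_eq_abs, abs_of_pos e0]
      nlinarith
    have h3 := h1 h2
    rw [h0, dist_zero_right] at h3
    exact h3.le
  · rw [iteratedFDeriv_comp_const_smul ε (hg.of_le (by exact_mod_cast hl))]
    simp only []
    rw [norm_smul, norm_pow, Real.norm_eq_abs, abs_of_pos e0]
    have h2 : ε ^ l ≤ ε := pow_le_of_le_one e0.le e1 hl0.ne'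
    calc ε ^ l * ‖iteratedFDeriv ℝ l g (ε • z)‖ ≤ (η / B) * B :=
          mul_le_mul (h2.trans e2) (hb l hl _) (norm_nonneg _) (by positivity)
      _ = η := by field_simp

theorem exists_small_cutoff {μ : ℂ → ℂ} (hμ : ContDiffAt ℝ 3 μ 0) (h0 : μ 0 = 0) {δ : ℝ}
    (hδ : 0 < δ) : ∃ ε : ℝ, 0 < ε ∧ ∃ f : ℂ → ℂ, ContDiff ℝ 3 f ∧ (∀ z, 2 ≤ ‖z‖ → f z = 0) ∧
      (∀ j ≤ 3, ∀ z, ‖iteratedFDeriv ℝ j f z‖ ≤ δ) ∧ ∀ z, ‖z‖ < 1 → f z = μ (ε * z) := by
  obtain ⟨g, hg, hc, r, hr, hgr⟩ := global_wien2 hμ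
  have hg0 : g 0 = 0 := by rw [hgr 0 (by simpa using hr), h0]
  let χ : ContDiffBump (0 : ℂ) := ⟨1, 2, one_pos, one_lt_two⟩
  have hχ : ContDiff ℝ 3 (χ : ℂ → ℝ) := χ.contDiff (n := 3)
  obtain ⟨B, hB, hb⟩ := bound_wien2 hχ χ.hasCompactSupport
  obtain ⟨ε, e0, er, he⟩ := scale_wien2 hg hc hg0 (η := δ / (8 * B)) (by positivity) hr
  have hgε : ContDiff ℝ 3 fun z : ℂ => g (ε • z) := hg.comp (contDiff_const_smul ε)
  have hz2 : ∀ z : ℂ, 2 ≤ ‖z‖ → χ z • g (ε • z) = 0 := by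
    intro z hz
    have h3 : χ z = 0 := χ.zero_of_le_dist (by simpa using hz)
    rw [h3, zero_smul]
  refine ⟨ε, e0, fun z => χ z • g (ε • z), hχ.smul hgε, hz2, ?_, ?_⟩
  · intro j hj z
    by_cases hz : ‖z‖ ≤ 2
    · refine (norm_iteratedFDeriv_smul_le hχ hgε z (by exact_mod_cast hj)).trans ?_
      calc ∑ i ∈ Finset.range (j + 1), (j.choose i : ℝ) * ‖iteratedFDeriv ℝ i (χ : ℂ → ℝ) z‖ *
            ‖iteratedFDeriv ℝ (j - i) (fun z : ℂ => g (ε • z)) z‖
          ≤ ∑ i ∈ Finset.range (j + 1), (j.choose i : ℝ) * (δ / 8) := by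
            refine Finset.sum_le_sum fun i hi => ?_
            have hi' : i ≤ 3 := by have := Finset.mem_range.1 hi; omega
            rw [mul_assoc]
            refine mul_le_mul_of_nonneg_left ?_ (Nat.cast_nonneg _)
            calc _ ≤ B * (δ / (8 * B)) :=
                  mul_le_mul (hb i hi' z) (he (j - i) (by omega) z hz) (norm_nonneg _) hB.le
              _ = δ / 8 := by field_simp
        _ = 2 ^ j * (δ / 8) := by
            rw [← Finset.sum_mul, ← Nat.cast_sum, Nat.sum_range_choose]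
            push_cast
            rfl
        _ ≤ 2 ^ 3 * (δ / 8) :=
            mul_le_mul_of_nonneg_right (pow_le_pow_right₀ one_le_two hj) (by positivity)
        _ = δ := by ring
    · have h1 : (fun z => χ z • g (ε • z)) =ᶠ[𝓝 z] fun _ => (0 : ℂ) := by
        have h2 : ∀ᶠ y in 𝓝 z, 2 < ‖y‖ :=
          (isOpen_lt continuous_const continuous_norm).mem_nhds (not_le.1 hz)
        filter_upwards [h2] with y hy using hz2 y hy.le
      rw [(h1.iteratedFDeriv ℝ j).eq_of_nhds, iteratedFDeriv_fun_zero]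
      simpa using hδ.le
  · intro z hz
    have h3 : χ z = 1 := χ.one_of_mem_closedBall (by simpa using hz.le)
    have h4 : ‖ε • z‖ < r := by
      rw [norm_smul, Real.norm_eq_abs, abs_of_pos e0]
      nlinarith [norm_nonneg z]
    simp only [h3, one_smul]
    rw [hgr _ h4, Complex.real_smul]

end Pool.Agent.Lib.Unif
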