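import Pool.Agent.Lib.Unif.Pot
import Pool.Agent.Lib.Unif.Neu
import Pool.Agent.Lib.Unif.Wien1
import Pool.Agent.Lib.Unif.Wien2

set_option autoImplicit false
set_option linter.unusedSectionVars false

open Set Filter Topology Metric
open scoped ComplexConjugate Manifold ContDiff

namespace Pool.Agent.Lib.Unif

theorem norm_ex_belt (ξ z : ℂ) : ‖ex ξ z‖ = 1 := by
  rw [ex, Complex.norm_exp]
  simp

theorem continuous_ex_belt (z : ℂ) : Continuous fun ξ => ex ξ z := by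
  unfold ex
  fun_prop

open MeasureTheory FourierTransform in
theorem exists_global_belt {f : ℂ → ℂ} (hc : Continuous (𝓕 f)) (hi : Integrable (𝓕 f))
    (hs : ∫ ξ, ‖𝓕 f ξ‖ ≤ 1 / 3) (hf : ∀ z, f z = ∫ ξ, 𝓕 f ξ * ex ξ z) :
    ∃ P a : ℂ → ℂ, ContDiff ℝ 1 P ∧ (∀ z, 1 + a z ≠ 0) ∧
      ∀ z v, fderiv ℝ P z v = a z * v + f z * (1 + a z) * conj v := by
  have hm : Measurable fun ξ : ℂ => (𝓕 f ξ, ξ) := (hc.prodMk continuous_id).measurable
  obtain ⟨ν, hν, hν2, hν3⟩ := exists_neumann (volume.map fun ξ : ℂ => (𝓕 f ξ, ξ))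
    ((integrable_map_measure measurable_fst.aestronglyMeasurable hm.aemeasurable).2 hi)
    (by rw [integral_map hm.aemeasurable continuous_fst.norm.aestronglyMeasurable]; exact hs)
  obtain ⟨P, hP, hP2⟩ := exists_potential ν hν
  refine ⟨P, fun z => ∫ y, y.1 * (conj y.2 / y.2) * ex y.2 z ∂ν, hP, fun z hz => ?_,
    fun z v => ?_⟩
  · have h1 : ‖∫ y, y.1 * (conj y.2 / y.2) * ex y.2 z ∂ν‖ ≤ ∫ y, ‖y.1‖ ∂ν := by
      refine norm_integral_le_of_norm_le hν.norm (Eventually.of_forall fun y => ?_)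
      rw [norm_mul, norm_mul, norm_ex_belt, mul_one, norm_div, Complex.norm_conj]
      exact mul_le_of_le_one_right (norm_nonneg _) (div_self_le_one _)
    have h2 : ∫ y, y.1 * (conj y.2 / y.2) * ex y.2 z ∂ν = -1 := by linear_combination hz
    rw [h2, norm_neg, norm_one] at h1
    linarith
  · have h1 : Continuous fun y : ℂ × ℂ => y.1 * ex y.2 z :=
      continuous_fst.mul ((continuous_ex_belt z).comp continuous_snd)
    rw [hP2, hν3, integral_map hm.aemeasurable h1.aestronglyMeasurable, ← hf]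

theorem exists_beltrami {μ : ℂ → ℂ} (hμ : ContDiffAt ℝ 3 μ 0) (h0 : μ 0 = 0) :
    ∃ h p : ℂ → ℂ, ContDiff ℝ 1 h ∧
      ∀ᶠ z in 𝓝 (0 : ℂ), p z ≠ 0 ∧ ∀ v, fderiv ℝ h z v = p z * (v + μ z * conj v) := by
  obtain ⟨A, hA, hA2⟩ := exists_fourier_bound
  obtain ⟨ε, hε, f, hf, hf0, hf1, hf2⟩ := exists_small_cutoff hμ h0 (δ := 1 / (3 * A))
    (by positivity)
  obtain ⟨hc, hi, hs, hinv⟩ := hA2 f _ hf hf0 hf1
  obtain ⟨P, a, hP, ha, hD⟩ := exists_global_belt hc hi (hs.trans_eq (by field_simp)) hinv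
  have hε' : (ε : ℂ) ≠ 0 := by exact_mod_cast hε.ne'
  obtain ⟨L, hL⟩ : ∃ L : ℂ →L[ℝ] ℂ, ∀ z, L z = (ε : ℂ)⁻¹ * z :=
    ⟨(ε⁻¹ : ℝ) • ContinuousLinearMap.id ℝ ℂ, fun z => by simp⟩
  refine ⟨fun z => L z + P (L z), fun z => (ε : ℂ)⁻¹ * (1 + a (L z)),
    L.contDiff.add (hP.comp L.contDiff), ?_⟩
  filter_upwards [ball_mem_nhds (0 : ℂ) hε] with z hz
  refine ⟨mul_ne_zero (inv_ne_zero hε') (ha _), fun v => ?_⟩
  have h1 : HasFDerivAt (fun z => L z + P (L z)) (L + (fderiv ℝ P (L z)).comp L) z :=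
    L.hasFDerivAt.add ((hP.differentiable one_ne_zero (L z)).hasFDerivAt.comp z L.hasFDerivAt)
  have h2 : f (L z) = μ z := by
    rw [hf2, hL, ← mul_assoc, mul_inv_cancel₀ hε', one_mul]
    rw [hL, norm_mul, norm_inv, Complex.norm_real, Real.norm_of_nonneg hε.le,
      inv_mul_lt_iff₀ hε, mul_one]
    exact mem_ball_zero_iff.1 hz
  rw [h1.fderiv, _root_.add_apply, ContinuousLinearMap.comp_apply, hD, h2, hL v,
    map_mul, map_inv₀, Complex.conj_ofReal]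
  ring

end Pool.Agent.Lib.Unif
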