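import Pool.Agent.Lib.Unif.Disc

set_option autoImplicit false
set_option linter.unusedSectionVars false

open Set Filter Topology Metric
open scoped ComplexConjugate Manifold ContDiff

namespace Pool.Agent.Lib.Unif

variable {W : Type*} [TopologicalSpace W] [ChartedSpace ℂ W] [RS W] [T2Space W]
  {p q x p₀ p₁ p₂ : W} {f f' e φ : W → ℂ} {u v w s g g' : W → ℝ} {r t R T M C : ℝ} {Ω U K D : Set W}

theorem annulus_cn (h : Good p R) (h0 : 0 ≤ r) : IsPreconnected (disc p R \ cdisc p r) := by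
  let F : ℝ × ℝ → ℂ := fun a => chartAt ℂ p p + a.1 * Complex.exp (a.2 * Complex.I)
  have hF : Continuous F := by fun_prop
  have hn : ∀ a : ℝ × ℝ, r < a.1 → ‖F a - chartAt ℂ p p‖ = a.1 := fun a ha => by
    simp only [F, add_sub_cancel_left, norm_mul, Complex.norm_exp_ofReal_mul_I, mul_one,
      Complex.norm_real, Real.norm_eq_abs]
    exact abs_of_nonneg (h0.trans ha.le)
  have hA : IsPreconnected (F '' (Ioo r R ×ˢ univ)) :=
    (isPreconnected_Ioo.prod isPreconnected_univ).image F hF.continuousOn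
  have hT : F '' (Ioo r R ×ˢ univ) ⊆ (chartAt ℂ p).target := by
    rintro _ ⟨a, ha, rfl⟩
    refine h.2 ?_
    rw [mem_closedBall_iff_norm, hn a ha.1.1]
    exact ha.1.2.le
  have e : disc p R \ cdisc p r = (chartAt ℂ p).symm '' (F '' (Ioo r R ×ˢ univ)) := by
    refine Subset.antisymm ?_ ?_
    · rintro x ⟨hx, hx'⟩
      have h1 : r < ‖lc p x‖ := not_le.1 fun k => hx' ⟨hx.1, k⟩
      refine ⟨_, ⟨(‖lc p x‖, Complex.arg (lc p x)), ⟨⟨h1, hx.2⟩, mem_univ _⟩, rfl⟩, ?_⟩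
      simp only [F, Complex.norm_mul_exp_arg_mul_I]
      rw [lc, add_sub_cancel, (chartAt ℂ p).left_inv hx.1]
    · rintro _ ⟨_, ⟨a, ha, rfl⟩, rfl⟩
      have h1 := hT ⟨a, ha, rfl⟩
      have h2 : ‖lc p ((chartAt ℂ p).symm (F a))‖ = a.1 := by
        rw [lc, (chartAt ℂ p).right_inv h1, hn a ha.1.1]
      exact ⟨⟨(chartAt ℂ p).map_target h1, h2 ▸ ha.1.2⟩, fun k => not_le.2 ha.1.1 (h2 ▸ k.2)⟩
  rw [e]
  exact hA.image _ ((chartAt ℂ p).continuousOn_symm.mono hT)

theorem side_cn (hc : IsPreconnected Ω) (h : Good p R) (hs : cdisc p R ⊆ Ω) (h0 : 0 ≤ r)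
    (hr : r < R) {A B : Set W} (hA : IsOpen A) (hB : IsOpen B) (hAB : Ω \ cdisc p r ⊆ A ∪ B)
    (hd : (Ω \ cdisc p r) ∩ (A ∩ B) = ∅) (hN : disc p R \ cdisc p r ⊆ A) :
    Ω \ cdisc p r ⊆ A := by
  have hcl := (h.isClosed_cdisc hr.le).isOpen_compl
  have hp : p ∈ cdisc p r := ⟨mem_chart_source ℂ p, by rw [lc_self, norm_zero]; exact h0⟩
  have key := isPreconnected_iff_subset_of_disjoint.1 hc (A ∪ disc p R) (B ∩ (cdisc p r)ᶜ)
    (hA.union (isOpen_disc p R)) (hB.inter hcl) (fun x hx => by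
      by_cases k : x ∈ cdisc p r
      · exact Or.inl (Or.inr (cdisc_subset_disc hr k))
      · rcases hAB ⟨hx, k⟩ with a | a
        · exact Or.inl (Or.inl a)
        · exact Or.inr ⟨a, k⟩) (by
      refine eq_empty_of_forall_notMem ?_
      rintro x ⟨hx, a, b, k⟩
      have : x ∈ A := a.elim id fun a => hN ⟨a, k⟩
      exact (eq_empty_iff_forall_notMem.1 hd) x ⟨⟨hx, k⟩, this, b⟩)
  rcases key with k | k
  · exact fun x hx => (k hx.1).elim id fun a => hN ⟨a, hx.2⟩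
  · exact absurd hp (k (hs (cdisc_mono hr.le hp))).2

theorem Good.isPreconnected_diff (hΩ : IsOpen Ω) (hc : IsPreconnected Ω) (h : Good p R)
    (hs : cdisc p R ⊆ Ω) (hr : r < R) : IsPreconnected (Ω \ cdisc p r) := by
  rcases lt_or_ge r 0 with h0 | h0
  · have : cdisc p r = ∅ :=
      eq_empty_of_forall_notMem fun x hx => not_le.2 h0 ((norm_nonneg _).trans hx.2)
    rwa [this, sdiff_empty]
  refine isPreconnected_iff_subset_of_disjoint.2 fun A B hA hB hAB hd => ?_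
  have hN : disc p R \ cdisc p r ⊆ Ω \ cdisc p r := fun x hx =>
    ⟨hs (disc_subset_cdisc hx.1), hx.2⟩
  rcases isPreconnected_iff_subset_of_disjoint.1 (annulus_cn h h0) A B hA hB (hN.trans hAB)
    (eq_empty_of_subset_empty (hd ▸ inter_subset_inter_left _ hN)) with k | k
  · exact Or.inl (side_cn hc h hs h0 hr hA hB hAB hd k)
  · exact Or.inr (side_cn hc h hs h0 hr hB hA (union_comm A B ▸ hAB) (inter_comm A B ▸ hd) k)

theorem isPreconnected_diff_singleton (hΩ : IsOpen Ω) (hc : IsPreconnected Ω) (p : W) :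
    IsPreconnected (Ω \ {p}) := by
  by_cases hp : p ∈ Ω
  · obtain ⟨R, hR, hs⟩ := exists_good (hΩ.mem_nhds hp)
    rw [← cdisc_zero]
    exact hR.isPreconnected_diff hΩ hc hs hR.1
  · rwa [sdiff_singleton_eq_self hp]

end Pool.Agent.Lib.Unif
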