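import Pool.Agent.Lib.Unif.MP

set_option autoImplicit false
set_option linter.unusedSectionVars false

open Set Filter Topology Metric
open scoped ComplexConjugate Manifold ContDiff

namespace Pool.Agent.Lib.Unif

variable {W : Type*} [TopologicalSpace W] [ChartedSpace ℂ W] [RS W] [T2Space W] [ConnectedSpace W]
  {p q x p₀ p₁ p₂ : W} {f f' e φ : W → ℂ} {u v w s g g' : W → ℝ} {r t R T M C : ℝ} {Ω U K D : Set W}

theorem fam_zero (Ω : Set W) (p : W) : Fam Ω p fun _ => 0 := by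
  refine ⟨fun x _ => (harm_const 0).subh, ⟨∅, isCompact_empty, empty_subset _, fun _ _ => rfl⟩,
    0, ?_⟩
  filter_upwards [(tendsto_lg p).eventually (eventually_le_atBot 0)] with x hx
  simpa using hx

theorem Fam.max (h : Fam Ω p v) (h' : Fam Ω p w) : Fam Ω p fun x => max (v x) (w x) := by
  obtain ⟨K, hK, hKΩ, h0⟩ := h.supp
  obtain ⟨K', hK', hKΩ', h0'⟩ := h'.supp
  obtain ⟨C, hC⟩ := h.pole
  obtain ⟨C', hC'⟩ := h'.pole
  refine ⟨fun x hx => (h.subh x hx).max (h'.subh x hx),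
    ⟨K ∪ K', hK.union hK', union_subset hKΩ hKΩ', fun x hx => ?_⟩, Max.max C C', ?_⟩
  · rw [h0 x fun a => hx (Or.inl a), h0' x fun a => hx (Or.inr a), max_self]
  · filter_upwards [hC, hC'] with x h1 h2
    rw [← max_add_add_right]
    exact max_le_max h1 h2

theorem Good.fam (hg : Good p r) (hs : cdisc p r ⊆ Ω) :
    ∃ v, Fam Ω p v ∧ ∀ x ∈ disc p r, v x = Real.log r - lg p x := by
  classical
  refine ⟨fun x => if x ∈ disc p r then Real.log r - lg p x else 0,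
    ⟨fun x hx => ?_, ⟨cdisc p r, hg.isCompact_cdisc le_rfl, hs, fun x hx => ?_⟩,
      Real.log r, ?_⟩, fun x hx => if_pos hx⟩
  · by_cases hc : x ∈ cdisc p r
    · have h1 : Subh (fun y => max (Real.log r - lg p y) 0) x :=
        ((harm_const (Real.log r)).sub (harm_lg hc.1 hx)).subh.max (harm_const 0).subh
      refine h1.congr ?_
      filter_upwards [(chartAt ℂ p).open_source.mem_nhds hc.1, isOpen_ne.mem_nhds hx] with y hy hne
      have h2 : 0 < ‖lc p y‖ := norm_pos_iff.2 (lc_ne_zero hy hne)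
      by_cases hd : y ∈ disc p r
      · rw [if_pos hd]
        exact max_eq_left (sub_nonneg.2 (Real.log_le_log h2 hd.2.le))
      · rw [if_neg hd]
        have h3 : r ≤ ‖lc p y‖ := not_lt.1 fun a => hd ⟨hy, a⟩
        exact max_eq_right (sub_nonpos.2 (Real.log_le_log hg.1 h3))
    · refine (harm_const (0 : ℝ)).subh.congr ?_
      filter_upwards [(hg.isClosed_cdisc le_rfl).isOpen_compl.mem_nhds hc] with y hy
      rw [if_neg fun a => hy (disc_subset_cdisc a)]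
  · exact if_neg fun a => hx (disc_subset_cdisc a)
  · filter_upwards [nhdsWithin_le_nhds (disc_mem_nhds (p := p) hg.1)] with x hx
    rw [if_pos hx]
    linarith

theorem Fam.le_of (hv : Fam Ω p v) (hU : IsOpen U) (hp : p ∉ U)
    (hs : ∀ x ∈ U, Harm s x ∧ 0 ≤ s x) (hu : ∀ x ∈ U, Harm u x ∧ 0 ≤ u x)
    (hb : ∀ ζ ∈ Ω, ζ ∉ U → Tendsto u (𝓝[U] ζ) atTop ∧ ∃ C, ∀ᶠ x in 𝓝[U] ζ, v x - s x ≤ C) :
    ∀ x ∈ U, v x ≤ s x := by
  obtain ⟨K, hK, hKΩ, h0⟩ := hv.supp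
  have hne : U ≠ univ := fun h => hp (h ▸ mem_univ p)
  have key : ∀ ε : ℝ, 0 < ε → ∀ x ∈ U, v x - s x - ε * u x ≤ 0 := by
    intro ε hε
    refine mp_limsup (w := fun x => v x - s x - ε * u x) hU hne hK (fun x hx => ?_)
      (fun x hx hxK => ?_) (fun ζ hζ hζU M' hM' => ?_)
    · exact ((hv.subh x fun h => hp (h ▸ hx)).sub_harm (hs x hx).1).sub_harm
        ((hu x hx).1.const_mul ε)
    · have h1 := (hs x hx).2
      have h2 := mul_nonneg hε.le (hu x hx).2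
      simp only [h0 x hxK]
      linarith
    · obtain ⟨h1, C, h2⟩ := hb ζ (hKΩ hζ) hζU
      filter_upwards [h2, h1.eventually (eventually_ge_atTop (C / ε))] with x h3 h4
      have h5 : C ≤ ε * u x := by rwa [div_le_iff₀' hε] at h4
      linarith
  intro x hx
  have hux := (hu x hx).2
  refine le_of_forall_pos_le_add fun δ hδ => ?_
  have h1 := key (δ / (u x + 1)) (by positivity) x hx
  have h2 : δ / (u x + 1) * u x ≤ δ := by
    rw [div_mul_eq_mul_div, div_le_iff₀ (by positivity)]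
    nlinarith
  linarith

theorem Fam.le_of_pole (hv : Fam Ω p v) (hU : IsOpen U) (hp : p ∉ U)
    (hs : ∀ x ∈ U, Harm s x ∧ 0 ≤ s x) (hb : ∀ ζ ∈ Ω, ζ ∉ U → Tendsto s (𝓝[U] ζ) atTop)
    (hC : ∃ C, ∀ᶠ x in 𝓝[U] p, C ≤ s x + lg p x) : ∀ x ∈ U, v x ≤ s x := by
  refine hv.le_of hU hp hs hs fun ζ hζ hζU => ⟨hb ζ hζ hζU, ?_⟩
  by_cases hζp : ζ = p
  · subst hζp
    obtain ⟨C, h1⟩ := hC
    obtain ⟨C', h2⟩ := hv.pole
    have hle : 𝓝[U] ζ ≤ 𝓝[≠] ζ := nhdsWithin_mono _ fun y hy h => hp (h ▸ hy)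
    refine ⟨C' - C, ?_⟩
    filter_upwards [h1, hle h2] with x h3 h4
    have h5 : v x + lg ζ x ≤ C' := h4
    linarith
  · refine ⟨v ζ + 1, ?_⟩
    have h1 : ∀ᶠ x in 𝓝 ζ, v x < v ζ + 1 :=
      (hv.subh ζ hζp).1.eventually (gt_mem_nhds (lt_add_one _))
    filter_upwards [nhdsWithin_le_nhds h1, self_mem_nhdsWithin] with x h2 h3
    have h4 : v x < v ζ + 1 := h2
    have := (hs x h3).2
    linarith

theorem Fam.le_log (hv : Fam Ω p v) (hf : ∀ x, Hol f x ∧ ‖f x‖ ≤ 1) (h0 : f p = 0)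
    (hx : f x ≠ 0) : v x ≤ -Real.log ‖f x‖ := by
  have hc : Continuous f := continuous_iff_continuousAt.2 fun y => (hf y).1.continuousAt
  refine hv.le_of_pole (U := {y | f y ≠ 0}) (s := fun y => -Real.log ‖f y‖)
    (isOpen_ne_fun hc continuous_const) (fun h => h h0)
    (fun y hy => ⟨((hf y).1.harm_log hy).neg,
      neg_nonneg.2 (Real.log_nonpos (norm_nonneg _) (hf y).2)⟩) (fun ζ _ hζ => ?_) ?_ x hx
  · have h1 : f ζ = 0 := not_not.1 hζ
    refine tendsto_neg_atBot_atTop.comp (Real.tendsto_log_nhdsGT_zero.comp ?_)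
    refine tendsto_nhdsWithin_iff.2 ⟨?_, ?_⟩
    · have h2 : Tendsto (fun y => ‖f y‖) (𝓝 ζ) (𝓝 ‖f ζ‖) := hc.norm.continuousAt
      rw [h1, norm_zero] at h2
      exact h2.mono_left nhdsWithin_le_nhds
    · filter_upwards [self_mem_nhdsWithin] with y hy
      exact norm_pos_iff.2 hy
  · obtain ⟨e, he, h1⟩ := (hf p).1.exists_factor h0
    have h2 : ∀ᶠ y in 𝓝 p, ‖e y‖ < ‖e p‖ + 1 :=
      he.continuousAt.norm.eventually (gt_mem_nhds (lt_add_one _))
    refine ⟨-Real.log (‖e p‖ + 1), ?_⟩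
    filter_upwards [nhdsWithin_le_nhds h1, nhdsWithin_le_nhds h2, self_mem_nhdsWithin]
      with y h3 h4 h5
    have h6 : f y = e y * lc p y := h3
    have h7 : f y ≠ 0 := h5
    rw [h6] at h7 ⊢
    have h8 := norm_pos_iff.2 (left_ne_zero_of_mul h7)
    have h9 := norm_pos_iff.2 (right_ne_zero_of_mul h7)
    have h10 := Real.log_le_log h8 (le_of_lt h4)
    rw [norm_mul, Real.log_mul h8.ne' h9.ne']
    unfold lg
    linarith

theorem Fam.le_in (hv : Fam Ω p v) (hg : Good p r) (hM : ∀ x ∈ circ p r, v x ≤ M) :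
    ∀ x ∈ cdisc p r, x ≠ p → v x + lg p x ≤ M + Real.log r := by
  have hc : ∀ x ∈ circ p r, v x + lg p x ≤ M + Real.log r := fun x hx => by
    rw [lg_of_mem_circ hx]
    linarith [hM x hx]
  intro x hx hne
  rw [cdisc_eq] at hx
  rcases hx with hx | hx
  · refine mp_punct (w := fun y => v y + lg p y) hg
      (fun y hy hyp => (hv.subh y hyp).add_harm (harm_lg hy.1 hyp)) (fun ζ hζ => ⟨?_, hc ζ hζ⟩)
      hv.pole x hx hne
    have h1 := ne_of_mem_circ hζ hg.1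
    exact ((hv.subh ζ h1).add_harm (harm_lg hζ.1 h1)).1.continuousWithinAt
  · exact hc x hx

theorem Fam.le_out (hv : Fam Ω p v) (hg : Good p r) (h0 : 0 ≤ M) (hM : ∀ x ∈ circ p r, v x ≤ M) :
    ∀ x, x ∉ disc p r → v x ≤ M := by
  have hcc : ∀ x ∈ cdisc p r, x ∉ disc p r → x ∈ circ p r := fun x h1 h2 => by
    rw [cdisc_eq] at h1
    exact h1.resolve_left h2
  have hp : p ∈ cdisc p r := disc_subset_cdisc (mem_disc_self hg.1)
  obtain ⟨K, hK, -, hK0⟩ := hv.supp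
  intro x hx
  by_cases hc : x ∈ cdisc p r
  · exact hM x (hcc x hc hx)
  · refine mp_front (U := (cdisc p r)ᶜ) (hg.isClosed_cdisc le_rfl).isOpen_compl
      (fun h => (h ▸ mem_univ p : p ∈ (cdisc p r)ᶜ) hp) hK
      (fun y hy => hv.subh y fun h => hy (h ▸ hp)) (fun y _ hy => (hK0 y hy).le.trans h0)
      (fun ζ _ hζ hcl => Or.inl ?_) x hc
    have h1 : ζ ∈ circ p r := hcc ζ (not_not.1 hζ) fun hd => by
      obtain ⟨y, hy1, hy2⟩ := mem_closure_iff.1 hcl _ (isOpen_disc p r) hd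
      exact hy2 (disc_subset_cdisc hy1)
    exact ⟨(hv.subh ζ (ne_of_mem_circ h1 hg.1)).1.continuousWithinAt, hM ζ h1⟩

theorem IsGreen.le (h : IsGreen Ω p g) (hv : Fam Ω p v) (hx : x ∈ Ω) (hne : x ≠ p) :
    v x ≤ g x := (h.lub x hx hne).1 ⟨v, hv, rfl⟩

theorem IsGreen.le_of (h : IsGreen Ω p g) (hx : x ∈ Ω) (hne : x ≠ p)
    (hM : ∀ v, Fam Ω p v → v x ≤ M) : g x ≤ M := (h.lub x hx hne).2 fun _ ⟨v, hv, e⟩ => e ▸ hM v hv

theorem IsGreen.unique (h : IsGreen Ω p g) (h' : IsGreen Ω p g') (hx : x ∈ Ω) (hne : x ≠ p) :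
    g x = g' x := (h.lub x hx hne).unique (h'.lub x hx hne)

end Pool.Agent.Lib.Unif
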