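import Pool.Agent.Lib.Unif.Hol1

set_option autoImplicit false
set_option linter.unusedSectionVars false

open Set Filter Topology Metric
open scoped ComplexConjugate Manifold ContDiff

namespace Pool.Agent.Lib.Unif

variable {W : Type*} [TopologicalSpace W] [ChartedSpace ℂ W] [RS W] [T2Space W]
  {p q x p₀ p₁ p₂ : W} {f f' e φ : W → ℂ} {u v w s g g' : W → ℝ} {r t R T M C : ℝ} {Ω U K D : Set W}

theorem norm_lc_disc (p x : W) : ‖lc p x‖ = dist (chartAt ℂ p x) (chartAt ℂ p p) := by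
  rw [dist_eq_norm]; rfl

theorem image_eq_disc {A : Set ℂ} (hA : A ⊆ (chartAt ℂ p).target) :
    {x | x ∈ (chartAt ℂ p).source ∧ chartAt ℂ p x ∈ A} = (chartAt ℂ p).symm '' A := by
  ext x
  constructor
  · rintro ⟨h1, h2⟩
    exact ⟨_, h2, (chartAt ℂ p).left_inv h1⟩
  · rintro ⟨z, hz, rfl⟩
    refine ⟨(chartAt ℂ p).map_target (hA hz), ?_⟩
    rw [(chartAt ℂ p).right_inv (hA hz)]
    exact hz

theorem exists_good (hU : U ∈ 𝓝 p) : ∃ r, Good p r ∧ cdisc p r ⊆ U := by
  have h1 : (chartAt ℂ p).target ∈ 𝓝 (chartAt ℂ p p) := chart_target_mem_nhds ℂ p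
  have h2 : (chartAt ℂ p).symm ⁻¹' U ∈ 𝓝 (chartAt ℂ p p) :=
    (chartAt ℂ p).tendsto_symm (mem_chart_source ℂ p) hU
  obtain ⟨r, hr, h3⟩ := nhds_basis_closedBall.mem_iff.1 (inter_mem h1 h2)
  refine ⟨r, ⟨hr, fun z hz => (h3 hz).1⟩, fun x hx => ?_⟩
  have h4 : chartAt ℂ p x ∈ closedBall (chartAt ℂ p p) r := by
    rw [mem_closedBall, ← norm_lc_disc]
    exact hx.2
  have h5 := (h3 h4).2
  rwa [mem_preimage, (chartAt ℂ p).left_inv hx.1] at h5

theorem Good.mono (h : Good p r) (h0 : 0 < t) (ht : t ≤ r) : Good p t :=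
  ⟨h0, (closedBall_subset_closedBall ht).trans h.2⟩

theorem isOpen_disc (p : W) (r : ℝ) : IsOpen (disc p r) := by
  have e1 : disc p r = (chartAt ℂ p).source ∩ chartAt ℂ p ⁻¹' ball (chartAt ℂ p p) r := by
    ext x
    simp only [disc, norm_lc_disc, mem_ofPred_eq, mem_inter_iff, mem_preimage, mem_ball]
  rw [e1]
  exact (chartAt ℂ p).isOpen_inter_preimage isOpen_ball

theorem disc_subset_cdisc : disc p r ⊆ cdisc p r := fun _ hx => ⟨hx.1, hx.2.le⟩

theorem circ_subset_cdisc : circ p r ⊆ cdisc p r := fun _ hx => ⟨hx.1, hx.2.le⟩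

theorem cdisc_mono (h : t ≤ r) : cdisc p t ⊆ cdisc p r := fun _ hx => ⟨hx.1, hx.2.trans h⟩

theorem cdisc_subset_disc (h : t < r) : cdisc p t ⊆ disc p r :=
  fun _ hx => ⟨hx.1, hx.2.trans_lt h⟩

theorem mem_disc_self (h : 0 < r) : p ∈ disc p r :=
  ⟨mem_chart_source ℂ p, by simpa [lc] using h⟩

theorem disc_mem_nhds (h : 0 < r) : disc p r ∈ 𝓝 p :=
  (isOpen_disc p r).mem_nhds (mem_disc_self h)

theorem cdisc_eq (p : W) (r : ℝ) : cdisc p r = disc p r ∪ circ p r := by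
  ext x
  constructor
  · rintro ⟨h1, h2⟩
    rcases h2.lt_or_eq with h | h
    · exact Or.inl ⟨h1, h⟩
    · exact Or.inr ⟨h1, h⟩
  · rintro (h | h)
    · exact disc_subset_cdisc h
    · exact circ_subset_cdisc h

theorem cdisc_zero (p : W) : cdisc p 0 = {p} := by
  ext x
  constructor
  · rintro ⟨h1, h2⟩
    rw [norm_lc_disc, dist_le_zero] at h2
    exact (chartAt ℂ p).injOn h1 (mem_chart_source ℂ p) h2
  · rintro rfl
    exact ⟨mem_chart_source ℂ _, by simp [lc]⟩

theorem not_mem_disc_of_circ (hx : x ∈ circ p r) : x ∉ disc p r := fun h => h.2.ne hx.2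

theorem not_mem_cdisc_of_circ (hx : x ∈ circ p r) (h : t < r) : x ∉ cdisc p t :=
  fun h' => (h'.2.trans_lt h).ne hx.2

theorem ne_of_mem_circ (hx : x ∈ circ p r) (h : 0 < r) : x ≠ p := by
  rintro rfl
  exact not_mem_disc_of_circ hx (mem_disc_self h)

theorem lg_of_mem_circ (hx : x ∈ circ p r) : lg p x = Real.log r := by
  rw [lg, hx.2]

theorem Good.disc_eq (h : Good p R) (hr : r ≤ R) :
    disc p r = (chartAt ℂ p).symm '' ball (chartAt ℂ p p) r := by
  rw [← image_eq_disc ((ball_subset_closedBall.trans (closedBall_subset_closedBall hr)).trans h.2)]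
  simp only [disc, norm_lc_disc, mem_ball]

theorem Good.cdisc_eq (h : Good p R) (hr : r ≤ R) :
    cdisc p r = (chartAt ℂ p).symm '' closedBall (chartAt ℂ p p) r := by
  rw [← image_eq_disc ((closedBall_subset_closedBall hr).trans h.2)]
  simp only [cdisc, norm_lc_disc, mem_closedBall]

theorem Good.circ_eq (h : Good p R) (hr : r ≤ R) :
    circ p r = (chartAt ℂ p).symm '' sphere (chartAt ℂ p p) r := by
  rw [← image_eq_disc ((sphere_subset_closedBall.trans (closedBall_subset_closedBall hr)).trans h.2)]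
  simp only [circ, norm_lc_disc, mem_sphere]

theorem Good.isCompact_cdisc (h : Good p R) (hr : r ≤ R) : IsCompact (cdisc p r) := by
  rw [h.cdisc_eq hr]
  exact (isCompact_closedBall _ _).image_of_continuousOn
    ((chartAt ℂ p).continuousOn_symm.mono ((closedBall_subset_closedBall hr).trans h.2))

theorem Good.isCompact_circ (h : Good p R) (hr : r ≤ R) : IsCompact (circ p r) := by
  rw [h.circ_eq hr]
  exact (isCompact_sphere _ _).image_of_continuousOn ((chartAt ℂ p).continuousOn_symm.mono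
    ((sphere_subset_closedBall.trans (closedBall_subset_closedBall hr)).trans h.2))

theorem Good.isClosed_cdisc (h : Good p R) (hr : r ≤ R) : IsClosed (cdisc p r) :=
  (h.isCompact_cdisc hr).isClosed

theorem Good.circ_nonempty (h : Good p r) : (circ p r).Nonempty := by
  rw [h.circ_eq le_rfl]
  exact (NormedSpace.sphere_nonempty.2 h.1.le).image _

theorem Good.frontier_disc (h : Good p r) : frontier (disc p r) ⊆ circ p r := by
  intro x hx
  rw [(isOpen_disc p r).frontier_eq] at hx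
  have h1 : x ∈ cdisc p r := closure_minimal disc_subset_cdisc (h.isClosed_cdisc le_rfl) hx.1
  rw [Unif.cdisc_eq] at h1
  exact h1.resolve_left hx.2

theorem Good.frontier_cdisc (h : Good p r) : frontier (cdisc p r) ⊆ circ p r := by
  intro x hx
  rw [(h.isClosed_cdisc le_rfl).frontier_eq] at hx
  have h1 := hx.1
  rw [Unif.cdisc_eq] at h1
  exact h1.resolve_left fun h2 => hx.2 (interior_maximal disc_subset_cdisc (isOpen_disc p r) h2)

theorem Good.isPreconnected_disc (h : Good p r) : IsPreconnected (disc p r) := by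
  rw [h.disc_eq le_rfl]
  exact (convex_ball _ _).isPreconnected.image _
    ((chartAt ℂ p).continuousOn_symm.mono (ball_subset_closedBall.trans h.2))

theorem exists_good₃ (h₁ : p₀ ≠ p₁) (h₂ : p₀ ≠ p₂) (h₃ : p₁ ≠ p₂) :
    ∃ R, Good p₀ R ∧ Good p₁ R ∧ Good p₂ R ∧ Disjoint (cdisc p₀ R) (cdisc p₁ R) ∧
      Disjoint (cdisc p₀ R) (cdisc p₂ R) ∧ Disjoint (cdisc p₁ R) (cdisc p₂ R) := by
  obtain ⟨A₁, B₁, hA₁, hB₁, d₁⟩ := t2_separation_nhds h₁
  obtain ⟨A₂, B₂, hA₂, hB₂, d₂⟩ := t2_separation_nhds h₂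
  obtain ⟨A₃, B₃, hA₃, hB₃, d₃⟩ := t2_separation_nhds h₃
  obtain ⟨r₀, g₀, s₀⟩ := exists_good (inter_mem hA₁ hA₂)
  obtain ⟨r₁, g₁, s₁⟩ := exists_good (inter_mem hB₁ hA₃)
  obtain ⟨r₂, g₂, s₂⟩ := exists_good (inter_mem hB₂ hB₃)
  have h0 : 0 < min r₀ (min r₁ r₂) := lt_min g₀.1 (lt_min g₁.1 g₂.1)
  have l₀ : min r₀ (min r₁ r₂) ≤ r₀ := min_le_left _ _
  have l₁ : min r₀ (min r₁ r₂) ≤ r₁ := (min_le_right _ _).trans (min_le_left _ _)
  have l₂ : min r₀ (min r₁ r₂) ≤ r₂ := (min_le_right _ _).trans (min_le_right _ _)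
  have t₀ := (cdisc_mono l₀).trans s₀
  have t₁ := (cdisc_mono l₁).trans s₁
  have t₂ := (cdisc_mono l₂).trans s₂
  exact ⟨_, g₀.mono h0 l₀, g₁.mono h0 l₁, g₂.mono h0 l₂,
    d₁.mono (t₀.trans inter_subset_left) (t₁.trans inter_subset_left),
    d₂.mono (t₀.trans inter_subset_right) (t₂.trans inter_subset_left),
    d₃.mono (t₁.trans inter_subset_right) (t₂.trans inter_subset_right)⟩

end Pool.Agent.Lib.Unif
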