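import Pool.Agent.Lib.Unif.Subh1
import Pool.Agent.Lib.Unif.Disc

set_option autoImplicit false
set_option linter.unusedSectionVars false

open Set Filter Topology Metric
open scoped ComplexConjugate Manifold ContDiff

namespace Pool.Agent.Lib.Unif

variable {W : Type*} [TopologicalSpace W] [ChartedSpace ℂ W] [RS W] [T2Space W] [ConnectedSpace W]
  {p q x p₀ p₁ p₂ : W} {f f' e φ : W → ℂ} {u v w s g g' : W → ℝ} {r t R T M C : ℝ} {Ω U K D : Set W}

theorem mp_compact (hU : IsOpen U) (hne : U ≠ univ) (hK : IsCompact K) (hKU : K ⊆ U)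
    (h : ∀ x ∈ U, Subh w x) (hM : ∀ x ∈ U, x ∉ K → w x ≤ M) : ∀ x ∈ U, w x ≤ M := by
  intro x0 hx0
  by_contra hlt
  have hlt' : M < w x0 := not_le.1 hlt
  have hx0K : x0 ∈ K := by
    by_contra hn
    exact hlt (hM x0 hx0 hn)
  have hc : ContinuousOn w K := fun x hx => (h x (hKU hx)).1.continuousWithinAt
  obtain ⟨q, hqK, hq⟩ := hK.exists_isMaxOn ⟨x0, hx0K⟩ hc
  have hMq : M < w q := hlt'.trans_le (hq hx0K)
  have hle : ∀ x ∈ U, w x ≤ w q := fun x hx => by
    by_cases hxK : x ∈ K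
    · exact hq hxK
    · exact (hM x hx hxK).trans hMq.le
  have hcl : IsClosed (K ∩ w ⁻¹' {w q}) :=
    hc.preimage_isClosed_of_isClosed hK.isClosed isClosed_singleton
  have hop : IsOpen (K ∩ w ⁻¹' {w q}) := by
    rw [isOpen_iff_mem_nhds]
    rintro x ⟨hxK, hx⟩
    have hx' : w x = w q := hx
    have hxU : U ∈ 𝓝 x := hU.mem_nhds (hKU hxK)
    have := (h x (hKU hxK)).2 (fun _ => 0) (harm_const 0) (by
      filter_upwards [hxU] with y hy
      simp only [sub_zero, hx']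
      exact hle y hy)
    filter_upwards [this, hxU] with y hy hyU
    simp only [sub_zero, hx'] at hy
    refine ⟨?_, hy⟩
    by_contra hn
    have := hM y hyU hn
    linarith
  rcases isClopen_iff.1 ⟨hcl, hop⟩ with h0 | h0
  · have : q ∈ K ∩ w ⁻¹' {w q} := ⟨hqK, rfl⟩
    rw [h0] at this
    exact this
  · exact hne (eq_univ_of_forall fun y => hKU (h0.symm ▸ mem_univ y : y ∈ K ∩ w ⁻¹' {w q}).1)

theorem mp_limsup (hU : IsOpen U) (hne : U ≠ univ) (hK : IsCompact K) (h : ∀ x ∈ U, Subh w x)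
    (hM : ∀ x ∈ U, x ∉ K → w x ≤ M)
    (hb : ∀ ζ ∈ K, ζ ∉ U → ∀ M', M < M' → ∀ᶠ x in 𝓝[U] ζ, w x ≤ M') : ∀ x ∈ U, w x ≤ M := by
  intro x0 hx0
  refine le_of_forall_gt_imp_ge_of_dense fun M'' hM'' => ?_
  obtain ⟨M', h1, h2⟩ := exists_between hM''
  have hcl : IsClosed {x | x ∈ K ∧ x ∈ U ∧ M'' ≤ w x} := by
    refine isClosed_of_closure_subset fun ζ hζ => ?_
    have hζK : ζ ∈ K := closure_minimal (fun x hx => hx.1) hK.isClosed hζ
    have hfr := mem_closure_iff_frequently.1 hζ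
    have hζU : ζ ∈ U := by
      by_contra hn
      have h3 := eventually_nhdsWithin_iff.1 (hb ζ hζK hn M' h1)
      obtain ⟨y, hy1, hy2⟩ := (hfr.and_eventually h3).exists
      have := hy2 hy1.2.1
      have := hy1.2.2
      linarith
    refine ⟨hζK, hζU, ?_⟩
    by_contra hn
    have h3 := (h ζ hζU).1.eventually (gt_mem_nhds (not_le.1 hn))
    obtain ⟨y, hy1, hy2⟩ := (hfr.and_eventually h3).exists
    exact absurd hy1.2.2 (not_le.2 hy2)
  refine mp_compact hU hne (hK.of_isClosed_subset hcl fun x hx => hx.1) (fun x hx => hx.2.1) h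
    (fun x hx hn => ?_) x0 hx0
  by_cases hxK : x ∈ K
  · exact (not_le.1 fun hh => hn ⟨hxK, hx, hh⟩).le
  · exact (hM x hx hxK).trans hM''.le

theorem mp_front (hU : IsOpen U) (hne : U ≠ univ) (hK : IsCompact K) (h : ∀ x ∈ U, Subh w x)
    (hM : ∀ x ∈ U, x ∉ K → w x ≤ M)
    (hb : ∀ ζ ∈ K, ζ ∉ U → ζ ∈ closure U →
      (ContinuousWithinAt w U ζ ∧ w ζ ≤ M) ∨ Tendsto w (𝓝[U] ζ) atBot) : ∀ x ∈ U, w x ≤ M := by
  refine mp_limsup hU hne hK h hM fun ζ hζK hζU M' hM' => ?_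
  by_cases hcl : ζ ∈ closure U
  · rcases hb ζ hζK hζU hcl with ⟨h1, h2⟩ | h1
    · exact (h1.eventually (gt_mem_nhds (h2.trans_lt hM'))).mono fun x hx => le_of_lt hx
    · exact h1.eventually (eventually_le_atBot M')
  · rw [notMem_closure_iff_nhdsWithin_eq_bot.1 hcl]
    exact eventually_bot

theorem mp_disc (hg : Good p r) (h : ∀ x ∈ disc p r, Subh w x)
    (hb : ∀ ζ ∈ circ p r, ContinuousWithinAt w (disc p r) ζ ∧ w ζ ≤ M) :
    ∀ x ∈ disc p r, w x ≤ M := by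
  obtain ⟨z, hz⟩ := hg.circ_nonempty
  refine mp_front (isOpen_disc p r) (fun e => not_mem_disc_of_circ hz (e ▸ mem_univ z))
    (hg.isCompact_cdisc le_rfl) h (fun x hx hn => absurd (disc_subset_cdisc hx) hn)
    fun ζ h1 h2 _ => Or.inl (hb ζ ?_)
  rw [cdisc_eq] at h1
  exact h1.resolve_left h2

theorem mp_punct (hg : Good p r) (h : ∀ x ∈ disc p r, x ≠ p → Subh w x)
    (hb : ∀ ζ ∈ circ p r, ContinuousWithinAt w (disc p r) ζ ∧ w ζ ≤ M)
    (hp : ∃ C, ∀ᶠ x in 𝓝[≠] p, w x ≤ C) : ∀ x ∈ disc p r, x ≠ p → w x ≤ M := by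
  obtain ⟨z, hz⟩ := hg.circ_nonempty
  obtain ⟨C, hC⟩ := hp
  have key : ∀ ε : ℝ, 0 < ε → ∀ x ∈ disc p r \ {p}, w x + ε * (lg p x - Real.log r) ≤ M := by
    intro ε hε
    refine mp_front ((isOpen_disc p r).sdiff isClosed_singleton)
      (fun e => not_mem_disc_of_circ hz (e ▸ mem_univ z : z ∈ disc p r \ {p}).1)
      (hg.isCompact_cdisc le_rfl)
      (fun x hx => (h x hx.1 hx.2).add_harm
        (((harm_lg hx.1.1 hx.2).sub (harm_const _)).const_mul ε))
      (fun x hx hn => absurd (disc_subset_cdisc hx.1) hn) fun ζ h1 h2 _ => ?_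
    by_cases hζ : ζ = p
    · right
      rw [hζ]
      have h3 : Tendsto (fun x => ε * (lg p x - Real.log r)) (𝓝[≠] p) atBot :=
        (tendsto_atBot_add_const_right _ (-Real.log r) (tendsto_lg p)).const_mul_atBot hε
      exact (tendsto_atBot_add_left_of_ge' _ C hC h3).mono_left
        (nhdsWithin_mono _ fun y hy => hy.2)
    · left
      rw [cdisc_eq] at h1
      have h3 : ζ ∈ circ p r := h1.resolve_left fun hh => h2 ⟨hh, hζ⟩
      refine ⟨((hb ζ h3).1.mono sdiff_subset).add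
        (((harm_lg h3.1 hζ).sub (harm_const _)).const_mul ε).continuousAt.continuousWithinAt, ?_⟩
      rw [lg_of_mem_circ h3, sub_self, mul_zero, add_zero]
      exact (hb ζ h3).2
  intro x hx hxp
  have h1 : Tendsto (fun ε : ℝ => w x + ε * (lg p x - Real.log r)) (𝓝[>] 0)
      (𝓝 (w x + 0 * (lg p x - Real.log r))) :=
    Tendsto.mono_left (Continuous.tendsto (by fun_prop) 0) nhdsWithin_le_nhds
  rw [zero_mul, add_zero] at h1
  refine le_of_tendsto h1 ?_
  filter_upwards [self_mem_nhdsWithin] with ε hε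
  exact key ε hε x ⟨hx, hxp⟩

end Pool.Agent.Lib.Unif
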