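import Pool.Agent.Lib.Unif.Dir
import Pool.Agent.Lib.Unif.MP

set_option autoImplicit false
set_option linter.unusedSectionVars false

open Set Filter Topology Metric
open scoped ComplexConjugate Manifold ContDiff

namespace Pool.Agent.Lib.Unif

variable {W : Type*} [TopologicalSpace W] [ChartedSpace ℂ W] [RS W] [T2Space W] [ConnectedSpace W]
  {p q x p₀ p₁ p₂ : W} {f f' e φ : W → ℂ} {u v w s g g' : W → ℝ} {r t R T M C : ℝ} {Ω U K D : Set W}

theorem exists_harm_disc (hg : Good q r) (hv : ContinuousOn v (circ q r)) : ∃ h : W → ℝ,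
    (∀ x ∈ disc q r, Harm h x) ∧ (∀ x, x ∉ disc q r → h x = v x) ∧
      ∀ ζ ∈ circ q r, ContinuousWithinAt h (disc q r) ζ := by
  classical
  have hφ : ContinuousOn (v ∘ (chartAt ℂ q).symm) (sphere (chartAt ℂ q q) r) := by
    refine hv.comp ((chartAt ℂ q).continuousOn_symm.mono (sphere_subset_closedBall.trans hg.2)) ?_
    intro z hz
    rw [hg.circ_eq le_rfl]
    exact mem_image_of_mem _ hz
  obtain ⟨F, hF, hb⟩ := exists_dirichlet hg.1 hφ
  have hmem : ∀ x ∈ disc q r, chartAt ℂ q x ∈ ball (chartAt ℂ q q) r := fun x hx => by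
    rw [mem_ball, dist_eq_norm]; exact hx.2
  refine ⟨fun x => if x ∈ disc q r then (F (chartAt ℂ q x)).re else v x, fun x hx => ?_,
    fun x hx => if_neg hx, fun ζ hζ => ?_⟩
  · refine ((hol_chart hx.1).comp (hF _ (hmem x hx))).harm_re.congr ?_
    filter_upwards [(isOpen_disc q r).mem_nhds hx] with y hy
    exact (if_pos hy).symm
  · have h1 : chartAt ℂ q ζ ∈ sphere (chartAt ℂ q q) r := by
      rw [mem_sphere, dist_eq_norm]; exact hζ.2
    have h2 : Tendsto (chartAt ℂ q) (𝓝[disc q r] ζ) (𝓝[ball (chartAt ℂ q q) r] (chartAt ℂ q ζ)) :=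
      ((chartAt ℂ q).continuousAt hζ.1).continuousWithinAt.tendsto_nhdsWithin hmem
    have h3 := (hb _ h1).comp h2
    have h4 : (v ∘ (chartAt ℂ q).symm) (chartAt ℂ q ζ) = v ζ := by
      simp only [Function.comp_apply, (chartAt ℂ q).left_inv hζ.1]
    rw [h4] at h3
    unfold ContinuousWithinAt
    simp only [if_neg (not_mem_disc_of_circ hζ)]
    refine h3.congr' ?_
    filter_upwards [self_mem_nhdsWithin] with y hy
    exact (if_pos hy).symm

theorem exists_modif (hg : Good q r) (hv : ∀ x ∈ cdisc q r, Subh v x) : ∃ u : W → ℝ,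
    (∀ x ∈ disc q r, Harm u x) ∧ (∀ x, x ∉ disc q r → u x = v x) ∧ (∀ x, v x ≤ u x) ∧
      (∀ x, Subh v x → Subh u x) ∧
      ∀ M, (∀ x ∈ circ q r, v x ≤ M) → ∀ x ∈ disc q r, u x ≤ M := by
  obtain ⟨h, h1, h2, h3⟩ := exists_harm_disc (v := v) hg fun x hx =>
    (hv x (circ_subset_cdisc hx)).1.continuousWithinAt
  have hle : ∀ x, v x ≤ h x := by
    intro x
    by_cases hx : x ∈ disc q r
    · have := mp_disc (w := fun x => v x - h x) (M := 0) hg
        (fun y hy => (hv y (disc_subset_cdisc hy)).sub_harm (h1 y hy))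
        (fun ζ hζ => ⟨(hv ζ (circ_subset_cdisc hζ)).1.continuousWithinAt.sub (h3 ζ hζ), by
          rw [h2 ζ (not_mem_disc_of_circ hζ), sub_self]⟩) x hx
      exact sub_nonpos.1 this
    · exact (h2 x hx).ge
  refine ⟨h, h1, h2, hle, fun x hx => ?_, fun M hM => mp_disc hg (fun y hy => (h1 y hy).subh)
    fun ζ hζ => ⟨h3 ζ hζ, by rw [h2 ζ (not_mem_disc_of_circ hζ)]; exact hM ζ hζ⟩⟩
  by_cases hd : x ∈ disc q r
  · exact (h1 x hd).subh
  by_cases hc : x ∈ circ q r
  · refine hx.of_le ?_ (Eventually.of_forall hle) (h2 x hd)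
    have a1 : ContinuousWithinAt h (disc q r)ᶜ x :=
      hx.1.continuousWithinAt.congr (fun y hy => h2 y hy) (h2 x hd)
    have a2 := (h3 x hc).union a1
    rwa [union_compl_self, continuousWithinAt_univ] at a2
  · refine hx.congr ?_
    have hx' : x ∈ (cdisc q r)ᶜ := by
      rw [cdisc_eq]
      rintro (k | k)
      exacts [hd k, hc k]
    filter_upwards [(hg.isClosed_cdisc le_rfl).isOpen_compl.mem_nhds hx'] with y hy
    exact (h2 y fun k => hy (disc_subset_cdisc k)).symm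

theorem exists_harm_of_bdd (h : ∀ᶠ x in 𝓝[≠] p, Harm u x ∧ |u x| ≤ C) :
    ∃ k : W → ℝ, Harm k p ∧ ∀ᶠ x in 𝓝[≠] p, u x = k x := by
  obtain ⟨r, hg, hr⟩ := exists_good (eventually_nhdsWithin_iff.1 h)
  have hu : ∀ x ∈ cdisc p r, x ≠ p → Harm u x := fun x hx hne => (hr hx hne).1
  have hc : ∀ ζ ∈ circ p r, ContinuousAt u ζ := fun ζ hζ =>
    (hu ζ (circ_subset_cdisc hζ) (ne_of_mem_circ hζ hg.1)).continuousAt
  obtain ⟨k, h1, h2, h3⟩ := exists_harm_disc (v := u) hg fun x hx => (hc x hx).continuousWithinAt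
  have hk := h1 p (mem_disc_self hg.1)
  have hb : ∀ᶠ x in 𝓝[≠] p, |u x - k x| ≤ C + (|k p| + 1) := by
    have a1 : ∀ᶠ x in 𝓝 p, |k x| < |k p| + 1 :=
      hk.continuousAt.abs.eventually (gt_mem_nhds (lt_add_one _))
    filter_upwards [h, nhdsWithin_le_nhds a1] with x hx hx'
    exact (abs_sub _ _).trans (add_le_add hx.2 hx'.le)
  have e1 := mp_punct (w := fun x => u x - k x) (M := 0) hg
    (fun y hy hne => ((hu y (disc_subset_cdisc hy) hne).sub (h1 y hy)).subh)
    (fun ζ hζ => ⟨(hc ζ hζ).continuousWithinAt.sub (h3 ζ hζ), by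
      rw [h2 ζ (not_mem_disc_of_circ hζ), sub_self]⟩)
    ⟨_, hb.mono fun x hx => (le_abs_self _).trans hx⟩
  have e2 := mp_punct (w := fun x => k x - u x) (M := 0) hg
    (fun y hy hne => ((h1 y hy).sub (hu y (disc_subset_cdisc hy) hne)).subh)
    (fun ζ hζ => ⟨(h3 ζ hζ).sub (hc ζ hζ).continuousWithinAt, by
      rw [h2 ζ (not_mem_disc_of_circ hζ), sub_self]⟩)
    ⟨_, hb.mono fun x hx => (le_abs_self _).trans (by rw [abs_sub_comm]; exact hx)⟩
  refine ⟨k, hk, ?_⟩
  filter_upwards [nhdsWithin_le_nhds (disc_mem_nhds (p := p) hg.1), self_mem_nhdsWithin]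
    with x hx hne
  exact le_antisymm (sub_nonpos.1 (e1 x hx hne)) (sub_nonpos.1 (e2 x hx hne))

end Pool.Agent.Lib.Unif
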