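import Pool.Agent.Lib.Unif.HP
import Pool.Agent.Lib.Unif.PM
import Pool.Agent.Lib.Unif.Fam
import Pool.Agent.Lib.Unif.CN

set_option autoImplicit false
set_option linter.unusedSectionVars false

open Set Filter Topology Metric
open scoped ComplexConjugate Manifold ContDiff

namespace Pool.Agent.Lib.Unif

variable {W : Type*} [TopologicalSpace W] [ChartedSpace ℂ W] [RS W] [T2Space W] [ConnectedSpace W]
  {p q x p₀ p₁ p₂ : W} {f f' e φ : W → ℂ} {u v w s g g' : W → ℝ} {r t R T M C : ℝ} {Ω U K D : Set W}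

theorem directed_ge (hΩ : IsOpen Ω) {y : W} (hy : y ∈ Ω \ {p}) :
    ∃ D ∈ 𝓝 y, ∀ v ∈ {v | Fam Ω p v}, ∀ w ∈ {v | Fam Ω p v}, ∃ u ∈ {v | Fam Ω p v},
      ∀ x ∈ D, Harm u x ∧ v x ≤ u x ∧ w x ≤ u x := by
  obtain ⟨r, hg, hs⟩ := exists_good ((hΩ.sdiff isClosed_singleton).mem_nhds hy)
  refine ⟨disc y r, disc_mem_nhds hg.1, fun v hv w hw => ?_⟩
  have hm : Fam Ω p fun x => max (v x) (w x) := Fam.max hv hw
  obtain ⟨u, h1, h2, h3, h4, -⟩ := exists_modif hg fun x hx => hm.subh x (hs hx).2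
  refine ⟨u, ⟨fun x hx => h4 x (hm.subh x hx), ?_, ?_⟩, fun x hx =>
    ⟨h1 x hx, (le_max_left _ _).trans (h3 x), (le_max_right _ _).trans (h3 x)⟩⟩
  · obtain ⟨K, hK, hKΩ, hK0⟩ := hm.supp
    refine ⟨K ∪ cdisc y r, hK.union (hg.isCompact_cdisc le_rfl),
      union_subset hKΩ (hs.trans sdiff_subset), fun x hx => ?_⟩
    rw [mem_union, not_or] at hx
    rw [h2 x fun h => hx.2 (disc_subset_cdisc h)]
    exact hK0 x hx.1
  · obtain ⟨C, hC⟩ := hm.pole
    have hn : (cdisc y r)ᶜ ∈ 𝓝 p :=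
      (hg.isClosed_cdisc le_rfl).isOpen_compl.mem_nhds fun h => (hs h).2 rfl
    refine ⟨C, ?_⟩
    filter_upwards [hC, mem_nhdsWithin_of_mem_nhds hn] with x hx hx'
    rw [h2 x fun h => hx' (disc_subset_cdisc h)]
    exact hx

theorem exists_green (hΩ : IsOpen Ω) (hc : IsPreconnected Ω) (hp : p ∈ Ω) (hq : q ∈ Ω)
    (hne : q ≠ p) (hb : BddAbove {t | ∃ v, Fam Ω p v ∧ v q = t}) : ∃ g, IsGreen Ω p g := by
  have hΩ' : IsOpen (Ω \ {p}) := hΩ.sdiff isClosed_singleton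
  have hc' := isPreconnected_diff_singleton hΩ hc p
  have key := hp_glob (𝓕 := {v | Fam Ω p v}) hΩ' hc' ⟨_, fam_zero Ω p⟩
    (fun y hy => directed_ge hΩ hy) (q := q) ⟨hq, hne⟩ hb
  set g : W → ℝ := fun y => sSup {t | ∃ v ∈ {v | Fam Ω p v}, v y = t} with hgdef
  have harm : ∀ x ∈ Ω, x ≠ p → Harm g x := fun x hx hx' => (key x ⟨hx, hx'⟩).2
  have lub : ∀ x ∈ Ω, x ≠ p → IsLUB {t | ∃ v, Fam Ω p v ∧ v x = t} (g x) := fun x hx hx' =>
    isLUB_csSup ⟨0, _, fam_zero Ω p, rfl⟩ (key x ⟨hx, hx'⟩).1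
  have hle : ∀ v, Fam Ω p v → ∀ x ∈ Ω, x ≠ p → v x ≤ g x := fun v hv x hx hx' =>
    (lub x hx hx').1 ⟨v, hv, rfl⟩
  have pole : Pole g p := by
    obtain ⟨r, hg, hs⟩ := exists_good (hΩ.mem_nhds hp)
    obtain ⟨v0, hv0, hv0'⟩ := hg.fam hs
    have hcont : ContinuousOn g (circ p r) := fun x hx =>
      (harm x (hs (circ_subset_cdisc hx)) (ne_of_mem_circ hx hg.1)).continuousAt.continuousWithinAt
    obtain ⟨M, hM⟩ := (hg.isCompact_circ le_rfl).bddAbove_image hcont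
    have hM' : ∀ x ∈ circ p r, g x ≤ M := fun x hx => hM ⟨x, hx, rfl⟩
    have hev : ∀ᶠ x in 𝓝[≠] p, Harm (fun x => g x + lg p x) x ∧
        |g x + lg p x| ≤ |Real.log r| + |M| := by
      filter_upwards [mem_nhdsWithin_of_mem_nhds (disc_mem_nhds (p := p) hg.1),
        self_mem_nhdsWithin] with x hx hx'
      have hxp : x ≠ p := hx'
      have hxΩ : x ∈ Ω := hs (disc_subset_cdisc hx)
      refine ⟨(harm x hxΩ hxp).add (harm_lg hx.1 hxp), ?_⟩
      have h1 := hle v0 hv0 x hxΩ hxp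
      rw [hv0' x hx] at h1
      have h2 : g x ≤ M + Real.log r - lg p x := by
        refine (lub x hxΩ hxp).2 ?_
        rintro t ⟨v, hv, rfl⟩
        have := hv.le_in hg (fun y hy => (hle v hv y (hs (circ_subset_cdisc hy))
          (ne_of_mem_circ hy hg.1)).trans (hM' y hy)) x (disc_subset_cdisc hx) hxp
        linarith
      rw [abs_le]
      constructor <;>
        linarith [neg_abs_le (Real.log r), le_abs_self (Real.log r), le_abs_self M, abs_nonneg M]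
    obtain ⟨k, hk, hk'⟩ := exists_harm_of_bdd hev
    refine ⟨k, hk, ?_⟩
    filter_upwards [hk'] with x hx
    linarith
  refine ⟨g, harm, fun x hx hx' => ?_, pole, lub⟩
  have h0 : ∀ y ∈ Ω, y ≠ p → 0 ≤ g y := fun y hy hy' => hle _ (fam_zero Ω p) y hy hy'
  refine lt_of_le_of_ne (h0 x hx hx') fun hz => ?_
  have hall := subh_eq_of_max (v := fun y => -g y) hΩ' hc'
    (fun y hy => (harm y hy.1 hy.2).neg.subh) (q := x) ⟨hx, hx'⟩
    (fun y hy => by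
      have := h0 y hy.1 hy.2
      linarith)
  have := neBot_punct p
  have e1 : ∀ᶠ y in 𝓝[≠] p, y ∈ Ω := mem_nhdsWithin_of_mem_nhds (hΩ.mem_nhds hp)
  have e2 : ∀ᶠ y in 𝓝[≠] p, y ≠ p := self_mem_nhdsWithin
  obtain ⟨y, hy1, hy2, hy3⟩ := ((pole.tendsto.eventually_gt_atTop 0).and (e1.and e2)).exists
  have := hall y ⟨hy2, hy3⟩
  linarith

end Pool.Agent.Lib.Unif
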