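import Pool.Agent.Lib.Unif.HC
import Pool.Agent.Lib.Unif.GE

set_option autoImplicit false
set_option linter.unusedSectionVars false

open Set Filter Topology Metric
open scoped ComplexConjugate Manifold ContDiff

namespace Pool.Agent.Lib.Unif

variable {W : Type*} [TopologicalSpace W] [ChartedSpace ℂ W] [RS W] [T2Space W] [SimplyConnectedSpace W]
  {p q x p₀ p₁ p₂ : W} {f f' e φ : W → ℂ} {u v w s g g' : W → ℝ} {r t R T M C : ℝ} {Ω U K D : Set W}

theorem mob_den {a z : ℂ} (ha : ‖a‖ < 1) (hz : ‖z‖ < 1) : 1 - conj a * z ≠ 0 := by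
  intro h
  have h1 : conj a * z = 1 := (sub_eq_zero.1 h).symm
  have h2 := congrArg norm h1
  rw [norm_mul, Complex.norm_conj, norm_one] at h2
  nlinarith [norm_nonneg a, norm_nonneg z]

theorem mob_lt {a z : ℂ} (ha : ‖a‖ < 1) (hz : ‖z‖ < 1) : ‖(z - a) / (1 - conj a * z)‖ < 1 := by
  rw [norm_div, div_lt_one (norm_pos_iff.2 (mob_den ha hz))]
  refine lt_of_pow_lt_pow_left₀ 2 (norm_nonneg _) ?_
  have h1 : ‖a‖ ^ 2 < 1 := by nlinarith [norm_nonneg a]
  have h2 : ‖z‖ ^ 2 < 1 := by nlinarith [norm_nonneg z]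
  simp only [← Complex.normSq_eq_norm_sq, Complex.normSq_apply] at h1 h2 ⊢
  simp only [Complex.sub_re, Complex.sub_im, Complex.mul_re, Complex.mul_im, Complex.one_re,
    Complex.one_im, Complex.conj_re, Complex.conj_im]
  nlinarith [mul_pos (sub_pos.2 h1) (sub_pos.2 h2)]

theorem IsGreen.exists_map (h : IsGreen univ p g) : ∃ φ : W → ℂ, (∀ x, Hol φ x ∧ ‖φ x‖ < 1) ∧
    φ p = 0 ∧ ∀ x, x ≠ p → ‖φ x‖ = Real.exp (-g x) := by
  classical
  obtain ⟨φ, hφ⟩ := exists_hol_norm (P := {p}) (u := g) (finite_singleton p)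
    (fun x hx => h.harm x (mem_univ x) hx) (by
      intro p' hp'
      obtain rfl : p' = p := hp'
      obtain ⟨e, he, -, h2⟩ := h.pole.exists_hol
      refine ⟨fun x => e x * lc p' x, ?_⟩
      have h3 : Hol (fun x => e x * lc p' x) p' := he.mul (hol_lc (mem_chart_source ℂ p'))
      exact (h3.eventually.filter_mono nhdsWithin_le_nhds).and h2)
  have hup : ∀ x, x ≠ p → Function.update φ p 0 x = φ x := fun x hx =>
    Function.update_of_ne hx _ _
  have hhol : ∀ x, x ≠ p → Hol (Function.update φ p 0) x := by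
    intro x hx
    refine (hφ x hx).1.congr ?_
    filter_upwards [isOpen_compl_singleton.mem_nhds hx] with y hy
    exact (hup y hy).symm
  have hn : ∀ x, x ≠ p → ‖Function.update φ p 0 x‖ = Real.exp (-g x) := fun x hx => by
    rw [hup x hx, (hφ x hx).2]
  refine ⟨Function.update φ p 0, fun x => ?_, Function.update_self _ _ _, hn⟩
  by_cases hx : x = p
  · subst hx
    refine ⟨hol_of_punct (eventually_nhdsWithin_of_forall hhol) ?_, by simp⟩
    rw [continuousAt_update_same, tendsto_zero_iff_norm_tendsto_zero]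
    refine (Real.tendsto_exp_neg_atTop_nhds_zero.comp h.pole.tendsto).congr' ?_
    exact eventually_nhdsWithin_of_forall fun y hy => (hφ y hy).2.symm
  · refine ⟨hhol x hx, ?_⟩
    rw [hn x hx, Real.exp_lt_one_iff]
    linarith [h.pos x (mem_univ x) hx]

theorem exists_green_of_map (hφ : ∀ x, Hol φ x ∧ ‖φ x‖ < 1) (hne : φ p ≠ φ q) :
    ∃ g', IsGreen univ q g' ∧ ∀ x, φ x ≠ φ q →
      g' x ≤ -Real.log ‖(φ x - φ q) / (1 - conj (φ q) * φ x)‖ := by
  have h1 : ∀ x, Hol (fun x => (φ x - φ q) / (1 - conj (φ q) * φ x)) x ∧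
      ‖(φ x - φ q) / (1 - conj (φ q) * φ x)‖ ≤ 1 := fun x =>
    ⟨((hφ x).1.sub (hol_const _)).div ((hol_const 1).sub ((hol_const _).mul (hφ x).1))
      (mob_den (hφ q).2 (hφ x).2), (mob_lt (hφ q).2 (hφ x).2).le⟩
  have h2 : ∀ x, φ x ≠ φ q → ∀ v, Fam univ q v →
      v x ≤ -Real.log ‖(φ x - φ q) / (1 - conj (φ q) * φ x)‖ := fun x hx v hv =>
    hv.le_log (f := fun x => (φ x - φ q) / (1 - conj (φ q) * φ x)) h1 (by simp)
      (div_ne_zero (sub_ne_zero.2 hx) (mob_den (hφ q).2 (hφ x).2))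
  have hpq : p ≠ q := fun e => hne (e ▸ rfl)
  obtain ⟨g', hg'⟩ := exists_green isOpen_univ isPreconnected_univ (mem_univ q) (mem_univ p) hpq
    ⟨_, by
      rintro t ⟨v, hv, rfl⟩
      exact h2 p hne v hv⟩
  exact ⟨g', hg', fun x hx => hg'.le_of (mem_univ x) (fun e => hx (e ▸ rfl)) (h2 x hx)⟩

theorem map_ne_c1a (h0 : φ p = 0) (hn : ∀ x, x ≠ p → ‖φ x‖ = Real.exp (-g x)) (hne : q ≠ p) :
    φ p ≠ φ q := by
  intro e
  have := hn q hne
  rw [← e, h0, norm_zero] at this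
  exact (Real.exp_pos _).ne this

theorem IsGreen.exists_univ (h : IsGreen univ p g) (q : W) : ∃ g', IsGreen univ q g' := by
  by_cases hq : q = p
  · exact ⟨g, hq ▸ h⟩
  · obtain ⟨φ, hφ, h0, hn⟩ := h.exists_map
    obtain ⟨g', hg', -⟩ := exists_green_of_map hφ (map_ne_c1a h0 hn hq)
    exact ⟨g', hg'⟩

theorem symm_le_c1a (h : IsGreen univ p g) (h' : IsGreen univ q g') (hne : p ≠ q) :
    g' p ≤ g q := by
  obtain ⟨φ, hφ, h0, hn⟩ := h.exists_map
  have hpq := map_ne_c1a h0 hn hne.symm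
  obtain ⟨g'', hg'', hb⟩ := exists_green_of_map hφ hpq
  have h1 := hb p hpq
  rw [h0, mul_zero, sub_zero, div_one, zero_sub, norm_neg, hn q hne.symm, Real.log_exp,
    neg_neg] at h1
  rwa [h'.unique hg'' (mem_univ p) hne]

theorem IsGreen.symm_univ (h : IsGreen univ p g) (h' : IsGreen univ q g') (hne : p ≠ q) :
    g q = g' p :=
  le_antisymm (symm_le_c1a h' h hne.symm) (symm_le_c1a h h' hne)

end Pool.Agent.Lib.Unif
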