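import Pool.Agent.Lib.Unif.C1a

set_option autoImplicit false
set_option linter.unusedSectionVars false

open Set Filter Topology Metric
open scoped ComplexConjugate Manifold ContDiff

namespace Pool.Agent.Lib.Unif

variable {W : Type*} [TopologicalSpace W] [ChartedSpace ℂ W] [RS W] [T2Space W] [SimplyConnectedSpace W]
  {p q x p₀ p₁ p₂ : W} {f f' e φ : W → ℂ} {u v w s g g' : W → ℝ} {r t R T M C : ℝ} {Ω U K D : Set W}

theorem norm_le_c1b {z : ℂ} {a : ℝ} (hz : z ≠ 0) (h : a ≤ -Real.log ‖z‖) : ‖z‖ ≤ Real.exp (-a) :=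
  (Real.log_le_iff_le_exp (norm_pos_iff.2 hz)).1 (by linarith)

theorem hol_mob_c1b {a : ℂ} (ha : ‖a‖ < 1) (h : Hol φ x) (h1 : ‖φ x‖ < 1) :
    Hol (fun y => (φ y - a) / (1 - conj a * φ y)) x :=
  (h.sub (hol_const _)).div ((hol_const _).sub ((hol_const _).mul h)) (mob_den ha h1)

theorem fact_c1b {z a k b : ℂ} (hz : ‖z‖ < 1) (ha : ‖a‖ < 1) (hk : ‖k‖ < 1) (hb : ‖b‖ < 1)
    (h1 : k ^ 2 = (z - a) / (1 - conj a * z)) (h2 : b ^ 2 = -a) :
    z = (k - b) / (1 - conj b * k) * ((k - -b) / (1 - conj (-b) * k)) := by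
  have d0 := mob_den ha hz
  have d1 := mob_den hb hk
  have d2 := mob_den (a := -b) (by rwa [norm_neg]) hk
  have h3 : conj b ^ 2 = -conj a := by rw [← map_pow, h2, map_neg]
  rw [eq_div_iff d0] at h1
  rw [div_mul_div_comm, eq_div_iff (mul_ne_zero d1 d2), map_neg]
  linear_combination -h1 + h2 - z * k ^ 2 * h3

theorem one_sub_ne_c1b {z : ℂ} (hz : ‖z‖ < 1) : 1 - z ≠ 0 := by
  intro h
  rw [← sub_eq_zero.1 h, norm_one] at hz
  exact lt_irrefl _ hz

theorem im_pos_c1b {z : ℂ} (hz : ‖z‖ < 1) : 0 < (Complex.I * (1 + z) / (1 - z)).im := by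
  have h0 : 0 < Complex.normSq (1 - z) := Complex.normSq_pos.2 (one_sub_ne_c1b hz)
  have h1 : z.re ^ 2 + z.im ^ 2 < 1 := by
    have : ‖z‖ ^ 2 < 1 := by nlinarith [norm_nonneg z]
    rwa [Complex.sq_norm, Complex.normSq_apply, ← sq, ← sq] at this
  rw [Complex.div_im, ← sub_div]
  refine div_pos ?_ h0
  simp
  nlinarith

theorem inv_c1b {z : ℂ} (hz : 0 < z.im) : ‖(z - Complex.I) / (z + Complex.I)‖ < 1 ∧
    Complex.I * (1 + (z - Complex.I) / (z + Complex.I)) /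
      (1 - (z - Complex.I) / (z + Complex.I)) = z := by
  have h0 : z + Complex.I ≠ 0 := by
    intro h
    have := congrArg Complex.im h
    simp at this
    linarith
  constructor
  · rw [norm_div, div_lt_one (norm_pos_iff.2 h0)]
    refine lt_of_pow_lt_pow_left₀ 2 (norm_nonneg _) ?_
    rw [Complex.sq_norm, Complex.sq_norm, Complex.normSq_apply, Complex.normSq_apply]
    simp
    nlinarith
  · have e1 : 1 + (z - Complex.I) / (z + Complex.I) = 2 * z / (z + Complex.I) := by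
      field_simp; ring
    have e2 : 1 - (z - Complex.I) / (z + Complex.I) = 2 * Complex.I / (z + Complex.I) := by
      field_simp; ring
    rw [e1, e2]
    field_simp

theorem IsGreen.injective (h : IsGreen univ p g) (hφ : ∀ x, Hol φ x ∧ ‖φ x‖ < 1) (h0 : φ p = 0)
    (hn : ∀ x, x ≠ p → ‖φ x‖ = Real.exp (-g x)) : Function.Injective φ := by
  intro x q hxq
  by_contra hne
  have hz : ∀ y, y ≠ p → φ y ≠ 0 := fun y hy => norm_pos_iff.1 (hn y hy ▸ Real.exp_pos _)
  have hqp : q ≠ p := by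
    rintro rfl
    exact hz x hne (hxq.trans h0)
  obtain ⟨g', hg', hle⟩ := exists_green_of_map (p := p) (q := q) hφ
    (by rw [h0]; exact (hz q hqp).symm)
  obtain ⟨φ', hφ', -, hn'⟩ := hg'.exists_map
  have hz' : ∀ y, y ≠ q → φ' y ≠ 0 := fun y hy => norm_pos_iff.1 (hn' y hy ▸ Real.exp_pos _)
  have hp : ‖(φ p - φ q) / (1 - conj (φ q) * φ p) / φ' p‖ = 1 := by
    rw [h0, mul_zero, sub_zero, div_one, zero_sub, norm_div, norm_neg, hn q hqp, hn' p hqp.symm,
      h.symm_univ hg' hqp.symm, div_self (Real.exp_pos _).ne']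
  have := eq_of_max (f := fun y => (φ y - φ q) / (1 - conj (φ q) * φ y) / φ' y)
    (Ω := univ \ {q}) (q := p) (isOpen_univ.sdiff isClosed_singleton)
    (isPreconnected_diff_singleton isOpen_univ isPreconnected_univ q)
    (fun y hy => (hol_mob_c1b (hφ q).2 (hφ y).1 (hφ y).2).div (hφ' y).1 (hz' y hy.2))
    ⟨mem_univ _, hqp.symm⟩ (fun y hy => by
      rw [hp, norm_div, div_le_one (norm_pos_iff.2 (hz' y hy.2)), hn' y hy.2]
      by_cases e : φ y = φ q
      · rw [e, sub_self, zero_div, norm_zero]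
        exact (Real.exp_pos _).le
      · exact norm_le_c1b (div_ne_zero (sub_ne_zero.2 e) (mob_den (hφ q).2 (hφ y).2)) (hle y e))
    x ⟨mem_univ _, hne⟩
  rw [← this, hxq, sub_self, zero_div, zero_div, norm_zero] at hp
  exact zero_ne_one hp

theorem IsGreen.range_eq (h : IsGreen univ p g) (hφ : ∀ x, Hol φ x ∧ ‖φ x‖ < 1) (h0 : φ p = 0)
    (hn : ∀ x, x ≠ p → ‖φ x‖ = Real.exp (-g x)) (hi : Function.Injective φ) :
    range φ = ball 0 1 := by
  refine Subset.antisymm ?_ fun a ha => ?_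
  · rintro _ ⟨x, rfl⟩
    exact mem_ball_zero_iff.2 (hφ x).2
  by_contra hna
  have ha1 : ‖a‖ < 1 := mem_ball_zero_iff.1 ha
  obtain ⟨k, hk⟩ := exists_hol_sqrt (f := fun y => (φ y - a) / (1 - conj a * φ y)) fun y =>
    ⟨hol_mob_c1b ha1 (hφ y).1 (hφ y).2,
      div_ne_zero (sub_ne_zero.2 fun e => hna ⟨y, e⟩) (mob_den ha1 (hφ y).2)⟩
  have hk1 : ∀ y, ‖k y‖ < 1 := fun y => by
    have := mob_lt ha1 (hφ y).2
    rw [← (hk y).2, norm_pow] at this
    nlinarith [norm_nonneg (k y)]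
  have hb : k p ^ 2 = -a := by rw [(hk p).2]; simp [h0]
  obtain ⟨x, hx, -⟩ := exists_ne_ne p p
  have e := fact_c1b (hφ x).2 ha1 (hk1 x) (hk1 p) (hk x).2 hb
  have hφx : φ x ≠ 0 := norm_pos_iff.1 (hn x hx ▸ Real.exp_pos _)
  have hψ : (k x - k p) / (1 - conj (k p) * k x) ≠ 0 := fun e0 => hφx (by rw [e, e0, zero_mul])
  have h1 := h.le_of (mem_univ x) hx fun v hv =>
    hv.le_log (f := fun y => (k y - k p) / (1 - conj (k p) * k y))
      (fun y => ⟨hol_mob_c1b (hk1 p) (hk y).1 (hk1 y), (mob_lt (hk1 p) (hk1 y)).le⟩)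
      (by simp) hψ
  have h2 := norm_le_c1b hψ h1
  have h3 := mob_lt (a := -k p) (by rw [norm_neg]; exact hk1 p) (hk1 x)
  rw [← hn x hx, e, norm_mul] at h2
  have h4 := norm_pos_iff.2 hψ
  nlinarith

theorem IsGreen.exists_half (h : IsGreen univ p g) : ∃ φ : W → ℂ, (∀ x, Hol φ x) ∧
    Function.Injective φ ∧ range φ = {z : ℂ | 0 < z.im} := by
  obtain ⟨φ, hφ, h0, hn⟩ := h.exists_map
  have hi := h.injective hφ h0 hn
  have hr := h.range_eq hφ h0 hn hi
  refine ⟨fun x => Complex.I * (1 + φ x) / (1 - φ x), fun x => ?_, fun x y e => ?_, ?_⟩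
  · exact ((hol_const _).mul ((hol_const _).add (hφ x).1)).div ((hol_const _).sub (hφ x).1)
      (one_sub_ne_c1b (hφ x).2)
  · simp only at e
    rw [div_eq_div_iff (one_sub_ne_c1b (hφ x).2) (one_sub_ne_c1b (hφ y).2)] at e
    refine hi (mul_left_cancel₀ (mul_ne_zero two_ne_zero Complex.I_ne_zero) ?_)
    linear_combination e
  · refine Subset.antisymm ?_ fun z hz => ?_
    · rintro _ ⟨x, rfl⟩
      exact im_pos_c1b (hφ x).2
    · obtain ⟨a, b⟩ := inv_c1b hz
      obtain ⟨x, hx⟩ : (z - Complex.I) / (z + Complex.I) ∈ range φ := hr ▸ mem_ball_zero_iff.2 a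
      exact ⟨x, by simp only [hx]; exact b⟩

end Pool.Agent.Lib.Unif
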