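import Pool.Agent.Lib.Unif.Hol2

set_option autoImplicit false
set_option linter.unusedSectionVars false

open Set Filter Topology Metric
open scoped ComplexConjugate Manifold ContDiff

namespace Pool.Agent.Lib.Unif

variable {W : Type*} [TopologicalSpace W] [ChartedSpace ℂ W] [RS W]
  {p q x p₀ p₁ p₂ : W} {f f' e φ : W → ℂ} {u v w s g g' : W → ℝ} {r t R T M C : ℝ} {Ω U K D : Set W}

theorem Harm.congr (h : Harm u p) (he : u =ᶠ[𝓝 p] v) : Harm v p := by
  obtain ⟨F, hF, h1⟩ := h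
  refine ⟨F, hF, ?_⟩
  filter_upwards [h1, he] with y h2 h3
  rw [← h3, h2]

theorem Harm.continuousAt (h : Harm u p) : ContinuousAt u p := by
  obtain ⟨F, hF, h1⟩ := h
  exact (Complex.continuous_re.continuousAt.comp hF.continuousAt).congr (EventuallyEq.symm h1)

theorem Harm.eventually (h : Harm u p) : ∀ᶠ x in 𝓝 p, Harm u x := by
  obtain ⟨F, hF, h1⟩ := h
  filter_upwards [hF.eventually, h1.eventually_nhds] with y h2 h3
  exact ⟨F, h2, h3⟩

theorem harm_const (c : ℝ) : Harm (fun _ : W => c) p :=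
  ⟨fun _ => (c : ℂ), hol_const _, Eventually.of_forall fun _ => (Complex.ofReal_re c).symm⟩

theorem Harm.add (h : Harm u p) (h' : Harm v p) : Harm (fun x => u x + v x) p := by
  obtain ⟨F, hF, h1⟩ := h
  obtain ⟨G, hG, h2⟩ := h'
  refine ⟨_, hF.add hG, ?_⟩
  filter_upwards [h1, h2] with y h3 h4
  rw [h3, h4, Complex.add_re]

theorem Harm.sub (h : Harm u p) (h' : Harm v p) : Harm (fun x => u x - v x) p := by
  obtain ⟨F, hF, h1⟩ := h
  obtain ⟨G, hG, h2⟩ := h'
  refine ⟨_, hF.sub hG, ?_⟩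
  filter_upwards [h1, h2] with y h3 h4
  rw [h3, h4, Complex.sub_re]

theorem Harm.neg (h : Harm u p) : Harm (fun x => -u x) p := by
  obtain ⟨F, hF, h1⟩ := h
  refine ⟨_, hF.neg, ?_⟩
  filter_upwards [h1] with y h3
  rw [h3, Complex.neg_re]

theorem Harm.const_mul (h : Harm u p) (c : ℝ) : Harm (fun x => c * u x) p := by
  obtain ⟨F, hF, h1⟩ := h
  refine ⟨_, (hol_const (c : ℂ)).mul hF, ?_⟩
  filter_upwards [h1] with y h3
  rw [h3, Complex.re_ofReal_mul]

theorem harm_sum {ι : Type*} (B : Finset ι) {G : ι → W → ℝ} (h : ∀ i ∈ B, Harm (G i) p) :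
    Harm (fun x => ∑ i ∈ B, G i x) p := by
  classical
  induction B using Finset.induction_on with
  | empty => simpa using harm_const 0
  | insert a B ha ih =>
    simp only [Finset.sum_insert ha]
    exact (h a (Finset.mem_insert_self _ _)).add (ih fun i hi => h i (Finset.mem_insert_of_mem hi))

theorem Hol.harm_re (h : Hol f p) : Harm (fun x => (f x).re) p :=
  ⟨f, h, Eventually.of_forall fun _ => rfl⟩

theorem Hol.harm_log (h : Hol f p) (h0 : f p ≠ 0) : Harm (fun x => Real.log ‖f x‖) p := by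
  have h1 : Hol (fun x => f x / f p) p := h.div (hol_const _) h0
  have h2 : Hol (fun x => Complex.log (f x / f p)) p :=
    h1.comp (F := Complex.log) (analyticAt_clog (by
      rw [div_self h0]; exact Complex.one_mem_slitPlane))
  refine ⟨_, h2.add (hol_const ((Real.log ‖f p‖ : ℝ) : ℂ)), ?_⟩
  filter_upwards [h.continuousAt.eventually_ne h0] with y hy
  rw [Complex.add_re, Complex.log_re, Complex.ofReal_re, norm_div,
    Real.log_div (norm_ne_zero_iff.2 hy) (norm_ne_zero_iff.2 h0), sub_add_cancel]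

theorem harm_lg (hx : x ∈ (chartAt ℂ p).source) (hne : x ≠ p) : Harm (lg p) x :=
  (hol_lc hx).harm_log (lc_ne_zero hx hne)

theorem harm_iff_chart (hx : x ∈ (chartAt ℂ p).source) : Harm u x ↔
    InnerProductSpace.HarmonicAt (u ∘ (chartAt ℂ p).symm) (chartAt ℂ p x) := by
  constructor
  · rintro ⟨F, hF, h1⟩
    refine (InnerProductSpace.harmonicAt_congr_nhds ?_).1 ((hol_iff_chart hx).1 hF).harmonicAt_re
    filter_upwards [((chartAt ℂ p).tendsto_symm hx).eventually h1] with z hz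
    exact hz.symm
  · intro h
    obtain ⟨ρ, hρ, hb⟩ := Metric.eventually_nhds_iff_ball.1 h.eventually
    obtain ⟨F, hF, h1⟩ := InnerProductSpace.HarmonicOnNhd.exists_analyticOnNhd_ball_re_eq
      (f := u ∘ (chartAt ℂ p).symm) (z := chartAt ℂ p x) (R := ρ) hb
    refine ⟨fun y => F (chartAt ℂ p y), (hol_chart hx).comp (hF _ (mem_ball_self hρ)), ?_⟩
    filter_upwards [((chartAt ℂ p).continuousAt hx).eventually (ball_mem_nhds _ hρ),
      (chartAt ℂ p).eventually_left_inverse hx] with y hy hy'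
    have := h1 hy
    simp only [Function.comp_apply, hy'] at this
    exact this.symm

theorem Pole.tendsto (h : Pole s p) : Tendsto s (𝓝[≠] p) atTop := by
  obtain ⟨k, hk, h1⟩ := h
  refine Tendsto.congr' (EventuallyEq.symm h1) ?_
  simp only [sub_eq_add_neg]
  exact (hk.continuousAt.tendsto.mono_left nhdsWithin_le_nhds).add_atTop
    (tendsto_neg_atBot_atTop.comp (tendsto_lg p))

theorem Pole.bdd (h : Pole s p) : ∃ C, ∀ᶠ x in 𝓝[≠] p, |s x + lg p x| ≤ C := by
  obtain ⟨k, hk, h1⟩ := h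
  refine ⟨|k p| + 1, ?_⟩
  filter_upwards [h1, mem_nhdsWithin_of_mem_nhds
    (hk.continuousAt.abs.eventually (eventually_le_nhds (lt_add_one |k p|)))] with y h2 h3
  rw [h2, sub_add_cancel]
  exact h3

theorem Pole.congr (h : Pole s p) (he : s =ᶠ[𝓝[≠] p] u) : Pole u p := by
  obtain ⟨k, hk, h1⟩ := h
  refine ⟨k, hk, ?_⟩
  filter_upwards [h1, he] with y h2 h3
  rw [← h3, h2]

theorem Pole.add_harm (h : Pole s p) (hu : Harm u p) : Pole (fun x => s x + u x) p := by
  obtain ⟨k, hk, h1⟩ := h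
  refine ⟨_, hk.add hu, ?_⟩
  filter_upwards [h1] with y h2
  rw [h2]
  ring

theorem Pole.exists_hol (h : Pole s p) :
    ∃ e, Hol e p ∧ e p ≠ 0 ∧ ∀ᶠ x in 𝓝[≠] p, ‖e x * lc p x‖ = Real.exp (-s x) := by
  obtain ⟨k, ⟨F, hF, h0⟩, h1⟩ := h
  refine ⟨fun y => Complex.exp (-F y), hF.neg.comp (F := Complex.exp) analyticAt_cexp,
    Complex.exp_ne_zero _, ?_⟩
  filter_upwards [h1, mem_nhdsWithin_of_mem_nhds h0, eventually_lc_ne_zero p] with y h2 h3 h4
  have h5 : k y = (F y).re := h3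
  rw [norm_mul, Complex.norm_exp, Complex.neg_re, h2, h5, neg_sub, sub_eq_neg_add, Real.exp_add, lg,
    Real.exp_log (norm_pos_iff.2 h4)]

theorem Harm.exists_hol (h : Harm u p) :
    ∃ e, Hol e p ∧ ∀ᶠ x in 𝓝 p, ‖e x‖ = Real.exp (-u x) := by
  obtain ⟨F, hF, h0⟩ := h
  refine ⟨fun y => Complex.exp (-F y), hF.neg.comp (F := Complex.exp) analyticAt_cexp, ?_⟩
  filter_upwards [h0] with y h3
  rw [Complex.norm_exp, Complex.neg_re, h3]

end Pool.Agent.Lib.Unif
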