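import Pool.Agent.Lib.Unif.FB
import Pool.Agent.Lib.Unif.Harm1

set_option autoImplicit false
set_option linter.unusedSectionVars false

open Set Filter Topology Metric
open scoped ComplexConjugate Manifold ContDiff

namespace Pool.Agent.Lib.Unif

variable {W : Type*} [TopologicalSpace W] [ChartedSpace ℂ W] [RS W] [T2Space W] [SimplyConnectedSpace W]
  {p q x p₀ p₁ p₂ : W} {f f' e φ : W → ℂ} {u v w s g g' : W → ℝ} {r t R T M C : ℝ} {Ω U K D : Set W}

theorem exists_hol_norm {P : Set W} (hP : P.Finite) (hu : ∀ x, x ∉ P → Harm u x)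
    (hp : ∀ p ∈ P, ∃ φ : W → ℂ, ∀ᶠ x in 𝓝[≠] p, Hol φ x ∧ ‖φ x‖ = Real.exp (-u x)) :
    ∃ φ : W → ℂ, ∀ x, x ∉ P → Hol φ x ∧ ‖φ x‖ = Real.exp (-u x) := by
  have hloc : ∀ i : W, ∃ (V : Set W) (ψ : W → ℂ), IsOpen V ∧ i ∈ V ∧ ∀ x ∈ V,
      (x ∈ P → x = i) ∧ (x ∉ P → Hol ψ x ∧ ‖ψ x‖ = Real.exp (-u x)) := by
    intro i
    have h1 : ∀ᶠ x in 𝓝 i, x ∈ P → x = i := by
      have h2 : (P \ {i})ᶜ ∈ 𝓝 i :=
        (hP.subset sdiff_subset).isClosed.isOpen_compl.mem_nhds fun h => h.2 rfl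
      filter_upwards [h2] with x hx hxP
      by_contra hne
      exact hx ⟨hxP, hne⟩
    have h2 : ∃ ψ : W → ℂ, ∀ᶠ x in 𝓝 i, x ∉ P → Hol ψ x ∧ ‖ψ x‖ = Real.exp (-u x) := by
      by_cases hi : i ∈ P
      · obtain ⟨ψ, hψ⟩ := hp i hi
        refine ⟨ψ, ?_⟩
        filter_upwards [eventually_nhdsWithin_iff.1 hψ] with x hx hxP
        exact hx fun h => hxP (by rw [mem_singleton_iff.1 h]; exact hi)
      · obtain ⟨ψ, h3, h4⟩ := (hu i hi).exists_hol
        refine ⟨ψ, ?_⟩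
        filter_upwards [h3.eventually, h4] with x a b _ using ⟨a, b⟩
    obtain ⟨ψ, h2⟩ := h2
    obtain ⟨V, hV, hVo, hi⟩ := eventually_nhds_iff.1 (h1.and h2)
    exact ⟨V, ψ, hVo, hi, hV⟩
  choose V ψ hVo hVm hV using hloc
  have hPo : IsOpen Pᶜ := hP.isClosed.isOpen_compl
  have hne : ∀ i, ∀ x ∈ V i, x ∉ P → ψ i x ≠ 0 := fun i x hx hxP =>
    norm_pos_iff.1 (by rw [((hV i x hx).2 hxP).2]; exact Real.exp_pos _)
  have hn1 : ∀ i j x, x ∈ V i → x ∈ V j → x ∉ P → ‖ψ j x / ψ i x‖ = 1 := by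
    intro i j x hi hj hxP
    rw [norm_div, ((hV i x hi).2 hxP).2, ((hV j x hj).2 hxP).2, div_self (Real.exp_pos _).ne']
  have hself : ∀ i x, Circle.exp (Complex.arg (ψ i x / ψ i x)) = 1 := by
    intro i x
    by_cases h : ψ i x = 0
    · simp [h]
    · simp [div_self h]
  have hcoe : ∀ i j x, x ∈ V i → x ∈ V j → x ∉ P →
      (Circle.exp (Complex.arg (ψ j x / ψ i x)) : ℂ) = ψ j x / ψ i x := by
    intro i j x hi hj hxP
    have := Complex.norm_mul_exp_arg_mul_I (ψ j x / ψ i x)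
    rw [hn1 i j x hi hj hxP] at this
    rw [Circle.coe_exp]
    simpa using this
  have : LocallyPathConnectedSpace W := ChartedSpace.locallyPathConnectedSpace ℂ W
  obtain ⟨σ, h1, h2⟩ := cocycle_trivial V hVo hVm
    (fun i j x => Circle.exp (Complex.arg (ψ j x / ψ i x))) (by
      intro i j x hi hj
      by_cases hxP : x ∈ P
      · have e : j = i := ((hV j x hj).1 hxP).symm.trans ((hV i x hi).1 hxP)
        subst e
        exact Eventually.of_forall fun y => by rw [hself, hself]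
      · have a1 : Hol (fun y => ψ j y / ψ i y) x :=
          ((hV j x hj).2 hxP).1.div ((hV i x hi).2 hxP).1 (hne i x hi hxP)
        have a2 := a1.eq_of_max (by
          filter_upwards [(hVo i).mem_nhds hi, (hVo j).mem_nhds hj, hPo.mem_nhds hxP]
            with y b1 b2 b3
          rw [hn1 i j y b1 b2 b3, hn1 i j x hi hj hxP])
        filter_upwards [a2] with y hy
        rw [hy]) (by
      intro i j k x hi hj hk
      by_cases hxP : x ∈ P
      · have e : j = i := ((hV j x hj).1 hxP).symm.trans ((hV i x hi).1 hxP)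
        subst e
        rw [hself, one_mul]
      · refine Circle.ext ?_
        rw [Circle.coe_mul, hcoe i j x hi hj hxP, hcoe j k x hj hk hxP, hcoe i k x hi hk hxP]
        have b1 := hne i x hi hxP
        have b2 := hne j x hj hxP
        field_simp)
  refine ⟨fun x => σ x x * ψ x x, fun x hxP => ⟨?_, ?_⟩⟩
  · refine ((hol_const (σ x x : ℂ)).mul ((hV x x (hVm x)).2 hxP).1).congr ?_
    filter_upwards [(hVo x).mem_nhds (hVm x), hPo.mem_nhds hxP, h1 x x (hVm x)] with y b1 b2 b3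
    have b4 := h2 x y y b1 (hVm y)
    have b5 := hne x y b1 b2
    rw [← b3, b4, Circle.coe_mul, hcoe x y y b1 (hVm y) b2]
    field_simp
  · rw [norm_mul, Circle.norm_coe, one_mul, ((hV x x (hVm x)).2 hxP).2]

theorem exists_hol_sqrt (hf : ∀ x, Hol f x ∧ f x ≠ 0) :
    ∃ k : W → ℂ, ∀ x, Hol k x ∧ k x ^ 2 = f x := by
  obtain ⟨k0, hk⟩ := exists_hol_norm (P := (∅ : Set W))
    (u := fun x => -(1 / 2) * Real.log ‖f x‖) finite_empty
    (fun x _ => ((hf x).1.harm_log (hf x).2).const_mul _) (fun p hp => absurd hp (notMem_empty p))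
  have h1 : ∀ x, Hol (fun y => k0 y * k0 y / f y) x := fun x =>
    ((hk x (notMem_empty x)).1.mul (hk x (notMem_empty x)).1).div (hf x).1 (hf x).2
  have h2 : ∀ x, ‖k0 x * k0 x / f x‖ = 1 := by
    intro x
    have h0 := norm_pos_iff.2 (hf x).2
    rw [norm_div, norm_mul, (hk x (notMem_empty x)).2, ← Real.exp_add, div_eq_one_iff_eq h0.ne']
    rw [show -(-(1 / 2) * Real.log ‖f x‖) + -(-(1 / 2) * Real.log ‖f x‖) = Real.log ‖f x‖ by ring,
      Real.exp_log h0]
  obtain ⟨q⟩ : Nonempty W := inferInstance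
  have h3 := eq_of_max isOpen_univ isPreconnected_univ (fun x _ => h1 x) (mem_univ q)
    fun x _ => by rw [h2, h2]
  obtain ⟨b, hb⟩ := IsAlgClosed.exists_pow_nat_eq (k0 q * k0 q / f q) two_pos
  have ha : k0 q * k0 q / f q ≠ 0 := norm_pos_iff.1 (by rw [h2]; exact one_pos)
  have hb0 : b ≠ 0 := by
    rintro rfl
    exact ha (by rw [← hb]; simp)
  refine ⟨fun x => k0 x / b, fun x =>
    ⟨(hk x (notMem_empty x)).1.div (hol_const b) hb0, ?_⟩⟩
  have h4 : k0 x * k0 x / f x = b ^ 2 := (h3 x (mem_univ x)).trans hb.symm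
  rw [div_eq_iff (hf x).2] at h4
  rw [div_pow, div_eq_iff (pow_ne_zero 2 hb0)]
  linear_combination h4

end Pool.Agent.Lib.Unif
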