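import Pool.Agent.Lib.Unif.DI4
import Pool.Agent.Lib.Unif.HC

set_option autoImplicit false
set_option linter.unusedSectionVars false

open Set Filter Topology Metric
open scoped ComplexConjugate Manifold ContDiff

namespace Pool.Agent.Lib.Unif

variable {W : Type*} [TopologicalSpace W] [ChartedSpace ℂ W] [RS W] [T2Space W] [SimplyConnectedSpace W]
  {p q x p₀ p₁ p₂ : W} {f f' e φ : W → ℂ} {u v w s g g' : W → ℝ} {r t R T M C : ℝ} {Ω U K D : Set W}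

theorem ext_norm_one_C2a (h : ∀ᶠ x in 𝓝[≠] p, Hol f x ∧ ‖f x‖ = 1) :
    ∃ F, Hol F p ∧ F p ≠ 0 ∧ ∀ᶠ x in 𝓝[≠] p, f x = F x := by
  obtain ⟨F, hF, hfF⟩ := exists_hol_of_bdd (C := 1) (h.mono fun x hx => ⟨hx.1, hx.2.le⟩)
  refine ⟨F, hF, ?_, hfF⟩
  have := neBot_punct p
  have h1 : Tendsto (fun x => ‖F x‖) (𝓝[≠] p) (𝓝 ‖F p‖) :=
    (hF.continuousAt.norm.tendsto).mono_left nhdsWithin_le_nhds
  have h2 : Tendsto (fun x => ‖F x‖) (𝓝[≠] p) (𝓝 1) := by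
    refine tendsto_const_nhds.congr' ?_
    filter_upwards [h, hfF] with x hx hx'
    rw [← hx', hx.2]
  have h3 := tendsto_nhds_unique h1 h2
  intro h0
  rw [h0, norm_zero] at h3
  exact zero_ne_one h3

theorem exists_mero (hne : p₁ ≠ p₂) : ∃ φ, Mero p₁ p₂ φ := by
  classical
  obtain ⟨G, hG, hP₁, hP₂, K, C, hK, hC⟩ := exists_dipole hne
  obtain ⟨e₁, he₁, he₁0, hn₁⟩ := hP₁.exists_hol
  obtain ⟨e₂, he₂, he₂0, hn₂⟩ := hP₂.exists_hol
  have hl₁ : Hol (lc p₁) p₁ := hol_lc (mem_chart_source ℂ p₁)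
  have hl₂ : Hol (lc p₂) p₂ := hol_lc (mem_chart_source ℂ p₂)
  have hA : ∀ᶠ x in 𝓝[≠] p₁, Hol (fun y => e₁ y * lc p₁ y) x :=
    (he₁.mul hl₁).eventually.filter_mono nhdsWithin_le_nhds
  have hB : ∀ᶠ x in 𝓝[≠] p₂, Hol (fun y => e₂ y * lc p₂ y) x :=
    (he₂.mul hl₂).eventually.filter_mono nhdsWithin_le_nhds
  obtain ⟨φ₀, hφ₀⟩ := exists_hol_norm (u := G) (P := {p₁, p₂}) (toFinite _)
    (fun x hx => hG x (fun h => hx (Or.inl h)) (fun h => hx (Or.inr h))) (by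
      rintro p (rfl | rfl)
      · exact ⟨fun y => e₁ y * lc p y, hA.and hn₁⟩
      · refine ⟨fun y => (e₂ y * lc p y)⁻¹, ?_⟩
        filter_upwards [hB, hn₂] with x hx hx'
        refine ⟨hx.inv (norm_pos_iff.mp (hx' ▸ Real.exp_pos _)), ?_⟩
        rw [norm_inv, hx', neg_neg, Real.exp_neg])
  have hφ : ∀ x, x ≠ p₁ → x ≠ p₂ → Hol φ₀ x ∧ ‖φ₀ x‖ = Real.exp (-G x) := fun x h₁ h₂ =>
    hφ₀ x (by rintro (h | h); exacts [h₁ h, h₂ h])
  have hE₁ : ∀ᶠ x in 𝓝[≠] p₁, x ≠ p₁ ∧ x ≠ p₂ :=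
    Eventually.and self_mem_nhdsWithin
      ((eventually_ne_nhds hne).filter_mono nhdsWithin_le_nhds)
  have hE₂ : ∀ᶠ x in 𝓝[≠] p₂, x ≠ p₁ ∧ x ≠ p₂ :=
    Eventually.and ((eventually_ne_nhds hne.symm).filter_mono nhdsWithin_le_nhds)
      self_mem_nhdsWithin
  obtain ⟨F₁, hF₁, hF₁0, hq₁⟩ := ext_norm_one_C2a (p := p₁)
    (f := fun y => φ₀ y / (e₁ y * lc p₁ y)) (by
      filter_upwards [hA, hn₁, hE₁] with x hx hx' hx''
      obtain ⟨h1, h2⟩ := hφ x hx''.1 hx''.2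
      refine ⟨h1.div hx (norm_pos_iff.mp (hx' ▸ Real.exp_pos _)), ?_⟩
      rw [norm_div, h2, hx', div_self (Real.exp_pos _).ne'])
  obtain ⟨F₂, hF₂, hF₂0, hq₂⟩ := ext_norm_one_C2a (p := p₂)
    (f := fun y => φ₀ y * (e₂ y * lc p₂ y)) (by
      filter_upwards [hB, hn₂, hE₂] with x hx hx' hx''
      obtain ⟨h1, h2⟩ := hφ x hx''.1 hx''.2
      refine ⟨h1.mul hx, ?_⟩
      rw [norm_mul, h2, hx', ← Real.exp_add]
      simp)
  have hz : ∀ᶠ x in 𝓝 p₁, Function.update φ₀ p₁ 0 x = F₁ x * e₁ x * lc p₁ x := by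
    rw [← nhdsNE_sup_pure, eventually_sup]
    refine ⟨?_, ?_⟩
    · filter_upwards [hq₁, hn₁, hE₁] with x hx hx' hx''
      have h0 : e₁ x * lc p₁ x ≠ 0 := norm_pos_iff.mp (hx' ▸ Real.exp_pos _)
      rw [Function.update_of_ne hx''.1, ← hx, mul_assoc, div_mul_cancel₀ _ h0]
    · simp [lc_self]
  refine ⟨Function.update φ₀ p₁ 0, ?_, ?_, ?_, ?_, ?_⟩
  · intro x hx
    by_cases h1 : x = p₁
    · subst h1
      exact ((hF₁.mul he₁).mul hl₁).congr (hz.mono fun y hy => hy.symm)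
    · refine (hφ x h1 hx).1.congr ?_
      filter_upwards [eventually_ne_nhds h1] with y hy
      rw [Function.update_of_ne hy]
  · intro x h1 h2
    rw [Function.update_of_ne h1]
    exact norm_pos_iff.mp ((hφ x h1 h2).2 ▸ Real.exp_pos _)
  · exact ⟨fun x => F₁ x * e₁ x, hF₁.mul he₁, mul_ne_zero hF₁0 he₁0, hz⟩
  · refine ⟨fun x => F₂ x / e₂ x, hF₂.div he₂ he₂0, div_ne_zero hF₂0 he₂0, ?_⟩
    filter_upwards [hq₂, hn₂, hE₂] with x hx hx' hx''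
    have h0 : e₂ x * lc p₂ x ≠ 0 := norm_pos_iff.mp (hx' ▸ Real.exp_pos _)
    rw [Function.update_of_ne hx''.1, ← hx, div_div, mul_div_cancel_right₀ _ h0]
  · refine ⟨K ∪ {p₁, p₂}, Real.exp C, hK.union (toFinite _).isCompact, Real.exp_pos _,
      fun x hx => ?_⟩
    have h1 : x ≠ p₁ := fun h => hx (Or.inr (Or.inl h))
    have h2 : x ≠ p₂ := fun h => hx (Or.inr (Or.inr h))
    have h3 := abs_le.mp (hC x fun h => hx (Or.inl h))
    rw [Function.update_of_ne h1, (hφ x h1 h2).2, ← Real.exp_neg, Real.exp_le_exp,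
      Real.exp_le_exp]
    constructor <;> linarith [h3.1, h3.2]

end Pool.Agent.Lib.Unif
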