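import Pool.Agent.Lib.Unif.LV

set_option autoImplicit false
set_option linter.unusedSectionVars false

open Set Filter Topology Metric
open scoped ComplexConjugate Manifold ContDiff

namespace Pool.Agent.Lib.Unif

variable {W : Type*} [TopologicalSpace W] [ChartedSpace ℂ W] [RS W] [T2Space W] [SimplyConnectedSpace W]
  {p q x p₀ p₁ p₂ : W} {f f' e φ : W → ℂ} {u v w s g g' : W → ℝ} {r t R T M C : ℝ} {Ω U K D : Set W}

theorem Mero.apply_left (h : Mero p₁ p₂ φ) : φ p₁ = 0 := by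
  obtain ⟨e, -, -, he⟩ := h.zero
  rw [he.self_of_nhds, lc_self, mul_zero]

theorem Mero.tendsto (h : Mero p₁ p₂ φ) : Tendsto (fun x => ‖φ x‖) (𝓝[≠] p₂) atTop := by
  obtain ⟨e, he, h0, hφ⟩ := h.pole
  have h1 : Tendsto (fun x => ‖e x‖) (𝓝[≠] p₂) (𝓝 ‖e p₂‖) :=
    (he.continuousAt.norm.tendsto).mono_left nhdsWithin_le_nhds
  have h2 : Tendsto (fun x => ‖lc p₂ x‖) (𝓝[≠] p₂) (𝓝[>] 0) := by
    refine tendsto_nhdsWithin_iff.mpr ⟨?_, ?_⟩
    · have h3 := (hol_lc (mem_chart_source ℂ p₂)).continuousAt.norm.tendsto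
      rw [lc_self, norm_zero] at h3
      exact h3.mono_left nhdsWithin_le_nhds
    · filter_upwards [eventually_lc_ne_zero p₂] with x hx
      exact norm_pos_iff.mpr hx
  have h4 := h1.pos_mul_atTop (norm_pos_iff.mpr h0) (tendsto_inv_nhdsGT_zero.comp h2)
  refine h4.congr' ?_
  filter_upwards [hφ] with x hx
  rw [hx, norm_div, div_eq_mul_inv]
  rfl

theorem eventually_of_punct_C2b {P : W → Prop} (h : ∀ᶠ x in 𝓝[≠] p, P x) (hp : P p) :
    ∀ᶠ x in 𝓝 p, P x := by
  filter_upwards [eventually_nhdsWithin_iff.mp h] with x hx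
  by_cases hxp : x = p
  · rw [hxp]; exact hp
  · exact hx hxp

theorem Mero.injOn (hn : ∀ p : W, ¬ ∃ g, IsGreen univ p g) (h : Mero p₁ p₂ φ)
    (hm : ∀ x : W, x ≠ p₂ → ∃ φ₀, Mero x p₂ φ₀) : InjOn φ {p₂}ᶜ := by
  classical
  intro x hx y hy hxy
  have hx' : x ≠ p₂ := hx
  have hy' : y ≠ p₂ := hy
  by_contra hne
  obtain ⟨φ₀, h₀⟩ := hm x hx'
  obtain ⟨e₁, he₁, hf₁⟩ := ((h.hol x hx').sub (hol_const (φ x))).exists_factor (sub_self _)
  obtain ⟨e₀, he₀, hz₀, hf₀⟩ := h₀.zero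
  obtain ⟨e, he, hz, hf⟩ := h.pole
  obtain ⟨e', he', hz', hf'⟩ := h₀.pole
  obtain ⟨K, C, hK, hC, hb⟩ := h.bdd
  obtain ⟨K₀, C₀, hK₀, hC₀, hb₀⟩ := h₀.bdd
  let H : W → ℂ := fun z => if z = x then e₁ x / e₀ x else if z = p₂ then e p₂ / e' p₂ else
    (φ z - φ x) / φ₀ z
  have hHx : H x = e₁ x / e₀ x := if_pos rfl
  have hHp : H p₂ = e p₂ / e' p₂ := by
    simp only [H]
    rw [if_neg hx'.symm, if_pos trivial]
  have hHz : ∀ z, z ≠ x → z ≠ p₂ → H z = (φ z - φ x) / φ₀ z := by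
    intro z h1 h2
    simp only [H]
    rw [if_neg h1, if_neg h2]
  have hH : ∀ z, Hol H z := by
    intro z
    by_cases h1 : z = x
    · rw [h1]
      refine (he₁.div he₀ hz₀).congr (eventually_of_punct_C2b ?_ hHx.symm)
      filter_upwards [eventually_lc_ne_zero x, nhdsWithin_le_nhds hf₁, nhdsWithin_le_nhds hf₀,
        nhdsWithin_le_nhds (eventually_ne_nhds hx'), self_mem_nhdsWithin] with z a1 a2 a3 a4 a5
      rw [hHz z a5 a4, a2, a3, mul_div_mul_right _ _ a1]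
    by_cases h2 : z = p₂
    · rw [h2]
      refine (((he.sub ((hol_const (φ x)).mul (hol_lc (mem_chart_source ℂ p₂)))).div he'
        hz').congr (eventually_of_punct_C2b ?_ ?_))
      · filter_upwards [eventually_lc_ne_zero p₂, hf, hf',
          nhdsWithin_le_nhds (eventually_ne_nhds hx'.symm), self_mem_nhdsWithin]
          with z a1 a2 a3 a4 a5
        rw [hHz z a4 a5, a2, a3, div_sub' a1, div_div_div_cancel_right₀ a1, mul_comm (φ x)]
      · beta_reduce
        rw [hHp, lc_self, mul_zero, sub_zero]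
    · refine (((h.hol z h2).sub (hol_const (φ x))).div (h₀.hol z h2) (h₀.ne z h1 h2)).congr ?_
      filter_upwards [eventually_ne_nhds h1, eventually_ne_nhds h2] with z a1 a2
      rw [hHz z a1 a2]
  have hcont : Continuous H := continuous_iff_continuousAt.mpr fun z => (hH z).continuousAt
  have hKc : IsCompact (K ∪ K₀ ∪ {x, p₂}) :=
    (hK.union hK₀).union (Set.toFinite _).isCompact
  obtain ⟨B, hB⟩ := hKc.exists_bound_of_continuousOn hcont.continuousOn
  have hbd : ∀ z, ‖H z‖ ≤ max B ((C + ‖φ x‖) * C₀) := by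
    intro z
    by_cases hz : z ∈ K ∪ K₀ ∪ {x, p₂}
    · exact (hB z hz).trans (le_max_left _ _)
    · simp only [mem_union, mem_insert_iff, mem_singleton_iff, not_or] at hz
      obtain ⟨⟨a1, a2⟩, a3, a4⟩ := hz
      refine le_trans ?_ (le_max_right _ _)
      rw [hHz z a3 a4, norm_div, div_eq_mul_inv]
      refine mul_le_mul ((norm_sub_le _ _).trans (by linarith [(hb z a1).2])) ?_
        (by positivity) (by positivity)
      exact inv_le_of_inv_le₀ hC₀ (hb₀ z a2).1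
  have h5 := eq_of_bdd hn hH hbd y p₂
  rw [hHz y (Ne.symm hne) hy', hHp, hxy, sub_self, zero_div] at h5
  exact div_ne_zero hz hz' h5.symm

theorem Mero.exists_inv (h : Mero p₁ p₂ φ) (hi : InjOn φ {p₂}ᶜ) (a : ℂ) : ∃ ψ : W → ℂ, ψ p₂ = 0 ∧
    (∀ x, x ≠ p₂ → ψ x = (φ x - a)⁻¹) ∧ (∀ x, (x ≠ p₂ → φ x ≠ a) → Hol ψ x) ∧
      InjOn ψ {x | x ≠ p₂ → φ x ≠ a} ∧ IsOpen {x | x ≠ p₂ → φ x ≠ a} := by
  classical
  let ψ : W → ℂ := fun x => if x = p₂ then 0 else (φ x - a)⁻¹
  have h1 : ψ p₂ = 0 := if_pos rfl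
  have h2 : ∀ x, x ≠ p₂ → ψ x = (φ x - a)⁻¹ := fun x hx => if_neg hx
  refine ⟨ψ, h1, h2, ?_, ?_, ?_⟩
  · intro x hx
    by_cases hxp : x = p₂
    · rw [hxp]
      obtain ⟨e, he, hz, hf⟩ := h.pole
      have hl := hol_lc (mem_chart_source ℂ p₂)
      refine (hl.div (he.sub ((hol_const a).mul hl)) ?_).congr (eventually_of_punct_C2b ?_ ?_)
      · rw [lc_self, mul_zero, sub_zero]; exact hz
      · filter_upwards [eventually_lc_ne_zero p₂, hf, self_mem_nhdsWithin] with z a1 a2 a3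
        rw [h2 z a3, a2, div_sub' a1, inv_div, mul_comm a]
      · beta_reduce
        rw [h1, lc_self, zero_div]
    · refine (((h.hol x hxp).sub (hol_const a)).inv (sub_ne_zero.mpr (hx hxp))).congr ?_
      filter_upwards [eventually_ne_nhds hxp] with z a1
      rw [h2 z a1]
  · intro x hx y hy hxy
    by_cases hxp : x = p₂ <;> by_cases hyp : y = p₂
    · rw [hxp, hyp]
    · rw [hxp, h1, h2 y hyp] at hxy
      exact absurd hxy.symm (inv_ne_zero (sub_ne_zero.mpr (hy hyp)))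
    · rw [hyp, h1, h2 x hxp] at hxy
      exact absurd hxy (inv_ne_zero (sub_ne_zero.mpr (hx hxp)))
    · rw [h2 x hxp, h2 y hyp, inv_inj, sub_left_inj] at hxy
      exact hi hxp hyp hxy
  · refine isOpen_iff_mem_nhds.mpr fun x hx => ?_
    by_cases hxp : x = p₂
    · rw [hxp]
      refine eventually_of_punct_C2b (P := fun x => x ≠ p₂ → φ x ≠ a) ?_ fun h => absurd rfl h
      filter_upwards [h.tendsto.eventually_gt_atTop ‖a‖] with z hz _ hza
      rw [hza] at hz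
      exact lt_irrefl _ hz
    · filter_upwards [(h.hol x hxp).continuousAt.eventually_ne (hx hxp)] with z hz _
      exact hz

end Pool.Agent.Lib.Unif
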