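import Pool.Agent.Lib.Unif.BI2

set_option autoImplicit false
set_option linter.unusedSectionVars false

open Set Filter Topology Metric
open scoped ComplexConjugate Manifold ContDiff

namespace Pool.Agent.Lib.Unif

variable {W : Type*} [TopologicalSpace W] [ChartedSpace ℂ W] [RS W]
  {p q x p₀ p₁ p₂ : W} {f f' e φ : W → ℂ} {u v w s g g' : W → ℝ} {r t R T M C : ℝ} {Ω U K D : Set W}
variable {W' W'' : Type*} [TopologicalSpace W'] [ChartedSpace ℂ W'] [RS W'] [TopologicalSpace W'']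
  [ChartedSpace ℂ W''] [RS W''] {σ : W' → W} {τ : W'' → W'}

theorem HolMap.comp (h : HolMap σ) (h' : HolMap τ) : HolMap (σ ∘ τ) :=
  fun w f hf => h' w (f ∘ σ) (h (τ w) f hf)

theorem AntiMap.comp (h : AntiMap σ) (h' : AntiMap τ) : HolMap (σ ∘ τ) := by
  intro w f hf
  refine (h' w _ (h (τ w) f hf)).congr (Eventually.of_forall fun x => ?_)
  simp only [Complex.conj_conj, Function.comp_apply]

theorem HolMap.comp_anti (h : HolMap σ) (h' : AntiMap τ) : AntiMap (σ ∘ τ) :=
  fun w f hf => h' w (f ∘ σ) (h (τ w) f hf)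

theorem AntiMap.comp_hol (h : AntiMap σ) (h' : HolMap τ) : AntiMap (σ ∘ τ) :=
  fun w f hf => h' w _ (h (τ w) f hf)

theorem ev_source_gd (η : W' ≃ₜ W) {y : W'} {p : W} (hy : η y ∈ (chartAt ℂ p).source) :
    ∀ᶠ x in 𝓝 y, η x ∈ (chartAt ℂ p).source :=
  η.continuous.continuousAt.eventually ((chartAt ℂ p).open_source.mem_nhds hy)

theorem not_both_gd (η : W' ≃ₜ W) {y : W'} (h : Hol (fun x => chartAt ℂ (η y) (η x)) y)
    (h' : Hol (fun x => conj (chartAt ℂ (η y) (η x))) y) : False := by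
  have h1 := h.const_of_conj h'
  have h2 := ev_source_gd η (mem_chart_source ℂ (η y))
  have h3 : ∀ᶠ x in 𝓝[≠] y, False := by
    filter_upwards [nhdsWithin_le_nhds h1, nhdsWithin_le_nhds h2, self_mem_nhdsWithin]
      with x a b c
    exact c (η.injective ((chartAt ℂ (η y)).injOn b (mem_chart_source ℂ (η y)) a))
  have := neBot_punct y
  exact h3.exists.elim fun _ h => h

theorem ev_hol_gd (η : W' ≃ₜ W) {y : W'} (h : Hol (fun x => chartAt ℂ (η y) (η x)) y) :
    ∀ᶠ y' in 𝓝 y, ∀ f : W → ℂ, Hol f (η y') → Hol (f ∘ η) y' := by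
  filter_upwards [h.eventually, ev_source_gd η (mem_chart_source ℂ (η y))] with y' a b f hf
  refine (a.comp ((hol_iff_chart b).1 hf)).congr ?_
  filter_upwards [ev_source_gd η b] with x hx
  simp only [Function.comp_apply, (chartAt ℂ (η y)).left_inv hx]

theorem ev_anti_gd (η : W' ≃ₜ W) {y : W'} (h : Hol (fun x => conj (chartAt ℂ (η y) (η x))) y) :
    ∀ᶠ y' in 𝓝 y, ∀ f : W → ℂ, Hol f (η y') → Hol (fun x => conj (f (η x))) y' := by
  filter_upwards [h.eventually, ev_source_gd η (mem_chart_source ℂ (η y))] with y' a b f hf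
  refine (a.comp (analyticAt_conj_conj ((hol_iff_chart b).1 hf))).congr ?_
  filter_upwards [ev_source_gd η b] with x hx
  simp only [Function.comp_apply, Complex.conj_conj, (chartAt ℂ (η y)).left_inv hx]

theorem HolMap.not_anti [Nonempty W'] (η : W' ≃ₜ W) (h : HolMap η) : ¬ AntiMap η := by
  intro h'
  obtain ⟨y⟩ := ‹Nonempty W'›
  have hc : Hol (chartAt ℂ (η y)) (η y) := hol_chart (mem_chart_source ℂ (η y))
  exact not_both_gd η (h y _ hc) (h' y _ hc)

theorem holMap_or_antiMap [PreconnectedSpace W'] (η : W' ≃ₜ W)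
    (h : ∀ y, Hol (fun x => chartAt ℂ (η y) (η x)) y ∨
      Hol (fun x => conj (chartAt ℂ (η y) (η x))) y) : HolMap η ∨ AntiMap η := by
  have hc : ∀ y, Hol (chartAt ℂ (η y)) (η y) := fun y => hol_chart (mem_chart_source ℂ (η y))
  let A : Set W' := {y | ∀ f : W → ℂ, Hol f (η y) → Hol (f ∘ η) y}
  have hA : IsOpen A := isOpen_iff_mem_nhds.2 fun y hy => ev_hol_gd η (hy _ (hc y))
  have hanti : ∀ y, y ∉ A → Hol (fun x => conj (chartAt ℂ (η y) (η x))) y := fun y hy =>
    (h y).resolve_left fun h1 => hy (ev_hol_gd η h1).self_of_nhds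
  have hB : IsOpen Aᶜ := by
    refine isOpen_iff_mem_nhds.2 fun y hy => ?_
    filter_upwards [ev_anti_gd η (hanti y hy)] with y' hy' hy''
    exact not_both_gd η (hy'' _ (hc y')) (hy' _ (hc y'))
  rcases isClopen_iff.1 ⟨isOpen_compl_iff.1 hB, hA⟩ with h0 | h0
  · refine Or.inr fun y => (ev_anti_gd η (hanti y ?_)).self_of_nhds
    rw [h0]
    exact notMem_empty y
  · refine Or.inl fun y => ?_
    have hy : y ∈ A := by rw [h0]; exact mem_univ y
    exact hy

end Pool.Agent.Lib.Unif
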