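import Pool.Agent.Lib.Unif.FB
import Pool.Agent.Lib.Unif.BI1

set_option autoImplicit false
set_option linter.unusedSectionVars false

open Set Filter Topology Metric
open scoped ComplexConjugate Manifold ContDiff

namespace Pool.Agent.Lib.Unif

namespace ORAux

/-- The identity or the conjugation. -/
noncomputable def jj (s : ℤˣ) (z : ℂ) : ℂ := if s = 1 then z else conj z

theorem jj_one (z : ℂ) : jj 1 z = z := if_pos rfl

theorem jj_neg (z : ℂ) : jj (-1) z = conj z := if_neg (by decide)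

theorem jj_jj (s : ℤˣ) (z : ℂ) : jj s (jj s z) = z := by
  rcases Int.units_eq_one_or s with rfl | rfl
  · rw [jj_one, jj_one]
  · rw [jj_neg, jj_neg, Complex.conj_conj]

theorem jj_mul_neg (s : ℤˣ) (z : ℂ) : jj (s * -1) z = conj (jj s z) := by
  rcases Int.units_eq_one_or s with rfl | rfl
  · rw [one_mul, jj_neg, jj_one]
  · rw [neg_mul_neg, one_mul, jj_one, jj_neg, Complex.conj_conj]

theorem continuous_jj (s : ℤˣ) : Continuous (jj s) := by
  rcases Int.units_eq_one_or s with rfl | rfl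
  · exact continuous_id.congr fun z => (jj_one z).symm
  · exact Complex.continuous_conj.congr fun z => (jj_neg z).symm

/-- The same map as a homeomorphism. -/
noncomputable def jh (s : ℤˣ) : ℂ ≃ₜ ℂ where
  toFun := jj s
  invFun := jj s
  left_inv := jj_jj s
  right_inv := jj_jj s
  continuous_toFun := continuous_jj s
  continuous_invFun := continuous_jj s

/-- Analytic after applying `jj s`. -/
def An (s : ℤˣ) (F : ℂ → ℂ) (z : ℂ) : Prop := AnalyticAt ℂ (fun w => jj s (F w)) z

theorem an_one {F : ℂ → ℂ} {z : ℂ} : An 1 F z ↔ AnalyticAt ℂ F z := by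
  simp only [An, jj_one]

theorem an_neg {F : ℂ → ℂ} {z : ℂ} : An (-1) F z ↔ AnalyticAt ℂ (fun w => conj (F w)) z := by
  simp only [An, jj_neg]

theorem An.comp {s t : ℤˣ} {F G : ℂ → ℂ} {z : ℂ} (hF : An s F (G z)) (hG : An t G z) :
    An (s * t) (F ∘ G) z := by
  rcases Int.units_eq_one_or t with rfl | rfl
  · rw [mul_one]
    exact AnalyticAt.comp (g := fun w => jj s (F w)) hF (an_one.1 hG)
  · have h1 := analyticAt_conj_conj hF
    have h2 := AnalyticAt.comp (f := fun w => conj (G w)) (x := z) h1 (an_neg.1 hG)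
    refine h2.congr (Eventually.of_forall fun w => ?_)
    simp only [Function.comp_apply, Complex.conj_conj, jj_mul_neg]

theorem An.unique {s t : ℤˣ} {F : ℂ → ℂ} {z : ℂ} (hi : LocInj F z) (hs : An s F z)
    (ht : An t F z) : s = t := by
  rcases Int.units_eq_one_or s with rfl | rfl <;> rcases Int.units_eq_one_or t with rfl | rfl
  · rfl
  · exact absurd (an_neg.1 ht) (not_anti_of_locInj hi (an_one.1 hs))
  · exact absurd (an_neg.1 hs) (not_anti_of_locInj hi (an_one.1 ht))
  · rfl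

theorem An.congr {s : ℤˣ} {F G : ℂ → ℂ} {z : ℂ} (h : An s F z) (e : F =ᶠ[𝓝 z] G) : An s G z :=
  AnalyticAt.congr h (e.mono fun w hw => by simp only [hw])

theorem an_jj (s : ℤˣ) (z : ℂ) : An s (jj s) z := by
  have : (fun w => jj s (jj s w)) = fun w => w := funext (jj_jj s)
  rw [An, this]
  exact analyticAt_id

variable {E : Type*} [TopologicalSpace E]

theorem locInj_trans (φ ψ : OpenPartialHomeomorph E ℂ) {x : E} (h1 : x ∈ φ.source)
    (h2 : x ∈ ψ.source) : LocInj (φ ∘ ψ.symm) (ψ x) := by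
  refine ⟨ψ.target ∩ ψ.symm ⁻¹' φ.source, ?_, ?_⟩
  · refine (ψ.isOpen_inter_preimage_symm φ.open_source).mem_nhds ⟨ψ.map_source h2, ?_⟩
    rw [mem_preimage, ψ.left_inv h2]
    exact h1
  · intro z hz w hw h
    exact ψ.symm.injOn hz.1 hw.1 (φ.injOn hz.2 hw.2 h)

open Classical in
/-- The sign of a transition map. -/
noncomputable def sg (φ ψ : OpenPartialHomeomorph E ℂ) (x : E) : ℤˣ :=
  if AnalyticAt ℂ (φ ∘ ψ.symm) (ψ x) then 1 else -1

theorem an_sg {φ ψ : OpenPartialHomeomorph E ℂ} {x : E} (h : Di (φ ∘ ψ.symm) (ψ x)) :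
    An (sg φ ψ x) (φ ∘ ψ.symm) (ψ x) := by
  unfold sg
  split_ifs with h1
  · exact an_one.2 h1
  · exact an_neg.2 (h.resolve_left h1)

end ORAux

open ORAux

theorem exists_orient {E : Type*} [TopologicalSpace E] [SimplyConnectedSpace E]
    (χ : E → OpenPartialHomeomorph E ℂ) (hm : ∀ a, a ∈ (χ a).source)
    (hd : ∀ a b x, x ∈ (χ a).source → x ∈ (χ b).source → Di (χ a ∘ (χ b).symm) (χ b x)) :
    ∃ _ : ChartedSpace ℂ E, RS E ∧
      ∀ a, (∀ x, chartAt ℂ a x = χ a x) ∨ ∀ x, chartAt ℂ a x = conj (χ a x) := by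
  have : LocallyPathConnectedSpace E := by
    let _ : ChartedSpace ℂ E := ⟨range χ, χ, hm, fun a => ⟨a, rfl⟩⟩
    exact ChartedSpace.locallyPathConnectedSpace ℂ E
  have hl : ∀ a b x, x ∈ (χ a).source → x ∈ (χ b).source →
      ∀ᶠ y in 𝓝 x, sg (χ a) (χ b) y = sg (χ a) (χ b) x := by
    intro a b x ha hb
    have h1 := ((χ b).continuousAt hb).eventually
      (AnalyticAt.eventually_analyticAt (an_sg (hd a b x ha hb)))
    filter_upwards [h1, (χ a).open_source.mem_nhds ha, (χ b).open_source.mem_nhds hb]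
      with y hy hya hyb
    exact An.unique (locInj_trans _ _ hya hyb) (an_sg (hd a b y hya hyb)) hy
  have hc : ∀ a b c x, x ∈ (χ a).source → x ∈ (χ b).source → x ∈ (χ c).source →
      sg (χ a) (χ b) x * sg (χ b) (χ c) x = sg (χ a) (χ c) x := by
    intro a b c x ha hb hc
    have e0 : (χ b ∘ (χ c).symm) (χ c x) = χ b x := by
      rw [Function.comp_apply, (χ c).left_inv hc]
    have h1 : An (sg (χ a) (χ b) x) (χ a ∘ (χ b).symm) ((χ b ∘ (χ c).symm) (χ c x)) := by
      rw [e0]
      exact an_sg (hd a b x ha hb)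
    have h2 := h1.comp (an_sg (hd b c x hb hc))
    have h3 : ∀ᶠ w in 𝓝 (χ c x), (χ c).symm w ∈ (χ b).source :=
      ((χ c).tendsto_symm hc).eventually ((χ b).open_source.mem_nhds hb)
    have h4 : An (sg (χ a) (χ b) x * sg (χ b) (χ c) x) (χ a ∘ (χ c).symm) (χ c x) :=
      h2.congr (h3.mono fun w hw => by
        simp only [Function.comp_apply, (χ b).left_inv hw])
    exact An.unique (locInj_trans _ _ ha hc) h4 (an_sg (hd a c x ha hc))
  obtain ⟨s, hs, hsc⟩ := cocycle_trivial (fun a => (χ a).source) (fun a => (χ a).open_source) hm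
    (fun a b x => sg (χ a) (χ b) x) hl hc
  have hV : ∀ a, IsOpen {x | x ∈ (χ a).source ∧ s a x = s a a} := by
    intro a
    rw [isOpen_iff_mem_nhds]
    intro x hx
    filter_upwards [hs a x hx.1, (χ a).open_source.mem_nhds hx.1] with y hy hya
    exact ⟨hya, hy.trans hx.2⟩
  let ch : E → OpenPartialHomeomorph E ℂ := fun a =>
    ((χ a).restrOpen _ (hV a)).transHomeomorph (jh (s a a))
  have hsrc : ∀ a x, x ∈ (ch a).source → x ∈ (χ a).source ∧ s a x = s a a := fun a x hx => hx.2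
  have happ : ∀ a x, ch a x = jj (s a a) (χ a x) := fun a x => rfl
  have hsymm : ∀ a z, (ch a).symm z = (χ a).symm (jj (s a a) z) := fun a z => rfl
  let cs : ChartedSpace ℂ E := ⟨range ch, ch, fun a => ⟨hm a, hm a, rfl⟩, fun a => ⟨a, rfl⟩⟩
  refine ⟨cs, ⟨fun p q x hp hq => ?_⟩, fun a => ?_⟩
  · obtain ⟨hp1, hp2⟩ := hsrc p x hp
    obtain ⟨hq1, hq2⟩ := hsrc q x hq
    have e : s p p = sg (χ p) (χ q) x * s q q := by
      rw [← hp2, ← hq2]
      exact hsc p q x hp1 hq1
    have h1 : An (sg (χ p) (χ q) x) (χ p ∘ (χ q).symm) (jj (s q q) (jj (s q q) (χ q x))) := by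
      rw [jj_jj]
      exact an_sg (hd p q x hp1 hq1)
    have h2 := h1.comp (an_jj (s q q) _)
    rw [← e] at h2
    exact h2
  · rcases Int.units_eq_one_or (s a a) with h | h
    · exact Or.inl fun x => (happ a x).trans (by rw [h, jj_one])
    · exact Or.inr fun x => (happ a x).trans (by rw [h, jj_neg])

end Pool.Agent.Lib.Unif
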