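import Pool.Agent.Lib.Unif.UC2

set_option autoImplicit false
set_option linter.unusedSectionVars false

open Set Filter Topology Metric
open scoped ComplexConjugate Manifold ContDiff

namespace Pool.Agent.Lib.Unif

universe u

theorem galois_of_cover {E X : Type*} [TopologicalSpace E] [TopologicalSpace X]
    [SimplyConnectedSpace E] [LocallyPathConnectedSpace E] {π : E → X} (h : IsCoveringMap π) :
    Galois π := by
  refine ⟨fun a b hab => ?_, fun τ hτ a ha x => ?_⟩
  · obtain ⟨F, ⟨hF, hF'⟩, -⟩ := h.existsUnique_continuousMap_lifts ⟨π, h.continuous⟩ a b hab.symm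
    obtain ⟨G, ⟨hG, hG'⟩, -⟩ := h.existsUnique_continuousMap_lifts ⟨π, h.continuous⟩ b a hab
    have h1 : ∀ x, π (F x) = π x := fun x => congrFun hF' x
    have h2 : ∀ x, π (G x) = π x := fun x => congrFun hG' x
    have h3 : G ∘ F = id := h.eq_of_comp_eq (G.continuous.comp F.continuous) continuous_id
      (funext fun x => (h2 _).trans (h1 x)) a (by simp [hF, hG])
    have h4 : F ∘ G = id := h.eq_of_comp_eq (F.continuous.comp G.continuous) continuous_id
      (funext fun x => (h1 _).trans (h2 x)) b (by simp [hF, hG])
    exact ⟨⟨⟨F, G, fun x => congrFun h3 x, fun x => congrFun h4 x⟩, F.continuous, G.continuous⟩,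
      h1, hF⟩
  · exact congrFun (h.eq_of_comp_eq τ.continuous continuous_id (funext hτ) a ha) x

theorem t2_of_cover {E X : Type*} [TopologicalSpace E] [TopologicalSpace X] [T2Space X]
    {π : E → X} (h : IsCoveringMap π) : T2Space E := by
  refine ⟨fun a b hab => ?_⟩
  by_cases hp : π a = π b
  · exact h.isSeparatedMap a b hp hab
  · obtain ⟨U, V, hU, hV, ha, hb, hd⟩ := t2_separation hp
    exact ⟨π ⁻¹' U, π ⁻¹' V, hU.preimage h.continuous, hV.preimage h.continuous, ha, hb,
      hd.preimage π⟩

theorem locPath_of_loc {E X : Type*} [TopologicalSpace E] [TopologicalSpace X]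
    [LocallyPathConnectedSpace X] {π : E → X} (h : IsLocalHomeomorph π) :
    LocallyPathConnectedSpace E := by
  choose e he he' using h
  let _ : ChartedSpace X E :=
    { atlas := range e
      chartAt := e
      mem_chart_source := he
      chart_mem_atlas := mem_range_self }
  exact ChartedSpace.locallyPathConnectedSpace X E

theorem exists_cover_charted (V : Type*) [NormedAddCommGroup V] [NormedSpace ℝ V] (X : Type u)
    [TopologicalSpace X] [ChartedSpace V X] [ConnectedSpace X] [T2Space X] :
    ∃ (E : Type u) (_ : TopologicalSpace E) (π : E → X), IsCoveringMap π ∧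
      Function.Surjective π ∧ SimplyConnectedSpace E ∧ T2Space E ∧ Galois π := by
  have h1 : LocallyPathConnectedSpace X := ChartedSpace.locallyPathConnectedSpace V X
  have h2 : PathConnectedSpace X := PathConnectedSpace.of_locallyPathConnectedSpace
  obtain ⟨E, tE, π, hc, hs, hsc⟩ := exists_universal_cover X (loops_trivial_of_charted V)
  have h3 : LocallyPathConnectedSpace E := locPath_of_loc hc.isLocalHomeomorph
  exact ⟨E, tE, π, hc, hs, hsc, t2_of_cover hc, galois_of_cover hc⟩

end Pool.Agent.Lib.Unif
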