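import Pool.Agent.Lib.Unif.Atlas2
import Pool.Agent.Lib.Unif.OR
import Pool.Agent.Lib.Unif.GD
import Pool.Agent.Lib.Unif.UC3

set_option autoImplicit false
set_option linter.unusedSectionVars false

open Set Filter Topology Metric
open scoped ComplexConjugate Manifold ContDiff

namespace Pool.Agent.Lib.Unif

universe u

theorem di_congr_cc {F G : ℂ → ℂ} {z : ℂ} (h : Di F z) (he : F =ᶠ[𝓝 z] G) : Di G z := by
  rcases h with h | h
  · exact Or.inl (h.congr he)
  · exact Or.inr (h.congr (he.mono fun w hw => congrArg conj hw))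

theorem imm_cc {S : Type*} [TopologicalSpace S] [ChartedSpace (EuclideanSpace ℝ (Fin 2)) S]
    {W : Type*} [TopologicalSpace W] {π : W → S} (hπ : Continuous π)
    {c : OpenPartialHomeomorph W ℂ} {ψ : OpenPartialHomeomorph S ℂ} {w : W} (hw : w ∈ c.source)
    (hψ : π w ∈ ψ.source) (h1 : ContMDiffAt 𝓘(ℝ, ℂ) (𝓡 2) 1 ψ.symm (ψ (π w)))
    (h2 : MDifferentiableAt (𝓡 2) 𝓘(ℝ, ℂ) ψ (π w)) (j : ℂ →L[ℝ] ℂ) (hj : ∀ z, j (j z) = z)
    (hc : ∀ x, c x = j (ψ (π x))) : Imm (π ∘ c.symm) (c w) := by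
  have e1 : ∀ᶠ ζ in 𝓝 (c w), c (c.symm ζ) = ζ := c.eventually_right_inverse' hw
  have e2 : ∀ᶠ ζ in 𝓝 (c w), π (c.symm ζ) ∈ ψ.source :=
    ((hπ.tendsto w).comp (c.tendsto_symm hw)).eventually (ψ.open_source.mem_nhds hψ)
  have e3 : π ∘ c.symm =ᶠ[𝓝 (c w)] ψ.symm ∘ j := by
    filter_upwards [e1, e2] with ζ k1 k2
    have k3 : j ζ = ψ (π (c.symm ζ)) := by
      rw [← hj (ψ (π (c.symm ζ))), ← hc, k1]
    show π (c.symm ζ) = ψ.symm (j ζ)
    rw [k3, ψ.left_inv k2]
  have e4 : j (c w) = ψ (π w) := by rw [hc, hj]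
  refine ⟨?_, j ∘ ψ, ?_, ?_⟩
  · refine ContMDiffAt.congr_of_eventuallyEq ?_ e3
    exact ContMDiffAt.comp (c w) (by rw [e4]; exact h1) j.contDiff.contMDiff.contMDiffAt
  · have e5 : (π ∘ c.symm) (c w) = π w := congrArg π (c.left_inv hw)
    rw [e5]
    exact (j.mdifferentiableAt (x := ψ (π w))).comp (π w) h2
  · filter_upwards [e1] with ζ k1
    exact (hc _).symm.trans k1

theorem exists_ccov (S : Type u) [TopologicalSpace S] [ChartedSpace (EuclideanSpace ℝ (Fin 2)) S]
    [IsManifold (𝓡 2) ∞ S] [T2Space S] [CompactSpace S] [ConnectedSpace S] :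
    ∃ (W : Type u) (_ : TopologicalSpace W) (_ : ChartedSpace ℂ W) (π : W → S), RS W ∧ T2Space W ∧
      SimplyConnectedSpace W ∧ CCov π := by
  obtain ⟨E, _, π, hcov, hsurj, hsc, ht2, hgal⟩ :=
    exists_cover_charted (EuclideanSpace ℝ (Fin 2)) S
  obtain ⟨ψ, hψ, hsm, hdi⟩ := exists_di_atlas S
  choose η hη hπη using hcov.isLocalHomeomorph
  have hηx : ∀ a x, η a x = π x := fun a x => (congrFun (hπη a) x).symm
  have hχ : ∀ a x, (η a).trans (ψ (π a)) x = ψ (π a) (π x) := fun a x =>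
    congrArg (ψ (π a)) (hηx a x)
  have hs : ∀ a x, x ∈ ((η a).trans (ψ (π a))).source → π x ∈ (ψ (π a)).source := fun a x hx => by
    rw [← hηx a x]
    exact hx.2
  obtain ⟨cs, hrs, hj⟩ := exists_orient (fun a => (η a).trans (ψ (π a)))
    (fun a => ⟨hη a, by
      show η a a ∈ (ψ (π a)).source
      rw [hηx]
      exact hψ _⟩)
    (fun a b x ha hb => by
      have k1 := hdi (π a) (π b) (π x) (hs a x ha) (hs b x hb)
      rw [← hχ b x] at k1
      refine di_congr_cc k1 ?_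
      filter_upwards [((η b).trans (ψ (π b))).open_target.mem_nhds
        (((η b).trans (ψ (π b))).map_source hb)] with z hz
      show ψ (π a) ((ψ (π b)).symm z) =
        (η a).trans (ψ (π a)) ((η b).symm ((ψ (π b)).symm z))
      rw [hχ, ← hηx b ((η b).symm ((ψ (π b)).symm z)), (η b).right_inv hz.2])
  simp only [hχ] at hj
  refine ⟨E, inferInstance, cs, π, hrs, ht2, hsc, hcov, hsurj, hgal, fun w => ?_, fun τ hτ => ?_⟩
  · rcases hj w with h | h
    · exact imm_cc hcov.continuous (mem_chart_source ℂ w) (hψ _) (hsm _).1 (hsm _).2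
        (ContinuousLinearMap.id ℝ ℂ) (fun _ => rfl) h
    · exact imm_cc hcov.continuous (mem_chart_source ℂ w) (hψ _) (hsm _).1 (hsm _).2
        (Complex.conjCLE : ℂ →L[ℝ] ℂ) (fun z => Complex.conj_conj z) h
  · refine holMap_or_antiMap τ fun y => ?_
    have k : Hol (chartAt ℂ y) y := hol_chart (mem_chart_source ℂ y)
    rcases hj y with h | h <;> rcases hj (τ y) with h' | h'
    · exact Or.inl (k.congr (Eventually.of_forall fun x => by simp only [h, h', hτ]))
    · exact Or.inr (k.congr (Eventually.of_forall fun x => by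
        simp only [h, h', hτ, Complex.conj_conj]))
    · exact Or.inr (k.congr (Eventually.of_forall fun x => by simp only [h, h', hτ]))
    · exact Or.inl (k.congr (Eventually.of_forall fun x => by simp only [h, h', hτ]))

end Pool.Agent.Lib.Unif
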