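import Pool.Agent.Lib.Unif.Defs

set_option autoImplicit false
set_option linter.unusedSectionVars false

open Set Filter Topology Metric
open scoped ComplexConjugate Manifold ContDiff

namespace Pool.Agent.Lib.Unif

theorem tanh_le_sp {a b : ℝ} (h : Real.tanh a ≤ Real.tanh b) : a ≤ b := by
  have := Real.artanh_le_artanh (Real.neg_one_lt_tanh a) (Real.tanh_lt_one b) h
  rwa [Real.artanh_tanh, Real.artanh_tanh] at this

open scoped UpperHalfPlane in
theorem ne_sp (z w : ℍ) : (z : ℂ) - conj (w : ℂ) ≠ 0 := fun h => by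
  have h1 := congrArg Complex.im h
  have h2 := z.im_pos
  have h3 := w.im_pos
  simp only [Complex.sub_im, Complex.conj_im, UpperHalfPlane.coe_im, Complex.zero_im] at h1
  linarith

open scoped UpperHalfPlane in
theorem norm_sp (z w : ℍ) :
    ‖((z : ℂ) - w) / ((z : ℂ) - conj (w : ℂ))‖ = Real.tanh (dist z w / 2) := by
  rw [UpperHalfPlane.tanh_half_dist, norm_div, dist_eq_norm, dist_eq_norm]

theorem one_sub_ne_sp {ζ : ℂ} (h : ‖ζ‖ < 1) : 1 - ζ ≠ 0 := fun e => by
  rw [← sub_eq_zero.1 e, norm_one] at h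
  exact lt_irrefl _ h

open scoped UpperHalfPlane in
theorem im_pos_sp (w : ℍ) {ζ : ℂ} (h : ‖ζ‖ < 1) :
    0 < (((w : ℂ) - conj (w : ℂ) * ζ) / (1 - ζ)).im := by
  have h1 : 0 < Complex.normSq (1 - ζ) := Complex.normSq_pos.2 (one_sub_ne_sp h)
  have h2 : ζ.re * ζ.re + ζ.im * ζ.im < 1 := by
    rw [← Complex.normSq_apply, Complex.normSq_eq_norm_sq]
    nlinarith [norm_nonneg ζ]
  have h3 := w.im_pos
  rw [Complex.div_im, ← sub_div]
  refine div_pos ?_ h1
  simp only [Complex.sub_im, Complex.sub_re, Complex.mul_im, Complex.mul_re, Complex.conj_re,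
    Complex.conj_im, Complex.one_re, Complex.one_im, UpperHalfPlane.coe_im, UpperHalfPlane.coe_re]
  nlinarith [mul_pos h3 (sub_pos.2 h2)]

open scoped UpperHalfPlane in
theorem hol_sp {f : ℍ → ℍ} {F : ℂ → ℂ} (hF : ∀ z : ℍ, F z = f z)
    (h : ∀ z : ℍ, AnalyticAt ℂ F z) (z w : ℍ) : dist (f z) (f w) ≤ dist z w := by
  let J : ℂ → ℂ := fun ζ => ((w : ℂ) - conj (w : ℂ) * ζ) / (1 - ζ)
  let g : ℂ → ℂ := fun ζ => (F (J ζ) - f w) / (F (J ζ) - conj (f w : ℂ))
  have hd : DifferentiableOn ℂ g (ball 0 1) := fun ζ hζ => by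
    have h1 := mem_ball_zero_iff.1 hζ
    have hJ : DifferentiableAt ℂ J ζ :=
      DifferentiableAt.div (by fun_prop) (by fun_prop) (one_sub_ne_sp h1)
    have h2 : DifferentiableAt ℂ (fun ζ => F (J ζ)) ζ :=
      (h ⟨J ζ, im_pos_sp w h1⟩).differentiableAt.comp ζ hJ
    refine (DifferentiableAt.div (h2.sub_const _) (h2.sub_const _) ?_).differentiableWithinAt
    have h3 := ne_sp (f ⟨J ζ, im_pos_sp w h1⟩) (f w)
    rwa [← hF] at h3
  have hm : MapsTo g (ball 0 1) (closedBall 0 1) := fun ζ hζ => by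
    have h1 := mem_ball_zero_iff.1 hζ
    have h3 := norm_sp (f ⟨J ζ, im_pos_sp w h1⟩) (f w)
    rw [← hF] at h3
    exact mem_closedBall_zero_iff.2 (h3.le.trans (Real.tanh_lt_one _).le)
  have h0 : g 0 = 0 := by simp [g, J, hF]
  have h1 : ‖((z : ℂ) - w) / ((z : ℂ) - conj (w : ℂ))‖ < 1 :=
    (norm_sp z w).trans_lt (Real.tanh_lt_one _)
  have h2 := Complex.norm_le_norm_of_mapsTo_ball hd hm h0 h1
  have h3 : J (((z : ℂ) - w) / ((z : ℂ) - conj (w : ℂ))) = z := by
    have e1 := ne_sp z w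
    rw [div_eq_iff (one_sub_ne_sp h1)]
    field_simp
    ring
  simp only [g, h3, hF, norm_sp] at h2
  have := tanh_le_sp h2
  linarith

open scoped UpperHalfPlane in
theorem dist_le_of_di {f : ℍ → ℍ} {F : ℂ → ℂ} (hF : ∀ z : ℍ, F z = f z)
    (h : (∀ z : ℍ, AnalyticAt ℂ F z) ∨ ∀ z : ℍ, AnalyticAt ℂ (fun w => conj (F w)) z) (z w : ℍ) :
    dist (f z) (f w) ≤ dist z w := by
  rcases h with h | h
  · exact hol_sp hF h z w
  · have h1 := hol_sp (f := fun z => ⟨-conj (f z : ℂ), by simpa using (f z).im_pos⟩)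
      (F := fun w => -conj (F w)) (fun z => by rw [hF]) (fun z => (h z).neg) z w
    refine le_of_eq_of_le ?_ h1
    rw [UpperHalfPlane.dist_eq, UpperHalfPlane.dist_eq]
    simp only [UpperHalfPlane.mk_im, Complex.neg_im, Complex.conj_im, neg_neg,
      UpperHalfPlane.coe_im, dist_neg_neg, Complex.dist_conj_conj]

end Pool.Agent.Lib.Unif
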