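import Pool.Agent.Lib.Unif.Imm
import Pool.Agent.Lib.Unif.SP

set_option autoImplicit false
set_option linter.unusedSectionVars false

open Set Filter Topology Metric
open scoped ComplexConjugate Manifold ContDiff

namespace Pool.Agent.Lib.Unif

variable {S : Type*} [TopologicalSpace S] [ChartedSpace (EuclideanSpace ℝ (Fin 2)) S]
  [IsManifold (𝓡 2) ∞ S]
  {W : Type*} [TopologicalSpace W] [ChartedSpace ℂ W] [RS W] [T2Space W] [SimplyConnectedSpace W]
  {π : W → S} {φ : W → ℂ} {p₁ p₂ w : W}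

open scoped UpperHalfPlane in
theorem coe_cmd_dh : ContMDiff 𝓘(ℝ, ℂ) 𝓘(ℝ, ℂ) 1 ((↑) : ℍ → ℂ) :=
  contMDiff_isOpenEmbedding UpperHalfPlane.isOpenEmbedding_coe

open scoped UpperHalfPlane in
theorem coe_inj_dh (z : ℍ) :
    Function.Injective (mfderiv 𝓘(ℝ, ℂ) 𝓘(ℝ, ℂ) ((↑) : ℍ → ℂ) z) := by
  have h1 : MDifferentiableAt 𝓘(ℝ, ℂ) 𝓘(ℝ, ℂ) UpperHalfPlane.ofComplex (z : ℂ) :=
    ((contMDiffOn_isOpenEmbedding_symm (n := 1) UpperHalfPlane.isOpenEmbedding_coe).contMDiffAt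
      (UpperHalfPlane.isOpenEmbedding_coe.isOpen_range.mem_nhds ⟨z, rfl⟩)).mdifferentiableAt
      one_ne_zero
  have h2 : MDifferentiableAt 𝓘(ℝ, ℂ) 𝓘(ℝ, ℂ) ((↑) : ℍ → ℂ) z :=
    (coe_cmd_dh z).mdifferentiableAt one_ne_zero
  have h3 := mfderiv_comp z h1 h2
  have h4 : UpperHalfPlane.ofComplex ∘ ((↑) : ℍ → ℂ) = id :=
    funext fun x => UpperHalfPlane.ofComplex_apply x
  rw [h4, mfderiv_id] at h3
  intro a b hab
  have ha : a = _ := DFunLike.congr_fun h3 a
  have hb : b = _ := DFunLike.congr_fun h3 b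
  exact ha.trans ((congrArg (mfderiv 𝓘(ℝ, ℂ) 𝓘(ℝ, ℂ) UpperHalfPlane.ofComplex (z : ℂ)) hab).trans
    hb.symm)

theorem locInj_dh (hi : Function.Injective φ) (x : W) : LocInj φ x :=
  ⟨univ, univ_mem, hi.injOn⟩

open scoped UpperHalfPlane in
theorem exists_homeo_dh (hφ : ∀ x, Hol φ x) (hi : Function.Injective φ)
    (hr : range φ = {z : ℂ | 0 < z.im}) {G : ℂ → W} (hG : ∀ x, G (φ x) = x) :
    ∃ c : ℍ ≃ₜ W, (∀ z : ℍ, c z = G z) ∧ ∀ x, ((c.symm x : ℍ) : ℂ) = φ x := by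
  have h1 : ∀ x, 0 < (φ x).im := fun x => by
    have : φ x ∈ range φ := ⟨x, rfl⟩
    rwa [hr] at this
  have h2 : ∀ z : ℍ, ∃ x, φ x = z := fun z => by
    have : (z : ℂ) ∈ range φ := by
      rw [hr]
      exact z.im_pos
    exact this
  refine ⟨{ toFun := fun z => G z
            invFun := fun x => ⟨φ x, h1 x⟩
            left_inv := fun z => ?_
            right_inv := fun x => hG x
            continuous_toFun := ?_
            continuous_invFun := ?_ }, fun _ => rfl, fun _ => rfl⟩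
  · obtain ⟨x, hx⟩ := h2 z
    apply UpperHalfPlane.ext
    show φ (G z) = z
    rw [← hx, hG]
  · refine continuous_iff_continuousAt.2 fun z => ?_
    obtain ⟨x, hx⟩ := h2 z
    have h3 : ContinuousAt G (z : ℂ) := by
      rw [← hx]
      exact (hφ x).continuousAt_inv (locInj_dh hi x) (Eventually.of_forall hG)
    exact h3.comp UpperHalfPlane.continuous_coe.continuousAt
  · exact (continuous_iff_continuousAt.2 fun x => (hφ x).continuousAt).upperHalfPlaneMk h1

open scoped UpperHalfPlane in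
theorem dist_le_dh (hφ : ∀ x, Hol φ x) (hi : Function.Injective φ) {G : ℂ → W}
    (hG : ∀ x, G (φ x) = x) {c : ℍ ≃ₜ W} (hc : ∀ z : ℍ, c z = G z)
    (hc' : ∀ x, ((c.symm x : ℍ) : ℂ) = φ x) {τ : W → W} (hτ : HolMap τ ∨ AntiMap τ) (z w : ℍ) :
    dist (c.symm (τ (c z))) (c.symm (τ (c w))) ≤ dist z w := by
  have h1 : ∀ z : ℍ, φ (c z) = z := fun z => by rw [← hc', c.symm_apply_apply]
  refine dist_le_of_di (f := fun z => c.symm (τ (c z))) (F := (φ ∘ τ) ∘ G) (fun z => ?_) ?_ z w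
  · rw [hc', hc]
    rfl
  · rcases hτ with hτ | hτ
    · refine Or.inl fun z => ?_
      have := (hφ (c z)).analyticAt_inv (locInj_dh hi _) (Eventually.of_forall hG)
        (hτ (c z) φ (hφ _))
      rwa [h1] at this
    · refine Or.inr fun z => ?_
      have := (hφ (c z)).analyticAt_inv (locInj_dh hi _) (Eventually.of_forall hG)
        (hτ (c z) φ (hφ _))
      rwa [h1] at this

open scoped UpperHalfPlane in
theorem CCov.unif_hyp (h : CCov π) (hφ : ∀ x, Hol φ x) (hi : Function.Injective φ)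
    (hr : range φ = {z : ℂ | 0 < z.im}) : Unif1 ℍ ℂ S := by
  have hG : ∀ x, Function.invFun φ (φ x) = x := Function.leftInverse_invFun hi
  obtain ⟨c, hc, hc'⟩ := exists_homeo_dh hφ hi hr hG
  have h1 : ∀ z : ℍ, φ (c z) = z := fun z => by rw [← hc', c.symm_apply_apply]
  have h2 : ∀ z : ℍ, ContMDiffAt 𝓘(ℝ, ℂ) (𝓡 2) 1 (π ∘ c) z ∧
      Function.Injective (mfderiv 𝓘(ℝ, ℂ) (𝓡 2) (π ∘ c) z) := fun z => by
    have h3 := h.imm_inv (hφ (c z)) (locInj_dh hi _) (Eventually.of_forall hG)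
    rw [h1] at h3
    exact Imm.comp (a := ((↑) : ℍ → ℂ)) h3 (coe_cmd_dh z) (coe_inj_dh z)
      (Eventually.of_forall fun y => congrArg π (hc y))
  refine ⟨π ∘ c, h.cov.comp_homeomorph c, h.surj.comp c.surjective, fun z => (h2 z).1,
    fun z => (h2 z).2, fun x y hxy => ?_⟩
  obtain ⟨τ, hτ, hxy'⟩ := h.gal.trans (c x) (c y) hxy
  have hτ' : ∀ x, π (τ.symm x) = π x := fun x => by
    rw [← hτ (τ.symm x), τ.apply_symm_apply]
  refine ⟨{ toEquiv := ((c.trans τ).trans c.symm).toEquiv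
            isometry_toFun := Isometry.of_dist_eq fun a b => le_antisymm ?_ ?_ }, fun z => ?_, ?_⟩
  · exact dist_le_dh hφ hi hG hc hc' (h.deck τ hτ) a b
  · have := dist_le_dh hφ hi hG hc hc' (h.deck τ.symm hτ') (c.symm (τ (c a))) (c.symm (τ (c b)))
    simp only [Homeomorph.apply_symm_apply, Homeomorph.symm_apply_apply] at this
    exact this
  · show π (c (c.symm (τ (c z)))) = π (c z)
    rw [c.apply_symm_apply, hτ]
  · show c.symm (τ (c x)) = y
    rw [hxy', c.symm_apply_apply]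

end Pool.Agent.Lib.Unif
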