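import Pool.Agent.Lib.Unif.Har
import Pool.Agent.Lib.Unif.Fam
import Pool.Agent.Lib.Unif.CN

set_option autoImplicit false
set_option linter.unusedSectionVars false

open Set Filter Topology Metric
open scoped ComplexConjugate Manifold ContDiff

namespace Pool.Agent.Lib.Unif

variable {W : Type*} [TopologicalSpace W] [ChartedSpace ℂ W] [RS W] [T2Space W] [ConnectedSpace W]
  {p q x p₀ p₁ p₂ : W} {f f' e φ : W → ℂ} {u v w s g g' : W → ℝ} {r t R T M C : ℝ} {Ω U K D : Set W}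

theorem green_osc (hg₀ : Good p₀ R) (hg : Good p R) (hd : Disjoint (cdisc p₀ R) (cdisc p R))
    (hK : IsCompact K) (hK' : ∀ x ∈ K, x ∉ cdisc p₀ (R / 2) ∧ x ∉ cdisc p (R / 2)) :
    ∃ C, ∀ t, 0 < t → t ≤ R / 2 → ∀ g, IsGreen (cdisc p₀ t)ᶜ p g →
      ∀ x ∈ K, ∀ y ∈ K, |g x - g y| ≤ C := by
  have hR : 0 < R := hg.1
  have h2 : R / 2 < R := by linarith
  have h2' : 0 < R / 2 := by linarith
  have hgh : Good p (R / 2) := hg.mono h2' h2.le
  have ho₁ : IsOpen (univ \ cdisc p₀ (R / 2) : Set W) :=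
    isOpen_univ.sdiff (hg₀.isClosed_cdisc h2.le)
  have hc₁ : IsPreconnected (univ \ cdisc p₀ (R / 2) : Set W) :=
    Good.isPreconnected_diff isOpen_univ isPreconnected_univ hg₀ (subset_univ _) h2
  have hdis : ∀ x ∈ cdisc p R, x ∉ cdisc p₀ (R / 2) := fun x hx hx' =>
    Set.disjoint_left.1 hd (cdisc_mono h2.le hx') hx
  have hsub : cdisc p R ⊆ univ \ cdisc p₀ (R / 2) := fun x hx => ⟨mem_univ _, hdis x hx⟩
  have ho : IsOpen ((univ \ cdisc p₀ (R / 2)) \ cdisc p (R / 2) : Set W) :=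
    ho₁.sdiff (hg.isClosed_cdisc h2.le)
  have hc : IsPreconnected ((univ \ cdisc p₀ (R / 2)) \ cdisc p (R / 2) : Set W) :=
    Good.isPreconnected_diff ho₁ hc₁ hg hsub h2
  have hKΩ : K ∪ circ p R ⊆ (univ \ cdisc p₀ (R / 2)) \ cdisc p (R / 2) := by
    rintro x (hx | hx)
    · exact ⟨⟨mem_univ _, (hK' x hx).1⟩, (hK' x hx).2⟩
    · exact ⟨hsub (circ_subset_cdisc hx), not_mem_cdisc_of_circ hx h2⟩
  obtain ⟨C, hC0, hC⟩ := harnack_compact ho hc (hK.union (hg.isCompact_circ le_rfl)) hKΩ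
  refine ⟨C * (Real.log R - Real.log (R / 2)), fun t ht0 ht g h x hx y hy => ?_⟩
  have hin : ∀ x, x ∉ cdisc p₀ (R / 2) → x ∈ (cdisc p₀ t)ᶜ := fun x hx hx' =>
    hx (cdisc_mono ht hx')
  have hcirc : ∀ {r : ℝ}, 0 < r → r ≤ R → ∀ x ∈ circ p r, x ∈ (cdisc p₀ t)ᶜ ∧ x ≠ p :=
    fun hr hr' x hx =>
      ⟨hin x (hdis x (cdisc_mono hr' (circ_subset_cdisc hx))), ne_of_mem_circ hx hr⟩
  have hcont : ∀ {r : ℝ}, 0 < r → r ≤ R → ContinuousOn g (circ p r) := fun hr hr' x hx =>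
    (h.harm x (hcirc hr hr' x hx).1 (hcirc hr hr' x hx).2).continuousAt.continuousWithinAt
  obtain ⟨z, hz, hzm⟩ := (hg.isCompact_circ h2.le).exists_isMaxOn hgh.circ_nonempty
    (hcont h2' h2.le)
  obtain ⟨y₀, hy₀, hym⟩ := (hg.isCompact_circ le_rfl).exists_isMaxOn hg.circ_nonempty
    (hcont hR le_rfl)
  have hM : 0 < g z := h.pos z (hcirc h2' h2.le z hz).1 (hcirc h2' h2.le z hz).2
  have hne : ∀ x, x ∉ cdisc p (R / 2) → x ≠ p := fun x hx he =>
    hx (he ▸ disc_subset_cdisc (mem_disc_self h2'))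
  have hout : ∀ x ∈ (univ \ cdisc p₀ (R / 2)) \ cdisc p (R / 2), g x ≤ g z := by
    intro x hx
    refine h.le_of (hin x hx.1.2) (hne x hx.2) fun v hv => ?_
    refine hv.le_out hgh hM.le (fun a ha => ?_) x fun hx' => hx.2 (disc_subset_cdisc hx')
    exact (h.le hv (hcirc h2' h2.le a ha).1 (hcirc h2' h2.le a ha).2).trans (hzm ha)
  have hz' : g z ≤ g y₀ + Real.log R - Real.log (R / 2) := by
    refine h.le_of (hcirc h2' h2.le z hz).1 (hcirc h2' h2.le z hz).2 fun v hv => ?_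
    have := hv.le_in hg (M := g y₀) (fun a ha =>
      (h.le hv (hcirc hR le_rfl a ha).1 (hcirc hR le_rfl a ha).2).trans (hym ha)) z
      (cdisc_mono h2.le (circ_subset_cdisc hz)) (hcirc h2' h2.le z hz).2
    rw [lg_of_mem_circ hz] at this
    linarith
  have hu := hC (fun x => g z - g x) fun x hx =>
    ⟨(harm_const (g z)).sub (h.harm x (hin x hx.1.2) (hne x hx.2)), sub_nonneg.2 (hout x hx)⟩
  have hb : ∀ x ∈ K, 0 ≤ g z - g x ∧ g z - g x ≤ C * (Real.log R - Real.log (R / 2)) := by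
    intro x hx
    refine ⟨sub_nonneg.2 (hout x (hKΩ (Or.inl hx))), ?_⟩
    refine (hu x (Or.inl hx) y₀ (Or.inr hy₀)).trans (mul_le_mul_of_nonneg_left ?_ hC0)
    linarith
  have h1 := hb x hx
  have h3 := hb y hy
  rw [abs_le]
  constructor <;> linarith [h1.1, h1.2, h3.1, h3.2]

end Pool.Agent.Lib.Unif
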