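import Pool.Agent.Lib.Unif.Fam

set_option autoImplicit false
set_option linter.unusedSectionVars false

open Set Filter Topology Metric
open scoped ComplexConjugate Manifold ContDiff

namespace Pool.Agent.Lib.Unif

variable {W : Type*} [TopologicalSpace W] [ChartedSpace ℂ W] [RS W] [T2Space W] [ConnectedSpace W]
  {p q x p₀ p₁ p₂ : W} {f f' e φ : W → ℂ} {u v w s g g' : W → ℝ} {r t R T M C : ℝ} {Ω U K D : Set W} {g₁ g₂ : W → ℝ}

theorem dipole_out (hΩ : IsOpen Ω) (h₁ : IsGreen Ω p₁ g₁) (h₂ : IsGreen Ω p₂ g₂) (hg : Good p₁ R)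
    (hp : p₂ ∉ cdisc p₁ R) (h0 : 0 ≤ C) (hC : ∀ x ∈ circ p₁ R, g₁ x - g₂ x ≤ C) :
    ∀ x ∈ Ω, x ∉ disc p₁ R → x ≠ p₂ → g₁ x - g₂ x ≤ C := by
  have hcc : ∀ x ∈ cdisc p₁ R, x ∉ disc p₁ R → x ∈ circ p₁ R := fun x h1 h2 => by
    rw [cdisc_eq] at h1
    exact h1.resolve_left h2
  have hp₁ : p₁ ∈ cdisc p₁ R := disc_subset_cdisc (mem_disc_self hg.1)
  have h21 : p₂ ≠ p₁ := fun h => hp (h ▸ hp₁)
  intro x hx hxd hx2
  by_cases hc : x ∈ cdisc p₁ R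
  · exact hC x (hcc x hc hxd)
  have hx1 : x ≠ p₁ := fun h => hc (h ▸ hp₁)
  have key : ∀ v, Fam Ω p₁ v → v x ≤ C + g₂ x := by
    intro v hv
    obtain ⟨K, hK, hKΩ, hK0⟩ := hv.supp
    have h3 := mp_front (w := fun y => v y - g₂ y) (M := C) (U := (Ω \ cdisc p₁ R) \ {p₂})
      ((hΩ.sdiff (hg.isClosed_cdisc le_rfl)).sdiff isClosed_singleton)
      (fun h => (h ▸ mem_univ p₂ : p₂ ∈ (Ω \ cdisc p₁ R) \ {p₂}).2 rfl) hK
      (fun y hy => (hv.subh y fun h => hy.1.2 (h ▸ hp₁)).sub_harm (h₂.harm y hy.1.1 hy.2))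
      (fun y hy hyK => by
        have := h₂.pos y hy.1.1 hy.2
        simp only [hK0 y hyK]
        linarith)
      (fun ζ hζ hζU hcl => by
        by_cases hζ2 : ζ = p₂
        · right
          subst hζ2
          have a1 : Tendsto v (𝓝[(Ω \ cdisc p₁ R) \ {ζ}] ζ) (𝓝 (v ζ)) :=
            (hv.subh ζ h21).1.continuousWithinAt
          have a2 : Tendsto g₂ (𝓝[(Ω \ cdisc p₁ R) \ {ζ}] ζ) atTop :=
            h₂.pole.tendsto.mono_left (nhdsWithin_mono _ fun y hy => hy.2)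
          simp only [sub_eq_add_neg]
          exact a1.add_atBot (tendsto_neg_atTop_atBot.comp a2)
        · left
          have a1 : ζ ∈ cdisc p₁ R := by
            by_contra a
            exact hζU ⟨⟨hKΩ hζ, a⟩, hζ2⟩
          have a2 : ζ ∈ circ p₁ R := hcc ζ a1 fun hd => by
            obtain ⟨y, hy1, hy2⟩ := mem_closure_iff.1 hcl _ (isOpen_disc p₁ R) hd
            exact hy2.1.2 (disc_subset_cdisc hy1)
          have a3 := ne_of_mem_circ a2 hg.1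
          refine ⟨((hv.subh ζ a3).sub_harm (h₂.harm ζ (hKΩ hζ) hζ2)).1.continuousWithinAt, ?_⟩
          have a4 := h₁.le hv (hKΩ hζ) a3
          have a5 := hC ζ a2
          linarith) x ⟨⟨hx, hc⟩, hx2⟩
    linarith
  have := h₁.le_of hx hx1 key
  linarith

theorem dipole_in (h₁ : IsGreen Ω p₁ g₁) (h₂ : IsGreen Ω p₂ g₂) (hg : Good p₁ R)
    (hs : cdisc p₁ R ⊆ Ω) (hp : p₂ ∉ cdisc p₁ R) (hC : ∀ x ∈ circ p₁ R, |g₁ x - g₂ x| ≤ C) :
    ∀ x ∈ disc p₁ R, x ≠ p₁ → |g₁ x - g₂ x + lg p₁ x| ≤ C + |Real.log R| := by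
  have hp₁ : p₁ ∈ cdisc p₁ R := disc_subset_cdisc (mem_disc_self hg.1)
  have hH : ∀ y ∈ cdisc p₁ R, y ≠ p₁ → Harm (fun x => g₁ x - g₂ x + lg p₁ x) y :=
    fun y hy hne => ((h₁.harm y (hs hy) hne).sub
      (h₂.harm y (hs hy) fun h => hp (h ▸ hy))).add (harm_lg hy.1 hne)
  have hb : ∀ ζ ∈ circ p₁ R, |g₁ ζ - g₂ ζ + lg p₁ ζ| ≤ C + |Real.log R| := fun ζ hζ => by
    rw [lg_of_mem_circ hζ]
    exact (abs_add_le _ _).trans (add_le_add (hC ζ hζ) le_rfl)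
  obtain ⟨B, hB⟩ := h₁.pole.bdd
  have hc : ContinuousAt g₂ p₁ := (h₂.harm p₁ (hs hp₁) fun h => hp (h ▸ hp₁)).continuousAt
  have hc' : ∀ᶠ y in 𝓝 p₁, |g₂ y| < |g₂ p₁| + 1 :=
    hc.abs.eventually (gt_mem_nhds (lt_add_one _))
  have hE : ∀ᶠ y in 𝓝[≠] p₁, |g₁ y - g₂ y + lg p₁ y| ≤ B + (|g₂ p₁| + 1) := by
    filter_upwards [hB, nhdsWithin_le_nhds hc'] with y h1 h2
    have h3 : |g₂ y| < |g₂ p₁| + 1 := h2
    rw [show g₁ y - g₂ y + lg p₁ y = (g₁ y + lg p₁ y) - g₂ y by ring]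
    exact (abs_sub _ _).trans (add_le_add h1 h3.le)
  intro x hx hne
  rw [abs_le']
  constructor
  · exact mp_punct (w := fun x => g₁ x - g₂ x + lg p₁ x) hg
      (fun y hy hyp => (hH y (disc_subset_cdisc hy) hyp).subh)
      (fun ζ hζ => ⟨(hH ζ (circ_subset_cdisc hζ)
        (ne_of_mem_circ hζ hg.1)).continuousAt.continuousWithinAt, (abs_le'.1 (hb ζ hζ)).1⟩)
      ⟨_, hE.mono fun y hy => (abs_le'.1 hy).1⟩ x hx hne
  · exact mp_punct (w := fun x => -(g₁ x - g₂ x + lg p₁ x)) hg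
      (fun y hy hyp => (hH y (disc_subset_cdisc hy) hyp).neg.subh)
      (fun ζ hζ => ⟨(hH ζ (circ_subset_cdisc hζ)
        (ne_of_mem_circ hζ hg.1)).neg.continuousAt.continuousWithinAt, (abs_le'.1 (hb ζ hζ)).2⟩)
      ⟨_, hE.mono fun y hy => (abs_le'.1 hy).2⟩ x hx hne

end Pool.Agent.Lib.Unif
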