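import Pool.Agent.Lib.Unif.G2a
import Pool.Agent.Lib.Unif.GE

set_option autoImplicit false
set_option linter.unusedSectionVars false

open Set Filter Topology Metric
open scoped ComplexConjugate Manifold ContDiff

namespace Pool.Agent.Lib.Unif

variable {W : Type*} [TopologicalSpace W] [ChartedSpace ℂ W] [RS W] [T2Space W] [ConnectedSpace W]
  {p q x p₀ p₁ p₂ : W} {f f' e φ : W → ℂ} {u v w s g g' : W → ℝ} {r t R T M C : ℝ} {Ω U K D : Set W}

theorem exists_green_compl (hg₀ : Good p₀ T) (ht : 0 < t) (htT : t < T) (hp : p ∉ cdisc p₀ t) :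
    ∃ g, IsGreen (cdisc p₀ t)ᶜ p g := by
  obtain ⟨T', hT1, hT2, hpT⟩ : ∃ T', t < T' ∧ T' ≤ T ∧ p ∉ cdisc p₀ T' := by
    by_cases hs : p ∈ (chartAt ℂ p₀).source
    · have h1 : t < ‖lc p₀ p‖ := not_le.1 fun hh => hp ⟨hs, hh⟩
      obtain ⟨T', h2, h3⟩ := exists_between (lt_min htT h1)
      exact ⟨T', h2, (h3.trans_le (min_le_left _ _)).le,
        fun hh => absurd hh.2 (not_le.2 (h3.trans_le (min_le_right _ _)))⟩
    · exact ⟨T, htT, le_rfl, fun hh => hs hh.1⟩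
  have hg' : Good p₀ T' := hg₀.mono (ht.trans hT1) hT2
  obtain ⟨R, hR, hRs⟩ := exists_good ((hg'.isClosed_cdisc le_rfl).isOpen_compl.mem_nhds hpT)
  have hR0 : 0 < R := hR.1
  have hρ : 0 < R / 2 := by positivity
  have hρR : R / 2 < R := by linarith
  have hgρ : Good p (R / 2) := hR.mono hρ hρR.le
  obtain ⟨δ, hδ, hbar⟩ := exists_barrier hg' ht hT1 hR
    (disjoint_left.2 fun x h1 h2 => hRs h2 h1) hρ hρR
  obtain ⟨q, hq⟩ := hgρ.circ_nonempty
  have hqΩ : q ∈ (cdisc p₀ t)ᶜ := fun hh =>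
    hRs (cdisc_mono hρR.le (circ_subset_cdisc hq)) (cdisc_mono hT1.le hh)
  refine exists_green (hg₀.isClosed_cdisc htT.le).isOpen_compl
    (compl_eq_univ_sdiff (cdisc p₀ t) ▸
      hg₀.isPreconnected_diff isOpen_univ isPreconnected_univ (subset_univ _) htT) hp hqΩ (ne_of_mem_circ hq hρ)
    ⟨max 0 ((Real.log R - Real.log (R / 2)) / δ), ?_⟩
  rintro _ ⟨v, hv, rfl⟩
  have hc : ContinuousOn v (circ p (R / 2)) := fun x hx =>
    (hv.subh x (ne_of_mem_circ hx hρ)).1.continuousWithinAt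
  obtain ⟨z, hz, hzm⟩ := (hgρ.isCompact_circ le_rfl).exists_isMaxOn ⟨q, hq⟩ hc
  refine le_trans (hzm hq) ?_
  by_cases hM : v z ≤ 0
  · exact hM.trans (le_max_left _ _)
  have hM' : 0 < v z := not_le.1 hM
  have hout := hv.le_out hgρ hM'.le fun x hx => hzm hx
  have h1 := hbar (fun x => (v z)⁻¹ * v x) (fun x _ hx => by
      have hxp : x ≠ p := fun e => hx (e ▸ disc_subset_cdisc (mem_disc_self hρ))
      refine ⟨(hv.subh x hxp).const_mul (inv_nonneg.2 hM'.le), ?_⟩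
      rw [inv_mul_le_iff₀ hM', mul_one]
      exact hout x fun hh => hx (disc_subset_cdisc hh))
    (by
      obtain ⟨K, hK, hKs, hK0⟩ := hv.supp
      exact ⟨K, hK, hKs, fun x hx => by simp only [hK0 x hx, mul_zero]⟩)
  have h2 := hv.le_in (M := v z * (1 - δ)) hR (fun x hx => (inv_mul_le_iff₀ hM').1 (h1 x hx)) z
    (cdisc_mono hρR.le (circ_subset_cdisc hz)) (ne_of_mem_circ hz hρ)
  rw [lg_of_mem_circ hz] at h2
  refine le_trans ?_ (le_max_right _ _)
  rw [le_div_iff₀ hδ]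
  linarith

end Pool.Agent.Lib.Unif
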