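import Pool.Agent.Lib.Unif.Defs

set_option autoImplicit false
set_option linter.unusedSectionVars false

open Set Filter Topology Metric
open scoped ComplexConjugate Manifold ContDiff

namespace Pool.Agent.Lib.Unif

variable {W : Type*} [TopologicalSpace W] [ChartedSpace ℂ W] [RS W]
  {p q x p₀ p₁ p₂ : W} {f f' e φ : W → ℂ} {u v w s g g' : W → ℝ} {r t R T M C : ℝ} {Ω U K D : Set W}

theorem tendsto_symm_hol1 (hx : x ∈ (chartAt ℂ p).source) :
    Tendsto (chartAt ℂ p).symm (𝓝 (chartAt ℂ p x)) (𝓝 x) := (chartAt ℂ p).tendsto_symm hx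

theorem Hol.congr (h : Hol f p) (he : f =ᶠ[𝓝 p] f') : Hol f' p :=
  AnalyticAt.congr h ((tendsto_symm_hol1 (mem_chart_source ℂ p)).eventually he)

theorem Hol.continuousAt (h : Hol f p) : ContinuousAt f p := by
  have h1 : ContinuousAt ((f ∘ (chartAt ℂ p).symm) ∘ chartAt ℂ p) p :=
    ContinuousAt.comp (AnalyticAt.continuousAt h)
      ((chartAt ℂ p).continuousAt (mem_chart_source ℂ p))
  refine h1.congr ?_
  filter_upwards [(chartAt ℂ p).eventually_left_inverse (mem_chart_source ℂ p)] with y hy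
  simp only [Function.comp_apply, hy]

theorem change_hol1 (hp : x ∈ (chartAt ℂ p).source) (hq : x ∈ (chartAt ℂ q).source)
    (h : AnalyticAt ℂ (f ∘ (chartAt ℂ p).symm) (chartAt ℂ p x)) :
    AnalyticAt ℂ (f ∘ (chartAt ℂ q).symm) (chartAt ℂ q x) := by
  have h1 := AnalyticAt.comp_of_eq h (RS.compat p q x hp hq)
    (by simp only [Function.comp_apply, (chartAt ℂ q).left_inv hq])
  refine h1.congr ?_
  filter_upwards [(tendsto_symm_hol1 hq).eventually ((chartAt ℂ p).eventually_left_inverse hp)]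
    with z hz
  simp only [Function.comp_apply, hz]

theorem hol_iff_chart (hx : x ∈ (chartAt ℂ p).source) :
    Hol f x ↔ AnalyticAt ℂ (f ∘ (chartAt ℂ p).symm) (chartAt ℂ p x) :=
  ⟨change_hol1 (mem_chart_source ℂ x) hx, change_hol1 hx (mem_chart_source ℂ x)⟩

theorem Hol.eventually (h : Hol f p) : ∀ᶠ x in 𝓝 p, Hol f x := by
  filter_upwards [((chartAt ℂ p).continuousAt (mem_chart_source ℂ p)).eventually
    (AnalyticAt.eventually_analyticAt h), chart_source_mem_nhds ℂ p] with y hy hs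
  exact (hol_iff_chart hs).2 hy

theorem hol_const (c : ℂ) : Hol (fun _ : W => c) p := analyticAt_const

theorem Hol.add (h : Hol f p) (h' : Hol f' p) : Hol (fun x => f x + f' x) p := AnalyticAt.add h h'

theorem Hol.sub (h : Hol f p) (h' : Hol f' p) : Hol (fun x => f x - f' x) p := AnalyticAt.sub h h'

theorem Hol.mul (h : Hol f p) (h' : Hol f' p) : Hol (fun x => f x * f' x) p := AnalyticAt.mul h h'

theorem Hol.neg (h : Hol f p) : Hol (fun x => -f x) p := AnalyticAt.neg h

theorem Hol.comp {F : ℂ → ℂ} (h : Hol f p) (hF : AnalyticAt ℂ F (f p)) :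
    Hol (fun x => F (f x)) p :=
  AnalyticAt.comp_of_eq (f := f ∘ (chartAt ℂ p).symm) hF h
    (by simp only [Function.comp_apply, (chartAt ℂ p).left_inv (mem_chart_source ℂ p)])

theorem Hol.inv (h : Hol f p) (h0 : f p ≠ 0) : Hol (fun x => (f x)⁻¹) p :=
  h.comp (F := fun z => z⁻¹) (analyticAt_id.inv h0)

theorem Hol.div (h : Hol f p) (h' : Hol f' p) (h0 : f' p ≠ 0) : Hol (fun x => f x / f' x) p := by
  simpa only [div_eq_mul_inv] using h.mul (h'.inv h0)

theorem hol_chart (hx : x ∈ (chartAt ℂ p).source) : Hol (chartAt ℂ p) x :=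
  RS.compat p x x hx (mem_chart_source ℂ x)

theorem hol_lc (hx : x ∈ (chartAt ℂ p).source) : Hol (lc p) x := (hol_chart hx).sub (hol_const _)

theorem lc_self (p : W) : lc p p = 0 := sub_self _

theorem lc_ne_zero (hx : x ∈ (chartAt ℂ p).source) (hne : x ≠ p) : lc p x ≠ 0 := fun h =>
  hne ((chartAt ℂ p).injOn hx (mem_chart_source ℂ p) (sub_eq_zero.1 h))

theorem eventually_lc_ne_zero (p : W) : ∀ᶠ x in 𝓝[≠] p, lc p x ≠ 0 := by
  filter_upwards [mem_nhdsWithin_of_mem_nhds (chart_source_mem_nhds ℂ p), self_mem_nhdsWithin]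
    with y hy hne
  exact lc_ne_zero hy hne

theorem locInj_lc (p : W) : LocInj (lc p) p :=
  ⟨_, chart_source_mem_nhds ℂ p, fun _ ha _ hb h => (chartAt ℂ p).injOn ha hb (sub_left_injective h)⟩

theorem map_chart_punct (p : W) : map (chartAt ℂ p) (𝓝[≠] p) = 𝓝[≠] (chartAt ℂ p p) := by
  rw [← (chartAt ℂ p).map_nhdsWithin_preimage_eq (mem_chart_source ℂ p)]
  congr 1
  refine nhdsWithin_eq_iff_eventuallyEq.2 ?_
  filter_upwards [chart_source_mem_nhds ℂ p] with y hy
  refine propext ⟨fun h h' => h ((chartAt ℂ p).injOn hy (mem_chart_source ℂ p) h'), fun h h' => h ?_⟩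
  rw [mem_singleton_iff.1 h']
  rfl

theorem map_symm_punct (p : W) : map (chartAt ℂ p).symm (𝓝[≠] (chartAt ℂ p p)) = 𝓝[≠] p := by
  rw [← map_chart_punct, Filter.map_map]
  refine (Filter.map_congr ?_).trans Filter.map_id
  exact mem_nhdsWithin_of_mem_nhds ((chartAt ℂ p).eventually_left_inverse (mem_chart_source ℂ p))

theorem neBot_punct (p : W) : (𝓝[≠] p).NeBot := by
  rw [← map_symm_punct]
  infer_instance

theorem tendsto_lg (p : W) : Tendsto (lg p) (𝓝[≠] p) atBot := by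
  refine Real.tendsto_log_nhdsNE_zero.comp (tendsto_nhdsWithin_iff.2 ⟨?_, ?_⟩)
  · have h := (hol_lc (mem_chart_source ℂ p)).continuousAt.norm.tendsto
    rw [lc_self, norm_zero] at h
    exact h.mono_left nhdsWithin_le_nhds
  · filter_upwards [eventually_lc_ne_zero p] with y hy
    exact norm_ne_zero_iff.2 hy

theorem exists_ne_ne [T1Space W] (p q : W) : ∃ x, x ≠ p ∧ x ≠ q := by
  have := neBot_punct p
  have h0 : ∀ᶠ y in 𝓝[≠] p, y ≠ p := self_mem_nhdsWithin
  by_cases h : p = q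
  · obtain ⟨y, hy⟩ := h0.exists
    exact ⟨y, hy, h ▸ hy⟩
  · have h1 : ∀ᶠ y in 𝓝[≠] p, y ≠ q := mem_nhdsWithin_of_mem_nhds (eventually_ne_nhds h)
    exact (h0.and h1).exists

end Pool.Agent.Lib.Unif
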