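import Pool.Agent.Lib.Unif.UC3
import Pool.Agent.Lib.Unif.Hol1

set_option autoImplicit false
set_option linter.unusedSectionVars false

open Set Filter Topology Metric
open scoped ComplexConjugate Manifold ContDiff

namespace Pool.Agent.Lib.Unif

universe u

theorem exists_pullback {W : Type*} [TopologicalSpace W] [ChartedSpace ℂ W] [RS W] {E : Type*}
    [TopologicalSpace E] {π : E → W} (h : IsLocalHomeomorph π) :
    ∃ _ : ChartedSpace ℂ E, RS E ∧ LocIso π := by
  choose η hη hπ using h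
  let c : E → OpenPartialHomeomorph E ℂ := fun a => (η a).trans (chartAt ℂ (π a))
  have hsrc : ∀ a x, x ∈ (c a).source → π x ∈ (chartAt ℂ (π a)).source := by
    intro a x hx
    have h2 : η a x ∈ (chartAt ℂ (π a)).source := hx.2
    rwa [← congrFun (hπ a) x] at h2
  have hmem : ∀ a, a ∈ (c a).source := by
    intro a
    refine ⟨hη a, ?_⟩
    change η a a ∈ (chartAt ℂ (π a)).source
    rw [← congrFun (hπ a) a]
    exact mem_chart_source ℂ (π a)
  have happ : ∀ a x, c a x = chartAt ℂ (π a) (π x) := by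
    intro a x
    change chartAt ℂ (π a) (η a x) = _
    rw [← congrFun (hπ a) x]
  have hsymm : ∀ a z, z ∈ (c a).target → π ((c a).symm z) = (chartAt ℂ (π a)).symm z := by
    intro a z hz
    have h2 : (chartAt ℂ (π a)).symm z ∈ (η a).target := hz.2
    change π ((η a).symm ((chartAt ℂ (π a)).symm z)) = _
    rw [congrFun (hπ a) _, (η a).right_inv h2]
  have hev : ∀ (f : W → ℂ) (a x : E), x ∈ (c a).source →
      (f ∘ π) ∘ (c a).symm =ᶠ[𝓝 (chartAt ℂ (π a) (π x))] f ∘ (chartAt ℂ (π a)).symm := by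
    intro f a x hx
    rw [← happ]
    filter_upwards [(c a).open_target.mem_nhds ((c a).map_source hx)] with z hz
    simp only [Function.comp, hsymm a z hz]
  let cs : ChartedSpace ℂ E :=
    { atlas := range c
      chartAt := c
      mem_chart_source := hmem
      chart_mem_atlas := fun a => mem_range_self a }
  refine ⟨cs, ⟨fun p q x hp hq => ?_⟩, ⟨fun a => ⟨η a, hη a, hπ a⟩, fun w f => ?_⟩⟩
  · change AnalyticAt ℂ (c p ∘ (c q).symm) (c q x)
    have h1 : (c p : E → ℂ) = chartAt ℂ (π p) ∘ π := funext (happ p)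
    rw [h1, happ]
    exact (RS.compat (π p) (π q) (π x) (hsrc p x hp) (hsrc q x hq)).congr (hev _ q x hq).symm
  · change AnalyticAt ℂ ((f ∘ π) ∘ (c w).symm) (c w w) ↔ _
    rw [happ]
    exact analyticAt_congr (hev f w w (hmem w))

theorem exists_rs_cover {W : Type u} [TopologicalSpace W] [ChartedSpace ℂ W] [RS W] [T2Space W]
    {Ω : Set W} (hΩ : IsOpen Ω) (hc : IsConnected Ω) :
    ∃ (E : Type u) (_ : TopologicalSpace E) (_ : ChartedSpace ℂ E) (π : E → W), RS E ∧ T2Space E ∧
      SimplyConnectedSpace E ∧ LocIso π ∧ range π = Ω ∧ Galois π := by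
  let O : TopologicalSpace.Opens W := ⟨Ω, hΩ⟩
  have : ConnectedSpace O := Subtype.connectedSpace hc
  obtain ⟨E, tE, π', hcov, hsurj, hsc, ht2, hgal⟩ := exists_cover_charted ℂ O
  have hloc : IsLocalHomeomorph (Subtype.val ∘ π' : E → W) :=
    hΩ.isOpenEmbedding_subtypeVal.isLocalHomeomorph.comp hcov.isLocalHomeomorph
  obtain ⟨cs, hrs, hiso⟩ := exists_pullback hloc
  refine ⟨E, tE, cs, Subtype.val ∘ π', hrs, ht2, hsc, hiso, ?_, ?_, ?_⟩
  · rw [range_comp, hsurj.range_eq, image_univ]
    exact Subtype.range_coe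
  · intro a b hab
    obtain ⟨τ, h1, h2⟩ := hgal.trans a b (Subtype.ext hab)
    exact ⟨τ, fun x => congrArg Subtype.val (h1 x), h2⟩
  · intro τ hτ
    exact hgal.free τ fun x => Subtype.ext (hτ x)

end Pool.Agent.Lib.Unif
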