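import Pool.Agent.Lib.Unif.SY3
import Pool.Agent.Lib.Unif.PB
import Pool.Agent.Lib.Unif.C1a

set_option autoImplicit false
set_option linter.unusedSectionVars false

open Set Filter Topology Metric
open scoped ComplexConjugate Manifold ContDiff

namespace Pool.Agent.Lib.Unif

variable {W : Type*} [TopologicalSpace W] [ChartedSpace ℂ W] [RS W] [T2Space W] [ConnectedSpace W]
  {p q x p₀ p₁ p₂ : W} {f f' e φ : W → ℂ} {u v w s g g' : W → ℝ} {r t R T M C : ℝ} {Ω U K D : Set W}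

theorem green_le_SY4 (hΩ : IsOpen Ω) (hc : IsPreconnected Ω) (hp : p ∈ Ω) (hq : q ∈ Ω)
    (hne : p ≠ q) (h : IsGreen Ω p g) (h' : IsGreen Ω q g') : g q ≤ g' p := by
  classical
  obtain ⟨E, _, _, π, _, _, _, hπ, hr, hgal⟩ := exists_rs_cover hΩ ⟨⟨p, hp⟩, hc⟩
  obtain ⟨b, rfl⟩ : p ∈ range π := hr ▸ hp
  obtain ⟨a, rfl⟩ : q ∈ range π := hr ▸ hq
  have hmem : ∀ y, π y ∈ Ω := fun y => hr ▸ mem_range_self y
  have key : ∀ (c : E) (k : W → ℝ), IsGreen Ω (π c) k → IsClosed (π ⁻¹' {π c}) ∧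
      (∀ y, y ∉ π ⁻¹' {π c} → Harm (k ∘ π) y ∧ 0 ≤ (k ∘ π) y) ∧
      ∀ y ∈ π ⁻¹' {π c}, Pole (k ∘ π) y := by
    intro c k hk
    refine ⟨isClosed_singleton.preimage hπ.loc.continuous, fun y hy => ⟨?_, ?_⟩, fun y hy => ?_⟩
    · exact hπ.harm_iff.2 (hk.harm _ (hmem y) hy)
    · exact (hk.pos _ (hmem y) hy).le
    · have hy' : π y = π c := hy
      exact hπ.pole_iff.2 (hy' ▸ hk.pole)
  obtain ⟨k1, k2, k3⟩ := key b g h
  obtain ⟨l1, l2, l3⟩ := key a g' h'
  have hPne : π ⁻¹' {π b} ≠ univ := by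
    intro hu
    have : a ∈ π ⁻¹' {π b} := hu ▸ mem_univ a
    exact hne (Eq.symm this)
  obtain ⟨g0, hg0⟩ := exists_green_of_pole (p := b) k1 hPne k2 k3 rfl
  choose G hG using fun c => hg0.exists_univ c
  refine green_le_of_sums (G := G) hπ hr hgal h (fun b' _ => hG b') hne.symm ?_
  intro B hB
  have hτ : ∀ b', ∃ τ : E ≃ₜ E, (∀ y, π (τ y) = π y) ∧ (π b' = π b → τ b = b') := by
    intro b'
    by_cases hb' : π b' = π b
    · obtain ⟨τ, h1, h2⟩ := hgal.trans b b' hb'.symm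
      exact ⟨τ, h1, fun _ => h2⟩
    · exact ⟨Homeomorph.refl E, fun _ => rfl, fun h => absurd h hb'⟩
  choose τ hτ1 hτ2 using hτ
  have hfib : ∀ b', π ((τ b').symm a) = π a := by
    intro b'
    rw [← hτ1 b' ((τ b').symm a), Homeomorph.apply_symm_apply]
  have hneb : ∀ b', (τ b').symm a ≠ b := by
    intro b' hb'
    apply hne
    rw [← hfib b', hb']
  have hval : ∀ b' ∈ B, G b' a = G ((τ b').symm a) b := by
    intro b' hb'
    have h1 : IsGreen univ (τ b' b) (G b') := by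
      rw [hτ2 b' (hB b' hb')]
      exact hG b'
    have h2 := IsGreen.comp (hπ.deck (τ b') (hτ1 b')) h1
    have h3 := h2.unique (hG b) (mem_univ ((τ b').symm a)) (hneb b')
    have h4 := (hG b).symm_univ (hG ((τ b').symm a)) (hneb b').symm
    rw [← h4, ← h3, Function.comp_apply, Homeomorph.apply_symm_apply]
  have hinj : Set.InjOn (fun b' => (τ b').symm a) (B : Set E) := by
    intro b' hb' b'' hb'' he
    have he' : (τ b').symm a = (τ b'').symm a := he
    have h1 := hgal.free ((τ b').symm.trans (τ b'')) (fun y => by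
      rw [Homeomorph.trans_apply, hτ1, ← hτ1 b' ((τ b').symm y), Homeomorph.apply_symm_apply])
      a (by rw [Homeomorph.trans_apply, he', Homeomorph.apply_symm_apply]) b'
    rw [Homeomorph.trans_apply] at h1
    have h2 : (τ b').symm b' = b := by
      rw [Homeomorph.symm_apply_eq]
      exact (hτ2 b' (hB b' hb')).symm
    rw [h2, hτ2 b'' (hB b'' hb'')] at h1
    exact h1.symm
  rw [Finset.sum_congr rfl hval,
    ← Finset.sum_image (f := fun c => G c b) (g := fun b' => (τ b').symm a) hinj]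
  refine sum_green_le (s := g' ∘ π) (G := G) l1 l2 l3 _ ?_ b hne
  intro c hc'
  obtain ⟨b', -, rfl⟩ := Finset.mem_image.1 hc'
  exact ⟨hfib b', hG _⟩

theorem IsGreen.symm (hΩ : IsOpen Ω) (hc : IsPreconnected Ω) (hp : p ∈ Ω) (hq : q ∈ Ω)
    (hne : p ≠ q) (h : IsGreen Ω p g) (h' : IsGreen Ω q g') : g q = g' p :=
  le_antisymm (green_le_SY4 hΩ hc hp hq hne h h') (green_le_SY4 hΩ hc hq hp hne.symm h' h)

end Pool.Agent.Lib.Unif
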