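import Pool.Agent.Lib.Unif.DI1
import Pool.Agent.Lib.Unif.DI2
import Pool.Agent.Lib.Unif.G2
import Pool.Agent.Lib.Unif.SY4

set_option autoImplicit false
set_option linter.unusedSectionVars false

open Set Filter Topology Metric
open scoped ComplexConjugate Manifold ContDiff

namespace Pool.Agent.Lib.Unif

variable {W : Type*} [TopologicalSpace W] [ChartedSpace ℂ W] [RS W] [T2Space W] [ConnectedSpace W]
  {p q x p₀ p₁ p₂ : W} {f f' e φ : W → ℂ} {u v w s g g' : W → ℝ} {r t R T M C : ℝ} {Ω U K D : Set W}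

theorem osc_di3 (hg₀ : Good p₀ R) (hg₁ : Good p₁ R) (hg₂ : Good p₂ R)
    (h01 : Disjoint (cdisc p₀ R) (cdisc p₁ R)) (h02 : Disjoint (cdisc p₀ R) (cdisc p₂ R))
    (h12 : Disjoint (cdisc p₁ R) (cdisc p₂ R)) :
    ∃ C, ∀ t, 0 < t → t ≤ R / 2 → ∀ g, IsGreen (cdisc p₀ t)ᶜ p₁ g →
      ∀ x, x ∈ circ p₁ R ∨ x ∈ circ p₂ R → |g x - g p₂| ≤ C := by
  have hR : 0 < R := hg₁.1
  have h2 : R / 2 < R := by linarith
  have hp₂ : p₂ ∈ cdisc p₂ R := disc_subset_cdisc (mem_disc_self hR)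
  have hK : IsCompact (circ p₁ R ∪ cdisc p₂ R) :=
    (hg₁.isCompact_circ le_rfl).union (hg₂.isCompact_cdisc le_rfl)
  obtain ⟨C, hC⟩ := green_osc hg₀ hg₁ h01 hK (by
    rintro x (hx | hx)
    · exact ⟨fun h => disjoint_left.mp h01 (cdisc_mono h2.le h) (circ_subset_cdisc hx),
        not_mem_cdisc_of_circ hx h2⟩
    · exact ⟨fun h => disjoint_left.mp h02 (cdisc_mono h2.le h) hx,
        fun h => disjoint_left.mp h12 (cdisc_mono h2.le h) hx⟩)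
  refine ⟨C, fun t ht htR g hg x hx => hC t ht htR g hg x ?_ p₂ (Or.inr hp₂)⟩
  rcases hx with hx | hx
  · exact Or.inl hx
  · exact Or.inr (circ_subset_cdisc hx)

theorem exists_dipole_family (hne : p₁ ≠ p₂) : ∃ (p₀ : W) (R C : ℝ) (G : ℝ → W → ℝ),
    Good p₀ R ∧ Good p₁ R ∧ Good p₂ R ∧ Disjoint (cdisc p₀ R) (cdisc p₁ R) ∧
    Disjoint (cdisc p₀ R) (cdisc p₂ R) ∧ Disjoint (cdisc p₁ R) (cdisc p₂ R) ∧
    ∀ t, 0 < t → t ≤ R / 2 →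
      (∀ x, x ∉ cdisc p₀ t → x ≠ p₁ → x ≠ p₂ → Harm (G t) x) ∧
      (∀ x, x ∉ cdisc p₀ t → x ∉ disc p₁ R → x ∉ disc p₂ R → |G t x| ≤ C) ∧
      (∀ x ∈ disc p₁ R, x ≠ p₁ → |G t x + lg p₁ x| ≤ C) ∧
      ∀ x ∈ disc p₂ R, x ≠ p₂ → |G t x - lg p₂ x| ≤ C := by
  obtain ⟨p₀, h₁, h₂⟩ := exists_ne_ne p₁ p₂
  obtain ⟨R, hg₀, hg₁, hg₂, h01, h02, h12⟩ := exists_good₃ h₁ h₂ hne
  obtain ⟨C₁, hC₁⟩ := osc_di3 hg₀ hg₁ hg₂ h01 h02 h12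
  obtain ⟨C₂, hC₂⟩ := osc_di3 hg₀ hg₂ hg₁ h02 h01 h12.symm
  have hR : 0 < R := hg₁.1
  have hp₁ : p₁ ∈ cdisc p₁ R := disc_subset_cdisc (mem_disc_self hR)
  have hp₂ : p₂ ∈ cdisc p₂ R := disc_subset_cdisc (mem_disc_self hR)
  have h21 : p₂ ∉ cdisc p₁ R := fun h => disjoint_left.mp h12 h hp₂
  have h12' : p₁ ∉ cdisc p₂ R := fun h => disjoint_left.mp h12 hp₁ h
  have key : ∀ t : ℝ, ∃ G : W → ℝ, 0 < t → t ≤ R / 2 →
      (∀ x, x ∉ cdisc p₀ t → x ≠ p₁ → x ≠ p₂ → Harm G x) ∧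
      (∀ x, x ∉ cdisc p₀ t → x ∉ disc p₁ R → x ∉ disc p₂ R →
        |G x| ≤ max 0 (C₁ + C₂) + |Real.log R|) ∧
      (∀ x ∈ disc p₁ R, x ≠ p₁ → |G x + lg p₁ x| ≤ max 0 (C₁ + C₂) + |Real.log R|) ∧
      ∀ x ∈ disc p₂ R, x ≠ p₂ → |G x - lg p₂ x| ≤ max 0 (C₁ + C₂) + |Real.log R| := by
    intro t
    by_cases ht' : 0 < t ∧ t ≤ R / 2
    swap
    · exact ⟨fun _ => 0, fun h h' => absurd ⟨h, h'⟩ ht'⟩
    obtain ⟨ht, htR⟩ := ht'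
    have htR' : t < R := by linarith
    have hs₁ : cdisc p₁ R ⊆ (cdisc p₀ t)ᶜ := fun x hx h =>
      disjoint_left.mp h01 (cdisc_mono htR'.le h) hx
    have hs₂ : cdisc p₂ R ⊆ (cdisc p₀ t)ᶜ := fun x hx h =>
      disjoint_left.mp h02 (cdisc_mono htR'.le h) hx
    obtain ⟨g₁, hG₁⟩ := exists_green_compl hg₀ ht htR' (hs₁ hp₁)
    obtain ⟨g₂, hG₂⟩ := exists_green_compl hg₀ ht htR' (hs₂ hp₂)
    have hΩ : IsOpen (cdisc p₀ t)ᶜ := (hg₀.isClosed_cdisc htR'.le).isOpen_compl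
    have hc : IsPreconnected (cdisc p₀ t)ᶜ := by
      rw [compl_eq_univ_sdiff]
      exact hg₀.isPreconnected_diff isOpen_univ isPreconnected_univ (subset_univ _) htR'
    have hsym : g₁ p₂ = g₂ p₁ := IsGreen.symm hΩ hc (hs₁ hp₁) (hs₂ hp₂) hne hG₁ hG₂
    have hb : ∀ x, x ∈ circ p₁ R ∨ x ∈ circ p₂ R → |g₁ x - g₂ x| ≤ max 0 (C₁ + C₂) := by
      intro x hx
      have e₁ := abs_le.mp (hC₁ t ht htR g₁ hG₁ x hx)
      have e₂ := abs_le.mp (hC₂ t ht htR g₂ hG₂ x hx.symm)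
      refine le_trans (abs_le.mpr ⟨?_, ?_⟩) (le_max_right _ _) <;> linarith [e₁.1, e₁.2, e₂.1, e₂.2]
    have h0 : (0 : ℝ) ≤ max 0 (C₁ + C₂) := le_max_left _ _
    refine ⟨fun x => g₁ x - g₂ x, fun _ _ => ⟨fun x hx hx₁ hx₂ => ?_, fun x hx hx₁ hx₂ => ?_,
      fun x hx hx₁ => ?_, fun x hx hx₂ => ?_⟩⟩
    · exact (hG₁.harm x hx hx₁).sub (hG₂.harm x hx hx₂)
    · have e₁ := dipole_out hΩ hG₁ hG₂ hg₁ h21 h0
        (fun y hy => (abs_le.mp (hb y (Or.inl hy))).2) x hx hx₁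
        (fun h => hx₂ (h ▸ mem_disc_self hR))
      have e₂ := dipole_out hΩ hG₂ hG₁ hg₂ h12' h0
        (fun y hy => by linarith [(abs_le.mp (hb y (Or.inr hy))).1]) x hx hx₂
        (fun h => hx₁ (h ▸ mem_disc_self hR))
      have e₃ := abs_nonneg (Real.log R)
      exact abs_le.mpr ⟨by linarith, by linarith⟩
    · exact dipole_in hG₁ hG₂ hg₁ hs₁ h21 (fun y hy => hb y (Or.inl hy)) x hx hx₁
    · have e₁ := dipole_in hG₂ hG₁ hg₂ hs₂ h12'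
        (fun y hy => by rw [abs_sub_comm]; exact hb y (Or.inr hy)) x hx hx₂
      have e₂ : g₁ x - g₂ x - lg p₂ x = -(g₂ x - g₁ x + lg p₂ x) := by ring
      show |g₁ x - g₂ x - lg p₂ x| ≤ _
      rw [e₂, abs_neg]
      exact e₁
  choose G hG using key
  exact ⟨p₀, R, _, G, hg₀, hg₁, hg₂, h01, h02, h12, hG⟩

end Pool.Agent.Lib.Unif
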