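import Pool.Agent.Lib.Unif.DI3

set_option autoImplicit false
set_option linter.unusedSectionVars false

open Set Filter Topology Metric
open scoped ComplexConjugate Manifold ContDiff

namespace Pool.Agent.Lib.Unif

variable {W : Type*} [TopologicalSpace W] [ChartedSpace ℂ W] [RS W] [T2Space W] [ConnectedSpace W]
  {p q x p₀ p₁ p₂ : W} {f f' e φ : W → ℂ} {u v w s g g' : W → ℝ} {r t R T M C : ℝ} {Ω U K D : Set W}

theorem exists_small_di4 (hR : 0 < R) (hx : x ≠ p) : ∃ t, 0 < t ∧ t ≤ R ∧ x ∉ cdisc p t := by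
  by_cases hs : x ∈ (chartAt ℂ p).source
  · have h0 : 0 < ‖lc p x‖ := norm_pos_iff.2 (lc_ne_zero hs hx)
    refine ⟨min R (‖lc p x‖ / 2), lt_min hR (by linarith), min_le_left _ _, fun h => ?_⟩
    have := h.2.trans (min_le_right _ _)
    linarith
  · exact ⟨R, hR, le_rfl, fun h => hs h.1⟩

theorem lg_bdd_di4 (hg : Good p R) (hx : x ≠ p) :
    ∃ B, 0 ≤ B ∧ ∀ᶠ y in 𝓝 x, y ∈ disc p R → |lg p y| ≤ B := by
  by_cases hs : x ∈ (chartAt ℂ p).source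
  · refine ⟨|lg p x| + 1, by positivity, ?_⟩
    have hc : ContinuousAt (fun y => |lg p y|) x := (harm_lg hs hx).continuousAt.abs
    filter_upwards [hc.eventually_lt continuousAt_const (lt_add_one |lg p x|)] with y hy _
    exact hy.le
  · refine ⟨0, le_rfl, ?_⟩
    filter_upwards [(hg.isClosed_cdisc le_rfl).isOpen_compl.mem_nhds fun h => hs h.1] with y hy hy'
    exact absurd (disc_subset_cdisc hy') hy

theorem exists_dipole (hne : p₁ ≠ p₂) : ∃ G : W → ℝ, (∀ x, x ≠ p₁ → x ≠ p₂ → Harm G x) ∧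
    Pole G p₁ ∧ Pole (fun x => -G x) p₂ ∧ ∃ K C, IsCompact K ∧ ∀ x, x ∉ K → |G x| ≤ C := by
  classical
  obtain ⟨p₀, R, C, G, g₀, g₁, g₂, d₁, d₂, d₃, hG⟩ := exists_dipole_family hne
  have hR : 0 < R := g₀.1
  have self : ∀ p : W, p ∈ cdisc p R := fun p => disc_subset_cdisc (mem_disc_self hR)
  let l : Ultrafilter ℝ := Ultrafilter.of (𝓝[>] (0 : ℝ))
  have small : ∀ a : ℝ, 0 < a → ∀ᶠ t in (l : Filter ℝ), 0 < t ∧ t ≤ a := fun a ha =>
    Ultrafilter.of_le _ (Ioc_mem_nhdsGT ha)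
  have loc : ∀ x, x ≠ p₀ → x ≠ p₁ → x ≠ p₂ → ∃ B, ∃ D ∈ 𝓝 x,
      (∀ y ∈ D, y ≠ p₀ ∧ y ≠ p₁ ∧ y ≠ p₂) ∧
      ∀ᶠ t in (l : Filter ℝ), ∀ y ∈ D, Harm (G t) y ∧ |G t y| ≤ B := fun x h₀ h₁ h₂ => by
    obtain ⟨a, a0, aR, ha⟩ := exists_small_di4 (half_pos hR) h₀
    obtain ⟨B₁, b₁, e₁⟩ := lg_bdd_di4 g₁ h₁
    obtain ⟨B₂, b₂, e₂⟩ := lg_bdd_di4 g₂ h₂
    have e₀ : ∀ᶠ y in 𝓝 x, y ∉ cdisc p₀ a :=
      (g₀.isClosed_cdisc (by linarith)).isOpen_compl.mem_nhds ha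
    refine ⟨C + B₁ + B₂, _, e₀.and (e₁.and (e₂.and ((eventually_ne_nhds h₀).and
      ((eventually_ne_nhds h₁).and (eventually_ne_nhds h₂))))), fun y hy => hy.2.2.2, ?_⟩
    filter_upwards [small a a0] with t ht y hy
    obtain ⟨y₀, y₁, y₂, -, n₁, n₂⟩ := hy
    obtain ⟨c₁, c₂, c₃, c₄⟩ := hG t ht.1 (ht.2.trans aR)
    have y₀' : y ∉ cdisc p₀ t := fun h => y₀ (cdisc_mono ht.2 h)
    refine ⟨c₁ y y₀' n₁ n₂, ?_⟩
    by_cases m₁ : y ∈ disc p₁ R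
    · have a1 := abs_le.1 (c₃ y m₁ n₁)
      have a2 := abs_le.1 (y₁ m₁)
      exact abs_le.2 ⟨by linarith, by linarith⟩
    by_cases m₂ : y ∈ disc p₂ R
    · have a1 := abs_le.1 (c₄ y m₂ n₂)
      have a2 := abs_le.1 (y₂ m₂)
      exact abs_le.2 ⟨by linarith, by linarith⟩
    · have := c₂ y y₀' m₁ m₂
      linarith
  let G₀ : W → ℝ := fun x => limUnder l fun t => G t x
  have lim : ∀ x, x ≠ p₀ → x ≠ p₁ → x ≠ p₂ → Tendsto (fun t => G t x) l (𝓝 (G₀ x)) :=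
    fun x h₀ h₁ h₂ => by
      obtain ⟨B, D, hD, -, h⟩ := loc x h₀ h₁ h₂
      obtain ⟨a, -, ha⟩ := (isCompact_Icc (a := -B) (b := B)).ultrafilter_le_nhds
        (l.map fun t => G t x) (le_principal_iff.2 (mem_map.2
          (h.mono fun t ht => abs_le.1 (ht x (mem_of_mem_nhds hD)).2)))
      exact tendsto_nhds_limUnder ⟨a, ha⟩
  have harm : ∀ x, x ≠ p₀ → x ≠ p₁ → x ≠ p₂ → Harm G₀ x := fun x h₀ h₁ h₂ => by
    obtain ⟨B, D, hD, hn, h⟩ := loc x h₀ h₁ h₂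
    exact harm_of_tendsto hD h fun y hy => lim y (hn y hy).1 (hn y hy).2.1 (hn y hy).2.2
  have out : ∀ x, x ≠ p₀ → x ∉ disc p₁ R → x ∉ disc p₂ R → |G₀ x| ≤ C := fun x h₀ m₁ m₂ => by
    obtain ⟨a, a0, aR, ha⟩ := exists_small_di4 (half_pos hR) h₀
    refine le_of_tendsto (lim x h₀ (fun h => m₁ (h ▸ mem_disc_self hR))
      (fun h => m₂ (h ▸ mem_disc_self hR))).abs ?_
    filter_upwards [small a a0] with t ht
    exact (hG t ht.1 (ht.2.trans aR)).2.1 x (fun h => ha (cdisc_mono ht.2 h)) m₁ m₂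
  have n₁ : ∀ x ∈ disc p₁ R, x ≠ p₀ ∧ x ≠ p₂ := fun x hx =>
    ⟨fun h => disjoint_left.1 d₁ (self p₀) (h ▸ disc_subset_cdisc hx),
      fun h => disjoint_right.1 d₃ (self p₂) (h ▸ disc_subset_cdisc hx)⟩
  have n₂ : ∀ x ∈ disc p₂ R, x ≠ p₀ ∧ x ≠ p₁ := fun x hx =>
    ⟨fun h => disjoint_left.1 d₂ (self p₀) (h ▸ disc_subset_cdisc hx),
      fun h => disjoint_left.1 d₃ (self p₁) (h ▸ disc_subset_cdisc hx)⟩
  have punct : ∀ p : W, ∀ᶠ x in 𝓝[≠] p, x ∈ disc p R ∧ x ≠ p := fun p =>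
    (eventually_nhdsWithin_of_eventually_nhds (disc_mem_nhds hR)).and self_mem_nhdsWithin
  obtain ⟨k, hk, ek⟩ := exists_harm_of_bdd (u := G₀) (p := p₀) (C := C) (by
    filter_upwards [punct p₀] with x hx
    have m₁ : x ∉ disc p₁ R := fun h =>
      disjoint_left.1 d₁ (disc_subset_cdisc hx.1) (disc_subset_cdisc h)
    have m₂ : x ∉ disc p₂ R := fun h =>
      disjoint_left.1 d₂ (disc_subset_cdisc hx.1) (disc_subset_cdisc h)
    exact ⟨harm x hx.2 (fun h => m₁ (h ▸ mem_disc_self hR)) (fun h => m₂ (h ▸ mem_disc_self hR)),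
      out x hx.2 m₁ m₂⟩)
  obtain ⟨k₁, hk₁, ek₁⟩ := exists_harm_of_bdd (u := fun x => G₀ x + lg p₁ x) (p := p₁) (C := C) (by
    filter_upwards [punct p₁] with x hx
    obtain ⟨h₀, h₂⟩ := n₁ x hx.1
    refine ⟨(harm x h₀ hx.2 h₂).add (harm_lg hx.1.1 hx.2),
      le_of_tendsto ((lim x h₀ hx.2 h₂).add_const _).abs ?_⟩
    filter_upwards [small _ (half_pos hR)] with t ht
    exact (hG t ht.1 ht.2).2.2.1 x hx.1 hx.2)
  obtain ⟨k₂, hk₂, ek₂⟩ := exists_harm_of_bdd (u := fun x => G₀ x - lg p₂ x) (p := p₂) (C := C) (by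
    filter_upwards [punct p₂] with x hx
    obtain ⟨h₀, h₁⟩ := n₂ x hx.1
    refine ⟨(harm x h₀ h₁ hx.2).sub (harm_lg hx.1.1 hx.2),
      le_of_tendsto ((lim x h₀ h₁ hx.2).sub_const _).abs ?_⟩
    filter_upwards [small _ (half_pos hR)] with t ht
    exact (hG t ht.1 ht.2).2.2.2 x hx.1 hx.2)
  refine ⟨Function.update G₀ p₀ (k p₀), fun x h₁ h₂ => ?_, ⟨k₁, hk₁, ?_⟩,
    ⟨fun x => -k₂ x, hk₂.neg, ?_⟩, cdisc p₀ R ∪ (cdisc p₁ R ∪ cdisc p₂ R), C,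
    (g₀.isCompact_cdisc le_rfl).union
      ((g₁.isCompact_cdisc le_rfl).union (g₂.isCompact_cdisc le_rfl)), fun x hx => ?_⟩
  · by_cases h₀ : x = p₀
    · subst h₀
      refine hk.congr ?_
      filter_upwards [eventually_nhdsWithin_iff.1 ek] with y hy
      by_cases hy' : y = x
      · rw [hy', Function.update_self]
      · rw [Function.update_of_ne hy', hy hy']
    · refine (harm x h₀ h₁ h₂).congr ?_
      filter_upwards [eventually_ne_nhds h₀] with y hy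
      rw [Function.update_of_ne hy]
  · filter_upwards [ek₁, punct p₁] with x hx hx'
    rw [Function.update_of_ne (n₁ x hx'.1).1, ← hx]
    ring
  · filter_upwards [ek₂, punct p₂] with x hx hx'
    rw [Function.update_of_ne (n₂ x hx'.1).1, ← hx]
    ring
  · have h₀ : x ≠ p₀ := fun h => hx (Or.inl (h ▸ self p₀))
    rw [Function.update_of_ne h₀]
    exact out x h₀ (fun h => hx (Or.inr (Or.inl (disc_subset_cdisc h))))
      fun h => hx (Or.inr (Or.inr (disc_subset_cdisc h)))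

end Pool.Agent.Lib.Unif
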