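import Pool.Agent.Lib.Unif.Imm
import Pool.Agent.Lib.Unif.AF
import Pool.Agent.Lib.Unif.GD

set_option autoImplicit false
set_option linter.unusedSectionVars false

open Set Filter Topology Metric
open scoped ComplexConjugate Manifold ContDiff

namespace Pool.Agent.Lib.Unif

variable {S : Type*} [TopologicalSpace S] [ChartedSpace (EuclideanSpace ℝ (Fin 2)) S]
  [IsManifold (𝓡 2) ∞ S]
  {W : Type*} [TopologicalSpace W] [ChartedSpace ℂ W] [RS W] [T2Space W] [SimplyConnectedSpace W]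
  {π : W → S} {φ : W → ℂ} {p₁ p₂ w : W}

theorem exists_homeo_dpl (hφ : ∀ x, Hol φ x) (hb : Function.Bijective φ) :
    ∃ c : W ≃ₜ ℂ, ∀ x, c x = φ x :=
  ⟨(isOpenEmbedding_of_hol hφ hb.1).isEmbedding.toHomeomorphOfSurjective hb.2, fun _ => rfl⟩

theorem differentiable_dpl (hφ : ∀ x, Hol φ x) (hb : Function.Bijective φ) {c : W ≃ₜ ℂ}
    (hc : ∀ x, c x = φ x) {f : W → ℂ} (hf : ∀ x, Hol f x) : Differentiable ℂ (f ∘ c.symm) := by
  intro z
  have h1 := (hφ (c.symm z)).analyticAt_inv ⟨univ, univ_mem, hb.1.injOn⟩ (G := c.symm)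
    (Eventually.of_forall fun x => by rw [← hc, c.symm_apply_apply]) (hf (c.symm z))
  rw [← hc, c.apply_symm_apply] at h1
  exact h1.differentiableAt

theorem CCov.transl_dpl (h : CCov π) (hφ : ∀ x, Hol φ x) (hb : Function.Bijective φ) (τ : W ≃ₜ W)
    (hτ : ∀ x, π (τ x) = π x) (hh : HolMap τ) : ∃ b, ∀ x, φ (τ x) = φ x + b := by
  obtain ⟨c, hc⟩ := exists_homeo_dpl hφ hb
  have hd : Differentiable ℂ ((c.symm.trans τ).trans c) := by
    have e : (((c.symm.trans τ).trans c : ℂ ≃ₜ ℂ) : ℂ → ℂ) = (φ ∘ τ) ∘ c.symm :=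
      funext fun z => hc _
    rw [e]
    exact differentiable_dpl hφ hb hc fun x => hh x φ (hφ _)
  obtain ⟨a, b, -, hab⟩ := affine_of_homeo _ hd
  have h1 : ∀ x, φ (τ x) = a * φ x + b := by
    intro x
    have h0 : c (τ (c.symm (c x))) = a * c x + b := hab (c x)
    rwa [c.symm_apply_apply, hc, hc] at h0
  by_cases ha : a = 1
  · exact ⟨b, fun x => by rw [h1, ha, one_mul]⟩
  · obtain ⟨x₀, hx₀⟩ := hb.2 (b / (1 - a))
    have h2 : τ x₀ = x₀ := by
      apply hb.1
      have h3 : 1 - a ≠ 0 := sub_ne_zero.2 (Ne.symm ha)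
      rw [h1, hx₀]
      field_simp
      ring
    exact ⟨0, fun x => by rw [h.gal.free τ hτ x₀ h2 x, add_zero]⟩

theorem CCov.deck_plane (h : CCov π) (hφ : ∀ x, Hol φ x) (hb : Function.Bijective φ) (τ : W ≃ₜ W)
    (hτ : ∀ x, π (τ x) = π x) : (HolMap τ → ∃ b, ∀ x, φ (τ x) = φ x + b) ∧
      ∀ x y, dist (φ (τ x)) (φ (τ y)) = dist (φ x) (φ y) := by
  refine ⟨h.transl_dpl hφ hb τ hτ, fun x y => ?_⟩
  rcases h.deck τ hτ with hh | hh
  · obtain ⟨b, hb'⟩ := h.transl_dpl hφ hb τ hτ hh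
    rw [hb', hb', dist_add_right]
  · obtain ⟨c, hc⟩ := exists_homeo_dpl hφ hb
    have hd : Differentiable ℂ
        (((c.symm.trans τ).trans c).trans Complex.conjCLE.toHomeomorph) := by
      have e : ((((c.symm.trans τ).trans c).trans Complex.conjCLE.toHomeomorph : ℂ ≃ₜ ℂ) :
          ℂ → ℂ) = (fun x => conj (φ (τ x))) ∘ c.symm :=
        funext fun z => congrArg conj (hc _)
      rw [e]
      exact differentiable_dpl hφ hb hc fun x => hh x φ (hφ _)
    obtain ⟨a, b, -, hab⟩ := affine_of_homeo _ hd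
    have h1 : ∀ x, conj (φ (τ x)) = a * φ x + b := by
      intro x
      have h0 : conj (c (τ (c.symm (c x)))) = a * c x + b := hab (c x)
      rwa [c.symm_apply_apply, hc, hc] at h0
    have h2 : ∀ x, φ (τ x) = conj a * conj (φ x) + conj b := by
      intro x
      rw [← map_mul, ← map_add, ← h1, Complex.conj_conj]
    obtain ⟨b', hb'⟩ := h.transl_dpl hφ hb (τ.trans τ) (fun x => (hτ _).trans (hτ x))
      (hh.comp hh)
    have h3 : ∀ x, conj a * (a * φ x + b) + conj b = φ x + b' := by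
      intro x
      rw [← h1, ← h2]
      exact hb' x
    obtain ⟨x₀, hx₀⟩ := hb.2 0
    obtain ⟨x₁, hx₁⟩ := hb.2 1
    have h4 : conj a * a = 1 := by
      have e0 := h3 x₀
      have e1 := h3 x₁
      rw [hx₀] at e0
      rw [hx₁] at e1
      linear_combination e1 - e0
    have h5 : ‖a‖ = 1 := by
      have h6 := congrArg norm h4
      rw [norm_mul, Complex.norm_conj, norm_one] at h6
      nlinarith [norm_nonneg a]
    rw [← Complex.dist_conj_conj, h1, h1, dist_add_right, dist_eq_norm, ← mul_sub, norm_mul, h5,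
      one_mul, dist_eq_norm]

theorem CCov.unif_plane (h : CCov π) (hφ : ∀ x, Hol φ x) (hb : Function.Bijective φ) :
    Unif1 ℂ ℂ S := by
  obtain ⟨c, hc⟩ := exists_homeo_dpl hφ hb
  have key : ∀ z : ℂ, ContMDiffAt 𝓘(ℝ, ℂ) (𝓡 2) 1 (π ∘ c.symm) z ∧
      Function.Injective (mfderiv 𝓘(ℝ, ℂ) (𝓡 2) (π ∘ c.symm) z) := by
    intro z
    have h1 := h.imm_inv (hφ (c.symm z)) ⟨univ, univ_mem, hb.1.injOn⟩ (G := c.symm)
      (Eventually.of_forall fun x => by rw [← hc, c.symm_apply_apply])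
    rw [← hc, c.apply_symm_apply] at h1
    refine Imm.comp (a := id) (n := z) h1 contMDiffAt_id ?_ EventuallyEq.rfl
    rw [mfderiv_id]
    exact Function.injective_id
  refine ⟨π ∘ c.symm, h.cov.comp_homeomorph c.symm, h.surj.comp c.symm.surjective,
    fun z => (key z).1, fun z => (key z).2, fun x y hxy => ?_⟩
  obtain ⟨τ, hτ, hτx⟩ := h.gal.trans (c.symm x) (c.symm y) hxy
  have hiso : Isometry ((c.symm.trans τ).trans c).toEquiv := by
    refine Isometry.of_dist_eq fun z z' => ?_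
    have h1 := (h.deck_plane hφ hb τ hτ).2 (c.symm z) (c.symm z')
    rw [← hc, ← hc, ← hc, ← hc, c.apply_symm_apply, c.apply_symm_apply] at h1
    exact h1
  refine ⟨⟨((c.symm.trans τ).trans c).toEquiv, hiso⟩, fun z => ?_, ?_⟩
  · show π (c.symm (c (τ (c.symm z)))) = π (c.symm z)
    rw [c.symm_apply_apply, hτ]
  · show c (τ (c.symm x)) = y
    rw [hτx, c.apply_symm_apply]

end Pool.Agent.Lib.Unif
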