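import Pool.Agent.Lib.Unif.SphC
import Pool.Agent.Lib.Unif.GD

set_option autoImplicit false
set_option linter.unusedSectionVars false

open Set Filter Topology Metric
open scoped ComplexConjugate Manifold ContDiff

namespace Pool.Agent.Lib.Unif

variable {S : Type*} [TopologicalSpace S] [ChartedSpace (EuclideanSpace ℝ (Fin 2)) S]
  [IsManifold (𝓡 2) ∞ S]
  {W : Type*} [TopologicalSpace W] [ChartedSpace ℂ W] [RS W] [T2Space W] [SimplyConnectedSpace W]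
  {π : W → S} {φ : W → ℂ} {p₁ p₂ w : W}

theorem hol_ext_ds1 {f F : W → ℂ} {p : W} (hF : Hol F p) (h : ∀ᶠ x in 𝓝[≠] p, f x = F x)
    (h0 : f p = F p) : Hol f p := by
  refine hF.congr ?_
  filter_upwards [eventually_nhdsWithin_iff.1 h] with x hx
  by_cases hxp : x = p
  · rw [hxp, h0]
  · exact (hx hxp).symm

theorem const_ds1 (hs : Sph p₁ p₂ φ) (hne : p₁ ≠ p₂) (σ : W ≃ₜ W) (hσ : AntiMap σ)
    (h1 : σ p₁ = p₂) (h2 : σ p₂ = p₁) :
    ∃ c : ℂ, ∀ x, x ≠ p₁ → x ≠ p₂ → φ x * conj (φ (σ x)) = c := by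
  classical
  haveI := hs.compactSpace
  have n1 : ∀ x, x ≠ p₁ → σ x ≠ p₂ := fun x hx e => hx (σ.injective (e.trans h1.symm))
  have n2 : ∀ x, x ≠ p₂ → σ x ≠ p₁ := fun x hx e => hx (σ.injective (e.trans h2.symm))
  obtain ⟨ψ, hψ0, hψe, hψh, hψi, hψo⟩ := hs.toMero.exists_inv hs.bij.injOn 0
  have hk : Hol (fun x => conj (ψ (σ x))) p₁ := hσ p₁ ψ (hψh _ fun hh => absurd h1 hh)
  have hki : LocInj (fun x => conj (ψ (σ x))) p₁ := by
    refine ⟨σ ⁻¹' {x | x ≠ p₂ → φ x ≠ 0},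
      (hψo.preimage σ.continuous).mem_nhds (fun hh => absurd h1 hh), fun a ha b hb hab => ?_⟩
    exact σ.injective (hψi ha hb ((starRingEnd ℂ).injective hab))
  obtain ⟨e', he', he'0, hke⟩ := hk.simple_factor (by simp only [h1, hψ0, map_zero]) hki
  obtain ⟨e, he, -, hφe⟩ := hs.zero
  have hm : Hol (fun x => conj (φ (σ x))) p₂ := hσ p₂ φ (hs.hol _ (by rw [h2]; exact hne))
  obtain ⟨e'', he'', hme⟩ := hm.exists_factor (by simp only [h2, hs.toMero.apply_left, map_zero])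
  obtain ⟨e₂, he₂, -, hφe₂⟩ := hs.pole
  obtain ⟨F, hF⟩ : ∃ F : W → ℂ, F = fun x => if x = p₁ then e p₁ / e' p₁ else
    if x = p₂ then e₂ p₂ * e'' p₂ else φ x * conj (φ (σ x)) := ⟨_, rfl⟩
  have hFe : ∀ x, x ≠ p₁ → x ≠ p₂ → F x = φ x * conj (φ (σ x)) := fun x a b => by
    rw [hF]; simp only [if_neg a, if_neg b]
  have hFh : ∀ x, Hol F x := by
    intro x
    by_cases a : x = p₁
    · rw [a]
      refine hol_ext_ds1 (he.div he' he'0) ?_ (by rw [hF]; simp only [if_true])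
      filter_upwards [self_mem_nhdsWithin, nhdsWithin_le_nhds (eventually_ne_nhds hne),
        nhdsWithin_le_nhds hke, nhdsWithin_le_nhds hφe, eventually_lc_ne_zero p₁]
        with y hy1 hy2 hy3 hy4 hy5
      have hy1' : y ≠ p₁ := hy1
      have hy2' : y ≠ p₂ := hy2
      have hy3' : conj (ψ (σ y)) = e' y * lc p₁ y := hy3
      have hy4' : φ y = e y * lc p₁ y := hy4
      rw [hψe _ (n1 y hy1'), sub_zero, map_inv₀] at hy3'
      have : conj (φ (σ y)) = (e' y * lc p₁ y)⁻¹ := by rw [← hy3', inv_inv]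
      rw [hFe y hy1' hy2', this, hy4', ← div_eq_mul_inv, mul_div_mul_right _ _ hy5]
    · by_cases b : x = p₂
      · rw [b]
        refine hol_ext_ds1 (he₂.mul he'') ?_
          (by rw [hF]; simp only [if_neg hne.symm, if_true])
        filter_upwards [self_mem_nhdsWithin, nhdsWithin_le_nhds (eventually_ne_nhds hne.symm),
          nhdsWithin_le_nhds hme, hφe₂, eventually_lc_ne_zero p₂] with y hy1 hy2 hy3 hy4 hy5
        have hy1' : y ≠ p₂ := hy1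
        have hy2' : y ≠ p₁ := hy2
        have hy3' : conj (φ (σ y)) = e'' y * lc p₂ y := hy3
        rw [hFe y hy2' hy1', hy3', hy4]
        field_simp
      · refine ((hs.hol x b).mul (hσ x φ (hs.hol _ (n1 x a)))).congr ?_
        filter_upwards [eventually_ne_nhds a, eventually_ne_nhds b] with y hy1 hy2
        exact (hFe y hy1 hy2).symm
  exact ⟨F p₁, fun x a b => (hFe x a b).symm.trans (eq_of_compact hFh x p₁)⟩

theorem CCov.deck_sph_hol (h : CCov π) (hs : Sph p₁ p₂ φ) (τ : W ≃ₜ W) (hτ : ∀ x, π (τ x) = π x)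
    (hh : HolMap τ) (x : W) : τ x = x := by
  classical
  by_contra hx
  have hfix : ∀ a, τ a ≠ a := fun a ha => hx (h.gal.free τ hτ a ha x)
  haveI := hs.compactSpace
  obtain ⟨q, hq⟩ : ∃ q, τ q = p₂ := τ.surjective p₂
  have hqp : q ≠ p₂ := fun e => hfix q (hq.trans e.symm)
  have n1 : ∀ y, y ≠ q → τ y ≠ p₂ := fun y hy e => hy (τ.injective (e.trans hq.symm))
  have hd : ∀ y, y ≠ p₂ → y ≠ q → φ (τ y) - φ y ≠ 0 := fun y a b e =>
    hfix y (hs.bij.injOn (n1 y b) a (sub_eq_zero.1 e))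
  obtain ⟨ψ, hψ0, hψe, hψh, -, hψo⟩ := hs.toMero.exists_inv hs.bij.injOn 0
  have hψp : Hol ψ p₂ := hψh _ fun hh => absurd rfl hh
  have hU : {y | y ≠ p₂ → φ y ≠ 0} ∈ 𝓝 p₂ := hψo.mem_nhds fun hh => absurd rfl hh
  obtain ⟨F, hF⟩ : ∃ F : W → ℂ, F = fun y => if y = p₂ then 0 else
    if y = q then 0 else (φ (τ y) - φ y)⁻¹ := ⟨_, rfl⟩
  have hFe : ∀ y, y ≠ p₂ → y ≠ q → F y = (φ (τ y) - φ y)⁻¹ := fun y a b => by
    rw [hF]; simp only [if_neg a, if_neg b]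
  have hF0 : F p₂ = 0 := by rw [hF]; simp only [if_true]
  have hFh : ∀ y, Hol F y := by
    intro y
    by_cases a : y = p₂
    · rw [a]
      have h1 : Hol (fun z => φ (τ z)) p₂ := hh p₂ φ (hs.hol _ (hfix p₂))
      refine hol_ext_ds1 (hψp.div ((hψp.mul h1).sub (hol_const 1)) (by simp [hψ0])) ?_
        (by rw [hF0, hψ0, zero_div])
      filter_upwards [self_mem_nhdsWithin, nhdsWithin_le_nhds (eventually_ne_nhds hqp.symm),
        nhdsWithin_le_nhds hU] with z hz1 hz2 hz3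
      have hz1' : z ≠ p₂ := hz1
      have hz2' : z ≠ q := hz2
      have hz4 : φ z ≠ 0 := hz3 hz1'
      have hz5 := hd z hz1' hz2'
      rw [hFe z hz1' hz2', hψe z hz1', sub_zero]
      have : (φ z)⁻¹ * φ (τ z) - 1 = (φ z)⁻¹ * (φ (τ z) - φ z) := by field_simp
      rw [this]
      field_simp
    · by_cases b : y = q
      · rw [b]
        have h1 : Hol (fun z => ψ (τ z)) q := hh q ψ (by rw [hq]; exact hψp)
        have hU' : τ ⁻¹' {y | y ≠ p₂ → φ y ≠ 0} ∈ 𝓝 q :=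
          τ.continuous.continuousAt.preimage_mem_nhds (by rw [hq]; exact hU)
        refine hol_ext_ds1 (h1.div ((hol_const 1).sub (h1.mul (hs.hol q hqp)))
          (by simp [hq, hψ0])) ?_ (by rw [hF]; simp [hq, hψ0])
        filter_upwards [self_mem_nhdsWithin, nhdsWithin_le_nhds (eventually_ne_nhds hqp),
          nhdsWithin_le_nhds hU'] with z hz1 hz2 hz3
        have hz1' : z ≠ q := hz1
        have hz2' : z ≠ p₂ := hz2
        have hz4 : φ (τ z) ≠ 0 := hz3 (n1 z hz1')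
        have hz5 := hd z hz2' hz1'
        rw [hFe z hz2' hz1', hψe _ (n1 z hz1'), sub_zero]
        have : 1 - (φ (τ z))⁻¹ * φ z = (φ (τ z))⁻¹ * (φ (τ z) - φ z) := by field_simp
        rw [this]
        field_simp
      · have h1 : Hol (fun z => φ (τ z)) y := hh y φ (hs.hol _ (n1 y b))
        refine ((h1.sub (hs.hol y a)).inv (hd y a b)).congr ?_
        filter_upwards [eventually_ne_nhds a, eventually_ne_nhds b] with z hz1 hz2
        exact (hFe z hz1 hz2).symm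
  obtain ⟨y, hy1, hy2⟩ := exists_ne_ne p₂ q
  have := eq_of_compact hFh y p₂
  rw [hFe y hy1 hy2, hF0] at this
  exact hd y hy1 hy2 (inv_eq_zero.1 this)

theorem CCov.exists_sph (h : CCov π) (hs : ∀ p₁ p₂ : W, p₁ ≠ p₂ → ∃ φ, Sph p₁ p₂ φ) :
    ∃ (p₁ p₂ : W) (φ : W → ℂ), p₁ ≠ p₂ ∧ Sph p₁ p₂ φ ∧ ∀ τ : W ≃ₜ W, (∀ x, π (τ x) = π x) →
      (∀ x, τ x = x) ∨ (τ p₁ = p₂ ∧ τ p₂ = p₁ ∧
        ∀ x, x ≠ p₁ → x ≠ p₂ → φ (τ x) * conj (φ x) = -1) := by
  by_cases hall : ∀ τ : W ≃ₜ W, (∀ x, π (τ x) = π x) → ∀ x, τ x = x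
  · obtain ⟨p⟩ : Nonempty W := inferInstance
    obtain ⟨q, hq, -⟩ := exists_ne_ne p p
    obtain ⟨φ, hφ⟩ := hs q p hq
    exact ⟨q, p, φ, hq, hφ, fun τ hτ => Or.inl (hall τ hτ)⟩
  push Not at hall
  obtain ⟨σ, hσ, p₁, hp₁⟩ := hall
  have hfix : ∀ a, σ a ≠ a := fun a ha => hp₁ (h.gal.free σ hσ a ha p₁)
  obtain ⟨p₂, h1⟩ : ∃ p₂, σ p₁ = p₂ := ⟨_, rfl⟩
  have hne : p₁ ≠ p₂ := fun e => hp₁ (h1.trans e.symm)
  obtain ⟨φ, hφ⟩ := hs p₁ p₂ hne
  have hA : ∀ τ : W ≃ₜ W, (∀ x, π (τ x) = π x) → (¬ ∀ x, τ x = x) → AntiMap τ :=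
    fun τ hτ hn => (h.deck τ hτ).resolve_left fun hh => hn (h.deck_sph_hol hφ τ hτ hh)
  have hσA : AntiMap σ := hA σ hσ fun hh => hp₁ (hh p₁)
  have hB : ∀ τ : W ≃ₜ W, (∀ x, π (τ x) = π x) → (¬ ∀ x, τ x = x) → ∀ x, σ (τ x) = x :=
    fun τ hτ hn => h.deck_sph_hol hφ (τ.trans σ) (fun x => (hσ (τ x)).trans (hτ x))
      (hσA.comp (hA τ hτ hn))
  have hσσ : ∀ x, σ (σ x) = x := hB σ hσ fun hh => hp₁ (hh p₁)
  have h2 : σ p₂ = p₁ := by rw [← h1, hσσ]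
  have n1 : ∀ x, x ≠ p₁ → σ x ≠ p₂ := fun x hx e => hx (σ.injective (e.trans h1.symm))
  have n2 : ∀ x, x ≠ p₂ → σ x ≠ p₁ := fun x hx e => hx (σ.injective (e.trans h2.symm))
  obtain ⟨c, hc⟩ := const_ds1 hφ hne σ hσA h1 h2
  have hc' : ∀ x, x ≠ p₁ → x ≠ p₂ → φ (σ x) * conj (φ x) = c := fun x a b => by
    have := hc (σ x) (n2 x b) (n1 x a)
    rwa [hσσ] at this
  obtain ⟨y, hy1, hy2⟩ := exists_ne_ne p₁ p₂
  have hc0 : c ≠ 0 := by
    rw [← hc' y hy1 hy2]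
    exact mul_ne_zero (hφ.ne _ (n2 y hy2) (n1 y hy1)) ((map_ne_zero _).2 (hφ.ne y hy1 hy2))
  have hcr : conj c = c := by
    rw [← hc y hy1 hy2, map_mul, Complex.conj_conj, mul_comm, hc' y hy1 hy2, hc y hy1 hy2]
  obtain ⟨r, hr⟩ := Complex.conj_eq_iff_real.1 hcr
  have hr0 : r ≠ 0 := fun e => hc0 (by rw [hr, e, Complex.ofReal_zero])
  have hneg : r < 0 := by
    refine lt_of_le_of_ne (not_lt.1 fun hpos => ?_) hr0
    obtain ⟨z, hz, hz'⟩ := hφ.bij.surjOn (mem_univ ((√r : ℝ) : ℂ))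
    have hs0 : ((√r : ℝ) : ℂ) ≠ 0 := Complex.ofReal_ne_zero.2 (Real.sqrt_pos.2 hpos).ne'
    have hz1 : z ≠ p₁ := fun e => hs0 (by rw [← hz', e, hφ.toMero.apply_left])
    have e1 := hc' z hz1 hz
    have e2 : ((√r : ℝ) : ℂ) * ((√r : ℝ) : ℂ) = (r : ℂ) := by
      rw [← Complex.ofReal_mul, Real.mul_self_sqrt hpos.le]
    rw [hz', Complex.conj_ofReal, hr, ← e2] at e1
    have e3 : φ (σ z) = φ z := by rw [hz']; exact mul_right_cancel₀ hs0 e1
    exact hfix z (hφ.bij.injOn (n1 z hz1) hz e3)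
  have hd0 : ((√(-r) : ℝ) : ℂ) ≠ 0 :=
    Complex.ofReal_ne_zero.2 (Real.sqrt_pos.2 (neg_pos.2 hneg)).ne'
  refine ⟨p₁, p₂, fun x => φ x / ((√(-r) : ℝ) : ℂ), hne, hφ.div_const hd0, fun τ hτ => ?_⟩
  by_cases hn : ∀ x, τ x = x
  · exact Or.inl hn
  have hτσ : ∀ x, τ x = σ x := fun x => σ.injective ((hB τ hτ hn x).trans (hσσ x).symm)
  refine Or.inr ⟨(hτσ p₁).trans h1, (hτσ p₂).trans h2, fun x a b => ?_⟩
  have e2 : ((√(-r) : ℝ) : ℂ) * ((√(-r) : ℝ) : ℂ) = -(r : ℂ) := by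
    rw [← Complex.ofReal_mul, Real.mul_self_sqrt (neg_pos.2 hneg).le, Complex.ofReal_neg]
  have hr' : (r : ℂ) ≠ 0 := Complex.ofReal_ne_zero.2 hr0
  rw [hτσ, map_div₀, Complex.conj_ofReal, div_mul_div_comm, hc' x a b, e2, hr, div_neg,
    div_self hr']

end Pool.Agent.Lib.Unif
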