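import Pool.Agent.Lib.Unif.C2b

set_option autoImplicit false
set_option linter.unusedSectionVars false

open Set Filter Topology Metric
open scoped ComplexConjugate Manifold ContDiff

namespace Pool.Agent.Lib.Unif

variable {W : Type*} [TopologicalSpace W] [ChartedSpace ℂ W] [RS W] [T2Space W] [SimplyConnectedSpace W]
  {p q x p₀ p₁ p₂ : W} {f f' e φ : W → ℂ} {u v w s g g' : W → ℝ} {r t R T M C : ℝ} {Ω U K D : Set W}

theorem Sph.exists_inv (h : Sph p₁ p₂ φ) : ∃ G : ℂ → W, Continuous G ∧ (∀ z, G z ≠ p₂ ∧ φ (G z) = z) ∧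
    ∀ x, x ≠ p₂ → G (φ x) = x := by
  have : Nonempty W := ⟨p₂⟩
  have hl : ∀ x, x ≠ p₂ → Function.invFunOn φ {p₂}ᶜ (φ x) = x := fun x hx =>
    h.bij.injOn.leftInvOn_invFunOn hx
  have hr : ∀ z, Function.invFunOn φ {p₂}ᶜ z ≠ p₂ ∧ φ (Function.invFunOn φ {p₂}ᶜ z) = z := by
    intro z
    obtain ⟨x, hx, rfl⟩ := h.bij.surjOn (mem_univ z)
    rw [hl x hx]
    exact ⟨hx, rfl⟩
  refine ⟨Function.invFunOn φ {p₂}ᶜ, continuous_iff_continuousAt.2 fun z => ?_, hr, hl⟩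
  obtain ⟨x, hx, rfl⟩ := h.bij.surjOn (mem_univ z)
  have hn : ({p₂}ᶜ : Set W) ∈ 𝓝 x := isOpen_compl_singleton.mem_nhds hx
  refine (h.hol x hx).continuousAt_inv ⟨_, hn, h.bij.injOn⟩ ?_
  filter_upwards [hn] with y hy using hl y hy

theorem Sph.compactSpace (h : Sph p₁ p₂ φ) : CompactSpace W := by
  obtain ⟨G, hG, -, hl⟩ := h.exists_inv
  obtain ⟨K, C, hK, -, hb⟩ := h.bdd
  have hc : IsCompact (K ∪ {p₂} ∪ G '' closedBall 0 C) :=
    (hK.union isCompact_singleton).union ((isCompact_closedBall 0 C).image hG)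
  refine ⟨hc.of_isClosed_subset isClosed_univ fun x _ => ?_⟩
  by_cases h1 : x ∈ K
  · exact Or.inl (Or.inl h1)
  by_cases h2 : x = p₂
  · exact Or.inl (Or.inr h2)
  exact Or.inr ⟨φ x, mem_closedBall_zero_iff.2 (hb x h1).2, hl x h2⟩

theorem Sph.div_const (h : Sph p₁ p₂ φ) {c : ℂ} (hc : c ≠ 0) : Sph p₁ p₂ fun x => φ x / c := by
  have hc' : 0 < ‖c‖ := norm_pos_iff.2 hc
  refine ⟨⟨fun x hx => (h.hol x hx).div (hol_const c) hc,
    fun x h1 h2 => div_ne_zero (h.ne x h1 h2) hc, ?_, ?_, ?_⟩, ?_⟩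
  · obtain ⟨e, he, h0, h1⟩ := h.zero
    refine ⟨fun x => e x / c, he.div (hol_const c) hc, div_ne_zero h0 hc, ?_⟩
    filter_upwards [h1] with x hx
    rw [hx]; ring
  · obtain ⟨e, he, h0, h1⟩ := h.pole
    refine ⟨fun x => e x / c, he.div (hol_const c) hc, div_ne_zero h0 hc, ?_⟩
    filter_upwards [h1] with x hx
    rw [hx]; ring
  · obtain ⟨K, C, hK, hC, hb⟩ := h.bdd
    refine ⟨K, C * (‖c‖ + ‖c‖⁻¹), hK, by positivity, fun x hx => ?_⟩
    obtain ⟨b1, b2⟩ := hb x hx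
    have hi : 0 < ‖c‖⁻¹ := inv_pos.2 hc'
    rw [norm_div, div_eq_mul_inv, mul_inv]
    exact ⟨mul_le_mul b1 (inv_anti₀ hc' (by linarith)) (by positivity) (norm_nonneg _),
      mul_le_mul b2 (by linarith) hi.le hC.le⟩
  · refine ⟨mapsTo_univ _ _, fun x hx y hy hxy => h.bij.injOn hx hy ?_, fun z _ => ?_⟩
    · exact (div_left_inj' hc).1 hxy
    · obtain ⟨x, hx, e⟩ := h.bij.surjOn (mem_univ (z * c))
      exact ⟨x, hx, by simp only [e, mul_div_cancel_right₀ z hc]⟩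

end Pool.Agent.Lib.Unif
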