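import Pool.Agent.Lib.Unif.Ster
import Pool.Agent.Lib.Unif.SphC

set_option autoImplicit false
set_option linter.unusedSectionVars false

open Set Filter Topology Metric
open scoped ComplexConjugate Manifold ContDiff

namespace Pool.Agent.Lib.Unif

variable {W : Type*} [TopologicalSpace W] [ChartedSpace ℂ W] [RS W] [T2Space W] [SimplyConnectedSpace W]
  {p q x p₀ p₁ p₂ : W} {f f' e φ : W → ℂ} {u v w s g g' : W → ℝ} {r t R T M C : ℝ} {Ω U K D : Set W}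

theorem Sph.exists_homeo (h : Sph p₁ p₂ φ) (hne : p₁ ≠ p₂) :
    ∃ (c : sphere (0 : EuclideanSpace ℝ (Fin 3)) 1 ≃ₜ W) (G G' : ℂ → W) (ψ : W → ℂ),
      (∀ x, x ≠ p₂ → G (φ x) = x) ∧ (∀ x, x ≠ p₁ → G' (ψ x) = x) ∧ Hol ψ p₂ ∧ ψ p₂ = 0 ∧
      (∀ y, y.1 2 ≠ 1 → c y ≠ p₂ ∧ φ (c y) = stN y) ∧ (∀ y, y.1 2 = 1 → c y = p₂) ∧
      ∀ y, y.1 2 ≠ -1 → c y ≠ p₁ ∧ ψ (c y) = stS y := by
  classical
  obtain ⟨G, hGc, hG1, hG2⟩ := h.exists_inv
  obtain ⟨ψ, hψ0, hψ1, hψh, hψi, -⟩ := h.toMero.exists_inv h.bij.injOn 0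
  have hset : ∀ x, x ≠ p₁ → x ≠ p₂ → φ x ≠ 0 := fun x hx hx2 => h.ne x hx hx2
  have hψi' : InjOn ψ {p₁}ᶜ := fun a ha b hb hab => hψi (hset a ha) (hset b hb) hab
  have : Nonempty W := ⟨p₁⟩
  obtain ⟨G', hG'⟩ : ∃ G' : ℂ → W, ∀ x, x ≠ p₁ → G' (ψ x) = x :=
    ⟨Function.invFunOn ψ {p₁}ᶜ, fun x hx => hψi'.leftInvOn_invFunOn hx⟩
  have hhol : Hol ψ p₂ := hψh p₂ (fun h => absurd rfl h)
  obtain ⟨c0, hc0⟩ : ∃ c0 : sphere (0 : EuclideanSpace ℝ (Fin 3)) 1 → W,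
      ∀ y, c0 y = if y.1 2 = 1 then p₂ else G (stN y) := ⟨_, fun _ => rfl⟩
  have hcG : ∀ y, y.1 2 ≠ 1 → c0 y = G (stN y) := fun y hy => by rw [hc0, if_neg hy]
  have hc1 : ∀ y, y.1 2 ≠ 1 → c0 y ≠ p₂ ∧ φ (c0 y) = stN y := fun y hy => by
    rw [hcG y hy]
    exact hG1 _
  have hc2 : ∀ y, y.1 2 = 1 → c0 y = p₂ := fun y hy => by rw [hc0, if_pos hy]
  have hc3 : ∀ y, y.1 2 ≠ -1 → c0 y ≠ p₁ ∧ ψ (c0 y) = stS y := by
    intro y hy
    by_cases hy1 : y.1 2 = 1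
    · rw [hc2 y hy1]
      refine ⟨hne.symm, ?_⟩
      rw [hψ0, stS_eq_inv hy]
      simp [stN, hy1]
    · obtain ⟨h1, h2⟩ := hc1 y hy1
      refine ⟨fun h3 => ?_, ?_⟩
      · rw [h3, h.toMero.apply_left] at h2
        exact hy ((stN_eq_zero hy1).1 h2.symm)
      · rw [hψ1 _ h1, h2, sub_zero, stS_eq_inv hy]
  have hinj : Function.Injective c0 := by
    intro a b hab
    by_cases ha : a.1 2 = 1
    · by_cases hb : b.1 2 = 1
      · exact eq_of_north ha hb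
      · exact absurd (hab.symm.trans (hc2 a ha)) (hc1 b hb).1
    · by_cases hb : b.1 2 = 1
      · exact absurd (hab.trans (hc2 b hb)) (hc1 a ha).1
      · refine stN_bij.injOn ha hb ?_
        rw [← (hc1 a ha).2, ← (hc1 b hb).2, hab]
  have hsurj : Function.Surjective c0 := by
    intro x
    by_cases hx : x = p₂
    · obtain ⟨y, hy⟩ := exists_north
      exact ⟨y, by rw [hc2 y hy, hx]⟩
    · obtain ⟨y, hy, hy'⟩ := stN_bij.surjOn (mem_univ (φ x))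
      exact ⟨y, by rw [hcG y hy, hy', hG2 x hx]⟩
  have hco : Continuous fun y : sphere (0 : EuclideanSpace ℝ (Fin 3)) 1 => y.1 2 := by
    fun_prop
  have hcont : Continuous c0 := by
    rw [continuous_iff_continuousAt]
    intro y
    by_cases hy : y.1 2 = 1
    · have hy' : y.1 2 ≠ -1 := by rw [hy]; norm_num
      have hev : ∀ᶠ z : sphere (0 : EuclideanSpace ℝ (Fin 3)) 1 in 𝓝 y, z.1 2 ≠ -1 :=
        hco.continuousAt.eventually_ne hy'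
      have hnb : ∀ᶠ x in 𝓝 p₂, x ≠ p₁ := isOpen_ne.mem_nhds hne.symm
      have hG'c : ContinuousAt G' (ψ p₂) :=
        hhol.continuousAt_inv ⟨{p₁}ᶜ, hnb, hψi'⟩ (hnb.mono fun x hx => hG' x hx)
      have hS : stS y = ψ p₂ := by rw [← (hc3 y hy').2, hc2 y hy]
      have h1 : ContinuousAt (fun z => G' (stS z)) y :=
        ContinuousAt.comp (f := stS) (hS ▸ hG'c) (stS_imm hy').1.continuousAt
      refine h1.congr (hev.mono fun z hz => ?_)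
      obtain ⟨h2, h3⟩ := hc3 z hz
      simp only
      rw [← h3, hG' _ h2]
    · have hev : ∀ᶠ z : sphere (0 : EuclideanSpace ℝ (Fin 3)) 1 in 𝓝 y, z.1 2 ≠ 1 :=
        hco.continuousAt.eventually_ne hy
      have h1 : ContinuousAt (fun z => G (stN z)) y :=
        hGc.continuousAt.comp (stN_imm hy).1.continuousAt
      exact h1.congr (hev.mono fun z hz => (hcG z hz).symm)
  refine ⟨Continuous.homeoOfEquivCompactToT2 (f := Equiv.ofBijective c0 ⟨hinj, hsurj⟩) hcont,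
    G, G', ψ, hG2, hG', hhol, hψ0, hc1, hc2, hc3⟩

end Pool.Agent.Lib.Unif
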