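import Pool.Agent.Lib.Unif.BI2

set_option autoImplicit false
set_option linter.unusedSectionVars false

open Set Filter Topology Metric
open scoped ComplexConjugate Manifold ContDiff

namespace Pool.Agent.Lib.Unif

variable {S : Type*} [TopologicalSpace S] [ChartedSpace (EuclideanSpace ℝ (Fin 2)) S]
  [IsManifold (𝓡 2) ∞ S]
  {W : Type*} [TopologicalSpace W] [ChartedSpace ℂ W] [RS W] [T2Space W] [SimplyConnectedSpace W]
  {π : W → S} {φ : W → ℂ} {p₁ p₂ w : W}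

theorem CCov.imm_inv (h : CCov π) (hφ : Hol φ w) (hi : LocInj φ w) {G : ℂ → W}
    (hG : ∀ᶠ x in 𝓝 w, G (φ x) = x) : Imm (π ∘ G) (φ w) := by
  obtain ⟨h1, R, hR, hl⟩ := h.imm w
  have hw := mem_chart_source ℂ w
  have h0 : G (φ w) = w := hG.self_of_nhds
  have hc := hφ.continuousAt_inv hi hG
  have ha : AnalyticAt ℂ (chartAt ℂ w ∘ G) (φ w) := hφ.analyticAt_inv hi hG (hol_chart hw)
  have e0 : (chartAt ℂ w ∘ G) (φ w) = chartAt ℂ w w := by simp only [Function.comp_apply, h0]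
  have e1 : π ∘ G =ᶠ[𝓝 (φ w)] (π ∘ (chartAt ℂ w).symm) ∘ (chartAt ℂ w ∘ G) := by
    have h2 : ∀ᶠ x in 𝓝 (G (φ w)), (chartAt ℂ w).symm (chartAt ℂ w x) = x := by
      rw [h0]; exact left_hol2 w
    filter_upwards [hc.eventually h2] with ζ hζ
    simp only [Function.comp_apply, hζ]
  have e2 : (π ∘ G) (φ w) = (π ∘ (chartAt ℂ w).symm) (chartAt ℂ w w) := by
    simp only [Function.comp_apply, h0, (chartAt ℂ w).left_inv hw]
  have ha1 : ContMDiffAt 𝓘(ℝ, ℂ) 𝓘(ℝ, ℂ) 1 (chartAt ℂ w ∘ G) (φ w) :=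
    ((ha.contDiffAt (n := 1)).restrict_scalars ℝ).contMDiffAt
  refine ⟨(ContMDiffAt.comp_of_eq h1 ha1 e0).congr_of_eventuallyEq e1,
    (φ ∘ (chartAt ℂ w).symm) ∘ R, ?_, ?_⟩
  · rw [e2]
    have hφ' : AnalyticAt ℂ (φ ∘ (chartAt ℂ w).symm) (chartAt ℂ w w) := hφ
    have h3 : MDifferentiableAt 𝓘(ℝ, ℂ) 𝓘(ℝ, ℂ) (φ ∘ (chartAt ℂ w).symm) (chartAt ℂ w w) :=
      (hφ'.differentiableAt.restrictScalars ℝ).mdifferentiableAt
    exact MDifferentiableAt.comp_of_eq _ h3 hR hl.self_of_nhds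
  · rw [← hφ.map_nhds hi, eventually_map]
    filter_upwards [hG, pull_hol2 hl, left_hol2 w] with x hx hx2 hx3
    simp only [Function.comp_apply, hx3] at hx2
    simp only [Function.comp_apply, hx, hx2, hx3]

theorem Imm.comp {V N : Type*} [NormedAddCommGroup V] [NormedSpace ℝ V] [TopologicalSpace N]
    [ChartedSpace V N] {r : ℂ → S} {a : N → ℂ} {n : N} (h : Imm r (a n))
    (ha : ContMDiffAt 𝓘(ℝ, V) 𝓘(ℝ, ℂ) 1 a n)
    (hi : Function.Injective (mfderiv 𝓘(ℝ, V) 𝓘(ℝ, ℂ) a n)) {q : N → S} (hq : q =ᶠ[𝓝 n] r ∘ a) :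
    ContMDiffAt 𝓘(ℝ, V) (𝓡 2) 1 q n ∧ Function.Injective (mfderiv 𝓘(ℝ, V) (𝓡 2) q n) := by
  obtain ⟨h1, R, hR, hl⟩ := h
  have hq1 : ContMDiffAt 𝓘(ℝ, V) (𝓡 2) 1 q n := (h1.comp n ha).congr_of_eventuallyEq hq
  refine ⟨hq1, ?_⟩
  have e0 : q n = r (a n) := hq.self_of_nhds
  have e1 : a =ᶠ[𝓝 n] R ∘ q := by
    filter_upwards [hq, ha.continuousAt.eventually hl] with x hx hx2
    simp only [Function.comp_apply] at hx ⊢
    rw [hx, hx2]
  rw [← e0] at hR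
  have h2 := mfderiv_comp n hR (hq1.mdifferentiableAt one_ne_zero)
  rw [e1.mfderiv_eq, h2] at hi
  exact Function.Injective.of_comp (f := mfderiv (𝓡 2) 𝓘(ℝ, ℂ) R (q n)) hi

end Pool.Agent.Lib.Unif
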