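import Pool.Agent.Lib.Unif.DS2
import Pool.Agent.Lib.Unif.DS1
import Pool.Agent.Lib.Unif.Imm

set_option autoImplicit false
set_option linter.unusedSectionVars false

open Set Filter Topology Metric
open scoped ComplexConjugate Manifold ContDiff

namespace Pool.Agent.Lib.Unif

variable {S : Type*} [TopologicalSpace S] [ChartedSpace (EuclideanSpace ℝ (Fin 2)) S]
  [IsManifold (𝓡 2) ∞ S]
  {W : Type*} [TopologicalSpace W] [ChartedSpace ℂ W] [RS W] [T2Space W] [SimplyConnectedSpace W]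
  {π : W → S} {φ : W → ℂ} {p₁ p₂ w : W}

theorem locInj_of_left_inv_ds3 {G : ℂ → W} (hG : ∀ᶠ x in 𝓝 w, G (φ x) = x) : LocInj φ w :=
  ⟨_, hG, fun a ha b hb hab => by
    have ha' : G (φ a) = a := ha
    have hb' : G (φ b) = b := hb
    rw [← ha', hab, hb']⟩

theorem continuous_height_ds3 :
    Continuous fun y : sphere (0 : EuclideanSpace ℝ (Fin 3)) 1 => y.1 2 := by
  fun_prop

theorem neg_height_ds3 (y : sphere (0 : EuclideanSpace ℝ (Fin 3)) 1) : (-y).1 2 = -y.1 2 := rfl

/-- The antipodal map. -/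
noncomputable def antipode_ds3 :
    sphere (0 : EuclideanSpace ℝ (Fin 3)) 1 ≃ᵢ sphere (0 : EuclideanSpace ℝ (Fin 3)) 1 where
  toEquiv := Equiv.neg _
  isometry_toFun := Isometry.of_dist_eq fun a b => by
    rw [Subtype.dist_eq, Subtype.dist_eq]
    exact dist_neg_neg a.1 b.1

theorem antipode_apply_ds3 (y : sphere (0 : EuclideanSpace ℝ (Fin 3)) 1) :
    antipode_ds3 y = -y := rfl

theorem CCov.unif_sph (h : CCov π) (hs : ∀ p₁ p₂ : W, p₁ ≠ p₂ → ∃ φ, Sph p₁ p₂ φ) :
    Unif1 (sphere (0 : EuclideanSpace ℝ (Fin 3)) 1) (EuclideanSpace ℝ (Fin 2)) S := by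
  obtain ⟨p₁, p₂, φ, hne, hφ, hdeck⟩ := h.exists_sph hs
  obtain ⟨c, G, G', ψ, hG, hG', hψ, -, hN, hP, hS⟩ := hφ.exists_homeo hne
  have key : ∀ y, ContMDiffAt (𝓡 2) (𝓡 2) 1 (π ∘ c) y ∧
      Function.Injective (mfderiv (𝓡 2) (𝓡 2) (π ∘ c) y) := by
    intro y
    by_cases hy : y.1 2 = 1
    · have hy' : y.1 2 ≠ -1 := by rw [hy]; norm_num
      have e1 : ∀ᶠ x in 𝓝 p₂, G' (ψ x) = x :=
        (eventually_ne_nhds hne.symm).mono fun x hx => hG' x hx
      have e2 := h.imm_inv hψ (locInj_of_left_inv_ds3 e1) e1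
      rw [← hP y hy, (hS y hy').2] at e2
      refine e2.comp (stS_imm hy').1 (stS_imm hy').2 ?_
      have e3 : ∀ᶠ z in 𝓝 y, z.1 2 ≠ -1 :=
        continuous_height_ds3.continuousAt.eventually_ne hy'
      refine e3.mono fun z hz => ?_
      simp only [Function.comp_apply]
      rw [← (hS z hz).2, hG' _ (hS z hz).1]
    · have e1 : ∀ᶠ x in 𝓝 (c y), G (φ x) = x :=
        (eventually_ne_nhds (hN y hy).1).mono fun x hx => hG x hx
      have e2 := h.imm_inv (hφ.hol _ (hN y hy).1) (locInj_of_left_inv_ds3 e1) e1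
      rw [(hN y hy).2] at e2
      refine e2.comp (stN_imm hy).1 (stN_imm hy).2 ?_
      have e3 : ∀ᶠ z in 𝓝 y, z.1 2 ≠ 1 :=
        continuous_height_ds3.continuousAt.eventually_ne hy
      refine e3.mono fun z hz => ?_
      simp only [Function.comp_apply]
      rw [← (hN z hz).2, hG _ (hN z hz).1]
  have south : ∀ z : sphere (0 : EuclideanSpace ℝ (Fin 3)) 1, z.1 2 = -1 → c z = p₁ := by
    intro z hz
    have hz' : z.1 2 ≠ 1 := by rw [hz]; norm_num
    by_contra hc
    exact hφ.ne _ hc (hN z hz').1 ((hN z hz').2.trans ((stN_eq_zero hz').2 hz))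
  refine ⟨π ∘ c, h.cov.comp_homeomorph c, h.surj.comp c.surjective, fun y => (key y).1,
    fun y => (key y).2, fun x y hxy => ?_⟩
  obtain ⟨τ, hτ, hτxy⟩ := h.gal.trans _ _ hxy
  rcases hdeck τ hτ with hid | ⟨h1, h2, h3⟩
  · refine ⟨IsometryEquiv.refl _, fun _ => rfl, c.injective ?_⟩
    rw [← hτxy, hid]
    rfl
  · have anti : ∀ z, τ (c z) = c (-z) := by
      intro z
      by_cases hz : z.1 2 = 1
      · rw [hP z hz, h2, south (-z) (by rw [neg_height_ds3, hz])]
      by_cases hz' : z.1 2 = -1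
      · rw [south z hz', h1, hP (-z) (by rw [neg_height_ds3, hz', neg_neg])]
      have a1 : (-z).1 2 ≠ 1 := by
        rw [neg_height_ds3]
        intro h4
        exact hz' (by linarith)
      have a2 : τ (c z) ≠ p₂ := by
        rw [← h1]
        exact fun h4 => (hS z hz').1 (τ.injective h4)
      have a3 := h3 _ (hS z hz').1 (hN z hz).1
      rw [(hN z hz).2] at a3
      have a4 := stN_neg hz hz'
      have a5 : conj (stN z) ≠ 0 := by
        intro h4
        rw [h4, mul_zero] at a4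
        norm_num at a4
      refine hφ.bij.injOn a2 (hN _ a1).1 ?_
      rw [(hN _ a1).2]
      exact mul_right_cancel₀ a5 (a3.trans a4.symm)
    refine ⟨antipode_ds3, fun z => ?_, c.injective ?_⟩
    · simp only [Function.comp_apply, antipode_apply_ds3]
      rw [← anti, hτ]
    · rw [antipode_apply_ds3, ← anti, hτxy]

end Pool.Agent.Lib.Unif
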