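import Mathlib

/-!
Riemann surfaces, harmonic and subharmonic functions, Green functions: definitions used in the
proof of the uniformization theorem.
-/

set_option autoImplicit false

open Set Filter Topology Metric
open scoped ComplexConjugate Manifold ContDiff

namespace Pool.Agent.Lib.Unif

/-- The transition maps between the preferred charts are analytic. -/
class RS (W : Type*) [TopologicalSpace W] [ChartedSpace ℂ W] : Prop where
  compat : ∀ p q x : W, x ∈ (chartAt ℂ p).source → x ∈ (chartAt ℂ q).source →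
    AnalyticAt ℂ (chartAt ℂ p ∘ (chartAt ℂ q).symm) (chartAt ℂ q x)

/-- Injective near a point. -/
def LocInj {X Y : Type*} [TopologicalSpace X] (f : X → Y) (p : X) : Prop :=
  ∃ U ∈ 𝓝 p, InjOn f U

/-- Analytic or anti-analytic at a point. -/
def Di (f : ℂ → ℂ) (z : ℂ) : Prop := AnalyticAt ℂ f z ∨ AnalyticAt ℂ (fun w => conj (f w)) z

section

variable {W : Type*} [TopologicalSpace W] [ChartedSpace ℂ W]

/-- Holomorphic at a point. -/
def Hol (f : W → ℂ) (p : W) : Prop := AnalyticAt ℂ (f ∘ (chartAt ℂ p).symm) (chartAt ℂ p p)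

/-- Harmonic at a point: locally the real part of a holomorphic function. -/
def Harm (u : W → ℝ) (p : W) : Prop := ∃ f : W → ℂ, Hol f p ∧ ∀ᶠ x in 𝓝 p, u x = (f x).re

/-- Subharmonic at a point: continuous, and the local maximum principle holds for the difference
with every harmonic function. -/
def Subh (v : W → ℝ) (p : W) : Prop :=
  ContinuousAt v p ∧ ∀ u : W → ℝ, Harm u p → (∀ᶠ x in 𝓝 p, v x - u x ≤ v p - u p) →
    ∀ᶠ x in 𝓝 p, v x - u x = v p - u p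

/-- The local coordinate centred at `p`. -/
noncomputable def lc (p x : W) : ℂ := chartAt ℂ p x - chartAt ℂ p p

/-- The logarithm of the modulus of the local coordinate. -/
noncomputable def lg (p x : W) : ℝ := Real.log ‖lc p x‖

/-- Open coordinate disc. -/
def disc (p : W) (r : ℝ) : Set W := {x | x ∈ (chartAt ℂ p).source ∧ ‖lc p x‖ < r}

/-- Closed coordinate disc. -/
def cdisc (p : W) (r : ℝ) : Set W := {x | x ∈ (chartAt ℂ p).source ∧ ‖lc p x‖ ≤ r}

/-- Coordinate circle. -/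
def circ (p : W) (r : ℝ) : Set W := {x | x ∈ (chartAt ℂ p).source ∧ ‖lc p x‖ = r}

/-- The closed disc of radius `r` fits in the chart at `p`. -/
def Good (p : W) (r : ℝ) : Prop := 0 < r ∧ closedBall (chartAt ℂ p p) r ⊆ (chartAt ℂ p).target

/-- `s` has a logarithmic pole at `p`. -/
def Pole (s : W → ℝ) (p : W) : Prop :=
  ∃ h : W → ℝ, Harm h p ∧ ∀ᶠ x in 𝓝[≠] p, s x = h x - lg p x

/-- The Perron family of the Green function of `Ω` with pole `p`. -/
structure Fam (Ω : Set W) (p : W) (v : W → ℝ) : Prop where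
  subh : ∀ x, x ≠ p → Subh v x
  supp : ∃ K, IsCompact K ∧ K ⊆ Ω ∧ ∀ x, x ∉ K → v x = 0
  pole : ∃ C, ∀ᶠ x in 𝓝[≠] p, v x + lg p x ≤ C

/-- `g` is the Green function of `Ω` with pole `p`. -/
structure IsGreen (Ω : Set W) (p : W) (g : W → ℝ) : Prop where
  harm : ∀ x ∈ Ω, x ≠ p → Harm g x
  pos : ∀ x ∈ Ω, x ≠ p → 0 < g x
  pole : Pole g p
  lub : ∀ x ∈ Ω, x ≠ p → IsLUB {t | ∃ v, Fam Ω p v ∧ v x = t} (g x)

/-- `φ` is meromorphic with a simple zero at `p₁`, a simple pole at `p₂`, no other zero or pole,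
and it is bounded above and below outside a compact set. -/
structure Mero (p₁ p₂ : W) (φ : W → ℂ) : Prop where
  hol : ∀ x, x ≠ p₂ → Hol φ x
  ne : ∀ x, x ≠ p₁ → x ≠ p₂ → φ x ≠ 0
  zero : ∃ e, Hol e p₁ ∧ e p₁ ≠ 0 ∧ ∀ᶠ x in 𝓝 p₁, φ x = e x * lc p₁ x
  pole : ∃ e, Hol e p₂ ∧ e p₂ ≠ 0 ∧ ∀ᶠ x in 𝓝[≠] p₂, φ x = e x / lc p₂ x
  bdd : ∃ K C, IsCompact K ∧ 0 < C ∧ ∀ x, x ∉ K → C⁻¹ ≤ ‖φ x‖ ∧ ‖φ x‖ ≤ C

/-- `φ` identifies `W` with the Riemann sphere, `p₁` going to zero and `p₂` to infinity. -/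
structure Sph (p₁ p₂ : W) (φ : W → ℂ) : Prop extends Mero p₁ p₂ φ where
  bij : BijOn φ {p₂}ᶜ univ

variable {W' : Type*} [TopologicalSpace W'] [ChartedSpace ℂ W']

/-- A holomorphic map between Riemann surfaces. -/
def HolMap (τ : W' → W) : Prop := ∀ (w : W') (f : W → ℂ), Hol f (τ w) → Hol (f ∘ τ) w

/-- An antiholomorphic map between Riemann surfaces. -/
def AntiMap (τ : W' → W) : Prop :=
  ∀ (w : W') (f : W → ℂ), Hol f (τ w) → Hol (fun x => conj (f (τ x))) w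

/-- A local biholomorphism. -/
structure LocIso (π : W' → W) : Prop where
  loc : IsLocalHomeomorph π
  hol : ∀ (w : W') (f : W → ℂ), Hol (f ∘ π) w ↔ Hol f (π w)

end

/-- The fibres of `π` are the orbits of its deck transformations, which act freely. -/
structure Galois {E X : Type*} [TopologicalSpace E] (π : E → X) : Prop where
  trans : ∀ a b, π a = π b → ∃ τ : E ≃ₜ E, (∀ x, π (τ x) = π x) ∧ τ a = b
  free : ∀ τ : E ≃ₜ E, (∀ x, π (τ x) = π x) → ∀ a, τ a = a → ∀ x, τ x = x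

/-- The exponential `exp (2 π i ⟨ξ, z⟩)`. -/
noncomputable def ex (ξ z : ℂ) : ℂ :=
  Complex.exp (2 * Real.pi * Complex.I * ((ξ.re * z.re + ξ.im * z.im : ℝ) : ℂ))

/-- The Beltrami coefficient of the quadratic form `‖B v‖ ^ 2`. -/
noncomputable def bel {V : Type*} [NormedAddCommGroup V] [InnerProductSpace ℝ V]
    (B : ℂ →L[ℝ] V) : ℂ :=
  (((‖B 1‖ ^ 2 - ‖B Complex.I‖ ^ 2 : ℝ) : ℂ) +
      2 * Complex.I * ((inner ℝ (B 1) (B Complex.I) : ℝ) : ℂ)) /
    ((‖B 1‖ ^ 2 + ‖B Complex.I‖ ^ 2 +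
      2 * √(‖B 1‖ ^ 2 * ‖B Complex.I‖ ^ 2 - inner ℝ (B 1) (B Complex.I) ^ 2) : ℝ) : ℂ)

section

variable {S : Type*} [TopologicalSpace S] [ChartedSpace (EuclideanSpace ℝ (Fin 2)) S]

/-- A `C¹` chart that is conformal for the metric induced by `e`. -/
structure ConfChart {V : Type*} [NormedAddCommGroup V] [NormedSpace ℝ V] (e : S → V)
    (ψ : OpenPartialHomeomorph S ℂ) : Prop where
  c1 : ContMDiffOn (𝓡 2) 𝓘(ℝ, ℂ) 1 ψ ψ.source
  c2 : ContMDiffOn 𝓘(ℝ, ℂ) (𝓡 2) 1 ψ.symm ψ.target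
  conf : ∀ w ∈ ψ.target, ∃ l : ℝ, 0 < l ∧ ∀ v, ‖fderiv ℝ (e ∘ ψ.symm) w v‖ = l * ‖v‖

/-- `r` is `C¹` at `z` and has a differentiable local left inverse. -/
def Imm (r : ℂ → S) (z : ℂ) : Prop :=
  ContMDiffAt 𝓘(ℝ, ℂ) (𝓡 2) 1 r z ∧
    ∃ R : S → ℂ, MDifferentiableAt (𝓡 2) 𝓘(ℝ, ℂ) R (r z) ∧ ∀ᶠ ζ in 𝓝 z, R (r ζ) = ζ

/-- A Riemann surface `W` covering the smooth surface `S`, with deck transformations acting by
holomorphic or antiholomorphic maps. -/
structure CCov {W : Type*} [TopologicalSpace W] [ChartedSpace ℂ W] (π : W → S) : Prop where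
  cov : IsCoveringMap π
  surj : Function.Surjective π
  gal : Galois π
  imm : ∀ w, Imm (π ∘ (chartAt ℂ w).symm) (chartAt ℂ w w)
  deck : ∀ τ : W ≃ₜ W, (∀ x, π (τ x) = π x) → HolMap τ ∨ AntiMap τ

/-- `S` is a `C¹` quotient of the model space `X` by a group of isometries. -/
def Unif1 (X : Type*) [MetricSpace X] (V : Type*) [NormedAddCommGroup V] [NormedSpace ℝ V]
    [ChartedSpace V X] (S : Type*) [TopologicalSpace S]
    [ChartedSpace (EuclideanSpace ℝ (Fin 2)) S] : Prop :=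
  ∃ q : X → S, IsCoveringMap q ∧ Function.Surjective q ∧ ContMDiff 𝓘(ℝ, V) (𝓡 2) 1 q ∧
    (∀ x, Function.Injective (mfderiv 𝓘(ℝ, V) (𝓡 2) q x)) ∧
    ∀ x y, q x = q y → ∃ γ : X ≃ᵢ X, (∀ z, q (γ z) = q z) ∧ γ x = y

end

/-- Stereographic projection from the north pole. -/
noncomputable def stN (y : sphere (0 : EuclideanSpace ℝ (Fin 3)) 1) : ℂ :=
  (((y.1 0 : ℝ) : ℂ) + Complex.I * ((y.1 1 : ℝ) : ℂ)) / ((1 - y.1 2 : ℝ) : ℂ)

/-- Conjugate stereographic projection from the south pole. -/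
noncomputable def stS (y : sphere (0 : EuclideanSpace ℝ (Fin 3)) 1) : ℂ :=
  (((y.1 0 : ℝ) : ℂ) - Complex.I * ((y.1 1 : ℝ) : ℂ)) / ((1 + y.1 2 : ℝ) : ℂ)

/-- The group has an abelian subgroup of finite index. -/
def VirtAb (G : Type*) [Group G] : Prop :=
  ∃ H : Subgroup G, H.FiniteIndex ∧ ∀ a ∈ H, ∀ b ∈ H, a * b = b * a

end Pool.Agent.Lib.Unif
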