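import Pool.Agent.Lib.Unif.Defs

set_option autoImplicit false
set_option linter.unusedSectionVars false

open Set Filter Topology Metric
open scoped ComplexConjugate Manifold ContDiff

namespace Pool.Agent.Lib.Unif

theorem kernel_cont_dir {r : ℝ} {w : ℂ} (hw : w ∈ ball (0 : ℂ) r) :
    ContinuousOn (poissonKernel 0 w) (sphere 0 |r|) := by
  rw [poissonKernel_eq_re_herglotzRieszKernel]
  exact Complex.continuous_re.comp_continuousOn (continuousOn_herglotzRieszKernel_sphere hw)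

theorem kernel_avg_dir {r : ℝ} {w : ℂ} (hw : w ∈ ball (0 : ℂ) r) :
    Real.circleAverage (poissonKernel 0 w) 0 r = 1 := by
  have h := InnerProductSpace.HarmonicOnNhd.circleAverage_poissonKernel_smul
    (f := fun _ : ℂ => (1 : ℝ)) (c := 0) (R := r) (w := w)
    (fun z _ => InnerProductSpace.harmonicAt_const 1) hw
  rw [← h]
  refine Real.circleAverage_congr_sphere fun z _ => ?_
  simp

theorem kernel_bound_dir {r δ ε B : ℝ} {w ζ η : ℂ} {a b : ℝ} (hδ : 0 < δ) (hε : 0 ≤ ε)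
    (hw : ‖w‖ < r) (hη : ‖η‖ = r) (hwζ : ‖w - ζ‖ < δ / 2) (hB : |a - b| ≤ B)
    (hab : ‖η - ζ‖ < δ → |a - b| ≤ ε) :
    |poissonKernel 0 w η * (a - b)| ≤
      ε * poissonKernel 0 w η + B * ((r ^ 2 - ‖w‖ ^ 2) / (δ / 2) ^ 2) := by
  have hB0 : 0 ≤ B := (abs_nonneg _).trans hB
  have hn : 0 ≤ r ^ 2 - ‖w‖ ^ 2 := by nlinarith [norm_nonneg w]
  have hP : poissonKernel 0 w η = (r ^ 2 - ‖w‖ ^ 2) / ‖η - w‖ ^ 2 := by
    simp [poissonKernel_def, hη]
  have hP0 : 0 ≤ poissonKernel 0 w η := by rw [hP]; positivity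
  rw [abs_mul, abs_of_nonneg hP0]
  by_cases h : ‖η - ζ‖ < δ
  · have h1 := mul_le_mul_of_nonneg_left (hab h) hP0
    have h2 : 0 ≤ B * ((r ^ 2 - ‖w‖ ^ 2) / (δ / 2) ^ 2) := by positivity
    linarith
  · have h1 : δ / 2 ≤ ‖η - w‖ := by
      have h3 : ‖η - ζ‖ ≤ ‖η - w‖ + ‖w - ζ‖ := norm_sub_le_norm_sub_add_norm_sub η w ζ
      linarith [not_lt.1 h]
    have h2 : poissonKernel 0 w η ≤ (r ^ 2 - ‖w‖ ^ 2) / (δ / 2) ^ 2 := by
      rw [hP]
      gcongr
    have h3 := mul_le_mul h2 hB (abs_nonneg _) (by positivity)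
    have h4 := mul_nonneg hε hP0
    linarith

theorem exists_dirichlet_zero_dir {r : ℝ} (hr : 0 < r) {φ : ℂ → ℝ}
    (hφ : ContinuousOn φ (sphere 0 r)) : ∃ F : ℂ → ℂ, AnalyticOnNhd ℂ F (ball 0 r) ∧
      ∀ ζ ∈ sphere (0 : ℂ) r, Tendsto (fun z => (F z).re) (𝓝[ball 0 r] ζ) (𝓝 (φ ζ)) := by
  have hφ' : ContinuousOn φ (sphere 0 |r|) := by rwa [abs_of_pos hr]
  have hi : CircleIntegrable φ 0 r := hφ.circleIntegrable hr.le
  have hic : CircleIntegrable (fun ζ => (φ ζ : ℂ)) 0 r :=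
    (Complex.continuous_ofReal.comp_continuousOn hφ).circleIntegrable hr.le
  refine ⟨fun w => Real.circleAverage (fun ζ => herglotzRieszKernel 0 w ζ • (φ ζ : ℂ)) 0 r,
    analyticOnNhd_circleAverage_herglotzRieszKernel_smul hic, fun ζ hζ => ?_⟩
  obtain ⟨B, hB⟩ := (isCompact_sphere (0 : ℂ) r).exists_bound_of_continuousOn hφ
  have hζ' : ‖ζ‖ = r := by simpa using hζ
  rw [Metric.tendsto_nhds]
  intro ε hε
  obtain ⟨δ, hδ, hδ'⟩ := Metric.continuousWithinAt_iff.1 (hφ ζ hζ) (ε / 2) (by positivity)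
  have h1 : Tendsto (fun w : ℂ => 2 * B * ((r ^ 2 - ‖w‖ ^ 2) / (δ / 2) ^ 2)) (𝓝 ζ) (𝓝 0) := by
    have hc : Continuous (fun w : ℂ => 2 * B * ((r ^ 2 - ‖w‖ ^ 2) / (δ / 2) ^ 2)) := by fun_prop
    have h2 := hc.tendsto ζ
    simpa [hζ'] using h2
  have h2 : ∀ᶠ w in 𝓝 ζ, 2 * B * ((r ^ 2 - ‖w‖ ^ 2) / (δ / 2) ^ 2) < ε / 2 :=
    h1.eventually (gt_mem_nhds (by positivity))
  have h3 : ∀ᶠ w in 𝓝 ζ, ‖w - ζ‖ < δ / 2 := by
    filter_upwards [ball_mem_nhds ζ (half_pos hδ)] with w hw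
    simpa [dist_eq_norm] using hw
  filter_upwards [nhdsWithin_le_nhds h2, nhdsWithin_le_nhds h3, self_mem_nhdsWithin]
    with w hw2 hw3 hw
  have hk := kernel_cont_dir hw
  have hki : CircleIntegrable (poissonKernel 0 w) 0 r := hk.circleIntegrable'
  have hw' : ‖w‖ < r := by simpa using hw
  have e1 : (Real.circleAverage (fun ζ => herglotzRieszKernel 0 w ζ • (φ ζ : ℂ)) 0 r).re - φ ζ =
      Real.circleAverage (fun η => poissonKernel 0 w η * (φ η - φ ζ)) 0 r := by
    rw [re_circleAverage_herglotzRieszKernel_smul hi hw, ← poissonKernel_eq_re_herglotzRieszKernel]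
    have e2 : (fun η => poissonKernel 0 w η * (φ η - φ ζ)) =
        fun η => (poissonKernel 0 w • φ) η - φ ζ • poissonKernel 0 w η := by
      ext η
      simp only [Pi.smul_apply', smul_eq_mul]
      ring
    rw [e2, Real.circleAverage_fun_sub, Real.circleAverage_fun_smul, kernel_avg_dir hw]
    · simp
    · exact (hk.smul hφ').circleIntegrable'
    · exact (hk.const_smul (φ ζ)).circleIntegrable'
  rw [Real.dist_eq, e1]
  have hc1 : ContinuousOn (fun η => poissonKernel 0 w η * (φ η - φ ζ)) (sphere 0 |r|) :=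
    hk.mul (hφ'.sub continuousOn_const)
  have hc2 : ContinuousOn (fun η => (ε / 2) • poissonKernel 0 w η) (sphere 0 |r|) :=
    hk.const_smul (ε / 2)
  calc |Real.circleAverage (fun η => poissonKernel 0 w η * (φ η - φ ζ)) 0 r|
      ≤ Real.circleAverage |fun η => poissonKernel 0 w η * (φ η - φ ζ)| 0 r :=
        Real.abs_circleAverage_le_circleAverage_abs
    _ ≤ Real.circleAverage (fun η => (ε / 2) • poissonKernel 0 w η +
          2 * B * ((r ^ 2 - ‖w‖ ^ 2) / (δ / 2) ^ 2)) 0 r := by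
        refine Real.circleAverage_mono (hc1.abs.circleIntegrable')
          ((hc2.add continuousOn_const).circleIntegrable') fun η hη => ?_
        rw [abs_of_pos hr] at hη
        have hη' : ‖η‖ = r := by simpa using hη
        refine kernel_bound_dir (ζ := ζ) hδ (by positivity) hw' hη' hw3 ?_ fun h => ?_
        · have h5 := hB η hη
          have h6 := hB ζ hζ
          rw [Real.norm_eq_abs] at h5 h6
          have h7 := abs_sub (φ η) (φ ζ)
          linarith
        · have h5 := hδ' hη (by simpa [dist_eq_norm] using h)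
          rw [Real.dist_eq] at h5
          exact h5.le
    _ = ε / 2 + 2 * B * ((r ^ 2 - ‖w‖ ^ 2) / (δ / 2) ^ 2) := by
        rw [Real.circleAverage_fun_add hc2.circleIntegrable' continuousOn_const.circleIntegrable',
          Real.circleAverage_fun_smul, kernel_avg_dir hw, Real.circleAverage_const]
        simp
    _ < ε := by linarith

theorem exists_dirichlet {c : ℂ} {r : ℝ} (hr : 0 < r) {φ : ℂ → ℝ}
    (hφ : ContinuousOn φ (sphere c r)) : ∃ F : ℂ → ℂ, AnalyticOnNhd ℂ F (ball c r) ∧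
      ∀ ζ ∈ sphere c r, Tendsto (fun z => (F z).re) (𝓝[ball c r] ζ) (𝓝 (φ ζ)) := by
  have h0 : ContinuousOn (fun z => φ (z + c)) (sphere 0 r) := by
    refine hφ.comp (f := fun z => z + c) (by fun_prop) fun z hz => ?_
    simpa using hz
  obtain ⟨F, hF, hF'⟩ := exists_dirichlet_zero_dir hr h0
  have hm : MapsTo (fun z => z - c) (ball c r) (ball 0 r) := fun z hz => by
    simpa [dist_eq_norm] using hz
  refine ⟨fun z => F (z - c), fun z hz => ?_, fun ζ hζ => ?_⟩
  · exact (hF _ (hm hz)).comp (f := fun z => z - c) (by fun_prop)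
  · have h1 := hF' (ζ - c) (by simpa [dist_eq_norm] using hζ)
    have h2 : Tendsto (fun z => z - c) (𝓝[ball c r] ζ) (𝓝[ball 0 r] (ζ - c)) :=
      ContinuousWithinAt.tendsto_nhdsWithin (f := fun z => z - c) (by fun_prop) hm
    rw [sub_add_cancel] at h1
    exact h1.comp h2

end Pool.Agent.Lib.Unif
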