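import Pool.Agent.Lib.Unif.Defs

set_option autoImplicit false
set_option linter.unusedSectionVars false

open Set Filter Topology Metric
open scoped ComplexConjugate Manifold ContDiff

namespace Pool.Agent.Lib.Unif

universe u v

theorem exists_cover_of_cocycle {X : Type u} [TopologicalSpace X] {A : Type v} [Group A]
    (U : X → Set X) (hU : ∀ i, IsOpen (U i)) (hm : ∀ i, i ∈ U i) (c : X → X → X → A)
    (hl : ∀ i j x, x ∈ U i → x ∈ U j → ∀ᶠ y in 𝓝 x, c i j y = c i j x)
    (hc : ∀ i j k x, x ∈ U i → x ∈ U j → x ∈ U k → c i j x * c j k x = c i k x) :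
    ∃ (E : Type (max u v)) (_ : TopologicalSpace E) (π : E → X) (κ : X → E → A),
      IsCoveringMap π ∧ (∀ i e, π e ∈ U i → ∀ᶠ e' in 𝓝 e, κ i e' = κ i e) ∧
      (∀ i j e, π e ∈ U i → π e ∈ U j → κ i e = c i j (π e) * κ j e) ∧
      ∀ i, ∀ x ∈ U i, ∀ a, ∃! e, π e = x ∧ κ i e = a := by
  let : TopologicalSpace A := ⊥
  have : DiscreteTopology A := ⟨rfl⟩
  have h1 : ∀ i, ∀ x ∈ U i, c i i x = 1 := fun i x hx =>
    mul_eq_left.1 (hc i i i x hx hx hx)
  let Z : FiberBundleCore X X A :=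
    { baseSet := U
      isOpen_baseSet := hU
      indexAt := id
      mem_baseSet_at := hm
      coordChange := fun i j x a => c j i x * a
      coordChange_self := fun i x hx v => by rw [h1 i x hx, one_mul]
      continuousOn_coordChange := fun i j p hp => by
        refine ContinuousAt.continuousWithinAt ?_
        have e1 := continuous_fst.continuousAt.eventually (hl j i p.1 hp.1.2 hp.1.1)
        have e2 : ∀ᶠ q : X × A in 𝓝 p, q.2 = p.2 :=
          continuous_snd.continuousAt.eventually ((isOpen_discrete {p.2}).mem_nhds rfl)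
        refine (continuousAt_const (y := c j i p.1 * p.2)).congr ?_
        filter_upwards [e1, e2] with q q1 q2
        rw [q1, q2]
      coordChange_comp := fun i j k x hx v => by
        rw [← mul_assoc, hc k j i x hx.2 hx.1.2 hx.1.1] }
  refine ⟨Z.TotalSpace, inferInstance, Z.proj, fun i e => (Z.localTriv i e).2,
    IsCoveringMap.mk _ (fun _ => A) (fun x => Z.localTriv x) hm, fun i e he => ?_,
    fun i j e hi hj => ?_, fun i x hx a => ?_⟩
  · have h2 := continuous_snd.continuousAt.comp ((Z.localTriv i).continuousAt (x := e) he)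
    exact h2.eventually ((isOpen_discrete {(Z.localTriv i e).2}).mem_nhds rfl)
  · change c i e.1 e.1 * (show A from e.2) = c i j e.1 * (c j e.1 e.1 * (show A from e.2))
    rw [← mul_assoc, hc i j e.1 e.1 hi hj (hm _)]
  · refine ⟨⟨x, ((c i x x)⁻¹ * a : A)⟩, ⟨rfl, mul_inv_cancel_left _ _⟩, ?_⟩
    rintro ⟨y, b⟩ ⟨rfl, rfl⟩
    congr 1
    exact (inv_mul_cancel_left (c i y y) (show A from b)).symm

theorem cocycle_trivial {X : Type u} [TopologicalSpace X] [SimplyConnectedSpace X]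
    [LocallyPathConnectedSpace X] {A : Type v} [Group A]
    (U : X → Set X) (hU : ∀ i, IsOpen (U i)) (hm : ∀ i, i ∈ U i) (c : X → X → X → A)
    (hl : ∀ i j x, x ∈ U i → x ∈ U j → ∀ᶠ y in 𝓝 x, c i j y = c i j x)
    (hc : ∀ i j k x, x ∈ U i → x ∈ U j → x ∈ U k → c i j x * c j k x = c i k x) :
    ∃ s : X → X → A, (∀ i, ∀ x ∈ U i, ∀ᶠ y in 𝓝 x, s i y = s i x) ∧
      ∀ i j x, x ∈ U i → x ∈ U j → s i x = c i j x * s j x := by
  obtain ⟨E, _, π, κ, hπ, k1, k2, k3⟩ := exists_cover_of_cocycle U hU hm c hl hc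
  obtain ⟨x0⟩ : Nonempty X := inferInstance
  obtain ⟨e0, ⟨he, -⟩, -⟩ := k3 x0 x0 (hm x0) 1
  obtain ⟨σ, ⟨-, hσ⟩, -⟩ := hπ.existsUnique_continuousMap_lifts (ContinuousMap.id X) x0 e0 he
  have h : ∀ x, π (σ x) = x := fun x => congrFun hσ x
  refine ⟨fun i x => κ i (σ x), fun i x hx => ?_, fun i j x hi hj => ?_⟩
  · exact σ.continuous.continuousAt.eventually (k1 i (σ x) ((h x).symm ▸ hx))
  · have := k2 i j (σ x) ((h x).symm ▸ hi) ((h x).symm ▸ hj)
    rwa [h] at this

end Pool.Agent.Lib.Unif
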