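import Pool.Agent.Lib.Unif.HP
import Pool.Agent.Lib.Unif.PM
import Pool.Agent.Lib.Unif.CN

set_option autoImplicit false
set_option linter.unusedSectionVars false

open Set Filter Topology Metric
open scoped ComplexConjugate Manifold ContDiff

namespace Pool.Agent.Lib.Unif

variable {W : Type*} [TopologicalSpace W] [ChartedSpace ℂ W] [RS W] [T2Space W] [ConnectedSpace W]
  {p q x p₀ p₁ p₂ : W} {f f' e φ : W → ℂ} {u v w s g g' : W → ℝ} {r t R T M C : ℝ} {Ω U K D : Set W}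

theorem barrier_g2a {ρ : ℝ} (hg₀ : Good p₀ T) (ht : 0 < t) (htT : t < T)
    (hd : Disjoint (cdisc p₀ T) (cdisc p R)) (hρR : ρ < R)
    (h1 : ∀ x, x ∉ cdisc p₀ t → x ∉ cdisc p ρ → Subh u x ∧ u x ≤ 1)
    (h2 : ∃ K, IsCompact K ∧ K ⊆ (cdisc p₀ t)ᶜ ∧ ∀ x, x ∉ K → u x = 0) :
    ∀ x ∈ disc p₀ T \ cdisc p₀ t,
      u x - (Real.log T - Real.log t)⁻¹ * (lg p₀ x - Real.log t) ≤ 0 := by
  obtain ⟨K, hK, hKA, hK0⟩ := h2
  have hlog : 0 < Real.log T - Real.log t := sub_pos.mpr (Real.log_lt_log ht htT)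
  have hp₀ : p₀ ∈ cdisc p₀ t := disc_subset_cdisc (mem_disc_self ht)
  have hB : ∀ x ∈ cdisc p₀ T, x ∉ cdisc p ρ := fun x hx hx' =>
    Set.disjoint_left.mp hd hx (cdisc_mono hρR.le hx')
  have hH : ∀ x ∈ cdisc p₀ T, x ≠ p₀ →
      Harm (fun y => (Real.log T - Real.log t)⁻¹ * (lg p₀ y - Real.log t)) x := fun x hx hne =>
    ((harm_lg hx.1 hne).sub (harm_const _)).const_mul _
  refine mp_front (w := fun x => u x - (Real.log T - Real.log t)⁻¹ * (lg p₀ x - Real.log t))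
    (K := cdisc p₀ T) ((isOpen_disc p₀ T).sdiff (hg₀.isClosed_cdisc htT.le)) ?_
    (hg₀.isCompact_cdisc le_rfl) ?_ ?_ ?_
  · intro h
    have : p₀ ∈ disc p₀ T \ cdisc p₀ t := h ▸ mem_univ p₀
    exact this.2 hp₀
  · intro x hx
    have hx' := disc_subset_cdisc hx.1
    exact (h1 x hx.2 (hB x hx')).1.sub_harm (hH x hx' fun h => hx.2 (h ▸ hp₀))
  · intro x hx hx'
    exact absurd (disc_subset_cdisc hx.1) hx'
  · intro ζ hζ hζU hζc
    left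
    by_cases hz : ζ ∈ disc p₀ T
    · have hA : ζ ∈ cdisc p₀ t := by
        by_contra h
        exact hζU ⟨hz, h⟩
      have hnd : ζ ∉ disc p₀ t := by
        intro h
        obtain ⟨y, hy1, hy2⟩ := mem_closure_iff.mp hζc _ (isOpen_disc p₀ t) h
        exact hy2.2 (disc_subset_cdisc hy1)
      have hc : ζ ∈ circ p₀ t := by
        rw [cdisc_eq] at hA
        exact hA.resolve_left hnd
      have hζK : ζ ∉ K := fun h => hKA h hA
      have he : u =ᶠ[𝓝 ζ] fun _ => (0 : ℝ) := by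
        filter_upwards [hK.isClosed.isOpen_compl.mem_nhds hζK] with y hy using hK0 y hy
      have hu : ContinuousAt u ζ := continuousAt_const.congr he.symm
      refine ⟨(hu.sub (hH ζ hζ (ne_of_mem_circ hc ht)).continuousAt).continuousWithinAt, ?_⟩
      simp [hK0 ζ hζK, lg_of_mem_circ hc]
    · have hc : ζ ∈ circ p₀ T := by
        have h := hζ
        rw [cdisc_eq] at h
        exact h.resolve_left hz
      have hA : ζ ∉ cdisc p₀ t := not_mem_cdisc_of_circ hc htT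
      have hs := h1 ζ hA (hB ζ hζ)
      refine ⟨(hs.1.1.sub
        (hH ζ hζ (ne_of_mem_circ hc (ht.trans htT))).continuousAt).continuousWithinAt, ?_⟩
      show u ζ - (Real.log T - Real.log t)⁻¹ * (lg p₀ ζ - Real.log t) ≤ 0
      rw [lg_of_mem_circ hc, inv_mul_cancel₀ hlog.ne']
      linarith [hs.2]

theorem exists_barrier {ρ : ℝ} (hg₀ : Good p₀ T) (ht : 0 < t) (htT : t < T) (hg : Good p R)
    (hd : Disjoint (cdisc p₀ T) (cdisc p R)) (hρ : 0 < ρ) (hρR : ρ < R) : ∃ δ : ℝ, 0 < δ ∧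
      ∀ u : W → ℝ, (∀ x, x ∉ cdisc p₀ t → x ∉ cdisc p ρ → Subh u x ∧ u x ≤ 1) →
        (∃ K, IsCompact K ∧ K ⊆ (cdisc p₀ t)ᶜ ∧ ∀ x, x ∉ K → u x = 0) →
          ∀ x ∈ circ p R, u x ≤ 1 - δ := by
  have hRA : cdisc p R ⊆ univ \ cdisc p₀ t := fun x hx =>
    ⟨mem_univ x, fun h => Set.disjoint_left.mp hd (cdisc_mono htT.le h) hx⟩
  have ho1 : IsOpen (univ \ cdisc p₀ t) := isOpen_univ.sdiff (hg₀.isClosed_cdisc htT.le)
  have hc1 : IsPreconnected (univ \ cdisc p₀ t) :=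
    hg₀.isPreconnected_diff isOpen_univ isPreconnected_univ (subset_univ _) htT
  have hoΩ : IsOpen ((univ \ cdisc p₀ t) \ cdisc p ρ) := ho1.sdiff (hg.isClosed_cdisc hρR.le)
  have hcΩ : IsPreconnected ((univ \ cdisc p₀ t) \ cdisc p ρ) :=
    hg.isPreconnected_diff ho1 hc1 hRA hρR
  set Ω' : Set W := (univ \ cdisc p₀ t) \ cdisc p ρ with hΩ'
  set 𝓕 : Set (W → ℝ) := {u | (∀ x, x ∉ cdisc p₀ t → x ∉ cdisc p ρ → Subh u x ∧ u x ≤ 1) ∧
    ∃ K, IsCompact K ∧ K ⊆ (cdisc p₀ t)ᶜ ∧ ∀ x, x ∉ K → u x = 0} with h𝓕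
  have h0 : (fun _ : W => (0 : ℝ)) ∈ 𝓕 :=
    ⟨fun x _ _ => ⟨(harm_const 0).subh, zero_le_one⟩, ∅, isCompact_empty, empty_subset _,
      fun _ _ => rfl⟩
  have hbd : ∀ x ∈ Ω', ∀ a ∈ {a | ∃ v ∈ 𝓕, v x = a}, a ≤ 1 := by
    rintro x hx a ⟨v, hv, rfl⟩
    exact (hv.1 x hx.1.2 hx.2).2
  have hne : ∀ x : W, {a | ∃ v ∈ 𝓕, v x = a}.Nonempty := fun x => ⟨0, _, h0, rfl⟩
  have hdir : ∀ q ∈ Ω', ∃ D ∈ 𝓝 q, ∀ v ∈ 𝓕, ∀ w ∈ 𝓕, ∃ u ∈ 𝓕,
      ∀ x ∈ D, Harm u x ∧ v x ≤ u x ∧ w x ≤ u x := by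
    intro q hq
    obtain ⟨r, hr, hrΩ⟩ := exists_good (hoΩ.mem_nhds hq)
    refine ⟨disc q r, disc_mem_nhds hr.1, ?_⟩
    rintro v ⟨hv1, K, hK, hKA, hK0⟩ w ⟨hw1, K', hK', hKA', hK0'⟩
    have hm : ∀ x, x ∉ cdisc p₀ t → x ∉ cdisc p ρ →
        Subh (fun y => max (v y) (w y)) x ∧ max (v x) (w x) ≤ 1 := fun x h h' =>
      ⟨(hv1 x h h').1.max (hw1 x h h').1, max_le (hv1 x h h').2 (hw1 x h h').2⟩
    obtain ⟨u, hu1, hu2, hu3, hu4, hu5⟩ := exists_modif (v := fun y => max (v y) (w y)) hr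
      (fun x hx => (hm x (hrΩ hx).1.2 (hrΩ hx).2).1)
    refine ⟨u, ⟨fun x h h' => ⟨hu4 x (hm x h h').1, ?_⟩, K ∪ K' ∪ cdisc q r,
      (hK.union hK').union (hr.isCompact_cdisc le_rfl), ?_, ?_⟩, fun x hx =>
      ⟨hu1 x hx, (le_max_left _ _).trans (hu3 x), (le_max_right _ _).trans (hu3 x)⟩⟩
    · by_cases hx : x ∈ disc q r
      · exact hu5 1 (fun y hy => (hm y (hrΩ (circ_subset_cdisc hy)).1.2
          (hrΩ (circ_subset_cdisc hy)).2).2) x hx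
      · rw [hu2 x hx]
        exact (hm x h h').2
    · exact union_subset (union_subset hKA hKA') fun x hx => (hrΩ hx).1.2
    · intro x hx
      have h1 : x ∉ K := fun h => hx (Or.inl (Or.inl h))
      have h2 : x ∉ K' := fun h => hx (Or.inl (Or.inr h))
      have h3 : x ∉ disc q r := fun h => hx (Or.inr (disc_subset_cdisc h))
      rw [hu2 x h3, hK0 x h1, hK0' x h2, max_self]
  have hts : t < (t + T) / 2 := by linarith
  have hsT : (t + T) / 2 < T := by linarith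
  obtain ⟨y, hy⟩ := (hg₀.mono (ht.trans hts) hsT.le).circ_nonempty
  have hyU : y ∈ disc p₀ T \ cdisc p₀ t :=
    ⟨cdisc_subset_disc hsT (circ_subset_cdisc hy), not_mem_cdisc_of_circ hy hts⟩
  have hyΩ : y ∈ Ω' := ⟨⟨mem_univ y, hyU.2⟩, fun h =>
    Set.disjoint_left.mp hd (disc_subset_cdisc hyU.1) (cdisc_mono hρR.le h)⟩
  have hgg := hp_glob hoΩ hcΩ ⟨_, h0⟩ hdir hyΩ ⟨1, hbd y hyΩ⟩
  set G : W → ℝ := fun y => sSup {a | ∃ v ∈ 𝓕, v y = a} with hgd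
  have hg1 : ∀ x ∈ Ω', G x ≤ 1 := fun x hx => csSup_le (hne x) (hbd x hx)
  have hlog : 0 < Real.log T - Real.log t := sub_pos.mpr (Real.log_lt_log ht htT)
  have hgy : G y < 1 := by
    have hκ : (Real.log T - Real.log t)⁻¹ * (Real.log ((t + T) / 2) - Real.log t) < 1 := by
      rw [inv_mul_lt_iff₀ hlog]
      have := Real.log_lt_log (ht.trans hts) hsT
      linarith
    refine lt_of_le_of_lt (csSup_le (hne y) ?_) hκ
    rintro a ⟨v, hv, rfl⟩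
    have := barrier_g2a hg₀ ht htT hd hρR hv.1 hv.2 y hyU
    rw [lg_of_mem_circ hy] at this
    linarith
  have hlt : ∀ z ∈ Ω', G z < 1 := by
    intro z hz
    refine lt_of_le_of_ne (hg1 z hz) fun h => ?_
    have := subh_eq_of_max (v := G) hoΩ hcΩ (fun x hx => (hgg x hx).2.subh) hz
      (fun x hx => h ▸ hg1 x hx) y hyΩ
    rw [this, h] at hgy
    exact lt_irrefl _ hgy
  have hcirc : circ p R ⊆ Ω' := fun x hx =>
    ⟨hRA (circ_subset_cdisc hx), not_mem_cdisc_of_circ hx hρR⟩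
  obtain ⟨z, hz, hmax⟩ := (hg.isCompact_circ le_rfl).exists_isMaxOn hg.circ_nonempty
    (f := G) (fun x hx => (hgg x (hcirc hx)).2.continuousAt.continuousWithinAt)
  refine ⟨1 - G z, sub_pos.mpr (hlt z (hcirc hz)), fun u h1 h2 x hx => ?_⟩
  have h3 : u x ≤ G x := le_csSup (hgg x (hcirc hx)).1 ⟨u, ⟨h1, h2⟩, rfl⟩
  have h4 : G x ≤ G z := hmax hx
  linarith

end Pool.Agent.Lib.Unif
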