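import Pool.Agent.Lib.Unif.Har

set_option autoImplicit false
set_option linter.unusedSectionVars false
set_option linter.unusedVariables false

open Set Filter Topology Metric
open scoped ComplexConjugate Manifold ContDiff

namespace Pool.Agent.Lib.Unif

variable {W : Type*} [TopologicalSpace W] [ChartedSpace ℂ W] [RS W] [T2Space W]
  {p q x p₀ p₁ p₂ : W} {f f' e φ : W → ℂ} {u v w s g g' : W → ℝ} {r t R T M C : ℝ} {Ω U K D : Set W} {𝓕 : Set (W → ℝ)}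

theorem hp_loc (hne : 𝓕.Nonempty) (hD : D ∈ 𝓝 q)
    (hd : ∀ v ∈ 𝓕, ∀ w ∈ 𝓕, ∃ u ∈ 𝓕, ∀ x ∈ D, Harm u x ∧ v x ≤ u x ∧ w x ≤ u x) :
    ∃ D' ∈ 𝓝 q, (∀ x ∈ D', ∀ y ∈ D', BddAbove {t | ∃ v ∈ 𝓕, v x = t} →
      BddAbove {t | ∃ v ∈ 𝓕, v y = t}) ∧
      (BddAbove {t | ∃ v ∈ 𝓕, v q = t} → Harm (fun x => sSup {t | ∃ v ∈ 𝓕, v x = t}) q) := by
  obtain ⟨D', hD', hsub, hH⟩ := exists_harnack hD
  have key : ∀ u₀ ∈ 𝓕, (∀ x ∈ D, Harm u₀ x) → ∀ w ∈ 𝓕, ∀ x ∈ D', ∀ y ∈ D', ∀ B : ℝ,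
      (∀ v ∈ 𝓕, v x ≤ B) → w y ≤ u₀ y + 9 * (B - u₀ x) := by
    intro u₀ hu₀ hh w hw x hx y hy B hB
    obtain ⟨u, hu, hud⟩ := hd w hw u₀ hu₀
    have h1 := hH (fun z => u z - u₀ z)
      (fun z hz => ⟨(hud z hz).1.sub (hh z hz), sub_nonneg.2 (hud z hz).2.2⟩) y hy x hx
    have h2 := (hud y (hsub hy)).2.1
    have h3 := hB u hu
    linarith
  obtain ⟨v₀, hv₀⟩ := hne
  have hb : ∀ x ∈ D', ∀ y ∈ D', BddAbove {t | ∃ v ∈ 𝓕, v x = t} →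
      BddAbove {t | ∃ v ∈ 𝓕, v y = t} := by
    rintro x hx y hy ⟨B, hB⟩
    obtain ⟨u₀, hu₀, hud⟩ := hd v₀ hv₀ v₀ hv₀
    refine ⟨u₀ y + 9 * (B - u₀ x), ?_⟩
    rintro _ ⟨w, hw, rfl⟩
    exact key u₀ hu₀ (fun z hz => (hud z hz).1) w hw x hx y hy B fun v hv => hB ⟨v, hv, rfl⟩
  refine ⟨D', hD', hb, fun hq => harm_of_unif hD' fun ε hε => ?_⟩
  have hq' : q ∈ D' := mem_of_mem_nhds hD'
  have hlt : sSup {t | ∃ v ∈ 𝓕, v q = t} - ε / 9 < sSup {t | ∃ v ∈ 𝓕, v q = t} := by linarith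
  obtain ⟨_, ⟨v, hv, rfl⟩, hv'⟩ := exists_lt_of_lt_csSup
    (s := {t | ∃ v ∈ 𝓕, v q = t}) ⟨v₀ q, v₀, hv₀, rfl⟩ hlt
  obtain ⟨u₀, hu₀, hud⟩ := hd v hv v hv
  refine ⟨u₀, fun x hx => ⟨(hud x (hsub hx)).1, ?_⟩⟩
  have h1 : u₀ x ≤ sSup {t | ∃ v ∈ 𝓕, v x = t} := le_csSup (hb q hq' x hx hq) ⟨u₀, hu₀, rfl⟩
  have h2 : sSup {t | ∃ v ∈ 𝓕, v x = t} ≤ u₀ x + ε := by
    refine csSup_le ⟨v₀ x, v₀, hv₀, rfl⟩ ?_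
    rintro _ ⟨w, hw, rfl⟩
    have h3 := key u₀ hu₀ (fun z hz => (hud z hz).1) w hw q hq' x hx _
      fun v' hv' => le_csSup hq ⟨v', hv', rfl⟩
    have h4 := (hud q (hsub hq')).2.1
    linarith
  rw [abs_le]
  constructor <;> linarith

theorem hp_glob (hΩ : IsOpen Ω) (hc : IsPreconnected Ω) (hne : 𝓕.Nonempty)
    (hd : ∀ q ∈ Ω, ∃ D ∈ 𝓝 q, ∀ v ∈ 𝓕, ∀ w ∈ 𝓕, ∃ u ∈ 𝓕,
      ∀ x ∈ D, Harm u x ∧ v x ≤ u x ∧ w x ≤ u x)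
    (hq : q ∈ Ω) (hb : BddAbove {t | ∃ v ∈ 𝓕, v q = t}) : ∀ x ∈ Ω,
      BddAbove {t | ∃ v ∈ 𝓕, v x = t} ∧ Harm (fun y => sSup {t | ∃ v ∈ 𝓕, v y = t}) x := by
  intro x hx
  have hB : BddAbove {t | ∃ v ∈ 𝓕, v q = t} → BddAbove {t | ∃ v ∈ 𝓕, v x = t} := by
    refine hc.induction₂' (fun a b => BddAbove {t | ∃ v ∈ 𝓕, v a = t} →
      BddAbove {t | ∃ v ∈ 𝓕, v b = t}) ?_ ?_ hq hx
    · intro a ha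
      obtain ⟨D, hD, hdD⟩ := hd a ha
      obtain ⟨D', hD', h1, -⟩ := hp_loc hne hD hdD
      filter_upwards [mem_nhdsWithin_of_mem_nhds hD'] with y hy
      exact ⟨h1 a (mem_of_mem_nhds hD') y hy, h1 y hy a (mem_of_mem_nhds hD')⟩
    · intro a b c _ _ _ h1 h2 h3
      exact h2 (h1 h3)
  obtain ⟨D, hD, hdD⟩ := hd x hx
  obtain ⟨D', -, -, h2⟩ := hp_loc hne hD hdD
  exact ⟨hB hb, h2 (hB hb)⟩

end Pool.Agent.Lib.Unif
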