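import Pool.Agent.Lib.Unif.HarQ
import Pool.Agent.Lib.Unif.Harm1
import Pool.Agent.Lib.Unif.Disc

set_option autoImplicit false
set_option linter.unusedSectionVars false

open Set Filter Topology Metric
open scoped ComplexConjugate Manifold ContDiff

namespace Pool.Agent.Lib.Unif

variable {W : Type*} [TopologicalSpace W] [ChartedSpace ℂ W] [RS W] [T2Space W]
  {p q x p₀ p₁ p₂ : W} {f f' e φ : W → ℂ} {u v w s g g' : W → ℝ} {r t R T M C : ℝ} {Ω U K D : Set W}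

theorem symm_mem_har (hg : Good q r) (hD : cdisc q r ⊆ D) {z : ℂ}
    (hz : z ∈ closedBall (chartAt ℂ q q) r) : (chartAt ℂ q).symm z ∈ D :=
  hD (by rw [hg.cdisc_eq le_rfl]; exact mem_image_of_mem _ hz)

theorem harmOn_har (hg : Good q r) (hD : cdisc q r ⊆ D) (h : ∀ x ∈ D, Harm u x) :
    InnerProductSpace.HarmonicOnNhd (u ∘ (chartAt ℂ q).symm) (closedBall (chartAt ℂ q q) r) := by
  intro z hz
  have h1 := (harm_iff_chart ((chartAt ℂ q).map_target (hg.2 hz))).1 (h _ (symm_mem_har hg hD hz))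
  rwa [(chartAt ℂ q).right_inv (hg.2 hz)] at h1

theorem exists_harnack (hD : D ∈ 𝓝 q) : ∃ D' ∈ 𝓝 q, D' ⊆ D ∧
    ∀ u : W → ℝ, (∀ x ∈ D, Harm u x ∧ 0 ≤ u x) → ∀ x ∈ D', ∀ y ∈ D', u x ≤ 9 * u y := by
  obtain ⟨r, hg, hs⟩ := exists_good hD
  have hr := hg.1
  refine ⟨disc q (r / 2), disc_mem_nhds (half_pos hr),
    (disc_subset_cdisc.trans (cdisc_mono (by linarith))).trans hs, fun u hu => ?_⟩
  have hq : 0 ≤ u q := (hu q (mem_of_mem_nhds hD)).2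
  have key : ∀ x ∈ disc q (r / 2), u q ≤ 3 * u x ∧ u x ≤ 3 * u q := fun x hx => by
    have hn : ‖chartAt ℂ q x - chartAt ℂ q q‖ < r / 2 := hx.2
    have h0 := norm_nonneg (chartAt ℂ q x - chartAt ℂ q q)
    have h1 := harnack_plane (z := chartAt ℂ q x) (harmOn_har hg hs fun y hy => (hu y hy).1)
      (fun z hz => (hu _ (symm_mem_har hg hs hz)).2)
      (mem_ball_iff_norm.2 (by linarith))
    simp only [Function.comp, (chartAt ℂ q).left_inv hx.1,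
      (chartAt ℂ q).left_inv (mem_chart_source ℂ q)] at h1
    generalize ‖chartAt ℂ q x - chartAt ℂ q q‖ = a at hn h0 h1
    have a1 : 1 / 3 ≤ (r - a) / (r + a) := by
      rw [div_le_div_iff₀ (by norm_num) (by linarith)]; linarith
    have a2 : (r + a) / (r - a) ≤ 3 := by
      rw [div_le_iff₀ (by linarith)]; linarith
    have b1 := mul_le_mul_of_nonneg_right a1 hq
    have b2 := mul_le_mul_of_nonneg_right a2 hq
    exact ⟨by linarith [h1.1], by linarith [h1.2]⟩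
  intro x hx y hy
  linarith [(key x hx).2, (key y hy).1]

theorem harnack_compact (hΩ : IsOpen Ω) (hc : IsPreconnected Ω) (hK : IsCompact K) (hKΩ : K ⊆ Ω) :
    ∃ C, 0 ≤ C ∧ ∀ u : W → ℝ, (∀ x ∈ Ω, Harm u x ∧ 0 ≤ u x) → ∀ x ∈ K, ∀ y ∈ K, u x ≤ C * u y := by
  rcases K.eq_empty_or_nonempty with rfl | ⟨q, hq⟩
  · exact ⟨0, le_rfl, fun u _ x hx => hx.elim⟩
  have rel : ∀ x ∈ Ω, ∀ y ∈ Ω, ∃ C : ℝ, 0 ≤ C ∧
      ∀ u : W → ℝ, (∀ x ∈ Ω, Harm u x ∧ 0 ≤ u x) → u x ≤ C * u y := fun x hx y hy => by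
    refine hc.induction₂' (fun x y => ∃ C : ℝ, 0 ≤ C ∧
      ∀ u : W → ℝ, (∀ x ∈ Ω, Harm u x ∧ 0 ≤ u x) → u x ≤ C * u y) (fun a ha => ?_) ?_ hx hy
    · obtain ⟨D', hD', -, h⟩ := exists_harnack (hΩ.mem_nhds ha)
      filter_upwards [mem_nhdsWithin_of_mem_nhds hD'] with b hb
      exact ⟨⟨9, by norm_num, fun u hu => h u hu a (mem_of_mem_nhds hD') b hb⟩,
        9, by norm_num, fun u hu => h u hu b hb a (mem_of_mem_nhds hD')⟩
    · rintro a b c - - - ⟨C₁, h₁, e₁⟩ ⟨C₂, h₂, e₂⟩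
      refine ⟨C₁ * C₂, mul_nonneg h₁ h₂, fun u hu => (e₁ u hu).trans ?_⟩
      rw [mul_assoc]
      exact mul_le_mul_of_nonneg_left (e₂ u hu) h₁
  have hqΩ := hKΩ hq
  obtain ⟨C, h0, h⟩ : ∃ C : ℝ, 0 ≤ C ∧ ∀ u : W → ℝ, (∀ x ∈ Ω, Harm u x ∧ 0 ≤ u x) →
      ∀ x ∈ K, x ∈ Ω → u x ≤ C * u q ∧ u q ≤ C * u x := by
    refine hK.induction_on (p := fun S => ∃ C : ℝ, 0 ≤ C ∧ ∀ u : W → ℝ,
      (∀ x ∈ Ω, Harm u x ∧ 0 ≤ u x) → ∀ x ∈ S, x ∈ Ω → u x ≤ C * u q ∧ u q ≤ C * u x)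
      ⟨0, le_rfl, fun u _ x hx => hx.elim⟩ ?_ ?_ ?_
    · rintro S S' hS ⟨C, h0, h⟩
      exact ⟨C, h0, fun u hu x hx => h u hu x (hS hx)⟩
    · rintro S S' ⟨C, h0, h⟩ ⟨C', h0', h'⟩
      refine ⟨C + C', add_nonneg h0 h0', fun u hu x hx hxΩ => ?_⟩
      have a1 := mul_nonneg h0 (hu q hqΩ).2
      have a2 := mul_nonneg h0 (hu x hxΩ).2
      have a3 := mul_nonneg h0' (hu q hqΩ).2
      have a4 := mul_nonneg h0' (hu x hxΩ).2
      rw [add_mul, add_mul]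
      rcases hx with hx | hx
      · exact ⟨by linarith [(h u hu x hx hxΩ).1], by linarith [(h u hu x hx hxΩ).2]⟩
      · exact ⟨by linarith [(h' u hu x hx hxΩ).1], by linarith [(h' u hu x hx hxΩ).2]⟩
    · intro a ha
      obtain ⟨D', hD', -, h⟩ := exists_harnack (hΩ.mem_nhds (hKΩ ha))
      obtain ⟨C₁, h₁, e₁⟩ := rel a (hKΩ ha) q hqΩ
      obtain ⟨C₂, h₂, e₂⟩ := rel q hqΩ a (hKΩ ha)
      refine ⟨D', mem_nhdsWithin_of_mem_nhds hD', 9 * (C₁ + C₂), by positivity,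
        fun u hu x hx hxΩ => ?_⟩
      have a1 := h u hu x hx a (mem_of_mem_nhds hD')
      have a2 := mul_le_mul_of_nonneg_left (h u hu a (mem_of_mem_nhds hD') x hx) h₂
      have a3 := mul_nonneg h₂ (hu q hqΩ).2
      have a4 := mul_nonneg h₁ (hu x hxΩ).2
      exact ⟨by linarith [e₁ u hu], by linarith [e₂ u hu]⟩
  refine ⟨C * C, mul_nonneg h0 h0, fun u hu x hx y hy => (h u hu x hx (hKΩ hx)).1.trans ?_⟩
  rw [mul_assoc]
  exact mul_le_mul_of_nonneg_left (h u hu y hy (hKΩ hy)).2 h0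

theorem harm_of_unif (hD : D ∈ 𝓝 q)
    (h : ∀ ε : ℝ, 0 < ε → ∃ u : W → ℝ, ∀ x ∈ D, Harm u x ∧ |g x - u x| ≤ ε) : Harm g q := by
  obtain ⟨r, hg, hs⟩ := exists_good hD
  refine (harm_iff_chart (mem_chart_source ℂ q)).2 (harmonicAt_of_unif hg.1 fun ε hε => ?_)
  obtain ⟨u, hu⟩ := h ε hε
  exact ⟨_, harmOn_har hg hs fun x hx => (hu x hx).1, fun z hz => (hu _ (symm_mem_har hg hs hz)).2⟩

theorem harm_of_tendsto {ι : Type*} {l : Filter ι} [l.NeBot] {G : ι → W → ℝ} (hD : D ∈ 𝓝 q)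
    (h : ∀ᶠ i in l, ∀ x ∈ D, Harm (G i) x ∧ |G i x| ≤ C)
    (ht : ∀ x ∈ D, Tendsto (fun i => G i x) l (𝓝 (g x))) : Harm g q := by
  obtain ⟨r, hg, hs⟩ := exists_good hD
  refine (harm_iff_chart (mem_chart_source ℂ q)).2
    (harmonicAt_of_tendsto (l := l) (G := fun i => G i ∘ (chartAt ℂ q).symm) (C := C) hg.1 ?_
      fun z hz => ht _ (symm_mem_har hg hs hz))
  filter_upwards [h] with i hi
  exact ⟨harmOn_har hg hs fun x hx => (hi x hx).1, fun z hz => (hi _ (symm_mem_har hg hs hz)).2⟩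

end Pool.Agent.Lib.Unif
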