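import Pool.Agent.Lib.Unif.Defs

set_option autoImplicit false
set_option linter.unusedSectionVars false

open Set Filter Topology Metric
open scoped ComplexConjugate Manifold ContDiff

namespace Pool.Agent.Lib.Unif

theorem ker_bound_harp {c z w : ℂ} {R : ℝ} (hz : z ∈ ball c R) (hw : w ∈ sphere c |R|) :
    (R - ‖z - c‖) / (R + ‖z - c‖) ≤ (herglotzRieszKernel c z w).re ∧
      (herglotzRieszKernel c z w).re ≤ (R + ‖z - c‖) / (R - ‖z - c‖) := by
  rw [abs_of_pos (pos_of_mem_ball hz)] at hw
  exact ⟨le_re_herglotzRieszKernel hw hz, re_herglotzRieszKernel_le hw hz⟩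

theorem ker_int_harp {c z : ℂ} {R : ℝ} (hz : z ∈ ball c R) {g : ℂ → ℝ}
    (hg : ContinuousOn g (sphere c |R|)) :
    CircleIntegrable ((Complex.re ∘ herglotzRieszKernel c z) • g) c R :=
  ((Complex.continuous_re.comp_continuousOn
    (continuousOn_herglotzRieszKernel_sphere hz)).smul hg).circleIntegrable'

open InnerProductSpace in
theorem harnack_plane {u : ℂ → ℝ} {c z : ℂ} {R : ℝ} (h : HarmonicOnNhd u (closedBall c R))
    (h0 : ∀ w ∈ closedBall c R, 0 ≤ u w) (hz : z ∈ ball c R) :
    (R - ‖z - c‖) / (R + ‖z - c‖) * u c ≤ u z ∧ u z ≤ (R + ‖z - c‖) / (R - ‖z - c‖) * u c := by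
  have hR := pos_of_mem_ball hz
  have hs : sphere c |R| ⊆ closedBall c R := by
    rw [abs_of_pos hR]; exact sphere_subset_closedBall
  have hc : ContinuousOn u (sphere c |R|) := h.continuousOn.mono hs
  have e1 := h.circleAverage_re_herglotzRieszKernel_smul hz
  have e2 : Real.circleAverage u c R = u c :=
    HarmonicOnNhd.circleAverage_eq (by rwa [abs_of_pos hR])
  have hi := ker_int_harp hz hc
  have hj : ∀ a : ℝ, CircleIntegrable (fun w => a • u w) c R := fun a =>
    (hc.const_smul a).circleIntegrable'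
  rw [← e1, ← e2, ← smul_eq_mul, ← smul_eq_mul, ← Real.circleAverage_fun_smul,
    ← Real.circleAverage_fun_smul]
  constructor
  · refine Real.circleAverage_mono (hj _) hi fun w hw => ?_
    exact mul_le_mul_of_nonneg_right (ker_bound_harp hz hw).1 (h0 w (hs hw))
  · refine Real.circleAverage_mono hi (hj _) fun w hw => ?_
    exact mul_le_mul_of_nonneg_right (ker_bound_harp hz hw).2 (h0 w (hs hw))

open InnerProductSpace in
theorem cont_of_unif_harp {g : ℂ → ℝ} {c : ℂ} {R : ℝ}
    (h : ∀ ε : ℝ, 0 < ε → ∃ u : ℂ → ℝ, HarmonicOnNhd u (closedBall c R) ∧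
      ∀ z ∈ closedBall c R, |g z - u z| ≤ ε) : ContinuousOn g (closedBall c R) := by
  refine continuousOn_of_uniform_approx_of_continuousOn fun U hU => ?_
  obtain ⟨ε, hε, hU'⟩ := Metric.mem_uniformity_dist.1 hU
  obtain ⟨u, hu, hb⟩ := h (ε / 2) (by positivity)
  refine ⟨u, hu.continuousOn, fun y hy => hU' ?_⟩
  rw [Real.dist_eq]
  linarith [hb y hy]

open InnerProductSpace in
theorem poisson_of_unif_harp {g : ℂ → ℝ} {c : ℂ} {R : ℝ}
    (h : ∀ ε : ℝ, 0 < ε → ∃ u : ℂ → ℝ, HarmonicOnNhd u (closedBall c R) ∧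
      ∀ z ∈ closedBall c R, |g z - u z| ≤ ε) {z : ℂ} (hz : z ∈ ball c R) :
    g z = Real.circleAverage ((Complex.re ∘ herglotzRieszKernel c z) • g) c R := by
  have hR := pos_of_mem_ball hz
  have hs : sphere c |R| ⊆ closedBall c R := by
    rw [abs_of_pos hR]; exact sphere_subset_closedBall
  have hg := (cont_of_unif_harp h).mono hs
  have hzc : ‖z - c‖ < R := mem_ball_iff_norm.1 hz
  set M := (R + ‖z - c‖) / (R - ‖z - c‖) with hM
  have hM0 : 0 ≤ M := div_nonneg (by positivity) (by linarith)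
  have hm0 : 0 ≤ (R - ‖z - c‖) / (R + ‖z - c‖) := div_nonneg (by linarith) (by positivity)
  have key : ∀ ε : ℝ, 0 < ε →
      |g z - Real.circleAverage ((Complex.re ∘ herglotzRieszKernel c z) • g) c R| ≤
        ε * (1 + M) := by
    intro ε hε
    obtain ⟨u, hu, hb⟩ := h ε hε
    have e1 := hu.circleAverage_re_herglotzRieszKernel_smul hz
    have i1 := ker_int_harp hz hg
    have i2 := ker_int_harp hz (hu.continuousOn.mono hs)
    have pt : ∀ w ∈ sphere c |R|, |(herglotzRieszKernel c z w).re * g w -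
        (herglotzRieszKernel c z w).re * u w| ≤ M * ε := by
      intro w hw
      have k := ker_bound_harp hz hw
      rw [← mul_sub, abs_mul, abs_of_nonneg (hm0.trans k.1)]
      exact mul_le_mul k.2 (hb w (hs hw)) (abs_nonneg _) hM0
    have a1 := Real.circleAverage_mono_on_of_le_circle (i1.sub i2) (a := M * ε)
      fun w hw => (le_abs_self _).trans (pt w hw)
    have a2 := Real.circleAverage_mono_on_of_le_circle (i2.sub i1) (a := M * ε)
      fun w hw => (le_abs_self _).trans ((abs_sub_comm _ _).trans_le (pt w hw))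
    rw [Real.circleAverage_sub i1 i2, e1] at a1
    rw [Real.circleAverage_sub i2 i1, e1] at a2
    have a3 := abs_le.1 (hb z (ball_subset_closedBall hz))
    rw [abs_le]
    constructor <;> nlinarith [a3.1, a3.2]
  rw [← sub_eq_zero, ← abs_nonpos_iff]
  refine le_of_forall_pos_le_add fun ε hε => ?_
  have := key (ε / (1 + M)) (by positivity)
  rwa [div_mul_cancel₀ _ (by positivity), ← zero_add ε] at this

open InnerProductSpace in
theorem harmonicAt_of_unif {g : ℂ → ℝ} {c : ℂ} {R : ℝ} (hR : 0 < R)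
    (h : ∀ ε : ℝ, 0 < ε → ∃ u : ℂ → ℝ, HarmonicOnNhd u (closedBall c R) ∧
      ∀ z ∈ closedBall c R, |g z - u z| ≤ ε) : HarmonicAt g c := by
  have hg := cont_of_unif_harp h
  have hG : ContinuousOn (fun w => g (w + c)) (sphere 0 |R|) := by
    refine hg.comp (by fun_prop) fun w hw => ?_
    rw [abs_of_pos hR, mem_sphere_zero_iff_norm] at hw
    rw [mem_closedBall_iff_norm, add_sub_cancel_right, hw]
  have hGi : CircleIntegrable (fun w => g (w + c)) 0 R := hG.circleIntegrable'
  have hGc : CircleIntegrable (fun w => (g (w + c) : ℂ)) 0 R :=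
    (Complex.continuous_ofReal.comp_continuousOn hG).circleIntegrable'
  have hF := analyticOnNhd_circleAverage_herglotzRieszKernel_smul hGc 0 (mem_ball_self hR)
  have hF' : AnalyticAt ℂ (fun z => Real.circleAverage
      (fun ζ => herglotzRieszKernel 0 (z - c) ζ • (g (ζ + c) : ℂ)) 0 R) c :=
    hF.comp_of_eq (f := fun z => z - c) (by fun_prop) (sub_self c)
  refine (harmonicAt_congr_nhds ?_).1 hF'.harmonicAt_re
  filter_upwards [ball_mem_nhds c hR] with z hz
  have hz' : z - c ∈ ball (0 : ℂ) R := by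
    rw [mem_ball_zero_iff]; exact mem_ball_iff_norm.1 hz
  rw [re_circleAverage_herglotzRieszKernel_smul hGi hz', poisson_of_unif_harp h hz,
    ← Real.circleAverage_map_add_const (c := c)]
  congr 1
  funext ζ
  simp only [Pi.smul_apply', Function.comp_apply, herglotzRieszKernel_add_const]

end Pool.Agent.Lib.Unif
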