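import Pool.Agent.Lib.Unif.HarP

set_option autoImplicit false
set_option linter.unusedSectionVars false

open Set Filter Topology Metric
open scoped ComplexConjugate Manifold ContDiff

namespace Pool.Agent.Lib.Unif

open InnerProductSpace in
theorem sub_le_harq {u : ℂ → ℝ} {c y z : ℂ} {R C : ℝ} (hR : 0 < R)
    (h : HarmonicOnNhd u (closedBall c R)) (hb : ∀ z ∈ closedBall c R, |u z| ≤ C)
    (hy : y ∈ closedBall c (R / 2)) (hd : ‖z - y‖ ≤ R / 4) :
    u z - u y ≤ 16 * C / R * ‖z - y‖ := by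
  have hsub : closedBall y (R / 2) ⊆ closedBall c R :=
    closedBall_subset_closedBall' (by rw [mem_closedBall] at hy; linarith)
  have hv : HarmonicOnNhd (u + fun _ => C) (closedBall y (R / 2)) :=
    (h.mono hsub).add (harmonicOnNhd_const C)
  have hz : z ∈ ball y (R / 2) := by
    rw [mem_ball, dist_eq_norm]; linarith
  have h1 := (harnack_plane hv (fun w hw => by
    have := abs_le.1 (hb w (hsub hw))
    simp only [Pi.add_apply]
    linarith) hz).2
  simp only [Pi.add_apply] at h1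
  have hy' := abs_le.1 (hb y (hsub (mem_closedBall_self (by linarith))))
  have hd0 := norm_nonneg (z - y)
  generalize ‖z - y‖ = d at *
  have hp : 0 < R / 2 - d := by linarith
  have e : (R / 2 + d) / (R / 2 - d) = 1 + 2 * d / (R / 2 - d) := by
    rw [div_eq_iff hp.ne', add_mul, div_mul_cancel₀ _ hp.ne']
    ring
  have h2 : 2 * d / (R / 2 - d) ≤ 2 * d / (R / 4) :=
    div_le_div_of_nonneg_left (by linarith) (by linarith) (by linarith)
  have h3 : 2 * d / (R / 2 - d) * (u y + C) ≤ 2 * d / (R / 4) * (2 * C) :=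
    mul_le_mul h2 (by linarith) (by linarith) (by positivity)
  have e2 : 2 * d / (R / 4) * (2 * C) = 16 * C / R * d := by
    field_simp
    ring
  rw [e] at h1
  linarith

open InnerProductSpace in
theorem abs_sub_le_harq {u : ℂ → ℝ} {c y z : ℂ} {R C : ℝ} (hR : 0 < R)
    (h : HarmonicOnNhd u (closedBall c R)) (hb : ∀ z ∈ closedBall c R, |u z| ≤ C)
    (hy : y ∈ closedBall c (R / 2)) (hz : z ∈ closedBall c (R / 2)) (hd : ‖z - y‖ ≤ R / 4) :
    |u z - u y| ≤ 16 * C / R * ‖z - y‖ := by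
  have h1 := sub_le_harq hR h hb hy hd
  have h2 := sub_le_harq (z := y) hR h hb hz (by rwa [norm_sub_rev])
  rw [norm_sub_rev] at h2
  exact abs_le.2 ⟨by linarith, h1⟩

open InnerProductSpace in
theorem harmonicAt_of_tendsto {ι : Type*} {l : Filter ι} [l.NeBot] {G : ι → ℂ → ℝ} {g : ℂ → ℝ}
    {c : ℂ} {R C : ℝ} (hR : 0 < R)
    (h : ∀ᶠ i in l, HarmonicOnNhd (G i) (closedBall c R) ∧ ∀ z ∈ closedBall c R, |G i z| ≤ C)
    (ht : ∀ z ∈ closedBall c R, Tendsto (fun i => G i z) l (𝓝 (g z))) : HarmonicAt g c := by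
  have hsub : closedBall c (R / 2) ⊆ closedBall c R := closedBall_subset_closedBall (by linarith)
  have hC : 0 ≤ C := by
    obtain ⟨i, -, hi⟩ := h.exists
    exact (abs_nonneg _).trans (hi c (mem_closedBall_self hR.le))
  have hg : ∀ y ∈ closedBall c (R / 2), ∀ z ∈ closedBall c (R / 2), ‖z - y‖ ≤ R / 4 →
      |g z - g y| ≤ 16 * C / R * ‖z - y‖ := by
    intro y hy z hz hd
    refine le_of_tendsto ((ht z (hsub hz)).sub (ht y (hsub hy))).abs ?_
    filter_upwards [h] with i hi
    exact abs_sub_le_harq hR hi.1 hi.2 hy hz hd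
  refine harmonicAt_of_unif (half_pos hR) fun ε hε => ?_
  set L := 16 * C / R with hL
  have hL0 : 0 ≤ L := by positivity
  have hδ : 0 < min (R / 4) (ε / 3 / (L + 1)) := lt_min (by positivity) (by positivity)
  obtain ⟨t, hts, htf, hcov⟩ := (isCompact_closedBall c (R / 2)).finite_cover_balls hδ
  have hev : ∀ᶠ i in l, ∀ y ∈ t, |G i y - g y| ≤ ε / 3 := by
    rw [eventually_all_finite htf]
    intro y hy
    have := (Metric.tendsto_nhds.1 (ht y (hsub (hts hy)))) (ε / 3) (by positivity)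
    filter_upwards [this] with i hi
    rw [Real.dist_eq] at hi
    exact hi.le
  obtain ⟨i, hi, hi'⟩ := (h.and hev).exists
  refine ⟨G i, hi.1.mono hsub, fun z hz => ?_⟩
  obtain ⟨y, hy, hzy⟩ := mem_iUnion₂.1 (hcov hz)
  rw [mem_ball, dist_eq_norm, lt_min_iff] at hzy
  have h1 := hg y (hts hy) z hz hzy.1.le
  have h2 := abs_sub_le_harq hR hi.1 hi.2 (hts hy) hz hzy.1.le
  have h3 := hi' y hy
  have h4 : L * ‖z - y‖ ≤ ε / 3 := by
    have h5 := hzy.2
    rw [lt_div_iff₀ (by linarith)] at h5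
    nlinarith [norm_nonneg (z - y)]
  rw [← hL] at h2
  rw [abs_le] at h1 h2 h3 ⊢
  constructor <;> linarith [h1.1, h1.2, h2.1, h2.2, h3.1, h3.2]

end Pool.Agent.Lib.Unif
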