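import Pool.Agent.Lib.Unif.Hol1

set_option autoImplicit false
set_option linter.unusedSectionVars false

open Set Filter Topology Metric
open scoped ComplexConjugate Manifold ContDiff

namespace Pool.Agent.Lib.Unif

variable {W : Type*} [TopologicalSpace W] [ChartedSpace ℂ W] [RS W]
  {p q x p₀ p₁ p₂ : W} {f f' e φ : W → ℂ} {u v w s g g' : W → ℝ} {r t R T M C : ℝ} {Ω U K D : Set W}

theorem pull_hol2 {P : ℂ → Prop} (h : ∀ᶠ z in 𝓝 (chartAt ℂ p p), P z) :
    ∀ᶠ x in 𝓝 p, P (chartAt ℂ p x) :=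
  ((chartAt ℂ p).continuousAt (mem_chart_source ℂ p)).eventually h

theorem left_hol2 (p : W) : ∀ᶠ x in 𝓝 p, (chartAt ℂ p).symm (chartAt ℂ p x) = x :=
  (chartAt ℂ p).eventually_left_inverse (mem_chart_source ℂ p)

theorem punct_hol2 (h : ∀ᶠ x in 𝓝[≠] p, Hol f x) :
    ∀ᶠ z in 𝓝[≠] (chartAt ℂ p p), DifferentiableAt ℂ (f ∘ (chartAt ℂ p).symm) z := by
  rw [← map_chart_punct, eventually_map]
  filter_upwards [h, mem_nhdsWithin_of_mem_nhds (chart_source_mem_nhds ℂ p)] with y hy hs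
  exact ((hol_iff_chart hs).1 hy).differentiableAt

theorem max_set_hol2 {X Y : Type*} [TopologicalSpace X] [TopologicalSpace Y] [T1Space Y]
    {F : X → Y} {Ω : Set X} {q : X} (hΩ : IsOpen Ω) (hc : IsPreconnected Ω)
    (h : ∀ x ∈ Ω, ContinuousAt F x) (hq : q ∈ Ω)
    (ho : ∀ x ∈ Ω, F x = F q → ∀ᶠ y in 𝓝 x, F y = F q) : ∀ x ∈ Ω, F x = F q := by
  have h1 : IsOpen {x | x ∈ Ω ∧ F x = F q} := isOpen_iff_mem_nhds.2 fun x hx =>
    (Filter.Eventually.and (hΩ.mem_nhds hx.1) (ho x hx.1 hx.2) :)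
  have h2 : IsOpen {x | x ∈ Ω ∧ F x ≠ F q} := isOpen_iff_mem_nhds.2 fun x hx =>
    (Filter.Eventually.and (hΩ.mem_nhds hx.1) ((h x hx.1).eventually_ne hx.2) :)
  have h3 := hc.subset_left_of_subset_union h1 h2
    (Set.disjoint_left.2 fun x hx hx' => hx'.2 hx.2)
    (fun x hx => (em (F x = F q)).imp (fun h => ⟨hx, h⟩) fun h => ⟨hx, h⟩) ⟨q, hq, hq, rfl⟩
  exact fun x hx => (h3 hx).2

theorem Hol.exists_factor (h : Hol f p) (h0 : f p = 0) :
    ∃ e, Hol e p ∧ ∀ᶠ x in 𝓝 p, f x = e x * lc p x := by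
  obtain ⟨P, hP⟩ := h
  refine ⟨fun x => dslope (f ∘ (chartAt ℂ p).symm) (chartAt ℂ p p) (chartAt ℂ p x),
    (hol_chart (mem_chart_source ℂ p)).comp hP.has_fpower_series_dslope_fslope.analyticAt, ?_⟩
  filter_upwards [left_hol2 p] with y hy
  have := sub_smul_dslope (f ∘ (chartAt ℂ p).symm) (chartAt ℂ p p) (chartAt ℂ p y)
  simp only [Function.comp_apply, hy, (chartAt ℂ p).left_inv (mem_chart_source ℂ p), h0, sub_zero,
    smul_eq_mul] at this
  rw [← this, mul_comm]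
  rfl

theorem hol_of_punct (h : ∀ᶠ x in 𝓝[≠] p, Hol f x) (hc : ContinuousAt f p) : Hol f p := by
  refine Complex.analyticAt_of_differentiable_on_punctured_nhds_of_continuousAt (punct_hol2 h) ?_
  exact ContinuousAt.comp_of_eq hc
    ((chartAt ℂ p).continuousAt_symm (mem_chart_target ℂ p))
    ((chartAt ℂ p).left_inv (mem_chart_source ℂ p))

theorem exists_hol_of_bdd (h : ∀ᶠ x in 𝓝[≠] p, Hol f x ∧ ‖f x‖ ≤ C) :
    ∃ F, Hol F p ∧ ∀ᶠ x in 𝓝[≠] p, f x = F x := by
  classical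
  have hd := punct_hol2 (h.mono fun _ hy => hy.1)
  have hb : IsBoundedUnder (· ≤ ·) (𝓝[≠] (chartAt ℂ p p)) fun z =>
      ‖(f ∘ (chartAt ℂ p).symm) z - (f ∘ (chartAt ℂ p).symm) (chartAt ℂ p p)‖ := by
    refine ⟨C + ‖(f ∘ (chartAt ℂ p).symm) (chartAt ℂ p p)‖, ?_⟩
    rw [eventually_map, ← map_chart_punct, eventually_map]
    filter_upwards [h, mem_nhdsWithin_of_mem_nhds (left_hol2 p)] with y hy hy'
    have hy2 : (chartAt ℂ p).symm (chartAt ℂ p y) = y := hy'
    refine (norm_sub_le _ _).trans (add_le_add_left ?_ _)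
    rw [Function.comp_apply, hy2]
    exact hy.2
  have ht := Complex.tendsto_limUnder_of_differentiable_on_punctured_nhds_of_bounded_under hd hb
  obtain ⟨a, ha⟩ : ∃ a, Tendsto (f ∘ (chartAt ℂ p).symm) (𝓝[≠] (chartAt ℂ p p)) (𝓝 a) := ⟨_, ht⟩
  have hA : AnalyticAt ℂ (Function.update (f ∘ (chartAt ℂ p).symm) (chartAt ℂ p p) a)
      (chartAt ℂ p p) := by
    refine Complex.analyticAt_of_differentiable_on_punctured_nhds_of_continuousAt ?_
      (continuousAt_update_same.2 ha)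
    filter_upwards [hd, self_mem_nhdsWithin] with z hz hne
    refine hz.congr_of_eventuallyEq ?_
    filter_upwards [eventually_ne_nhds hne] with ζ hζ
    exact Function.update_of_ne hζ _ _
  refine ⟨fun x => Function.update (f ∘ (chartAt ℂ p).symm) (chartAt ℂ p p) a (chartAt ℂ p x),
    (hol_chart (mem_chart_source ℂ p)).comp hA, ?_⟩
  filter_upwards [eventually_lc_ne_zero p, mem_nhdsWithin_of_mem_nhds (left_hol2 p)] with y hy hy'
  have hy2 : (chartAt ℂ p).symm (chartAt ℂ p y) = y := hy'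
  rw [Function.update_of_ne (sub_ne_zero.1 hy), Function.comp_apply, hy2]

theorem Hol.eq_of_max (h : Hol f p) (hm : ∀ᶠ x in 𝓝 p, ‖f x‖ ≤ ‖f p‖) :
    ∀ᶠ x in 𝓝 p, f x = f p := by
  have hl := (chartAt ℂ p).left_inv (mem_chart_source ℂ p)
  have h1 := Complex.eventually_eq_of_isLocalMax_norm (f := f ∘ (chartAt ℂ p).symm)
    (c := chartAt ℂ p p) ((AnalyticAt.eventually_analyticAt h).mono fun _ hz => hz.differentiableAt)
    (by
      filter_upwards [((chartAt ℂ p).tendsto_symm (mem_chart_source ℂ p)).eventually hm] with z hz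
      simpa only [Function.comp_apply, hl] using hz)
  filter_upwards [pull_hol2 h1, left_hol2 p] with y hy hy'
  simpa only [Function.comp_apply, hl, hy'] using hy

theorem eq_of_max (hΩ : IsOpen Ω) (hc : IsPreconnected Ω) (h : ∀ x ∈ Ω, Hol f x) (hq : q ∈ Ω)
    (hm : ∀ x ∈ Ω, ‖f x‖ ≤ ‖f q‖) : ∀ x ∈ Ω, f x = f q := by
  refine max_set_hol2 hΩ hc (fun x hx => (h x hx).continuousAt) hq fun x hx he => ?_
  rw [← he]
  refine (h x hx).eq_of_max ?_
  filter_upwards [hΩ.mem_nhds hx] with y hy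
  rw [he]
  exact hm y hy

theorem eq_of_compact [CompactSpace W] [PreconnectedSpace W] (h : ∀ x, Hol f x) (x y : W) :
    f x = f y := by
  obtain ⟨q, -, hq⟩ := isCompact_univ.exists_isMaxOn ⟨x, mem_univ x⟩
    (f := fun x => ‖f x‖) fun z _ => (h z).continuousAt.norm.continuousWithinAt
  have := eq_of_max isOpen_univ isPreconnected_univ (fun z _ => h z) (mem_univ q)
    fun z hz => hq hz
  rw [this x (mem_univ _), this y (mem_univ _)]

theorem re_const_hol2 (h : Hol f p) (h0 : ∀ x, (f x).re = 0) : ∀ᶠ x in 𝓝 p, f x = f p := by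
  have h1 : Hol (fun x => Complex.exp (f x)) p := h.comp (F := Complex.exp) analyticAt_cexp
  have h2 := h1.eq_of_max (Eventually.of_forall fun x => by
    rw [Complex.norm_exp, Complex.norm_exp, h0, h0])
  have h3 : ∀ᶠ x in 𝓝 p, ‖f x - f p‖ < 1 := by
    have := h.continuousAt.eventually (ball_mem_nhds (f p) one_pos)
    simpa only [dist_eq_norm] using this
  filter_upwards [h2, h3] with y hy hy'
  obtain ⟨n, hn⟩ := Complex.exp_eq_exp_iff_exists_int.1 hy
  have h4 : f y - f p = n * (2 * Real.pi * Complex.I) := by rw [hn]; ring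
  rw [h4, norm_mul, Complex.norm_intCast] at hy'
  have h5 : ‖(2 * Real.pi * Complex.I : ℂ)‖ = 2 * Real.pi := by
    simp [abs_of_pos Real.pi_pos]
  rw [h5] at hy'
  have h6 : n = 0 := by
    by_contra hne
    have h7 : (1 : ℝ) ≤ |(n : ℝ)| := by exact_mod_cast Int.one_le_abs hne
    nlinarith [Real.pi_gt_three]
  rw [h6] at hn
  simpa using hn

theorem Hol.const_of_conj (h : Hol f p) (h' : Hol (fun x => conj (f x)) p) :
    ∀ᶠ x in 𝓝 p, f x = f p := by
  have h1 := re_const_hol2 (h.sub h') fun x => by simp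
  have h2 := re_const_hol2 ((hol_const Complex.I).mul (h.add h')) fun x => by simp
  filter_upwards [h1, h2] with y hy hy'
  have h3 := mul_left_cancel₀ Complex.I_ne_zero hy'
  linear_combination (1 / 2 : ℂ) * hy + (1 / 2 : ℂ) * h3

end Pool.Agent.Lib.Unif
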