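import Mathlib

set_option autoImplicit false

open Set unitInterval

namespace Pool.Agent.Lib.Unif

variable {X : Type*} [TopologicalSpace X] {x y z : X}

/-- A barycentric coordinate, as a point of the unit interval. -/
def crd {n : ℕ} (i : Fin n) : C(stdSimplex ℝ (Fin n), I) :=
  ⟨fun s => ⟨s.1 i, mem_Icc_of_mem_stdSimplex s.2 i⟩,
    ((continuous_apply i).comp continuous_subtype_val).subtype_mk _⟩

/-- A path, as a singular simplex. -/
def sim (γ : Path x y) : C(stdSimplex ℝ (Fin 2), X) := γ.toContinuousMap.comp (crd 1)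

/-- The faces of the standard simplex. -/
noncomputable def face {n : ℕ} (i : Fin (n + 2)) :
    C(stdSimplex ℝ (Fin (n + 1)), stdSimplex ℝ (Fin (n + 2))) :=
  ⟨stdSimplex.map i.succAbove, stdSimplex.continuous_map _⟩

theorem face_zero {n : ℕ} (i : Fin (n + 2)) (s : stdSimplex ℝ (Fin (n + 1))) :
    (face i s).1 i = 0 := by
  show FunOnFinite.linearMap ℝ ℝ i.succAbove s.1 i = 0
  rw [FunOnFinite.linearMap_apply_apply]
  refine Finset.sum_eq_zero fun j hj => ?_
  simp at hj

theorem face_succAbove {n : ℕ} (i : Fin (n + 2)) (s : stdSimplex ℝ (Fin (n + 1)))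
    (j : Fin (n + 1)) : (face i s).1 (i.succAbove j) = s.1 j := by
  show FunOnFinite.linearMap ℝ ℝ i.succAbove s.1 _ = _
  rw [FunOnFinite.linearMap_apply_apply]
  refine Finset.sum_eq_single_of_mem j (by simp) fun k hk hkj => ?_
  simp at hk
  exact absurd hk hkj

theorem sum_two (s : stdSimplex ℝ (Fin 2)) : s.1 0 + s.1 1 = 1 := by
  have := s.2.2
  rwa [Fin.sum_univ_two] at this

theorem f01 (s : stdSimplex ℝ (Fin 2)) : (face (0 : Fin 3) s).1 1 = 1 - s.1 1 :=
  (face_succAbove 0 s 0).trans (by linarith [sum_two s])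
theorem f02 (s : stdSimplex ℝ (Fin 2)) : (face (0 : Fin 3) s).1 2 = s.1 1 := face_succAbove 0 s 1
theorem f11 (s : stdSimplex ℝ (Fin 2)) : (face (1 : Fin 3) s).1 1 = 0 := face_zero 1 s
theorem f12 (s : stdSimplex ℝ (Fin 2)) : (face (1 : Fin 3) s).1 2 = s.1 1 := face_succAbove 1 s 1
theorem f21 (s : stdSimplex ℝ (Fin 2)) : (face (2 : Fin 3) s).1 1 = s.1 1 := face_succAbove 2 s 1
theorem f22 (s : stdSimplex ℝ (Fin 2)) : (face (2 : Fin 3) s).1 2 = 0 := face_zero 2 s

/-- The cocycle condition. -/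
def Cocyc (c : C(stdSimplex ℝ (Fin 2), X) → ℚ) : Prop :=
  ∀ τ : C(stdSimplex ℝ (Fin 3), X), c (τ.comp (face 0)) - c (τ.comp (face 1)) + c (τ.comp (face 2)) = 0

variable {c : C(stdSimplex ℝ (Fin 2), X) → ℚ}

theorem Cocyc.const (h : Cocyc c) (x : X) : c (ContinuousMap.const _ x) = 0 := by
  have := h (ContinuousMap.const _ x)
  simpa using this

theorem mem_comb (s : stdSimplex ℝ (Fin 3)) {a : ℝ} (h0 : 0 ≤ a) (h1 : a ≤ 1) :
    a * s.1 1 + s.1 2 ∈ I := by
  have h := s.2.2
  rw [Fin.sum_univ_three] at h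
  have a0 := s.2.1 0
  have a1 := s.2.1 1
  have a2 := s.2.1 2
  exact ⟨by positivity, by nlinarith⟩

/-- The affine function `a s₁ + s₂` on the triangle. -/
def comb (a : ℝ) (h0 : 0 ≤ a) (h1 : a ≤ 1) : C(stdSimplex ℝ (Fin 3), I) :=
  ⟨fun s => ⟨_, mem_comb s h0 h1⟩, Continuous.subtype_mk
    ((continuous_const.mul ((continuous_apply 1).comp continuous_subtype_val)).add
      ((continuous_apply 2).comp continuous_subtype_val)) _⟩

theorem Cocyc.trans (h : Cocyc c) (α : Path x y) (β : Path y z) :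
    c (sim (α.trans β)) = c (sim α) + c (sim β) := by
  have k := h ((α.trans β).toContinuousMap.comp (comb (1 / 2) (by norm_num) (by norm_num)))
  have e0 : ((α.trans β).toContinuousMap.comp (comb (1 / 2) (by norm_num) (by norm_num))).comp
      (face 0) = sim β := by
    ext s
    have hs := (crd 1 s).2
    show (α.trans β) ⟨1 / 2 * (face (0 : Fin 3) s).1 1 + (face (0 : Fin 3) s).1 2, _⟩ = β (crd 1 s)
    rw [Path.trans_apply]
    have q : (crd 1 s : ℝ) = s.1 1 := rfl
    split_ifs with hh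
    · simp only [f01, f02] at hh
      have z0 : crd 1 s = 0 := Subtype.ext (by
        have := hs.1
        rw [q] at this ⊢
        show _ = (0 : ℝ)
        linarith)
      have z1 : s.1 1 = 0 := congrArg Subtype.val z0
      rw [z0, β.source]
      refine (congrArg α (Subtype.ext ?_)).trans α.target
      simp only [f01, f02, z1]
      norm_num
    · refine congrArg β (Subtype.ext ?_)
      simp only [f01, f02, q]
      ring
  have e1 : ((α.trans β).toContinuousMap.comp (comb (1 / 2) (by norm_num) (by norm_num))).comp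
      (face 1) = sim (α.trans β) := by
    ext s
    refine congrArg (α.trans β) (Subtype.ext ?_)
    show 1 / 2 * (face (1 : Fin 3) s).1 1 + (face (1 : Fin 3) s).1 2 = s.1 1
    rw [f11, f12]
    ring
  have e2 : ((α.trans β).toContinuousMap.comp (comb (1 / 2) (by norm_num) (by norm_num))).comp
      (face 2) = sim α := by
    ext s
    have hs := (crd 1 s).2
    have q : (crd 1 s : ℝ) = s.1 1 := rfl
    show (α.trans β) ⟨1 / 2 * (face (2 : Fin 3) s).1 1 + (face (2 : Fin 3) s).1 2, _⟩ = α (crd 1 s)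
    rw [Path.trans_apply, dif_pos (by
      have := hs.2
      rw [q] at this
      simp only [f21, f22]
      linarith)]
    refine congrArg α (Subtype.ext ?_)
    simp only [f21, f22, q]
    ring
  rw [e0, e1, e2] at k
  linarith

theorem Cocyc.homotopic (h : Cocyc c) {α β : Path x y} (hh : α.Homotopic β) :
    c (sim α) = c (sim β) := by
  obtain ⟨H⟩ := hh
  let u : C(stdSimplex ℝ (Fin 3), I) := comb 1 zero_le_one le_rfl
  let K : C(I × I, X) := H.toContinuousMap
  have k1 := h (K.comp ((crd 2).prodMk u))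
  have k2 := h (K.comp (u.prodMk (crd 2)))
  have u0 : ∀ s, u (face 0 s) = 1 := fun s => Subtype.ext (by
    show 1 * (face (0 : Fin 3) s).1 1 + (face (0 : Fin 3) s).1 2 = 1
    rw [f01, f02]; ring)
  have u1 : ∀ s, u (face 1 s) = crd 1 s := fun s => Subtype.ext (by
    show 1 * (face (1 : Fin 3) s).1 1 + (face (1 : Fin 3) s).1 2 = s.1 1
    rw [f11, f12]; ring)
  have u2 : ∀ s, u (face 2 s) = crd 1 s := fun s => Subtype.ext (by
    show 1 * (face (2 : Fin 3) s).1 1 + (face (2 : Fin 3) s).1 2 = s.1 1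
    rw [f21, f22]; ring)
  have c0 : ∀ s, crd 2 (face (0 : Fin 3) s) = crd 1 s := fun s => Subtype.ext (f02 s)
  have c1 : ∀ s, crd 2 (face (1 : Fin 3) s) = crd 1 s := fun s => Subtype.ext (f12 s)
  have c2 : ∀ s, crd 2 (face (2 : Fin 3) s) = 0 := fun s => Subtype.ext (f22 s)
  have a0 : (K.comp ((crd 2).prodMk u)).comp (face 0) = ContinuousMap.const _ y := by
    ext s
    show H (crd 2 (face (0 : Fin 3) s), u (face 0 s)) = y
    rw [u0, H.target]
  have a1 : (K.comp ((crd 2).prodMk u)).comp (face 1) = (K.comp (u.prodMk (crd 2))).comp (face 1) := by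
    ext s
    show H (crd 2 (face (1 : Fin 3) s), u (face 1 s)) = H (u (face 1 s), crd 2 (face (1 : Fin 3) s))
    rw [u1, c1]
  have a2 : (K.comp ((crd 2).prodMk u)).comp (face 2) = sim α := by
    ext s
    show H (crd 2 (face (2 : Fin 3) s), u (face 2 s)) = α (crd 1 s)
    rw [u2, c2]
    exact H.apply_zero _
  have b0 : (K.comp (u.prodMk (crd 2))).comp (face 0) = sim β := by
    ext s
    show H (u (face 0 s), crd 2 (face (0 : Fin 3) s)) = β (crd 1 s)
    rw [u0, c0]
    exact H.apply_one _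
  have b2 : (K.comp (u.prodMk (crd 2))).comp (face 2) = ContinuousMap.const _ x := by
    ext s
    show H (u (face 2 s), crd 2 (face (2 : Fin 3) s)) = x
    rw [c2, H.source]
  rw [a0, a1, a2, h.const] at k1
  rw [b0, b2, h.const] at k2
  linarith

/-- Additive rational functions on the group are determined by their values at two elements. -/
def Gen2 (G : Type*) [Group G] : Prop :=
  ∃ a b : G, ∀ k : G → ℚ, (∀ g g', k (g * g') = k g + k g') → k a = 0 → k b = 0 → ∀ g, k g = 0

theorem exists_sim (ω : C(stdSimplex ℝ (Fin 2), X)) :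
    ∃ γ : Path (ω (stdSimplex.vertex 0)) (ω (stdSimplex.vertex 1)), sim γ = ω := by
  refine ⟨⟨ω.comp ⟨_, stdSimplexHomeomorphUnitInterval.symm.continuous⟩, ?_, ?_⟩, ?_⟩
  · exact congrArg ω (stdSimplexHomeomorphUnitInterval.symm_apply_eq.2
      stdSimplexHomeomorphUnitInterval_zero.symm)
  · exact congrArg ω (stdSimplexHomeomorphUnitInterval.symm_apply_eq.2
      stdSimplexHomeomorphUnitInterval_one.symm)
  · ext s
    exact congrArg ω (stdSimplexHomeomorphUnitInterval.symm_apply_apply s)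

theorem exists_loops [PathConnectedSpace X] {x₀ : X} (hG : Gen2 (FundamentalGroup X x₀)) :
    ∃ a b : Path x₀ x₀, ∀ c : C(stdSimplex ℝ (Fin 2), X) → ℚ, Cocyc c → c (sim a) = 0 →
      c (sim b) = 0 → ∃ f : X → ℚ,
        ∀ ω, c ω = f (ω (stdSimplex.vertex 1)) - f (ω (stdSimplex.vertex 0)) := by
  obtain ⟨⟨a⟩, ⟨b⟩, hk⟩ := hG
  refine ⟨a, b, fun c h ha hb => ?_⟩
  let k : FundamentalGroup X x₀ → ℚ :=
    Quotient.lift (fun γ : Path x₀ x₀ => c (sim γ)) fun _ _ hh => h.homotopic hh
  have k0 := hk k (by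
    rintro ⟨g⟩ ⟨g'⟩
    exact (h.trans g' g).trans (add_comm _ _)) ha hb
  let p : ∀ x, Path x₀ x := fun x => PathConnectedSpace.somePath x₀ x
  refine ⟨fun x => c (sim (p x)), fun ω => ?_⟩
  obtain ⟨γ, hγ⟩ := exists_sim ω
  have e1 : c (sim (((p _).trans γ).trans (p _).symm)) = 0 := k0 (Quotient.mk _ _)
  have e2 : c (sim ((p (ω (stdSimplex.vertex 1))).trans (p _).symm)) = 0 := k0 (Quotient.mk _ _)
  rw [h.trans, h.trans, hγ] at e1
  rw [h.trans] at e2
  show c ω = c (sim (p _)) - c (sim (p _))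
  linarith

end Pool.Agent.Lib.Unif
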