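import Pool.Agent.Lib.Unif.Hur1

set_option autoImplicit false

open CategoryTheory AlgebraicTopology Simplicial Limits

namespace Pool.Agent.Lib.Unif

universe u

theorem finrank_h0 (X : Type u) [TopologicalSpace X] [PathConnectedSpace X] :
    Module.finrank ℚ (((singularHomologyFunctor (ModuleCat.{u} ℚ) 0).obj
      (ModuleCat.of ℚ (ULift.{u} ℚ))).obj (TopCat.of X)) = 1 := by
  have e := (asIso ((TopCat.of X).singularHomology₀ε (ModuleCat.of ℚ (ULift.{u} ℚ)))).toLinearEquiv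
  rw [e.finrank_eq]
  exact (ULift.moduleEquiv (R := ℚ) (M := ℚ)).finrank_eq.trans (Module.finrank_self ℚ)

theorem finrank_le_two {H : ModuleCat.{u} ℚ} (A B : ModuleCat.of ℚ (ULift.{u} ℚ) ⟶ H)
    (h : ∀ l : H ⟶ ModuleCat.of ℚ (ULift.{u} ℚ), A ≫ l = 0 → B ≫ l = 0 → l = 0) :
    Module.finrank ℚ H ≤ 2 := by
  classical
  let a : H := A.hom ⟨1⟩
  let b : H := B.hom ⟨1⟩
  have ht : Submodule.span ℚ (({a, b} : Finset H) : Set H) = ⊤ := by
    by_contra hne
    obtain ⟨f, hf, hf0⟩ := Submodule.exists_dual_map_eq_bot_of_lt_top (lt_top_iff_ne_top.2 hne)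
      inferInstance
    have hz : ∀ x ∈ Submodule.span ℚ (({a, b} : Finset H) : Set H), f x = 0 := fun x hx =>
      (Submodule.mem_bot ℚ).1 (hf0 ▸ Submodule.mem_map_of_mem hx)
    let l : H ⟶ ModuleCat.of ℚ (ULift.{u} ℚ) :=
      ModuleCat.ofHom ((ULift.moduleEquiv (R := ℚ) (M := ℚ)).symm.toLinearMap.comp f)
    have key : ∀ C : ModuleCat.of ℚ (ULift.{u} ℚ) ⟶ H, f (C.hom ⟨1⟩) = 0 → C ≫ l = 0 := by
      intro C hC
      ext1
      refine LinearMap.ext fun t => ?_
      have : t = t.down • (⟨1⟩ : ULift.{u} ℚ) := ULift.ext _ _ (by simp)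
      rw [this, map_smul, map_smul]
      congr 1
      exact congrArg ULift.up hC
    have := h l (key A (hz _ (Submodule.subset_span (by simp [a]))))
      (key B (hz _ (Submodule.subset_span (by simp [b]))))
    refine hf (LinearMap.ext fun x => ?_)
    exact congrArg ULift.down (congrArg (fun m : H ⟶ _ => m.hom x) this)
  have := finrank_span_finset_le_card (R := ℚ) ({a, b} : Finset H)
  rw [Set.finrank, ht, finrank_top] at this
  exact this.trans Finset.card_le_two

theorem finrank_h1 (X : Type u) [TopologicalSpace X] [PathConnectedSpace X] {x₀ : X}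
    (hG : Gen2 (FundamentalGroup X x₀)) :
    Module.finrank ℚ (((singularHomologyFunctor (ModuleCat.{u} ℚ) 1).obj
      (ModuleCat.of ℚ (ULift.{u} ℚ))).obj (TopCat.of X)) ≤ 2 := by
  obtain ⟨a, b, hab⟩ := exists_loops hG
  let R : ModuleCat.{u} ℚ := ModuleCat.of ℚ (ULift.{u} ℚ)
  let Y : SSet.{u} := TopCat.toSSet.obj (TopCat.of X)
  let K : ChainComplex (ModuleCat.{u} ℚ) ℕ := Y.chainComplex R
  let e : ∀ n : ℕ, C(stdSimplex ℝ (Fin (n + 1)), X) → Y _⦋n⦌ := fun n =>
    ((TopCat.of X).toSSetObjEquiv (Opposite.op ⦋n⦌)).symm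
  have hδ : ∀ (n : ℕ) (i : Fin (n + 2)) (τ : C(stdSimplex ℝ (Fin (n + 2)), X)),
      Y.δ i (e (n + 1) τ) = e n (τ.comp (face i)) := fun _ _ _ => rfl
  have v0 : ∀ s, face (n := 0) 0 s = stdSimplex.vertex 1 := fun s => by
    refine Subtype.ext (funext fun i => ?_)
    have h1 : s.1 0 = 1 := by simpa using s.2.2
    fin_cases i
    · exact (face_zero 0 s).trans (by simp)
    · exact ((face_succAbove 0 s 0).trans h1).trans (by simp)
  have v1 : ∀ s, face (n := 0) 1 s = stdSimplex.vertex 0 := fun s => by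
    refine Subtype.ext (funext fun i => ?_)
    have h1 : s.1 0 = 1 := by simpa using s.2.2
    fin_cases i
    · exact ((face_succAbove 1 s 0).trans h1).trans (by simp)
    · exact (face_zero 1 s).trans (by simp)
  have d1 : ∀ ω, Y.ιChainComplex (R := R) (e 1 ω) ≫ K.d 1 0 =
      Y.ιChainComplex (e 0 (ContinuousMap.const _ (ω (stdSimplex.vertex 1)))) -
        Y.ιChainComplex (e 0 (ContinuousMap.const _ (ω (stdSimplex.vertex 0)))) := fun ω => by
    have a0 : ω.comp (face 0) = ContinuousMap.const _ (ω (stdSimplex.vertex 1)) :=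
      ContinuousMap.ext fun s => congrArg ω (v0 s)
    have a1 : ω.comp (face 1) = ContinuousMap.const _ (ω (stdSimplex.vertex 0)) :=
      ContinuousMap.ext fun s => congrArg ω (v1 s)
    rw [SSet.ιChainComplex_d, Fin.sum_univ_two, hδ, hδ, a0, a1]
    simp [sub_eq_add_neg]
  have cyc : ∀ γ : Path x₀ x₀, Y.ιChainComplex (R := R) (e 1 (sim γ)) ≫ K.d 1 0 = 0 := fun γ => by
    have s0 : sim γ (stdSimplex.vertex 0) = x₀ :=
      (congrArg γ (Subtype.ext (by simp [crd]))).trans γ.source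
    have s1 : sim γ (stdSimplex.vertex 1) = x₀ :=
      (congrArg γ (Subtype.ext (by simp [crd]))).trans γ.target
    rw [d1, s0, s1, sub_self]
  refine finrank_le_two (H := K.homology 1)
    (K.liftCycles _ 0 (by simp) (cyc a) ≫ K.homologyπ 1)
    (K.liftCycles _ 0 (by simp) (cyc b) ≫ K.homologyπ 1) fun l hA hB => ?_
  obtain ⟨r, hr⟩ := (K.homologyι 1).hom.exists_leftInverse_of_injective
    (LinearMap.ker_eq_bot.2 ((ModuleCat.mono_iff_injective _).1 inferInstance))
  have hr' : K.homologyι 1 ≫ ModuleCat.ofHom r = 𝟙 _ := ModuleCat.hom_ext hr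
  let m : K.X 1 ⟶ R := K.pOpcycles 1 ≫ ModuleCat.ofHom r ≫ l
  have hm : K.iCycles 1 ≫ m = K.homologyπ 1 ≫ l := by
    simp only [m]
    rw [← K.homology_π_ι_assoc, reassoc_of% hr']
  have one : ∀ {T : ModuleCat.{u} ℚ} (φ ψ : R ⟶ T), φ.hom ⟨1⟩ = ψ.hom ⟨1⟩ → φ = ψ := by
    intro T φ ψ hh
    ext1
    refine LinearMap.ext fun t => ?_
    have : t = t.down • (⟨1⟩ : ULift.{u} ℚ) := ULift.ext _ _ (by simp)
    rw [this, map_smul, map_smul, hh]
  let val : (R ⟶ R) →+ ℚ :=
    { toFun := fun φ => (φ.hom ⟨1⟩).down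
      map_zero' := rfl
      map_add' := fun _ _ => rfl }
  have vinj : ∀ φ ψ : R ⟶ R, val φ = val ψ → φ = ψ := fun φ ψ hh => one φ ψ (ULift.ext _ _ hh)
  let c : C(stdSimplex ℝ (Fin 2), X) → ℚ := fun ω => val (Y.ιChainComplex (e 1 ω) ≫ m)
  have hc : Cocyc c := fun τ => by
    have z : (Y.ιChainComplex (R := R) (e 2 τ) ≫ K.d 2 1) ≫ m = 0 := by
      simp only [m, Category.assoc]
      rw [K.d_pOpcycles_assoc, zero_comp, comp_zero]
    rw [SSet.ιChainComplex_d, Fin.sum_univ_three, hδ, hδ, hδ] at z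
    have z' := congrArg val z
    simp only [Preadditive.add_comp, Preadditive.zsmul_comp, map_add, map_zsmul, map_zero] at z'
    simpa [c, sub_eq_add_neg] using z'
  have cl : ∀ γ : Path x₀ x₀, (K.liftCycles _ 0 (by simp) (cyc γ) ≫ K.homologyπ 1) ≫ l = 0 →
      c (sim γ) = 0 := fun γ hγ => by
    have : Y.ιChainComplex (e 1 (sim γ)) ≫ m = 0 := by
      rw [← K.liftCycles_i _ 0 (by simp) (cyc γ), Category.assoc, hm, ← Category.assoc, hγ]
    simp only [c, this, map_zero]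
  obtain ⟨f, hf⟩ := hab c hc (cl a hA) (cl b hB)
  let g : K.X 0 ⟶ R := Cofan.IsColimit.desc (Y.isColimitChainComplexXCofan R 0) fun y =>
    f (TopCat.toSSetObj₀Equiv y) • 𝟙 R
  have hg : ∀ x : X, val (Y.ιChainComplex (e 0 (ContinuousMap.const _ x)) ≫ g) = f x := fun x => by
    have := Cofan.IsColimit.fac (Y.isColimitChainComplexXCofan R 0) (fun y =>
      f (TopCat.toSSetObj₀Equiv y) • 𝟙 R) (e 0 (ContinuousMap.const _ x))
    refine (congrArg val this).trans ?_
    exact mul_one (f x)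
  have hmg : m = K.d 1 0 ≫ g := by
    refine SSet.chainComplex_hom_ext fun y => vinj _ _ ?_
    obtain ⟨ω, rfl⟩ := ((TopCat.of X).toSSetObjEquiv (Opposite.op ⦋1⦌)).symm.surjective y
    refine (hf ω).trans ?_
    rw [← hg, ← hg, ← map_sub, ← Preadditive.sub_comp, ← d1, Category.assoc]
  rw [← cancel_epi (K.homologyπ 1), ← hm, hmg, K.iCycles_d_assoc, zero_comp, comp_zero]

end Pool.Agent.Lib.Unif
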