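import Pool.Agent.Lib.Unif.Defs

set_option autoImplicit false
set_option linter.unusedSectionVars false

open Set Filter Topology Metric
open scoped ComplexConjugate Manifold ContDiff

namespace Pool.Agent.Lib.Unif

variable {V : Type*} [NormedAddCommGroup V] [InnerProductSpace ℝ V] {B : ℂ →L[ℝ] V}

theorem normsq_iso1 (B : ℂ →L[ℝ] V) (v : ℂ) : ‖B v‖ ^ 2 =
    ‖B 1‖ ^ 2 * v.re ^ 2 + 2 * inner ℝ (B 1) (B Complex.I) * (v.re * v.im) +
      ‖B Complex.I‖ ^ 2 * v.im ^ 2 := by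
  have hv : v = v.re • (1 : ℂ) + v.im • Complex.I := by
    apply Complex.ext <;> simp
  have : B v = v.re • B 1 + v.im • B Complex.I := by
    conv_lhs => rw [hv]
    rw [map_add, map_smul, map_smul]
  rw [this, norm_add_sq_real, norm_smul, norm_smul, real_inner_smul_left, real_inner_smul_right,
    mul_pow, mul_pow, Real.norm_eq_abs, Real.norm_eq_abs, sq_abs, sq_abs]
  ring

theorem pos_iso1 (hB : Function.Injective B) : 0 < ‖B 1‖ ^ 2 ∧
    0 < ‖B 1‖ ^ 2 * ‖B Complex.I‖ ^ 2 - inner ℝ (B 1) (B Complex.I) ^ 2 := by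
  have hne : ∀ v : ℂ, v ≠ 0 → 0 < ‖B v‖ ^ 2 := by
    intro v hv
    have : B v ≠ 0 := fun h => hv (hB (by rw [h, map_zero]))
    exact pow_pos (norm_pos_iff.mpr this) 2
  have hE := hne 1 one_ne_zero
  refine ⟨hE, ?_⟩
  have hv : (⟨-inner ℝ (B 1) (B Complex.I), ‖B 1‖ ^ 2⟩ : ℂ) ≠ 0 := by
    intro h
    have := congrArg Complex.im h
    simp only [Complex.zero_im] at this
    exact hE.ne' this
  have h := hne _ hv
  rw [normsq_iso1] at h
  simp only at h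
  have h2 : 0 < ‖B 1‖ ^ 2 *
      (‖B 1‖ ^ 2 * ‖B Complex.I‖ ^ 2 - inner ℝ (B 1) (B Complex.I) ^ 2) := by
    nlinarith [h]
  exact (mul_pos_iff_of_pos_left hE).mp h2

theorem alg_iso1 {E G F w : ℝ} (hE : 0 < E) (hG : 0 ≤ G) (hw : 0 < w) (hw2 : w ^ 2 = E * G - F ^ 2) :
    ((E - G) / (E + G + 2 * w)) ^ 2 + (2 * F / (E + G + 2 * w)) ^ 2 =
      (E + G - 2 * w) / (E + G + 2 * w) := by
  have hD : E + G + 2 * w ≠ 0 := by positivity
  field_simp
  linear_combination (4 : ℝ) * hw2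

theorem bel_spec (hB : Function.Injective B) :
    ‖bel B‖ < 1 ∧ ∃ l : ℝ, 0 < l ∧ ∀ v, ‖B v‖ = l * ‖v + bel B * conj v‖ := by
  obtain ⟨hE, hq⟩ := pos_iso1 hB
  have hN := normsq_iso1 B
  have hG : 0 ≤ ‖B Complex.I‖ ^ 2 := sq_nonneg _
  unfold bel
  set E := ‖B 1‖ ^ 2 with hEd
  set G := ‖B Complex.I‖ ^ 2 with hGd
  set F : ℝ := inner ℝ (B 1) (B Complex.I) with hFd
  set w := √(E * G - F ^ 2) with hwd
  have hw : 0 < w := Real.sqrt_pos.mpr hq
  have hw2 : w ^ 2 = E * G - F ^ 2 := Real.sq_sqrt hq.le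
  have hD : 0 < E + G + 2 * w := by positivity
  set μ : ℂ := (((E - G : ℝ) : ℂ) + 2 * Complex.I * ((F : ℝ) : ℂ)) / ((E + G + 2 * w : ℝ) : ℂ)
    with hμ
  have hre : μ.re = (E - G) / (E + G + 2 * w) := by
    rw [hμ, Complex.div_ofReal_re]
    simp
  have him : μ.im = 2 * F / (E + G + 2 * w) := by
    rw [hμ, Complex.div_ofReal_im]
    simp
  have hs := alg_iso1 hE hG hw hw2
  rw [← hre, ← him] at hs
  refine ⟨?_, √(E + G + 2 * w) / 2, by positivity, fun v => ?_⟩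
  · have h1 : ‖μ‖ ^ 2 < 1 := by
      rw [← Complex.normSq_eq_norm_sq, Complex.normSq_apply, ← sq, ← sq, hs, div_lt_one hD]
      linarith
    exact (sq_lt_one_iff₀ (norm_nonneg _)).mp h1
  · refine (sq_eq_sq₀ (norm_nonneg _) (by positivity)).mp ?_
    rw [hN v, mul_pow, div_pow, Real.sq_sqrt hD.le, ← Complex.normSq_eq_norm_sq,
      Complex.normSq_apply]
    simp only [Complex.add_re, Complex.add_im, Complex.mul_re, Complex.mul_im, Complex.conj_re,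
      Complex.conj_im]
    have h1 : (E + G + 2 * w) * μ.re = E - G := by rw [hre]; field_simp
    have h2 : (E + G + 2 * w) * μ.im = 2 * F := by rw [him]; field_simp
    have h3 : (E + G + 2 * w) * (μ.re ^ 2 + μ.im ^ 2) = E + G - 2 * w := by rw [hs]; field_simp
    linear_combination (-(v.re ^ 2 - v.im ^ 2) / 2) * h1 - (v.re * v.im) * h2 -
      ((v.re ^ 2 + v.im ^ 2) / 4) * h3

theorem bel_eq_zero {l : ℝ} (h : ∀ v, ‖B v‖ = l * ‖v‖) : bel B = 0 := by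
  have h1 : ‖B 1‖ = l := by simpa using h 1
  have h2 : ‖B Complex.I‖ = l := by simpa using h Complex.I
  have h3 := normsq_iso1 B (1 + Complex.I)
  have h4 : ‖(1 + Complex.I : ℂ)‖ ^ 2 = 2 := by
    rw [← Complex.normSq_eq_norm_sq, Complex.normSq_apply]
    simp
    norm_num
  rw [h (1 + Complex.I), mul_pow, h4, h1, h2] at h3
  have h5 : inner ℝ (B 1) (B Complex.I) = (0 : ℝ) := by
    simp at h3
    linarith
  unfold bel
  rw [h1, h2, h5]
  simp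

theorem contDiffAt_bel (hB : Function.Injective B) : ContDiffAt ℝ 3 (bel (V := V)) B := by
  obtain ⟨hE, hq⟩ := pos_iso1 hB
  have c1 : ContDiffAt ℝ 3 (fun A : ℂ →L[ℝ] V => A 1) B :=
    (ContinuousLinearMap.apply ℝ V (1 : ℂ)).contDiff.contDiffAt
  have c2 : ContDiffAt ℝ 3 (fun A : ℂ →L[ℝ] V => A Complex.I) B :=
    (ContinuousLinearMap.apply ℝ V Complex.I).contDiff.contDiffAt
  have e1 : ContDiffAt ℝ 3 (fun A : ℂ →L[ℝ] V => ‖A 1‖ ^ 2) B := c1.norm_sq ℝ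
  have e2 : ContDiffAt ℝ 3 (fun A : ℂ →L[ℝ] V => ‖A Complex.I‖ ^ 2) B := c2.norm_sq ℝ
  have e3 : ContDiffAt ℝ 3 (fun A : ℂ →L[ℝ] V => (inner ℝ (A 1) (A Complex.I) : ℝ)) B :=
    c1.inner ℝ c2
  have e4 : ContDiffAt ℝ 3 (fun A : ℂ →L[ℝ] V =>
      √(‖A 1‖ ^ 2 * ‖A Complex.I‖ ^ 2 - inner ℝ (A 1) (A Complex.I) ^ 2)) B :=
    ((e1.mul e2).sub (e3.pow 2)).sqrt hq.ne'
  have hc : ∀ {f : (ℂ →L[ℝ] V) → ℝ}, ContDiffAt ℝ 3 f B →
      ContDiffAt ℝ 3 (fun A => ((f A : ℝ) : ℂ)) B := fun hf =>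
    Complex.ofRealCLM.contDiff.contDiffAt.comp B hf
  have hD : 0 < ‖B 1‖ ^ 2 + ‖B Complex.I‖ ^ 2 +
      2 * √(‖B 1‖ ^ 2 * ‖B Complex.I‖ ^ 2 - inner ℝ (B 1) (B Complex.I) ^ 2) := by positivity
  have e5 := ((e1.add e2).add (contDiffAt_const (c := (2 : ℝ)).mul e4)).inv hD.ne'
  have e6 := ((hc (e1.sub e2)).add
    ((contDiffAt_const (c := 2 * Complex.I)).mul (hc e3))).mul (hc e5)
  refine e6.congr_of_eventuallyEq (Eventually.of_forall fun A => ?_)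
  simp only [bel, div_eq_mul_inv, Pi.inv_apply, Complex.ofReal_inv]

end Pool.Agent.Lib.Unif
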