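import Pool.Agent.Lib.Unif.Belt
import Pool.Agent.Lib.Unif.Iso1

set_option autoImplicit false
set_option linter.unusedSectionVars false

open Set Filter Topology Metric
open scoped ComplexConjugate Manifold ContDiff

namespace Pool.Agent.Lib.Unif

theorem exists_equiv_iso2 {m : ℂ} (hm : ‖m‖ < 1) :
    ∃ L : ℂ ≃L[ℝ] ℂ, ∀ v, L v = v + m * conj v := by
  let M : ℂ →L[ℝ] ℂ := ContinuousLinearMap.id ℝ ℂ + m • (Complex.conjCLE : ℂ →L[ℝ] ℂ)
  have hM : ∀ v, M v = v + m * conj v := fun v => by simp [M]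
  have hinj : Function.Injective (M : ℂ →ₗ[ℝ] ℂ) := by
    rw [injective_iff_map_eq_zero]
    intro v hv
    have h1 : v + m * conj v = 0 := (hM v).symm.trans hv
    have h2 : v = -(m * conj v) := eq_neg_of_add_eq_zero_left h1
    have h3 : ‖v‖ = ‖m‖ * ‖v‖ := by
      conv_lhs => rw [h2]
      rw [norm_neg, norm_mul, Complex.norm_conj]
    have h4 : ‖v‖ = 0 := by nlinarith [norm_nonneg v]
    exact norm_eq_zero.1 h4
  exact ⟨(LinearEquiv.ofInjectiveEndo _ hinj).toContinuousLinearEquiv, hM⟩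

theorem exists_isothermal {V : Type*} [NormedAddCommGroup V] [InnerProductSpace ℝ V] {a : ℂ → V}
    {z₀ : ℂ} (ha : ContDiffAt ℝ 4 a z₀) (hi : Function.Injective (fderiv ℝ a z₀)) :
    ∃ h : ℂ → ℂ, ContDiff ℝ 1 h ∧
      ∀ᶠ z in 𝓝 z₀, ∃ l : ℝ, 0 < l ∧ ∀ v, ‖fderiv ℝ a z v‖ = l * ‖fderiv ℝ h z v‖ := by
  obtain ⟨hm, l₀, -, hl₀⟩ := bel_spec hi
  obtain ⟨L, hL⟩ := exists_equiv_iso2 hm
  have hD : ContDiffAt ℝ 3 (fderiv ℝ a) z₀ := ha.fderiv_right (m := 3) (by norm_num)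
  let A : ℂ → ℂ →L[ℝ] V := fun w => (fderiv ℝ a (z₀ + L.symm w)).comp (L.symm : ℂ →L[ℝ] ℂ)
  have hA0 : A 0 = (fderiv ℝ a z₀).comp (L.symm : ℂ →L[ℝ] ℂ) := by simp [A]
  have hA : ContDiffAt ℝ 3 A 0 := by
    refine ContDiffAt.clm_comp ?_ contDiffAt_const
    have h1 : ContDiffAt ℝ 3 (fun w : ℂ => z₀ + L.symm w) 0 :=
      contDiffAt_const.add L.symm.contDiff.contDiffAt
    have h2 : ContDiffAt ℝ 3 (fderiv ℝ a) (z₀ + L.symm 0) := by simpa using hD
    exact h2.comp 0 h1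
  have hA0i : Function.Injective (A 0) := by
    rw [hA0]
    exact hi.comp L.symm.injective
  have hμ : ContDiffAt ℝ 3 (fun w => bel (A w)) 0 := (contDiffAt_bel hA0i).comp 0 hA
  have hμ0 : bel (A 0) = 0 := by
    refine bel_eq_zero (l := l₀) fun v => ?_
    rw [hA0]
    have h1 := hl₀ (L.symm v)
    rw [← hL, L.apply_symm_apply] at h1
    exact h1
  obtain ⟨h, p, hh, hp⟩ := exists_beltrami hμ hμ0
  have hT : ContDiff ℝ 1 fun z : ℂ => L (z - z₀) := L.contDiff.comp (contDiff_id.sub contDiff_const)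
  refine ⟨fun z => h (L (z - z₀)), hh.comp hT, ?_⟩
  have ht : Tendsto (fun z : ℂ => L (z - z₀)) (𝓝 z₀) (𝓝 0) := by
    have h1 := hT.continuous.tendsto z₀
    simpa using h1
  have hio : ∀ᶠ z in 𝓝 z₀, Function.Injective (fderiv ℝ a z) :=
    hD.continuousAt.eventually (ContinuousLinearMap.isOpen_injective.mem_nhds hi)
  filter_upwards [ht.eventually hp, hio] with z hz hzi
  have hAz : A (L (z - z₀)) = (fderiv ℝ a z).comp (L.symm : ℂ →L[ℝ] ℂ) := by simp [A]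
  have hAzi : Function.Injective (A (L (z - z₀))) := by
    rw [hAz]
    exact hzi.comp L.symm.injective
  obtain ⟨-, l, hl, hlv⟩ := bel_spec hAzi
  have hp0 : 0 < ‖p (L (z - z₀))‖ := norm_pos_iff.2 hz.1
  refine ⟨l / ‖p (L (z - z₀))‖, div_pos hl hp0, fun v => ?_⟩
  have hd1 : HasFDerivAt (fun z : ℂ => L (z - z₀)) (L : ℂ →L[ℝ] ℂ) z := by
    have h1 := L.hasFDerivAt.comp z ((hasFDerivAt_id (𝕜 := ℝ) z).sub_const z₀)
    rw [ContinuousLinearMap.comp_id] at h1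
    exact h1
  have hd2 : HasFDerivAt (fun z : ℂ => h (L (z - z₀)))
      ((fderiv ℝ h (L (z - z₀))).comp (L : ℂ →L[ℝ] ℂ)) z :=
    ((hh.differentiable one_ne_zero) _).hasFDerivAt.comp z hd1
  have h2 := hlv (L v)
  have h3 : A (L (z - z₀)) (L v) = fderiv ℝ a z v := by rw [hAz]; simp
  rw [h3] at h2
  rw [hd2.fderiv, ContinuousLinearMap.comp_apply, hz.2, norm_mul, h2]
  simp only [ContinuousLinearEquiv.coe_coe]
  field_simp

end Pool.Agent.Lib.Unif
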