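import Pool.Agent.Lib.Unif.Harm1

set_option autoImplicit false
set_option linter.unusedSectionVars false

open Set Filter Topology Metric
open scoped ComplexConjugate Manifold ContDiff

namespace Pool.Agent.Lib.Unif

variable {W : Type*} [TopologicalSpace W] [ChartedSpace ℂ W] [RS W]
  {p q x p₀ p₁ p₂ : W} {f f' e φ : W → ℂ} {u v w s g g' : W → ℝ} {r t R T M C : ℝ} {Ω U K D : Set W}

theorem Harm.subh (h : Harm u p) : Subh u p := by
  refine ⟨h.continuousAt, fun k hk hm => ?_⟩
  obtain ⟨F, hF, h1⟩ := h.sub hk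
  have h0 : u p - k p = (F p).re := h1.self_of_nhds
  have h2 := (hF.comp (F := Complex.exp) analyticAt_cexp).eq_of_max (by
    filter_upwards [h1, hm] with y hy hy'
    rw [Complex.norm_exp, Complex.norm_exp, ← hy, ← h0]
    exact Real.exp_le_exp.2 hy')
  filter_upwards [h1, h2] with y hy hy'
  have h3 := congrArg norm hy'
  rw [Complex.norm_exp, Complex.norm_exp] at h3
  rw [hy, h0]
  exact Real.exp_injective h3

theorem Subh.congr (h : Subh v p) (he : v =ᶠ[𝓝 p] w) : Subh w p := by
  have h0 : v p = w p := he.self_of_nhds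
  refine ⟨h.1.congr he, fun k hk hm => ?_⟩
  have := h.2 k hk (by
    filter_upwards [he, hm] with y hy hy'
    rw [hy, h0]
    exact hy')
  filter_upwards [he, this] with y hy hy'
  rw [← hy, ← h0]
  exact hy'

theorem Subh.add_harm (h : Subh v p) (hu : Harm u p) : Subh (fun x => v x + u x) p := by
  refine ⟨h.1.add hu.continuousAt, fun k hk hm => ?_⟩
  have := h.2 _ (hk.sub hu) (by
    filter_upwards [hm] with y hy
    linarith)
  filter_upwards [this] with y hy
  linarith

theorem Subh.sub_harm (h : Subh v p) (hu : Harm u p) : Subh (fun x => v x - u x) p := by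
  simpa only [sub_eq_add_neg] using h.add_harm hu.neg

theorem Subh.const_mul (h : Subh v p) {c : ℝ} (hc : 0 ≤ c) : Subh (fun x => c * v x) p := by
  rcases hc.eq_or_lt with rfl | hc
  · simpa only [zero_mul] using (harm_const 0).subh
  refine ⟨continuousAt_const.mul h.1, fun k hk hm => ?_⟩
  have e : ∀ y, c * v y - k y = c * (v y - c⁻¹ * k y) := fun y => by
    field_simp
  have := h.2 _ (hk.const_mul c⁻¹) (by
    filter_upwards [hm] with y hy
    rw [e, e] at hy
    exact le_of_mul_le_mul_left hy hc)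
  filter_upwards [this] with y hy
  rw [e, e, hy]

theorem Subh.of_le (h : Subh v p) (hc : ContinuousAt w p) (hle : ∀ᶠ x in 𝓝 p, v x ≤ w x)
    (he : w p = v p) : Subh w p := by
  refine ⟨hc, fun k hk hm => ?_⟩
  have := h.2 k hk (by
    filter_upwards [hm, hle] with y hy hy'
    linarith)
  filter_upwards [this, hm, hle] with y h1 h2 h3
  linarith

theorem Subh.max (h : Subh v p) (h' : Subh w p) : Subh (fun x => max (v x) (w x)) p := by
  rcases le_total (v p) (w p) with hl | hl
  · exact h'.of_le (h.1.max h'.1) (Eventually.of_forall fun _ => le_max_right _ _) (max_eq_right hl)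
  · exact h.of_le (h.1.max h'.1) (Eventually.of_forall fun _ => le_max_left _ _) (max_eq_left hl)

theorem subh_eq_of_max (hΩ : IsOpen Ω) (hc : IsPreconnected Ω) (h : ∀ x ∈ Ω, Subh v x)
    (hq : q ∈ Ω) (hm : ∀ x ∈ Ω, v x ≤ v q) : ∀ x ∈ Ω, v x = v q := by
  have h1 : IsOpen {x | x ∈ Ω ∧ v x = v q} := isOpen_iff_mem_nhds.2 fun x hx => by
    have := (h x hx.1).2 _ (harm_const 0) (by
      filter_upwards [hΩ.mem_nhds hx.1] with y hy
      rw [sub_zero, sub_zero, hx.2]
      exact hm y hy)
    filter_upwards [hΩ.mem_nhds hx.1, this] with y hy hy'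
    rw [sub_zero, sub_zero, hx.2] at hy'
    exact ⟨hy, hy'⟩
  have h2 : IsOpen {x | x ∈ Ω ∧ v x ≠ v q} := isOpen_iff_mem_nhds.2 fun x hx =>
    (Filter.Eventually.and (hΩ.mem_nhds hx.1) ((h x hx.1).1.eventually_ne hx.2) :)
  have h3 := hc.subset_left_of_subset_union h1 h2
    (Set.disjoint_left.2 fun x hx hx' => hx'.2 hx.2)
    (fun x hx => (em (v x = v q)).imp (fun h => ⟨hx, h⟩) fun h => ⟨hx, h⟩) ⟨q, hq, hq, rfl⟩
  exact fun x hx => (h3 hx).2

end Pool.Agent.Lib.Unif
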