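import Pool.Agent.Lib.Unif.BI2
import Pool.Agent.Lib.Unif.Subh1

set_option autoImplicit false
set_option linter.unusedSectionVars false

open Set Filter Topology Metric
open scoped ComplexConjugate Manifold ContDiff

namespace Pool.Agent.Lib.Unif

variable {W : Type*} [TopologicalSpace W] [ChartedSpace ℂ W] [RS W]
  {p q x p₀ p₁ p₂ : W} {f f' e φ : W → ℂ} {u v w s g g' : W → ℝ} {r t R T M C : ℝ} {Ω U K D : Set W}
variable {W' : Type*} [TopologicalSpace W'] [ChartedSpace ℂ W'] [RS W'] {π : W' → W} {a b : W'}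

theorem linv_li (h : IsLocalHomeomorph π) (a : W') :
    ∃ σ : W → W', ∀ᶠ y in 𝓝 a, σ (π y) = y := by
  obtain ⟨η, ha, rfl⟩ := h a
  exact ⟨η.symm, η.eventually_left_inverse ha⟩

theorem ev_li (h : IsLocalHomeomorph π) (a : W') {P : W → Prop} :
    (∀ᶠ x in 𝓝 (π a), P x) ↔ ∀ᶠ y in 𝓝 a, P (π y) := by
  rw [← h.map_nhds_eq a, eventually_map]

theorem hol_congr_li (he : f =ᶠ[𝓝 p] f') : Hol f p ↔ Hol f' p :=
  ⟨fun h => h.congr he, fun h => h.congr he.symm⟩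

theorem LocIso.harm_iff (h : LocIso π) : Harm (u ∘ π) a ↔ Harm u (π a) := by
  constructor
  · rintro ⟨f, hf, he⟩
    obtain ⟨σ, hσ⟩ := linv_li h.loc a
    refine ⟨f ∘ σ, (h.hol a _).1 (hf.congr (hσ.mono fun y hy => ?_)), (ev_li h.loc a).2 ?_⟩
    · simp [hy]
    · filter_upwards [he, hσ] with y h1 h2
      simpa [h2] using h1
  · rintro ⟨f, hf, he⟩
    exact ⟨f ∘ π, (h.hol a f).2 hf, (ev_li h.loc a).1 he⟩

theorem LocIso.map_punct (h : LocIso π) (a : W') : map π (𝓝[≠] a) = 𝓝[≠] (π a) := by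
  obtain ⟨σ, hσ⟩ := linv_li h.loc a
  have e1 : 𝓝[≠] a = 𝓝[π ⁻¹' {π a}ᶜ] a := by
    rw [nhdsWithin_eq_iff_eventuallyEq]
    filter_upwards [hσ] with y hy
    apply propext
    change y ≠ a ↔ π y ≠ π a
    refine not_congr ⟨fun e => by rw [e], fun e => ?_⟩
    rw [← hy, e, hσ.self_of_nhds]
  rw [e1, nhdsWithin, ← comap_principal, Filter.push_pull, h.loc.map_nhds_eq a, nhdsWithin]

theorem LocIso.exists_lg (h : LocIso π) (a : W') :
    ∃ k : W' → ℝ, Harm k a ∧ ∀ᶠ y in 𝓝[≠] a, lg (π a) (π y) = lg a y + k y := by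
  obtain ⟨σ, hσ⟩ := linv_li h.loc a
  have h1 : Hol (lc (π a) ∘ π) a := (h.hol a _).2 (hol_lc (mem_chart_source ℂ (π a)))
  have h2 : LocInj (lc (π a) ∘ π) a := by
    obtain ⟨U, hU, hi⟩ := locInj_lc (π a)
    refine ⟨_, hσ.and ((ev_li h.loc a).1 hU), fun y hy z hz e => ?_⟩
    rw [← hy.1, hi hy.2 hz.2 e, hz.1]
  obtain ⟨e, he, he0, hf⟩ := h1.simple_factor (lc_self (π a)) h2
  refine ⟨fun y => Real.log ‖e y‖, he.harm_log he0, ?_⟩
  filter_upwards [nhdsWithin_le_nhds hf, nhdsWithin_le_nhds (he.continuousAt.eventually_ne he0),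
    eventually_lc_ne_zero a] with y a1 a2 a3
  have a4 : lc (π a) (π y) = e y * lc a y := a1
  rw [lg, lg, a4, norm_mul, Real.log_mul (norm_ne_zero_iff.2 a2) (norm_ne_zero_iff.2 a3),
    add_comm]

theorem LocIso.pole_iff (h : LocIso π) : Pole (s ∘ π) a ↔ Pole s (π a) := by
  obtain ⟨k, hk, hl⟩ := h.exists_lg a
  constructor
  · rintro ⟨H, hH, he⟩
    obtain ⟨σ, hσ⟩ := linv_li h.loc a
    refine ⟨(fun y => H y + k y) ∘ σ,
      h.harm_iff.1 ((hH.add hk).congr (hσ.mono fun y hy => ?_)), ?_⟩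
    · simp [hy]
    · rw [← h.map_punct a, eventually_map]
      filter_upwards [he, hl, nhdsWithin_le_nhds hσ] with y a1 a2 a3
      have a4 : s (π y) = H y - lg a y := a1
      have a5 : σ (π y) = y := a3
      rw [a4, a2, Function.comp_apply, a5]
      ring
  · rintro ⟨H, hH, he⟩
    rw [← h.map_punct a, eventually_map] at he
    refine ⟨fun y => (H ∘ π) y - k y, (h.harm_iff.2 hH).sub hk, ?_⟩
    filter_upwards [he, hl] with y a1 a2
    rw [Function.comp_apply, Function.comp_apply, a1, a2]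
    ring

theorem LocIso.subh_iff (h : LocIso π) : Subh (v ∘ π) a ↔ Subh v (π a) := by
  have hc : ContinuousAt (v ∘ π) a ↔ ContinuousAt v (π a) := by
    rw [ContinuousAt, ContinuousAt, ← h.loc.map_nhds_eq a, tendsto_map'_iff]
    rfl
  constructor
  · rintro ⟨h1, h2⟩
    refine ⟨hc.1 h1, fun u hu hm => (ev_li h.loc a).2 ?_⟩
    exact h2 (u ∘ π) (h.harm_iff.2 hu) ((ev_li h.loc a).1 hm)
  · rintro ⟨h1, h2⟩
    refine ⟨hc.2 h1, fun u hu hm => ?_⟩
    obtain ⟨σ, hσ⟩ := linv_li h.loc a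
    have h0 : σ (π a) = a := hσ.self_of_nhds
    have h3 := h2 (u ∘ σ) (h.harm_iff.1 (hu.congr (hσ.mono fun y hy => by simp [hy])))
      ((ev_li h.loc a).2 (by
        filter_upwards [hm, hσ] with y a1 a2
        simpa [a2, h0] using a1))
    filter_upwards [(ev_li h.loc a).1 h3, hσ] with y a1 a2
    simpa [a2, h0] using a1

theorem LocIso.deck (h : LocIso π) (τ : W' ≃ₜ W') (hτ : ∀ y, π (τ y) = π y) : LocIso τ := by
  refine ⟨τ.isLocalHomeomorph, fun y f => ?_⟩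
  obtain ⟨σ, hσ⟩ := linv_li h.loc (τ y)
  have e1 : (f ∘ σ) ∘ π =ᶠ[𝓝 (τ y)] f := hσ.mono fun z hz => by simp [hz]
  have e2 : (f ∘ σ) ∘ π =ᶠ[𝓝 y] f ∘ τ := by
    filter_upwards [τ.continuous.continuousAt.eventually hσ] with z hz
    rw [hτ] at hz
    simp [hz]
  rw [← hol_congr_li e1, ← hol_congr_li e2, h.hol, h.hol, hτ]

theorem LocIso.symm {τ : W' ≃ₜ W} (h : LocIso τ) : LocIso τ.symm := by
  refine ⟨τ.symm.isLocalHomeomorph, fun y f => ?_⟩
  have h1 := h.hol (τ.symm y) (f ∘ τ.symm)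
  have e1 : (f ∘ τ.symm) ∘ τ = f := by ext z; simp
  rw [e1, τ.apply_symm_apply] at h1
  exact h1.symm

theorem Fam.comp {τ : W' ≃ₜ W} (h : LocIso τ) (hv : Fam univ (τ b) v) : Fam univ b (v ∘ τ) := by
  refine ⟨fun x hx => h.subh_iff.2 (hv.subh _ fun e => hx (τ.injective e)), ?_, ?_⟩
  · obtain ⟨K, hK, -, h0⟩ := hv.supp
    exact ⟨τ ⁻¹' K, τ.isCompact_preimage.2 hK, subset_univ _, fun x hx => h0 _ hx⟩
  · obtain ⟨C, hC⟩ := hv.pole
    obtain ⟨k, hk, hl⟩ := h.exists_lg b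
    rw [← h.map_punct b, eventually_map] at hC
    have h1 : ∀ᶠ y in 𝓝 b, k b - 1 < k y :=
      hk.continuousAt.eventually (lt_mem_nhds (sub_one_lt (k b)))
    refine ⟨C - (k b - 1), ?_⟩
    filter_upwards [hC, hl, nhdsWithin_le_nhds h1] with y a1 a2 a3
    have a4 : k b - 1 < k y := a3
    rw [Function.comp_apply]
    linarith

theorem IsGreen.comp {τ : W' ≃ₜ W} (h : LocIso τ) (hg : IsGreen univ (τ b) g) :
    IsGreen univ b (g ∘ τ) := by
  have hne : ∀ x, x ≠ b → τ x ≠ τ b := fun x hx e => hx (τ.injective e)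
  refine ⟨fun x _ hx => h.harm_iff.2 (hg.harm _ (mem_univ _) (hne x hx)),
    fun x _ hx => hg.pos _ (mem_univ _) (hne x hx), h.pole_iff.2 hg.pole, fun x _ hx => ?_⟩
  have e1 : {t | ∃ v, Fam univ b v ∧ v x = t} = {t | ∃ v, Fam univ (τ b) v ∧ v (τ x) = t} := by
    ext t
    constructor
    · rintro ⟨v, hv, rfl⟩
      refine ⟨v ∘ τ.symm, Fam.comp h.symm ?_, by simp⟩
      rwa [τ.symm_apply_apply]
    · rintro ⟨v, hv, rfl⟩
      exact ⟨v ∘ τ, hv.comp h, rfl⟩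
  rw [e1]
  exact hg.lub _ (mem_univ _) (hne x hx)

end Pool.Agent.Lib.Unif
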