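import Pool.Agent.Lib.Unif.GE
import Pool.Agent.Lib.Unif.BI2
import Pool.Agent.Lib.Unif.HC

set_option autoImplicit false
set_option linter.unusedSectionVars false

open Set Filter Topology Metric
open scoped ComplexConjugate Manifold ContDiff

namespace Pool.Agent.Lib.Unif

variable {W : Type*} [TopologicalSpace W] [ChartedSpace ℂ W] [RS W] [T2Space W] [SimplyConnectedSpace W]
  {p q x p₀ p₁ p₂ : W} {f f' e φ : W → ℂ} {u v w s g g' : W → ℝ} {r t R T M C : ℝ} {Ω U K D : Set W}

theorem eq_of_bdd (hn : ∀ p : W, ¬ ∃ g, IsGreen univ p g) (hf : ∀ x, Hol f x)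
    (hb : ∀ x, ‖f x‖ ≤ C) (x y : W) : f x = f y := by
  by_contra hne
  have hC : 0 ≤ C := (norm_nonneg _).trans (hb x)
  have hpos : (0 : ℝ) < 2 * C + 1 := by linarith
  have hne0 : ((2 * C + 1 : ℝ) : ℂ) ≠ 0 := Complex.ofReal_ne_zero.mpr hpos.ne'
  have hxy : x ≠ y := fun h => hne (by rw [h])
  have h1 : ∀ z, Hol (fun z => (f z - f y) / ((2 * C + 1 : ℝ) : ℂ)) z ∧
      ‖(fun z => (f z - f y) / ((2 * C + 1 : ℝ) : ℂ)) z‖ ≤ 1 := by
    intro z
    refine ⟨((hf z).sub (hol_const _)).div (hol_const _) hne0, ?_⟩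
    beta_reduce
    rw [norm_div, Complex.norm_real, Real.norm_of_nonneg hpos.le, div_le_one hpos]
    linarith [norm_sub_le (f z) (f y), hb z, hb y]
  refine hn y (exists_green isOpen_univ isPreconnected_univ (mem_univ y) (mem_univ x) hxy
    ⟨-Real.log ‖(f x - f y) / ((2 * C + 1 : ℝ) : ℂ)‖, ?_⟩)
  rintro t ⟨v, hv, rfl⟩
  exact hv.le_log h1 (by simp) (div_ne_zero (sub_ne_zero.mpr hne) hne0)

theorem surjective_of_injective (hn : ∀ p : W, ¬ ∃ g, IsGreen univ p g) (hf : ∀ x, Hol f x)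
    (hi : Function.Injective f) : Function.Surjective f := by
  intro a
  by_contra ha
  have ha' : ∀ x, f x - a ≠ 0 := fun x h => ha ⟨x, sub_eq_zero.mp h⟩
  obtain ⟨k, hk⟩ := exists_hol_sqrt (f := fun x => f x - a)
    fun x => ⟨(hf x).sub (hol_const a), ha' x⟩
  have hsq : ∀ x y, k x ^ 2 = k y ^ 2 → x = y := by
    intro x y h
    rw [(hk x).2, (hk y).2, sub_left_inj] at h
    exact hi h
  have hki : Function.Injective k := fun x y h => hsq x y (by rw [h])
  have hneg : ∀ x y, k x ≠ -k y := by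
    intro x y h
    have hxy : x = y := hsq x y (by rw [h, neg_sq])
    rw [hxy] at h
    have h0 : k y = 0 := by linear_combination h / 2
    have h2 := (hk y).2
    rw [h0, zero_pow two_ne_zero] at h2
    exact ha' y h2.symm
  obtain ⟨p⟩ : Nonempty W := inferInstance
  have hop := (isOpenEmbedding_of_hol (fun x => (hk x).1) hki).isOpen_range
  obtain ⟨δ, hδ, hball⟩ := Metric.isOpen_iff.mp hop (k p) (mem_range_self p)
  have hlow : ∀ x, δ ≤ ‖k x + k p‖ := by
    intro x
    by_contra hlt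
    have h1 : -k x ∈ ball (k p) δ := by
      rw [mem_ball, dist_eq_norm, ← norm_neg]
      have h2 : -(-k x - k p) = k x + k p := by ring
      rw [h2]
      exact not_le.mp hlt
    obtain ⟨y, hy⟩ := hball h1
    exact hneg y x hy
  have hne : ∀ x, k x + k p ≠ 0 := fun x => norm_pos_iff.mp (hδ.trans_le (hlow x))
  obtain ⟨x, hx, -⟩ := exists_ne_ne p p
  have h3 := eq_of_bdd (f := fun x => (k x + k p)⁻¹) (C := δ⁻¹) hn
    (fun x => ((hk x).1.add (hol_const _)).inv (hne x))
    (fun x => by rw [norm_inv]; exact inv_anti₀ hδ (hlow x)) x p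
  beta_reduce at h3
  rw [inv_inj, add_left_inj] at h3
  exact hx (hki h3)

end Pool.Agent.Lib.Unif
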