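import Pool.Agent.Lib.Unif.GD

set_option autoImplicit false
set_option linter.unusedSectionVars false

open Set Filter Topology Metric
open scoped ComplexConjugate Manifold ContDiff

namespace Pool.Agent.Lib.Unif

/-- The group of deck transformations. -/
def deckGrp_pi {E X : Type*} [TopologicalSpace E] (π : E → X) : Subgroup (E ≃ₜ E) where
  carrier := {τ | ∀ x, π (τ x) = π x}
  mul_mem' := fun {a b} ha hb x => (ha (b x)).trans (hb x)
  one_mem' := fun _ => rfl
  inv_mem' := fun {a} ha x => by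
    have h := ha (a.symm x)
    rw [a.apply_symm_apply] at h
    exact h.symm

/-- The action of the deck group. -/
@[reducible] def deckAct_pi {E X : Type*} [TopologicalSpace E] (π : E → X) :
    MulAction (deckGrp_pi π) E where
  smul τ x := τ.1 x
  one_smul _ := rfl
  mul_smul _ _ _ := rfl

theorem isQuot_pi {E X : Type*} [TopologicalSpace E] [TopologicalSpace X] {π : E → X}
    (hc : IsCoveringMap π) (hs : Function.Surjective π) (hg : Galois π) :
    letI := deckAct_pi π
    IsQuotientCoveringMap π (deckGrp_pi π) := by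
  let _ := deckAct_pi π
  refine
    { toIsQuotientMap := hc.isQuotientMap hs
      continuous_const_smul := fun τ => τ.1.continuous
      apply_eq_iff_mem_orbit := ?_
      disjoint := ?_ }
  · intro a b
    constructor
    · intro hab
      obtain ⟨τ, h1, h2⟩ := hg.trans b a hab.symm
      exact ⟨⟨τ, h1⟩, h2⟩
    · rintro ⟨τ, rfl⟩
      exact τ.2 b
  · intro e
    obtain ⟨η, he, hη⟩ := hc.isLocalHomeomorph e
    refine ⟨η.source, η.open_source.mem_nhds he, ?_⟩
    rintro τ ⟨y, ⟨x, hx, rfl⟩, hy⟩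
    have h1 : τ.1 x = x := by
      refine η.injOn hy hx ?_
      rw [← hη]
      exact τ.2 x
    exact Subtype.ext (Homeomorph.ext (hg.free τ.1 τ.2 x h1))

variable {S : Type*} [TopologicalSpace S] [ChartedSpace (EuclideanSpace ℝ (Fin 2)) S]
  [IsManifold (𝓡 2) ∞ S]
  {W : Type*} [TopologicalSpace W] [ChartedSpace ℂ W] [RS W] [T2Space W] [SimplyConnectedSpace W]
  {π : W → S} {φ : W → ℂ} {p₁ p₂ w : W}

theorem CCov.exists_sign_pi (h : CCov π) :
    ∃ s : deckGrp_pi π →* ℤˣ, ∀ τ, s τ = 1 → HolMap τ.1 := by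
  classical
  have hne : ∀ τ : deckGrp_pi π, ¬ HolMap τ.1 ↔ AntiMap τ.1 := fun τ =>
    ⟨fun h1 => (h.deck τ.1 τ.2).resolve_left h1, fun h1 h2 => h2.not_anti τ.1 h1⟩
  refine ⟨MonoidHom.mk' (fun τ => if HolMap τ.1 then 1 else -1) ?_, ?_⟩
  · intro a b
    have e : ((a * b : deckGrp_pi π).1 : W → W) = a.1 ∘ b.1 := rfl
    rw [e]
    by_cases ha : HolMap a.1 <;> by_cases hb : HolMap b.1
    · simp only [if_pos ha, if_pos hb, if_pos (ha.comp hb), mul_one]
    · have : ¬ HolMap (a.1 ∘ b.1) := (hne (a * b)).2 (ha.comp_anti ((hne b).1 hb))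
      simp only [if_pos ha, if_neg hb, if_neg this, one_mul]
    · have : ¬ HolMap (a.1 ∘ b.1) := (hne (a * b)).2 (((hne a).1 ha).comp_hol hb)
      simp only [if_neg ha, if_pos hb, if_neg this, mul_one]
    · simp only [if_neg ha, if_neg hb, if_pos (((hne a).1 ha).comp ((hne b).1 hb)), neg_mul_neg,
        mul_one]
  · intro τ hτ
    by_contra hn
    simp only [MonoidHom.mk'_apply, if_neg hn] at hτ
    exact absurd hτ (by decide)

theorem CCov.virtAb (h : CCov π)
    (hc : ∀ τ τ' : W ≃ₜ W, (∀ x, π (τ x) = π x) → (∀ x, π (τ' x) = π x) → HolMap τ → HolMap τ' →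
      ∀ x, τ (τ' x) = τ' (τ x)) (x₀ : S) : VirtAb (FundamentalGroup S x₀) := by
  let _ := deckAct_pi π
  have hq := isQuot_pi h.cov h.surj h.gal
  obtain ⟨e, he⟩ := h.surj x₀
  obtain ⟨s, hs⟩ := h.exists_sign_pi
  let Φ := hq.fundamentalGroupEquiv (x := x₀) ⟨e, he⟩
  let s' : FundamentalGroup S x₀ →* ℤˣ :=
    MonoidHom.mk' (fun γ => s (Φ γ).unop) fun a b => by
      rw [map_mul, MulOpposite.unop_mul, map_mul, mul_comm]
  refine ⟨s'.ker, Subgroup.finiteIndex_ker s', fun a ha b hb => Φ.injective ?_⟩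
  rw [map_mul, map_mul]
  refine MulOpposite.unop_injective ?_
  rw [MulOpposite.unop_mul, MulOpposite.unop_mul]
  exact Subtype.ext (Homeomorph.ext fun x =>
    hc _ _ (Φ b).unop.2 (Φ a).unop.2 (hs _ hb) (hs _ ha) x)

end Pool.Agent.Lib.Unif
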