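import Pool.Agent.Lib.Unif.Hur1
import Pool.Agent.Lib.Unif.DPl
import Pool.Agent.Lib.Unif.PI

set_option autoImplicit false
set_option linter.unusedSectionVars false

open Set Filter Topology Metric
open scoped ComplexConjugate Manifold ContDiff

namespace Pool.Agent.Lib.Unif

theorem exists_span_lat (Λ : AddSubgroup ℂ) :
    ∃ a b : Λ, ∀ l : Λ, ∃ s t : ℝ, (l : ℂ) = s * a + t * b := by
  by_cases h0 : ∃ a : Λ, (a : ℂ) ≠ 0
  swap
  · push Not at h0
    exact ⟨0, 0, fun l => ⟨0, 0, by simp [h0 l]⟩⟩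
  obtain ⟨a, ha⟩ := h0
  by_cases h1 : ∃ b : Λ, ((b : ℂ) / a).im ≠ 0
  swap
  · push Not at h1
    refine ⟨a, a, fun l => ⟨((l : ℂ) / a).re, 0, ?_⟩⟩
    have : (((l : ℂ) / a).re : ℂ) = l / a := Complex.ext rfl (by simp [h1 l])
    rw [this]
    simp [ha]
  obtain ⟨b, hb⟩ := h1
  refine ⟨a, b, fun l => ⟨((l : ℂ) / a).re - ((l : ℂ) / a).im / ((b : ℂ) / a).im * ((b : ℂ) / a).re,
    ((l : ℂ) / a).im / ((b : ℂ) / a).im, ?_⟩⟩
  have : (l : ℂ) / a = ((((l : ℂ) / a).re - ((l : ℂ) / a).im / ((b : ℂ) / a).im * ((b : ℂ) / a).re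
      : ℝ) : ℂ) + ((((l : ℂ) / a).im / ((b : ℂ) / a).im : ℝ) : ℂ) * (b / a) := by
    generalize (l : ℂ) / a = u
    generalize (b : ℂ) / a = v at hb
    refine Complex.ext ?_ ?_
    · simp only [Complex.add_re, Complex.ofReal_re, Complex.mul_re, Complex.ofReal_im]
      ring
    · simp only [Complex.add_im, Complex.ofReal_re, Complex.mul_im, Complex.ofReal_im]
      field_simp
      ring
  generalize (((((l : ℂ) / a).re - ((l : ℂ) / a).im / ((b : ℂ) / a).im * ((b : ℂ) / a).re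
      : ℝ) : ℂ)) = s at this ⊢
  generalize (((((l : ℂ) / a).im / ((b : ℂ) / a).im : ℝ) : ℂ)) = t at this ⊢
  field_simp at this
  linear_combination this

theorem exists_gen_lat (Λ : AddSubgroup ℂ) (h : ∀ R, {l : Λ | ‖(l : ℂ)‖ ≤ R}.Finite) :
    ∃ a b : Λ, ∀ k : Λ →+ ℚ, k a = 0 → k b = 0 → ∀ l, k l = 0 := by
  obtain ⟨a, b, hab⟩ := exists_span_lat Λ
  refine ⟨a, b, fun k ha hb l => ?_⟩
  obtain ⟨s, t, hl⟩ := hab l
  let F : ℤ → Λ := fun n => n • l - ⌊n * s⌋ • a - ⌊n * t⌋ • b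
  have hF : ∀ n ∈ (univ : Set ℤ), F n ∈ {l : Λ | ‖(l : ℂ)‖ ≤ ‖(a : ℂ)‖ + ‖(b : ℂ)‖} := fun n _ => by
    have e : (F n : ℂ) = (Int.fract (n * s) : ℝ) * (a : ℂ) + (Int.fract (n * t) : ℝ) * (b : ℂ) := by
      simp only [F, Int.fract, AddSubgroup.coe_sub, AddSubgroup.coe_zsmul, hl, zsmul_eq_mul]
      push_cast
      ring
    have q : ∀ r : ℝ, ‖((Int.fract r : ℝ) : ℂ)‖ ≤ 1 := fun r => by
      rw [Complex.norm_real, Real.norm_of_nonneg (Int.fract_nonneg r)]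
      exact (Int.fract_lt_one r).le
    show ‖(F n : ℂ)‖ ≤ _
    rw [e]
    refine (norm_add_le _ _).trans (add_le_add ?_ ?_) <;> rw [norm_mul] <;>
      exact mul_le_of_le_one_left (norm_nonneg _) (q _)
  obtain ⟨n, -, m, -, hnm, e⟩ := infinite_univ.exists_ne_map_eq_of_mapsTo hF (h _)
  have := congrArg k e
  simp only [F, map_sub, map_zsmul, ha, hb, smul_zero, sub_zero, zsmul_eq_mul] at this
  have h2 : ((n : ℚ) - m) * k l = 0 := by linarith
  exact (mul_eq_zero.1 h2).resolve_left (sub_ne_zero.2 (by exact_mod_cast hnm))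

variable {S : Type*} [TopologicalSpace S] [ChartedSpace (EuclideanSpace ℝ (Fin 2)) S]
  [IsManifold (𝓡 2) ∞ S]
  {W : Type*} [TopologicalSpace W] [ChartedSpace ℂ W] [RS W] [T2Space W] [SimplyConnectedSpace W]
  {π : W → S} {φ : W → ℂ} {p₁ p₂ w : W}

theorem CCov.exists_deck_equiv' (h : CCov π) (x₀ : S) : ∃ Γ : Subgroup (W ≃ₜ W),
    (∀ τ, τ ∈ Γ ↔ ∀ x, π (τ x) = π x) ∧ Nonempty (FundamentalGroup S x₀ ≃* Γᵐᵒᵖ) := by
  let _ := deckAct_pi π
  obtain ⟨e, he⟩ := h.surj x₀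
  exact ⟨deckGrp_pi π, fun _ => Iff.rfl,
    ⟨(isQuot_pi h.cov h.surj h.gal).fundamentalGroupEquiv (x := x₀) ⟨e, he⟩⟩⟩

theorem CCov.gen2_of (h : CCov π) {α β : W ≃ₜ W} (hα : ∀ x, π (α x) = π x)
    (hβ : ∀ x, π (β x) = π x) (hk : ∀ k : (W ≃ₜ W) → ℚ, (∀ τ τ' : W ≃ₜ W, (∀ x, π (τ x) = π x) →
      (∀ x, π (τ' x) = π x) → k (τ * τ') = k τ + k τ') → k α = 0 → k β = 0 →
        ∀ τ : W ≃ₜ W, (∀ x, π (τ x) = π x) → HolMap τ → k τ = 0) (x₀ : S) :
    Gen2 (FundamentalGroup S x₀) := by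
  classical
  obtain ⟨Γ, hΓ, ⟨e⟩⟩ := h.exists_deck_equiv' x₀
  refine ⟨e.symm (.op ⟨α, (hΓ _).2 hα⟩), e.symm (.op ⟨β, (hΓ _).2 hβ⟩), fun k hadd ha hb g => ?_⟩
  let k' : (W ≃ₜ W) → ℚ := fun τ => if hτ : τ ∈ Γ then k (e.symm (.op ⟨τ, hτ⟩)) else 0
  have q : ∀ τ : Γ, k' τ = k (e.symm (.op τ)) := fun τ => dif_pos τ.2
  have add : ∀ τ τ' : W ≃ₜ W, (∀ x, π (τ x) = π x) → (∀ x, π (τ' x) = π x) →
      k' (τ * τ') = k' τ + k' τ' := fun τ τ' t t' => by
    have := q (⟨τ, (hΓ _).2 t⟩ * ⟨τ', (hΓ _).2 t'⟩)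
    rw [MulOpposite.op_mul, map_mul, hadd, ← q, ← q, add_comm] at this
    exact this
  let τ : Γ := (e g).unop
  have t := (hΓ _).1 τ.2
  have hol : HolMap ((τ : W ≃ₜ W) * τ : W ≃ₜ W) := by
    rcases h.deck _ t with c | c
    · exact c.comp c
    · exact c.comp c
  have z := hk k' add ((q ⟨α, (hΓ _).2 hα⟩).trans ha) ((q ⟨β, (hΓ _).2 hβ⟩).trans hb) _
    ((hΓ _).1 (τ * τ).2) hol
  have z' := add _ _ t t
  have g' : k' τ = k g := (q τ).trans (congrArg k (e.symm_apply_apply g))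
  have : k' ((τ : W ≃ₜ W) * τ) = 0 := z
  linarith

theorem CCov.gen2_plane (h : CCov π) (hφ : ∀ x, Hol φ x) (hb : Function.Bijective φ) (x₀ : S) :
    Gen2 (FundamentalGroup S x₀) := by
  let Λ : AddSubgroup ℂ :=
    { carrier := {b | ∃ τ : W ≃ₜ W, (∀ x, π (τ x) = π x) ∧ ∀ x, φ (τ x) = φ x + b}
      zero_mem' := ⟨.refl _, fun _ => rfl, fun _ => (add_zero _).symm⟩
      add_mem' := by
        rintro a b ⟨τ, t, e⟩ ⟨τ', t', e'⟩
        refine ⟨τ * τ', fun x => (t _).trans (t' x), fun x => (e _).trans ?_⟩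
        show φ (τ' x) + a = _
        rw [e']
        ring
      neg_mem' := by
        rintro a ⟨τ, t, e⟩
        refine ⟨τ.symm, fun x => (t _).symm.trans (congrArg π (τ.apply_symm_apply x)), fun x => ?_⟩
        have := e (τ.symm x)
        rw [τ.apply_symm_apply] at this
        rw [this]
        ring }
  choose T hT hT' using fun l : Λ => l.2
  obtain ⟨y⟩ : Nonempty W := inferInstance
  have oe := isOpenEmbedding_of_hol hφ hb.1
  have fin : ∀ R, {l : Λ | ‖(l : ℂ)‖ ≤ R}.Finite := fun R => by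
    have c1 : IsCompact (φ ⁻¹' closedBall (φ y) R) :=
      (oe.toHomeomorphOfSurjective hb.2).isCompact_preimage.2 (isCompact_closedBall _ _)
    have dt := (h.cov (π y)).discreteTopology_fiber
    have cl : IsClosed (π ⁻¹' {π y}) := by
      have := ChartedSpace.t1Space (EuclideanSpace ℝ (Fin 2)) S
      exact isClosed_singleton.preimage h.cov.continuous
    have c2 := (c1.inter_right cl).finite
      ((isDiscrete_iff_discreteTopology.2 dt).mono inter_subset_right)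
    refine Finite.of_finite_image (f := fun l => T l y) (c2.subset ?_) fun l _ l' _ e => ?_
    · rintro _ ⟨l, hl, rfl⟩
      refine ⟨?_, hT l y⟩
      show dist (φ (T l y)) (φ y) ≤ R
      rw [hT', dist_self_add_left]
      exact hl
    · have := congrArg φ e
      rw [hT', hT'] at this
      exact Subtype.ext (add_left_cancel this)
  obtain ⟨a, b, hab⟩ := exists_gen_lat Λ fin
  refine h.gen2_of (hT a) (hT b) (fun k add ha hb' τ t hol => ?_) x₀
  obtain ⟨d, hd⟩ := (h.deck_plane hφ hb τ t).1 hol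
  have := hab (AddMonoidHom.mk' (fun l => k (T l)) fun l l' => by
    rw [← add _ _ (hT l) (hT l')]
    refine congrArg k (Homeomorph.ext fun x => hb.1 ?_)
    refine (hT' _ x).trans (Eq.symm ((hT' l _).trans ?_))
    show φ (T l' x) + l = _
    rw [hT', AddSubgroup.coe_add]
    ring) ha hb' ⟨d, τ, t, hd⟩
  refine Eq.trans (congrArg k (Homeomorph.ext fun x => hb.1 ?_)) this
  exact (hd x).trans (hT' ⟨d, τ, t, hd⟩ x).symm

theorem CCov.gen2_sph (h : CCov π)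
    (hs : ∀ τ : W ≃ₜ W, (∀ x, π (τ x) = π x) → HolMap τ → ∀ x, τ x = x) (x₀ : S) :
    Gen2 (FundamentalGroup S x₀) := by
  refine h.gen2_of (α := 1) (β := 1) (fun _ => rfl) (fun _ => rfl) (fun k _ ha _ τ t hol => ?_) x₀
  exact (congrArg k (Homeomorph.ext (hs τ t hol))).trans ha

end Pool.Agent.Lib.Unif
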