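import Pool.Agent.Lib.Unif.UT
import Pool.Agent.Lib.Unif.CC
import Pool.Agent.Lib.Unif.DH
import Pool.Agent.Lib.Unif.DPl
import Pool.Agent.Lib.Unif.Lat
import Pool.Agent.Lib.Unif.Hur2
import Pool.Agent.Lib.Unif.DS3

set_option autoImplicit false
set_option linter.unusedSectionVars false

open Set Filter Topology Metric
open scoped ComplexConjugate Manifold ContDiff

namespace Pool.Agent.Lib.Unif

open scoped UpperHalfPlane in
theorem unif (S : Type*) [TopologicalSpace S] [ChartedSpace (EuclideanSpace ℝ (Fin 2)) S]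
    [IsManifold (𝓡 2) ∞ S] [T2Space S] [CompactSpace S] [ConnectedSpace S] (x₀ : S) :
    Unif1 ℍ ℂ S ∨ ((Unif1 ℂ ℂ S ∨
      Unif1 (sphere (0 : EuclideanSpace ℝ (Fin 3)) 1) (EuclideanSpace ℝ (Fin 2)) S) ∧
        VirtAb (FundamentalGroup S x₀) ∧ Gen2 (FundamentalGroup S x₀)) := by
  obtain ⟨W, _, _, π, _, _, _, h⟩ := exists_ccov S
  rcases uniformization W with ⟨φ, a, b, c⟩ | ⟨φ, a, b⟩ | hs
  · exact Or.inl (h.unif_hyp a b c)
  · refine Or.inr ⟨Or.inl (h.unif_plane a b), h.virtAb (fun τ τ' t t' k k' x => b.1 ?_) x₀,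
      h.gen2_plane a b x₀⟩
    obtain ⟨d, hd⟩ := (h.deck_plane a b τ t).1 k
    obtain ⟨d', hd'⟩ := (h.deck_plane a b τ' t').1 k'
    rw [hd, hd', hd', hd]
    ring
  · obtain ⟨p₁, p₂, φ, -, hφ, -⟩ := h.exists_sph hs
    refine Or.inr ⟨Or.inr (h.unif_sph hs), h.virtAb (fun τ τ' t t' k k' x => ?_) x₀,
      h.gen2_sph (h.deck_sph_hol hφ) x₀⟩
    rw [h.deck_sph_hol hφ τ t k, h.deck_sph_hol hφ τ t k]

end Pool.Agent.Lib.Unif
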