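import Pool.Agent.Lib.Unif.Defs

set_option autoImplicit false
set_option linter.unusedSectionVars false

open Set Filter Topology Metric
open scoped ComplexConjugate Manifold ContDiff

namespace Pool.Agent.Lib.Unif

/-- The real linear map `v ↦ a v + b conj v`. -/
noncomputable def lin_pot (a b : ℂ) : ℂ →L[ℝ] ℂ :=
  a • ContinuousLinearMap.id ℝ ℂ + b • (Complex.conjCLE : ℂ →L[ℝ] ℂ)

theorem lin_apply_pot (a b v : ℂ) : lin_pot a b v = a * v + b * conj v := by
  simp [lin_pot]

theorem lin_norm_pot (a b : ℂ) : ‖lin_pot a b‖ ≤ ‖a‖ + ‖b‖ := by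
  refine ContinuousLinearMap.opNorm_le_bound _ (by positivity) fun v => ?_
  rw [lin_apply_pot, add_mul]
  refine (norm_add_le _ _).trans ?_
  rw [norm_mul, norm_mul, Complex.norm_conj]

theorem ex_eq_pot (ξ z : ℂ) :
    ex ξ z = Complex.exp (Real.pi * Complex.I * (conj ξ * z + ξ * conj z)) := by
  have : conj ξ * z + ξ * conj z = 2 * ((ξ.re * z.re + ξ.im * z.im : ℝ) : ℂ) := by
    apply Complex.ext <;> simp <;> ring
  rw [ex, this]
  congr 1
  ring

theorem ex_norm_pot (ξ z : ℂ) : ‖ex ξ z‖ = 1 := by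
  rw [ex, Complex.norm_exp]
  simp

theorem ex_cont_pot : Continuous fun w : ℂ × ℂ => ex w.1 w.2 := by
  unfold ex
  fun_prop

theorem ratio_norm_pot (ξ : ℂ) : ‖conj ξ / ξ‖ ≤ 1 := by
  rw [norm_div, Complex.norm_conj]
  exact div_self_le_one _

open Classical in
/-- The kernel of the potential. -/
noncomputable def ker_pot (ξ z : ℂ) : ℂ :=
  if ξ = 0 then conj z else (ex ξ z - 1) / (Real.pi * Complex.I * ξ)

theorem ker_deriv_pot (ξ z : ℂ) :
    HasFDerivAt (ker_pot ξ) (lin_pot (conj ξ / ξ * ex ξ z) (ex ξ z)) z := by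
  by_cases h : ξ = 0
  · have e : ker_pot ξ = Complex.conjCLE := funext fun z => by simp [ker_pot, h]
    rw [e]
    refine Complex.conjCLE.hasFDerivAt.congr_fderiv ?_
    ext v <;> simp [lin_apply_pot, h, ex]
  · have e : ker_pot ξ = fun z => (Real.pi * Complex.I * ξ)⁻¹ *
        (Complex.exp (lin_pot (Real.pi * Complex.I * conj ξ) (Real.pi * Complex.I * ξ) z) - 1) :=
      funext fun z => by
        rw [ker_pot, if_neg h, ex_eq_pot, lin_apply_pot, div_eq_inv_mul]
        congr 3
        ring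
    rw [e]
    refine (((lin_pot (Real.pi * Complex.I * conj ξ) (Real.pi * Complex.I * ξ)).hasFDerivAt
      (x := z)).cexp.sub_const 1).const_mul ((Real.pi * Complex.I * ξ)⁻¹) |>.congr_fderiv ?_
    refine ContinuousLinearMap.ext fun v => ?_
    have hp : (Real.pi : ℂ) ≠ 0 := by exact_mod_cast Real.pi_ne_zero
    have e2 : Complex.exp (Real.pi * Complex.I * conj ξ * z + Real.pi * Complex.I * ξ * conj z) =
        ex ξ z := by
      rw [ex_eq_pot]
      congr 1
      ring
    simp only [smul_apply, lin_apply_pot, smul_eq_mul, e2]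
    have := Complex.I_ne_zero
    field_simp

theorem ker_norm_pot (ξ z : ℂ) : ‖ker_pot ξ z‖ ≤ 2 * ‖z‖ := by
  have h := Convex.norm_image_sub_le_of_norm_hasFDerivWithin_le (𝕜 := ℝ) (f := ker_pot ξ)
    (f' := fun z => lin_pot (conj ξ / ξ * ex ξ z) (ex ξ z)) (C := 2) (s := univ) (x := 0) (y := z)
    (fun x _ => (ker_deriv_pot ξ x).hasFDerivWithinAt) (fun x _ => (lin_norm_pot _ _).trans (by
      rw [norm_mul, ex_norm_pot, mul_one]
      linarith [ratio_norm_pot ξ])) convex_univ (mem_univ _) (mem_univ _)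
  have h0 : ker_pot ξ 0 = 0 := by simp [ker_pot, ex]
  simpa [h0] using h

theorem ker_meas_pot (z : ℂ) : Measurable fun ξ => ker_pot ξ z := by
  unfold ker_pot
  refine Measurable.ite (measurableSet_singleton 0) measurable_const ?_
  have : Continuous fun ξ => ex ξ z := ex_cont_pot.comp (continuous_id.prodMk continuous_const)
  exact (this.measurable.sub_const 1).div (measurable_id.const_mul _)

open MeasureTheory in
theorem exists_potential (ν : Measure (ℂ × ℂ)) (h : Integrable Prod.fst ν) :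
    ∃ P : ℂ → ℂ, ContDiff ℝ 1 P ∧ ∀ z v, fderiv ℝ P z v =
      (∫ y, y.1 * (conj y.2 / y.2) * ex y.2 z ∂ν) * v + (∫ y, y.1 * ex y.2 z ∂ν) * conj v := by
  have hex : ∀ z, Measurable fun y : ℂ × ℂ => ex y.2 z := fun z =>
    (ex_cont_pot.comp (continuous_snd.prodMk continuous_const)).measurable
  have hexc : ∀ ξ, Continuous fun z => ex ξ z := fun ξ =>
    ex_cont_pot.comp (continuous_const.prodMk continuous_id)
  have ma : ∀ z, Measurable fun y : ℂ × ℂ => y.1 * (conj y.2 / y.2) * ex y.2 z := fun z =>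
    (measurable_fst.mul ((Complex.continuous_conj.measurable.comp measurable_snd).div
      measurable_snd)).mul (hex z)
  have mb : ∀ z, Measurable fun y : ℂ × ℂ => y.1 * ex y.2 z := fun z =>
    measurable_fst.mul (hex z)
  have na : ∀ (z : ℂ) (y : ℂ × ℂ), ‖y.1 * (conj y.2 / y.2) * ex y.2 z‖ ≤ ‖y.1‖ := fun z y => by
    rw [norm_mul, norm_mul, ex_norm_pot, mul_one]
    exact mul_le_of_le_one_right (norm_nonneg _) (ratio_norm_pot _)
  have nb : ∀ (z : ℂ) (y : ℂ × ℂ), ‖y.1 * ex y.2 z‖ ≤ ‖y.1‖ := fun z y => by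
    rw [norm_mul, ex_norm_pot, mul_one]
  have ia : ∀ z, Integrable (fun y : ℂ × ℂ => y.1 * (conj y.2 / y.2) * ex y.2 z) ν := fun z =>
    h.norm.mono' (ma z).aestronglyMeasurable (Eventually.of_forall (na z))
  have ib : ∀ z, Integrable (fun y : ℂ × ℂ => y.1 * ex y.2 z) ν := fun z =>
    h.norm.mono' (mb z).aestronglyMeasurable (Eventually.of_forall (nb z))
  have mk : ∀ z, AEStronglyMeasurable (fun y : ℂ × ℂ => y.1 * ker_pot y.2 z) ν := fun z =>
    (measurable_fst.mul ((ker_meas_pot z).comp measurable_snd)).aestronglyMeasurable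
  have hd : ∀ z, HasFDerivAt (fun z => ∫ y, y.1 * ker_pot y.2 z ∂ν)
      (lin_pot (∫ y, y.1 * (conj y.2 / y.2) * ex y.2 z ∂ν) (∫ y, y.1 * ex y.2 z ∂ν)) z := by
    intro z
    have h1 := hasFDerivAt_integral_of_dominated_of_fderiv_le (𝕜 := ℝ) (μ := ν)
      (F := fun z (y : ℂ × ℂ) => y.1 * ker_pot y.2 z)
      (F' := fun z (y : ℂ × ℂ) => lin_pot (y.1 * (conj y.2 / y.2) * ex y.2 z) (y.1 * ex y.2 z))
      (bound := fun y => ‖y.1‖ + ‖y.1‖) (x₀ := z) univ_mem (Eventually.of_forall mk)
      ((h.norm.mul_const (2 * ‖z‖)).mono' (mk z) (Eventually.of_forall fun y => by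
        rw [norm_mul]
        exact mul_le_mul_of_nonneg_left (ker_norm_pot _ _) (norm_nonneg _)))
      (((ma z).aestronglyMeasurable.smul_const _).add ((mb z).aestronglyMeasurable.smul_const _))
      (Eventually.of_forall fun y x _ => (lin_norm_pot _ _).trans (add_le_add (na x y) (nb x y)))
      (h.norm.add h.norm) (Eventually.of_forall fun y x _ => by
        refine ((ker_deriv_pot y.2 x).const_mul y.1).congr_fderiv
          (ContinuousLinearMap.ext fun v => ?_)
        simp only [smul_apply, lin_apply_pot, smul_eq_mul]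
        ring)
    refine h1.congr_fderiv ?_
    simp only [lin_pot]
    rw [integral_add ((ia z).smul_const _) ((ib z).smul_const _), integral_smul_const,
      integral_smul_const]
  have hf : fderiv ℝ (fun z => ∫ y, y.1 * ker_pot y.2 z ∂ν) = fun z =>
      lin_pot (∫ y, y.1 * (conj y.2 / y.2) * ex y.2 z ∂ν) (∫ y, y.1 * ex y.2 z ∂ν) :=
    funext fun z => (hd z).fderiv
  refine ⟨_, contDiff_one_iff_fderiv.2 ⟨fun z => (hd z).differentiableAt, ?_⟩, fun z v => by
    rw [hf, lin_apply_pot]⟩
  rw [hf]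
  have ca : Continuous fun z => ∫ y, y.1 * (conj y.2 / y.2) * ex y.2 z ∂ν :=
    continuous_of_dominated (fun z => (ma z).aestronglyMeasurable)
      (fun z => Eventually.of_forall (na z)) h.norm
      (Eventually.of_forall fun y => continuous_const.mul (hexc y.2))
  have cb : Continuous fun z => ∫ y, y.1 * ex y.2 z ∂ν :=
    continuous_of_dominated (fun z => (mb z).aestronglyMeasurable)
      (fun z => Eventually.of_forall (nb z)) h.norm
      (Eventually.of_forall fun y => continuous_const.mul (hexc y.2))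
  exact (ca.smul continuous_const).add (cb.smul continuous_const)

end Pool.Agent.Lib.Unif
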