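import Pool.Agent.Lib.Unif.GE

set_option autoImplicit false
set_option linter.unusedSectionVars false

open Set Filter Topology Metric
open scoped ComplexConjugate Manifold ContDiff

namespace Pool.Agent.Lib.Unif

variable {W : Type*} [TopologicalSpace W] [ChartedSpace ℂ W] [RS W] [T2Space W] [ConnectedSpace W]
  {p q x p₀ p₁ p₂ : W} {f f' e φ : W → ℂ} {u v w s g g' : W → ℝ} {r t R T M C : ℝ} {Ω U K D : Set W}

theorem compl_le_punct_sy1 {P : Set W} (hb : p ∈ P) : 𝓝[Pᶜ] p ≤ 𝓝[≠] p :=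
  nhdsWithin_mono _ (compl_subset_compl.2 (singleton_subset_iff.2 hb))

theorem bdd_of_cont_sy1 (h : ContinuousAt u p) : ∀ᶠ x in 𝓝 p, u x ≤ u p + 1 :=
  h.eventually (eventually_le_nhds (lt_add_one _))

theorem sum_bdd_sy1 {G : W → W → ℝ} (B : Finset W) (hB : ∀ b ∈ B, IsGreen univ b (G b))
    (hp : p ∉ B) : ∃ C, ∀ᶠ x in 𝓝 p, ∑ b ∈ B, G b x ≤ C :=
  ⟨_, bdd_of_cont_sy1 (harm_sum B (G := G) fun b hb =>
    (hB b hb).harm p (mem_univ _) fun h => hp (h ▸ hb)).continuousAt⟩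

theorem exists_green_of_pole {P : Set W} (hP : IsClosed P) (hne : P ≠ univ)
    (hs : ∀ x, x ∉ P → Harm s x ∧ 0 ≤ s x) (hp : ∀ b ∈ P, Pole s b) (hb : p ∈ P) :
    ∃ g, IsGreen univ p g := by
  obtain ⟨q, hq⟩ := (ne_univ_iff_exists_notMem P).1 hne
  refine exists_green isOpen_univ isPreconnected_univ (mem_univ _) (mem_univ q)
    (fun h => hq (h ▸ hb)) ⟨s q, ?_⟩
  rintro _ ⟨v, hv, rfl⟩
  refine hv.le_of_pole (U := Pᶜ) hP.isOpen_compl (fun h => h hb) hs (fun ζ _ hζ => ?_) ?_ q hq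
  · have hζ' : ζ ∈ P := not_not.1 hζ
    exact (hp ζ hζ').tendsto.mono_left (compl_le_punct_sy1 hζ')
  · obtain ⟨C, hC⟩ := (hp p hb).bdd
    refine ⟨-C, ?_⟩
    filter_upwards [compl_le_punct_sy1 hb hC] with x hx
    exact (abs_le.1 hx).1

theorem sum_green_le {P : Set W} (hP : IsClosed P) (hs : ∀ x, x ∉ P → Harm s x ∧ 0 ≤ s x)
    (hp : ∀ b ∈ P, Pole s b) {G : W → W → ℝ} (B : Finset W)
    (hB : ∀ b ∈ B, b ∈ P ∧ IsGreen univ b (G b)) : ∀ x, x ∉ P → ∑ b ∈ B, G b x ≤ s x := by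
  classical
  induction B using Finset.induction_on with
  | empty =>
    intro x hx
    simpa using (hs x hx).2
  | insert b B hbB ih =>
    have hB' : ∀ c ∈ B, c ∈ P ∧ IsGreen univ c (G c) := fun c hc =>
      hB c (Finset.mem_insert_of_mem hc)
    have ih' := ih hB'
    obtain ⟨hbP, hbG⟩ := hB b (Finset.mem_insert_self _ _)
    intro x hx
    rw [Finset.sum_insert hbB, ← le_sub_iff_add_le]
    refine hbG.le_of (mem_univ _) (fun h => hx (h ▸ hbP)) fun v hv => ?_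
    refine hv.le_of (U := Pᶜ) (s := fun y => s y - ∑ c ∈ B, G c y) (u := s) hP.isOpen_compl
      (fun h => h hbP) (fun y hy => ⟨?_, sub_nonneg.2 (ih' y hy)⟩) hs (fun ζ _ hζ => ?_) x hx
    · exact (hs y hy).1.sub (harm_sum B (G := G) fun c hc =>
        (hB' c hc).2.harm y (mem_univ _) fun h => hy (h ▸ (hB' c hc).1))
    have hζ' : ζ ∈ P := not_not.1 hζ
    have hle := compl_le_punct_sy1 hζ'
    refine ⟨(hp ζ hζ').tendsto.mono_left hle, ?_⟩
    obtain ⟨C₁, hC₁⟩ := (hp ζ hζ').bdd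
    by_cases hζb : ζ = b
    · subst hζb
      obtain ⟨C₂, hC₂⟩ := hv.pole
      obtain ⟨C₃, hC₃⟩ := sum_bdd_sy1 B (fun c hc => (hB' c hc).2) hbB
      refine ⟨C₁ + C₂ + C₃, ?_⟩
      filter_upwards [hle hC₁, hle hC₂, nhdsWithin_le_nhds hC₃] with y h1 h2 h3
      have := (abs_le.1 h1).1
      linarith
    have hv1 := bdd_of_cont_sy1 (hv.subh ζ hζb).1
    by_cases hζB : ζ ∈ B
    · obtain ⟨C₂, hC₂⟩ := (hB' ζ hζB).2.pole.bdd
      obtain ⟨C₃, hC₃⟩ := sum_bdd_sy1 (p := ζ) (B.erase ζ)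
        (fun c hc => (hB' c (Finset.mem_of_mem_erase hc)).2) (Finset.notMem_erase _ _)
      refine ⟨C₁ + C₂ + C₃ + (v ζ + 1), ?_⟩
      filter_upwards [hle hC₁, hle hC₂, nhdsWithin_le_nhds hC₃, nhdsWithin_le_nhds hv1]
        with y h1 h2 h3 h4
      have h5 := (abs_le.1 h1).1
      have h6 := (abs_le.1 h2).2
      have h7 := Finset.add_sum_erase B (fun c => G c y) hζB
      linarith
    · obtain ⟨C₃, hC₃⟩ := sum_bdd_sy1 B (fun c hc => (hB' c hc).2) hζB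
      refine ⟨C₃ + (v ζ + 1), ?_⟩
      filter_upwards [self_mem_nhdsWithin, nhdsWithin_le_nhds hC₃, nhdsWithin_le_nhds hv1]
        with y h1 h3 h4
      have h5 := (hs y h1).2
      linarith

end Pool.Agent.Lib.Unif
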