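import Pool.Agent.Lib.Unif.SY1
import Pool.Agent.Lib.Unif.LI

set_option autoImplicit false
set_option linter.unusedSectionVars false

open Set Filter Topology Metric
open scoped ComplexConjugate Manifold ContDiff

namespace Pool.Agent.Lib.Unif

variable {W : Type*} [TopologicalSpace W] [ChartedSpace ℂ W] [RS W] [T2Space W] [ConnectedSpace W]
  {p q x p₀ p₁ p₂ : W} {f f' e φ : W → ℂ} {u v w s g g' : W → ℝ} {r t R T M C : ℝ} {Ω U K D : Set W}
variable {W' : Type*} [TopologicalSpace W'] [ChartedSpace ℂ W'] [RS W'] [T2Space W'] [ConnectedSpace W'] {π : W' → W} {a b : W'}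

theorem deck_subset_sy2 (hπ : LocIso π) {G : W' → W' → ℝ}
    (hG : ∀ b, π b = q → IsGreen univ b (G b)) (τ : W' ≃ₜ W') (hτ : ∀ y, π (τ y) = π y) {y : W'}
    (hy : π y ≠ q) :
    {t | ∃ B : Finset W', (∀ b ∈ B, π b = q) ∧ ∑ b ∈ B, G b (τ y) = t} ⊆
      {t | ∃ B : Finset W', (∀ b ∈ B, π b = q) ∧ ∑ b ∈ B, G b y = t} := by
  rintro t ⟨B, hB, rfl⟩
  have h1 : ∀ b, π (τ.symm b) = π b := fun b => by
    rw [← hτ (τ.symm b), τ.apply_symm_apply]
  refine ⟨B.map τ.symm.toEquiv.toEmbedding, ?_, ?_⟩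
  · intro b hb
    obtain ⟨b', hb', rfl⟩ := Finset.mem_map.1 hb
    exact (h1 b').trans (hB b' hb')
  · rw [Finset.sum_map]
    refine Finset.sum_congr rfl fun b hb => ?_
    have hb' : π (τ.symm b) = q := (h1 b).trans (hB b hb)
    have g1 : IsGreen univ (τ.symm b) (G b ∘ τ) := by
      apply IsGreen.comp (hπ.deck τ hτ)
      rw [τ.apply_symm_apply]
      exact hG b (hB b hb)
    exact (hG _ hb').unique g1 (mem_univ y) fun h => hy (h ▸ hb')

theorem exists_sup_sums (hπ : LocIso π) (hgal : Galois π) {k : W' → ℝ}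
    (hk : ∀ y, π y ≠ q → Harm k y ∧ 0 ≤ k y) (hp : ∀ b, π b = q → Pole k b) {G : W' → W' → ℝ}
    (hG : ∀ b, π b = q → IsGreen univ b (G b)) : ∃ S : W → ℝ, ∀ y, π y ≠ q → Harm S (π y) ∧
      IsLUB {t | ∃ B : Finset W', (∀ b ∈ B, π b = q) ∧ ∑ b ∈ B, G b y = t} (S (π y)) := by
  classical
  set A : W' → Set ℝ := fun y =>
    {t | ∃ B : Finset W', (∀ b ∈ B, π b = q) ∧ ∑ b ∈ B, G b y = t} with hA
  have hP : IsClosed (π ⁻¹' {q}) := isClosed_singleton.preimage hπ.loc.continuous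
  have hbd : ∀ y, π y ≠ q → BddAbove (A y) := fun y hy => by
    refine ⟨k y, ?_⟩
    rintro t ⟨B, hB, rfl⟩
    exact sum_green_le hP (fun x hx => hk x hx) (fun b hb => hp b hb) B
      (fun b hb => ⟨hB b hb, hG b (hB b hb)⟩) y hy
  have hne : ∀ y, (A y).Nonempty := fun y => ⟨0, ∅, by simp, by simp⟩
  set F : Set (W' → ℝ) :=
    {v | ∃ B : Finset W', (∀ b ∈ B, π b = q) ∧ (fun y => ∑ b ∈ B, G b y) = v} with hF
  have hFA : ∀ y, {t | ∃ v ∈ F, v y = t} = A y := fun y => by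
    ext t
    constructor
    · rintro ⟨v, ⟨B, hB, rfl⟩, rfl⟩
      exact ⟨B, hB, rfl⟩
    · rintro ⟨B, hB, rfl⟩
      exact ⟨_, ⟨B, hB, rfl⟩, rfl⟩
  have hharm : ∀ y, π y ≠ q → Harm (fun x => sSup (A x)) y := fun y hy => by
    have hD : (π ⁻¹' {q})ᶜ ∈ 𝓝 y := hP.isOpen_compl.mem_nhds hy
    obtain ⟨D', -, -, h⟩ := hp_loc (𝓕 := F) ⟨_, ∅, by simp, rfl⟩ hD (by
      rintro v ⟨B, hB, rfl⟩ w ⟨B', hB', rfl⟩
      have hU : ∀ b ∈ B ∪ B', π b = q := fun b hb =>
        (Finset.mem_union.1 hb).elim (hB b) (hB' b)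
      refine ⟨_, ⟨B ∪ B', hU, rfl⟩, fun x hx => ?_⟩
      have hxb : ∀ b ∈ B ∪ B', x ≠ b := fun b hb h => hx (by rw [h]; exact hU b hb)
      have hpos : ∀ b ∈ B ∪ B', 0 ≤ G b x := fun b hb =>
        ((hG b (hU b hb)).pos x (mem_univ x) (hxb b hb)).le
      exact ⟨harm_sum _ fun b hb => (hG b (hU b hb)).harm x (mem_univ x) (hxb b hb),
        Finset.sum_le_sum_of_subset_of_nonneg Finset.subset_union_left fun b hb _ => hpos b hb,
        Finset.sum_le_sum_of_subset_of_nonneg Finset.subset_union_right fun b hb _ => hpos b hb⟩)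
    simp only [hFA] at h
    exact h (hbd y hy)
  have hinv : ∀ y y', π y ≠ q → π y = π y' → A y' = A y := fun y y' hy h => by
    obtain ⟨τ, hτ, rfl⟩ := hgal.trans y y' h
    refine (deck_subset_sy2 hπ hG τ hτ hy).antisymm ?_
    have h1 : ∀ b, π (τ.symm b) = π b := fun b => by
      rw [← hτ (τ.symm b), τ.apply_symm_apply]
    have := deck_subset_sy2 hπ hG τ.symm h1 (y := τ y) (h ▸ hy)
    rwa [τ.symm_apply_apply] at this
  have hS : ∀ y, π y ≠ q → A (Function.invFun π (π y)) = A y := fun y hy =>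
    hinv y _ hy (Function.invFun_eq ⟨y, rfl⟩).symm
  refine ⟨fun x => sSup (A (Function.invFun π x)), fun y hy => ⟨?_, ?_⟩⟩
  · apply hπ.harm_iff.1
    refine (hharm y hy).congr ?_
    filter_upwards [hP.isOpen_compl.mem_nhds hy] with x hx
    simp only [Function.comp, hS x hx]
  · simp only [hS y hy]
    exact isLUB_csSup (hne y) (hbd y hy)

end Pool.Agent.Lib.Unif
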