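import Pool.Agent.Lib.Unif.SY2

set_option autoImplicit false
set_option linter.unusedSectionVars false

open Set Filter Topology Metric
open scoped ComplexConjugate Manifold ContDiff

namespace Pool.Agent.Lib.Unif

variable {W : Type*} [TopologicalSpace W] [ChartedSpace ℂ W] [RS W] [T2Space W] [ConnectedSpace W]
  {p q x p₀ p₁ p₂ : W} {f f' e φ : W → ℂ} {u v w s g g' : W → ℝ} {r t R T M C : ℝ} {Ω U K D : Set W}
variable {W' : Type*} [TopologicalSpace W'] [ChartedSpace ℂ W'] [RS W'] [T2Space W'] [ConnectedSpace W'] {π : W' → W} {a b : W'}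

theorem green_le_of_sums (hπ : LocIso π) (hr : range π = Ω) (hgal : Galois π)
    (hg : IsGreen Ω (π b) g) {G : W' → W' → ℝ} (hG : ∀ b', π b' = π b → IsGreen univ b' (G b'))
    (ha : π a ≠ π b)
    (hM : ∀ B : Finset W', (∀ b' ∈ B, π b' = π b) → ∑ b' ∈ B, G b' a ≤ M) : g (π a) ≤ M := by
  classical
  have hmem : ∀ y, π y ∈ Ω := fun y => hr ▸ mem_range_self y
  have hΩ : IsOpen Ω := hr ▸ hπ.loc.isOpenMap.isOpen_range
  obtain ⟨S, hS⟩ := exists_sup_sums (q := π b) (k := g ∘ π) hπ hgal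
    (fun y hy => ⟨hπ.harm_iff.mpr (hg.harm _ (hmem y) hy), (hg.pos _ (hmem y) hy).le⟩)
    (fun b' hb' => hπ.pole_iff.mpr (hb' ▸ hg.pole)) hG
  have hGS : ∀ y, π y ≠ π b → G b y ≤ S (π y) := fun y hy =>
    (hS y hy).2.1 ⟨{b}, by simp, by simp⟩
  have hev : ∀ᶠ y in 𝓝[≠] b, π y ≠ π b := by
    have : ∀ᶠ x in map π (𝓝[≠] b), x ≠ π b := by
      rw [hπ.map_punct]
      exact self_mem_nhdsWithin
    exact this
  have hle : 𝓝[Ω \ {π b}] (π b) ≤ map π (𝓝[≠] b) := by
    rw [hπ.map_punct]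
    exact nhdsWithin_mono _ fun x hx => hx.2
  have hGb := hG b rfl
  refine le_trans (hg.le_of (hmem a) ha fun v hv => ?_) ((hS a ha).2.2 ?_)
  · refine hv.le_of_pole (U := Ω \ {π b}) (s := S) (hΩ.sdiff isClosed_singleton)
      (fun h => h.2 rfl) ?_ ?_ ?_ _ ⟨hmem a, ha⟩
    · rintro x ⟨hx, hx'⟩
      rw [← hr] at hx
      obtain ⟨y, rfl⟩ := hx
      exact ⟨(hS y hx').1, (hS y hx').2.1 ⟨∅, by simp, by simp⟩⟩
    · intro ζ hζ hζ'
      obtain rfl : ζ = π b := by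
        by_contra hne
        exact hζ' ⟨hζ, hne⟩
      refine Tendsto.mono_left ?_ hle
      rw [tendsto_map'_iff]
      exact tendsto_atTop_mono' _ (hev.mono fun y hy => hGS y hy) hGb.pole.tendsto
    · obtain ⟨C, hC⟩ := hGb.pole.bdd
      obtain ⟨k, hk, hkl⟩ := hπ.exists_lg b
      have hk' : ∀ᶠ y in 𝓝[≠] b, k b - 1 < k y :=
        (hk.continuousAt.eventually (lt_mem_nhds (sub_one_lt (k b)))).filter_mono
          nhdsWithin_le_nhds
      refine ⟨-C + (k b - 1), Eventually.filter_mono hle ?_⟩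
      rw [eventually_map]
      filter_upwards [hev, hC, hkl, hk'] with y h1 h2 h3 h4
      have h5 := hGS y h1
      have h6 := (abs_le.mp h2).1
      rw [h3]
      linarith
  · rintro _ ⟨B, hB, rfl⟩
    exact hM B hB

end Pool.Agent.Lib.Unif
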