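import Pool.Agent.Lib.Unif.Defs

set_option autoImplicit false
set_option linter.unusedSectionVars false

open Set Filter Topology Metric
open scoped ComplexConjugate Manifold ContDiff

namespace Pool.Agent.Lib.Unif

theorem sq_Ster (y : sphere (0 : EuclideanSpace ℝ (Fin 3)) 1) :
    y.1 0 ^ 2 + y.1 1 ^ 2 + y.1 2 ^ 2 = 1 := by
  have h : ‖y.1‖ = 1 := by simp
  have h2 := EuclideanSpace.norm_sq_eq y.1
  rw [h, Fin.sum_univ_three] at h2
  simpa using h2.symm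

/-- the inverse of the stereographic projections -/
noncomputable def invSter (e : ℝ) (z : ℂ) : EuclideanSpace ℝ (Fin 3) :=
  !₂[2 * z.re / (z.re ^ 2 + z.im ^ 2 + 1), e * (2 * z.im / (z.re ^ 2 + z.im ^ 2 + 1)),
    e * ((z.re ^ 2 + z.im ^ 2 - 1) / (z.re ^ 2 + z.im ^ 2 + 1))]

theorem diff_invSter (e : ℝ) : Differentiable ℝ (invSter e) := by
  have h0 : ∀ z : ℂ, z.re ^ 2 + z.im ^ 2 + 1 ≠ 0 := fun z => by positivity
  have h1 : Differentiable ℝ fun z : ℂ => z.re := Complex.reCLM.differentiable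
  have h2 : Differentiable ℝ fun z : ℂ => z.im := Complex.imCLM.differentiable
  have h3 : Differentiable ℝ fun z : ℂ => z.re ^ 2 + z.im ^ 2 + 1 :=
    ((h1.pow 2).add (h2.pow 2)).add_const 1
  have h4 := h3.inv h0
  rw [differentiable_euclidean]
  intro i
  fin_cases i
  · exact (h1.const_mul 2).mul h4
  · exact ((h2.const_mul 2).mul h4).const_mul e
  · exact ((((h1.pow 2).add (h2.pow 2)).sub_const 1).mul h4).const_mul e

theorem invSter_eq {e : ℝ} (he : e * e = 1) {y : sphere (0 : EuclideanSpace ℝ (Fin 3)) 1}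
    (hy : 1 - e * y.1 2 ≠ 0) {z : ℂ} (h1 : z.re = y.1 0 / (1 - e * y.1 2))
    (h2 : z.im = e * y.1 1 / (1 - e * y.1 2)) : invSter e z = y.1 := by
  have h := sq_Ster y
  have h3 : z.re ^ 2 + z.im ^ 2 + 1 = 2 / (1 - e * y.1 2) := by
    rw [h1, h2]
    field_simp
    linear_combination h + (y.1 1 ^ 2 + y.1 2 ^ 2) * he
  have h4 : z.re ^ 2 + z.im ^ 2 - 1 = 2 / (1 - e * y.1 2) - 2 := by linarith
  ext i
  fin_cases i
  · change 2 * z.re / (z.re ^ 2 + z.im ^ 2 + 1) = y.1 0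
    rw [h3, h1]
    field_simp
  · change e * (2 * z.im / (z.re ^ 2 + z.im ^ 2 + 1)) = y.1 1
    rw [h3, h2]
    field_simp
    linear_combination y.1 1 * he
  · change e * ((z.re ^ 2 + z.im ^ 2 - 1) / (z.re ^ 2 + z.im ^ 2 + 1)) = y.1 2
    rw [h4, h3]
    field_simp
    linear_combination y.1 2 * he

theorem invSter_stN {y : sphere (0 : EuclideanSpace ℝ (Fin 3)) 1} (hy : y.1 2 ≠ 1) :
    invSter 1 (stN y) = y.1 := by
  refine invSter_eq (by norm_num) (by rw [one_mul]; exact sub_ne_zero.2 hy.symm) ?_ ?_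
  · rw [stN, Complex.div_ofReal_re]
    simp
  · rw [stN, Complex.div_ofReal_im]
    simp

theorem add_ne_Ster {t : ℝ} (h : t ≠ -1) : 1 + t ≠ 0 := fun e => h (by linarith)

theorem cadd_ne_Ster {t : ℝ} (h : t ≠ -1) : (1 : ℂ) + t ≠ 0 := by
  rw [← Complex.ofReal_one, ← Complex.ofReal_add]
  exact Complex.ofReal_ne_zero.2 (add_ne_Ster h)

theorem csub_ne_Ster {t : ℝ} (h : t ≠ 1) : (1 : ℂ) - t ≠ 0 := by
  rw [← Complex.ofReal_one, ← Complex.ofReal_sub]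
  exact Complex.ofReal_ne_zero.2 (sub_ne_zero.2 h.symm)

theorem invSter_stS {y : sphere (0 : EuclideanSpace ℝ (Fin 3)) 1} (hy : y.1 2 ≠ -1) :
    invSter (-1) (stS y) = y.1 := by
  refine invSter_eq (by norm_num) (by simpa using add_ne_Ster hy) ?_ ?_
  · rw [stS, Complex.div_ofReal_re]
    simp
  · rw [stS, Complex.div_ofReal_im]
    simp

theorem imm_Ster {A : EuclideanSpace ℝ (Fin 3) → ℂ} {K : ℂ → EuclideanSpace ℝ (Fin 3)}
    {y : sphere (0 : EuclideanSpace ℝ (Fin 3)) 1} (hA : ContDiffAt ℝ 1 A y.1)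
    (hK : Differentiable ℝ K)
    (h : ∀ᶠ y' : sphere (0 : EuclideanSpace ℝ (Fin 3)) 1 in 𝓝 y, K (A y'.1) = y'.1) :
    ContMDiffAt (𝓡 2) 𝓘(ℝ, ℂ) 1 (fun y' : sphere (0 : EuclideanSpace ℝ (Fin 3)) 1 => A y'.1) y ∧
      Function.Injective (mfderiv (𝓡 2) 𝓘(ℝ, ℂ)
        (fun y' : sphere (0 : EuclideanSpace ℝ (Fin 3)) 1 => A y'.1) y) := by
  have : Fact (Module.finrank ℝ (EuclideanSpace ℝ (Fin 3)) = 2 + 1) := ⟨by simp⟩
  have h1 : ContMDiffAt (𝓡 2) 𝓘(ℝ, ℂ) 1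
      (fun y' : sphere (0 : EuclideanSpace ℝ (Fin 3)) 1 => A y'.1) y :=
    hA.contMDiffAt.comp y (contMDiff_coe_sphere y)
  refine ⟨h1, ?_⟩
  have h2 := mfderiv_coe_sphere_injective (n := 2) y
  have h3 : (K ∘ fun y' : sphere (0 : EuclideanSpace ℝ (Fin 3)) 1 => A y'.1) =ᶠ[𝓝 y]
      Subtype.val := h
  rw [← h3.mfderiv_eq, mfderiv_comp y (hK _).mdifferentiableAt
    (h1.mdifferentiableAt one_ne_zero)] at h2
  exact Function.Injective.of_comp (f := mfderiv 𝓘(ℝ, ℂ) 𝓘(ℝ, EuclideanSpace ℝ (Fin 3)) K (A y.1)) h2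

theorem coord_Ster (i : Fin 3) :
    ContDiff ℝ 1 fun x : EuclideanSpace ℝ (Fin 3) => ((x i : ℝ) : ℂ) :=
  Complex.ofRealCLM.contDiff.comp (EuclideanSpace.proj (𝕜 := ℝ) i).contDiff

theorem cont_Ster : Continuous fun y : sphere (0 : EuclideanSpace ℝ (Fin 3)) 1 => y.1 2 :=
  (EuclideanSpace.proj (𝕜 := ℝ) (2 : Fin 3)).continuous.comp continuous_subtype_val

theorem stN_imm {y : sphere (0 : EuclideanSpace ℝ (Fin 3)) 1} (hy : y.1 2 ≠ 1) :
    ContMDiffAt (𝓡 2) 𝓘(ℝ, ℂ) 1 stN y ∧ Function.Injective (mfderiv (𝓡 2) 𝓘(ℝ, ℂ) stN y) := by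
  refine imm_Ster (A := fun x => (((x 0 : ℝ) : ℂ) + Complex.I * ((x 1 : ℝ) : ℂ)) /
    ((1 - x 2 : ℝ) : ℂ)) ?_ (diff_invSter 1) ?_
  · simp only [Complex.ofReal_sub, Complex.ofReal_one, div_eq_mul_inv]
    refine ((coord_Ster 0).add (contDiff_const.mul (coord_Ster 1))).contDiffAt.mul
      ((contDiff_const.sub (coord_Ster 2)).contDiffAt.inv ?_)
    exact csub_ne_Ster hy
  · filter_upwards [cont_Ster.continuousAt.eventually_ne hy] with y' h using invSter_stN h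

theorem stS_imm {y : sphere (0 : EuclideanSpace ℝ (Fin 3)) 1} (hy : y.1 2 ≠ -1) :
    ContMDiffAt (𝓡 2) 𝓘(ℝ, ℂ) 1 stS y ∧ Function.Injective (mfderiv (𝓡 2) 𝓘(ℝ, ℂ) stS y) := by
  refine imm_Ster (A := fun x => (((x 0 : ℝ) : ℂ) - Complex.I * ((x 1 : ℝ) : ℂ)) /
    ((1 + x 2 : ℝ) : ℂ)) ?_ (diff_invSter (-1)) ?_
  · simp only [Complex.ofReal_add, Complex.ofReal_one, div_eq_mul_inv]
    refine ((coord_Ster 0).sub (contDiff_const.mul (coord_Ster 1))).contDiffAt.mul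
      ((contDiff_const.add (coord_Ster 2)).contDiffAt.inv ?_)
    exact cadd_ne_Ster hy
  · filter_upwards [cont_Ster.continuousAt.eventually_ne hy] with y' h using invSter_stS h

theorem stN_bij : BijOn stN {y | y.1 2 ≠ 1} univ := by
  refine ⟨mapsTo_univ _ _, fun y hy y' hy' h => ?_, fun z _ => ?_⟩
  · exact Subtype.ext (by rw [← invSter_stN hy, ← invSter_stN hy', h])
  · have h0 : z.re ^ 2 + z.im ^ 2 + 1 ≠ 0 := by positivity
    have e0 : invSter 1 z 0 = 2 * z.re / (z.re ^ 2 + z.im ^ 2 + 1) := rfl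
    have e1 : invSter 1 z 1 = 1 * (2 * z.im / (z.re ^ 2 + z.im ^ 2 + 1)) := rfl
    have e2 : invSter 1 z 2 = 1 * ((z.re ^ 2 + z.im ^ 2 - 1) / (z.re ^ 2 + z.im ^ 2 + 1)) := rfl
    have e3 : 1 - invSter 1 z 2 = 2 / (z.re ^ 2 + z.im ^ 2 + 1) := by
      rw [e2]
      field_simp
      ring
    have hm : invSter 1 z ∈ sphere (0 : EuclideanSpace ℝ (Fin 3)) 1 := by
      rw [mem_sphere_zero_iff_norm, ← sq_eq_sq₀ (norm_nonneg _) zero_le_one,
        EuclideanSpace.norm_sq_eq, Fin.sum_univ_three, e0, e1, e2]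
      simp only [Real.norm_eq_abs, sq_abs]
      field_simp
      ring
    refine ⟨⟨invSter 1 z, hm⟩, fun h => ?_, ?_⟩
    · have h' : invSter 1 z 2 = 1 := h
      rw [h', sub_self] at e3
      exact (div_ne_zero two_ne_zero h0) e3.symm
    · change (((invSter 1 z 0 : ℝ) : ℂ) + Complex.I * ((invSter 1 z 1 : ℝ) : ℂ)) /
        ((1 - invSter 1 z 2 : ℝ) : ℂ) = z
      rw [e3, e0, e1]
      apply Complex.ext
      · rw [Complex.div_ofReal_re]
        simp only [Complex.add_re, Complex.ofReal_re, Complex.mul_re, Complex.I_re, Complex.I_im,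
          Complex.ofReal_im]
        field_simp
        ring
      · rw [Complex.div_ofReal_im]
        simp only [Complex.add_im, Complex.ofReal_re, Complex.mul_im, Complex.I_re, Complex.I_im,
          Complex.ofReal_im]
        field_simp
        ring

theorem pole_Ster {y : sphere (0 : EuclideanSpace ℝ (Fin 3)) 1} (hy : y.1 2 ^ 2 = 1) :
    y.1 0 = 0 ∧ y.1 1 = 0 := by
  have h := sq_Ster y
  constructor <;> nlinarith [sq_nonneg (y.1 0), sq_nonneg (y.1 1)]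

theorem eq_of_north {y y' : sphere (0 : EuclideanSpace ℝ (Fin 3)) 1} (hy : y.1 2 = 1)
    (hy' : y'.1 2 = 1) : y = y' := by
  obtain ⟨a, b⟩ := pole_Ster (y := y) (by rw [hy, one_pow])
  obtain ⟨a', b'⟩ := pole_Ster (y := y') (by rw [hy', one_pow])
  apply Subtype.ext
  ext i
  fin_cases i
  · exact a.trans a'.symm
  · exact b.trans b'.symm
  · exact hy.trans hy'.symm

theorem exists_north : ∃ y : sphere (0 : EuclideanSpace ℝ (Fin 3)) 1, y.1 2 = 1 :=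
  ⟨⟨EuclideanSpace.single 2 1, by simp⟩, by simp⟩

theorem stN_eq_zero {y : sphere (0 : EuclideanSpace ℝ (Fin 3)) 1} (hy : y.1 2 ≠ 1) :
    stN y = 0 ↔ y.1 2 = -1 := by
  constructor
  · intro h
    have := invSter_stN hy
    rw [h] at this
    rw [← this]
    simp [invSter]
  · intro h
    obtain ⟨a, b⟩ := pole_Ster (y := y) (by rw [h, neg_one_sq])
    simp [stN, a, b]

theorem prod_Ster (y : sphere (0 : EuclideanSpace ℝ (Fin 3)) 1) :
    (((y.1 0 : ℝ) : ℂ) - Complex.I * ((y.1 1 : ℝ) : ℂ)) *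
      (((y.1 0 : ℝ) : ℂ) + Complex.I * ((y.1 1 : ℝ) : ℂ)) =
      (1 + ((y.1 2 : ℝ) : ℂ)) * (1 - ((y.1 2 : ℝ) : ℂ)) := by
  have h : ((y.1 0 : ℝ) : ℂ) ^ 2 + ((y.1 1 : ℝ) : ℂ) ^ 2 + ((y.1 2 : ℝ) : ℂ) ^ 2 = 1 := by
    have := congrArg Complex.ofReal (sq_Ster y)
    push_cast at this
    exact this
  linear_combination h - ((y.1 1 : ℝ) : ℂ) ^ 2 * Complex.I_sq

theorem stS_eq_inv {y : sphere (0 : EuclideanSpace ℝ (Fin 3)) 1} (hy : y.1 2 ≠ -1) :
    stS y = (stN y)⁻¹ := by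
  by_cases h : y.1 2 = 1
  · obtain ⟨a, b⟩ := pole_Ster (y := y) (by rw [h, one_pow])
    simp [stN, stS, a, b]
  · have h1 : (1 : ℂ) + ((y.1 2 : ℝ) : ℂ) ≠ 0 := cadd_ne_Ster hy
    have h2 : (1 : ℂ) - ((y.1 2 : ℝ) : ℂ) ≠ 0 := csub_ne_Ster h
    apply eq_inv_of_mul_eq_one_left
    rw [stS, stN, div_mul_div_comm, prod_Ster]
    push_cast
    exact div_self (mul_ne_zero h1 h2)

theorem stN_neg {y : sphere (0 : EuclideanSpace ℝ (Fin 3)) 1} (hy : y.1 2 ≠ 1) (hy' : y.1 2 ≠ -1) :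
    stN (-y) * conj (stN y) = -1 := by
  have h1 : (1 : ℂ) + ((y.1 2 : ℝ) : ℂ) ≠ 0 := cadd_ne_Ster hy'
  have h2 : (1 : ℂ) - ((y.1 2 : ℝ) : ℂ) ≠ 0 := csub_ne_Ster hy
  have h3 := prod_Ster y
  have e : ∀ i, (-y).1 i = -y.1 i := fun i => rfl
  rw [stN, stN, e, e, e, map_div₀, map_add, map_mul, Complex.conj_I, Complex.conj_ofReal,
    Complex.conj_ofReal, Complex.conj_ofReal]
  push_cast
  rw [sub_neg_eq_add, div_mul_div_comm, div_eq_iff (mul_ne_zero h1 h2)]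
  linear_combination -h3

end Pool.Agent.Lib.Unif
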