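import Pool.Agent.Lib.Unif.Defs

set_option autoImplicit false
set_option linter.unusedSectionVars false

open Set Filter Topology Metric
open scoped ComplexConjugate Manifold ContDiff

namespace Pool.Agent.Lib.Unif

theorem exists_tracks {X : Type*} [TopologicalSpace X] [PathConnectedSpace X]
    [LocallyPathConnectedSpace X] (x₀ : X)
    (h : ∀ x : X, ∃ U ∈ 𝓝 x, ∀ (y : X) (γ : Path y y), (∀ t, γ t ∈ U) → γ.Homotopic (Path.refl y)) :
    ∃ (U : X → Set X) (e : X → ∀ y : X, Path.Homotopic.Quotient x₀ y), (∀ i, IsOpen (U i)) ∧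
      (∀ i, i ∈ U i) ∧ ∀ (i y y' : X) (δ : Path y y'), (∀ t, δ t ∈ U i) →
        (e i y).trans (Path.Homotopic.Quotient.mk δ) = e i y' := by
  classical
  choose V hV hloop using h
  have hp : ∀ i y : X, ∃ p : Path i y, y ∈ pathComponentIn (interior (V i)) i → ∀ t, p t ∈ V i := by
    intro i y
    by_cases hy : y ∈ pathComponentIn (interior (V i)) i
    · obtain ⟨p, hp⟩ := hy
      exact ⟨p, fun _ t => interior_subset (hp t)⟩
    · exact ⟨PathConnectedSpace.somePath i y, fun h => absurd h hy⟩
  choose p hp using hp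
  refine ⟨fun i => pathComponentIn (interior (V i)) i, fun i y =>
    (Path.Homotopic.Quotient.mk (PathConnectedSpace.somePath x₀ i)).trans
      (Path.Homotopic.Quotient.mk (p i y)), fun i => isOpen_interior.pathComponentIn i,
    fun i => mem_pathComponentIn_self (mem_interior_iff_mem_nhds.2 (hV i)), ?_⟩
  intro i y y' δ hδ
  have hy : y ∈ pathComponentIn (interior (V i)) i := by simpa using hδ 0
  have hy' : y' ∈ pathComponentIn (interior (V i)) i := by simpa using hδ 1
  have hδV : ∀ t, δ t ∈ V i := fun t => interior_subset (pathComponentIn_subset (hδ t))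
  have hl := hloop i i (((p i y).trans δ).trans (p i y').symm) (by
    intro t
    have : ((p i y).trans δ).trans (p i y').symm t ∈
        range (((p i y).trans δ).trans (p i y').symm) := mem_range_self t
    rw [Path.trans_range, Path.trans_range, Path.symm_range] at this
    rcases this with (⟨s, hs⟩ | ⟨s, hs⟩) | ⟨s, hs⟩
    · exact hs ▸ hp i y hy s
    · exact hs ▸ hδV s
    · exact hs ▸ hp i y' hy' s)
  have h1 := Path.Homotopic.Quotient.eq.2 hl
  rw [Path.Homotopic.Quotient.mk_trans, Path.Homotopic.Quotient.mk_trans,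
    Path.Homotopic.Quotient.mk_symm, Path.Homotopic.Quotient.mk_refl] at h1
  have h2 := congrArg (fun q => q.trans (Path.Homotopic.Quotient.mk (p i y'))) h1
  simp only [Path.Homotopic.Quotient.trans_assoc, Path.Homotopic.Quotient.symm_trans,
    Path.Homotopic.Quotient.trans_refl, Path.Homotopic.Quotient.refl_trans] at h2
  simp only [Path.Homotopic.Quotient.trans_assoc, h2]

theorem loops_trivial_of_charted (V : Type*) [NormedAddCommGroup V] [NormedSpace ℝ V]
    {X : Type*} [TopologicalSpace X] [ChartedSpace V X] (x : X) :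
    ∃ U ∈ 𝓝 x, ∀ (y : X) (γ : Path y y), (∀ t, γ t ∈ U) → γ.Homotopic (Path.refl y) := by
  set c := chartAt V x with hc
  obtain ⟨r, hr, hb⟩ := Metric.isOpen_iff.1 c.open_target (c x) (mem_chart_target V x)
  refine ⟨c.source ∩ c ⁻¹' ball (c x) r, ?_, ?_⟩
  · exact (c.isOpen_inter_preimage isOpen_ball).mem_nhds ⟨mem_chart_source V x, mem_ball_self hr⟩
  intro y γ hγ
  have hy : y ∈ c.source ∩ c ⁻¹' ball (c x) r := by simpa using hγ 0
  have hcont : Continuous fun t => c (γ t) :=
    c.continuousOn.comp_continuous γ.continuous fun t => (hγ t).1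
  have hmem : ∀ s t : unitInterval, (1 - (s:ℝ)) • c (γ t) + (s:ℝ) • c y ∈ c.target := fun s t =>
    hb (convex_ball _ _ (hγ t).2 hy.2 (sub_nonneg.2 s.2.2) s.2.1 (by ring))
  refine ⟨⟨⟨⟨fun st => c.symm ((1 - (st.1:ℝ)) • c (γ st.2) + (st.1:ℝ) • c y), ?_⟩, ?_, ?_⟩, ?_⟩⟩
  · refine c.continuousOn_symm.comp_continuous ?_ fun st => hmem st.1 st.2
    have h2 : Continuous fun st : unitInterval × unitInterval => c (γ st.2) :=
      hcont.comp continuous_snd
    have h3 : Continuous fun st : unitInterval × unitInterval => (st.1 : ℝ) := by fun_prop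
    exact ((continuous_const.sub h3).smul h2).add (h3.smul continuous_const)
  · intro t
    simp [c.left_inv (hγ t).1]
  · intro t
    simp [c.left_inv hy.1]
  · intro s t ht
    have e : γ t = y := by
      rcases ht with rfl | rfl <;> simp
    change c.symm ((1 - (s:ℝ)) • c (γ t) + (s:ℝ) • c y) = γ t
    rw [e, ← add_smul, sub_add_cancel, one_smul, c.left_inv hy.1]

end Pool.Agent.Lib.Unif
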