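import Pool.Agent.Lib.Unif.FB
import Pool.Agent.Lib.Unif.UC1

set_option autoImplicit false
set_option linter.unusedSectionVars false

open Set Filter Topology Metric
open scoped ComplexConjugate Manifold ContDiff

namespace Pool.Agent.Lib.Unif

universe u

private theorem symm_trans_uc2 {X : Type*} [TopologicalSpace X] {x y z : X}
    (p : Path.Homotopic.Quotient x y) (q : Path.Homotopic.Quotient y z) :
    (p.trans q).symm = q.symm.trans p.symm := by
  induction p using Path.Homotopic.Quotient.ind with | mk p =>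
  induction q using Path.Homotopic.Quotient.ind with | mk q =>
  rw [← Path.Homotopic.Quotient.mk_trans, ← Path.Homotopic.Quotient.mk_symm, Path.trans_symm]
  rfl

private theorem cancel_uc2 {X : Type*} [TopologicalSpace X] {x y z : X}
    (p : Path.Homotopic.Quotient y x) (q : Path.Homotopic.Quotient x z) :
    p.symm.trans (p.trans q) = q := by
  rw [← Path.Homotopic.Quotient.trans_assoc, Path.Homotopic.Quotient.symm_trans, Path.Homotopic.Quotient.refl_trans]

private theorem cancel_uc2' {X : Type*} [TopologicalSpace X] {x y z : X}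
    (p : Path.Homotopic.Quotient x y) (q : Path.Homotopic.Quotient x z) :
    p.trans (p.symm.trans q) = q := by
  rw [← Path.Homotopic.Quotient.trans_assoc, Path.Homotopic.Quotient.trans_symm, Path.Homotopic.Quotient.refl_trans]

/-- A family of classes that is locally transported along paths is transported along all paths. -/
private theorem key_uc2 {E X : Type*} [TopologicalSpace E] [TopologicalSpace X] {π : E → X}
    (hπ : Continuous π) {x₀ : X} (Φ : ∀ a : E, Path.Homotopic.Quotient x₀ (π a))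
    (hloc : ∀ a : E, ∃ V ∈ 𝓝 a, ∀ (b b' : E) (τ : Path b b'), (∀ t, τ t ∈ V) →
      (Φ b).trans (Path.Homotopic.Quotient.mk (τ.map hπ)) = Φ b')
    {a b : E} (σ : Path a b) : (Φ a).trans (Path.Homotopic.Quotient.mk (σ.map hπ)) = Φ b := by
  have h01 : (Φ (σ 0)).trans (Path.Homotopic.Quotient.mk ((σ.subpath 0 1).map hπ)) = Φ (σ 1) := by
    refine PreconnectedSpace.induction₂'
      (fun s t : unitInterval =>
        (Φ (σ s)).trans (Path.Homotopic.Quotient.mk ((σ.subpath s t).map hπ)) = Φ (σ t)) ?_ ⟨?_⟩ 0 1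
    · intro s
      obtain ⟨V, hV, hV'⟩ := hloc (σ s)
      have h1 : σ ⁻¹' V ∈ 𝓝 s := σ.continuous.continuousAt.preimage_mem_nhds hV
      filter_upwards [Set.ordConnectedComponent_mem_nhds.mpr h1] with t ht
      rw [Set.mem_ordConnectedComponent] at ht
      constructor
      · refine hV' _ _ _ fun r => ?_
        have h2 : σ.subpath s t r ∈ range (σ.subpath s t) := mem_range_self r
        rw [Path.range_subpath] at h2
        obtain ⟨w, hw, hw'⟩ := h2
        rw [← hw']
        exact ht hw
      · refine hV' _ _ _ fun r => ?_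
        have h2 : σ.subpath t s r ∈ range (σ.subpath t s) := mem_range_self r
        rw [Path.range_subpath, uIcc_comm] at h2
        obtain ⟨w, hw, hw'⟩ := h2
        rw [← hw']
        exact ht hw
    · intro s t w h1 h2
      rw [← h2, ← h1, Path.Homotopic.Quotient.trans_assoc, ← Path.Homotopic.Quotient.mk_trans, ← Path.map_trans]
      have h3 : Path.Homotopic.Quotient.mk (((σ.subpath s t).trans (σ.subpath t w)).map hπ) =
          Path.Homotopic.Quotient.mk ((σ.subpath s w).map hπ) :=
        Path.Homotopic.Quotient.eq.mpr (Path.Homotopic.map ⟨Path.Homotopy.subpathTransSubpath σ s t w⟩ ⟨π, hπ⟩)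
      rw [h3]
  have hc : ∀ (a' b' : E) (τ : Path a' b'), a' = a → b' = b → (∀ t, τ t = σ t) →
      (Φ a').trans (Path.Homotopic.Quotient.mk (τ.map hπ)) = Φ b' →
      (Φ a).trans (Path.Homotopic.Quotient.mk (σ.map hπ)) = Φ b := by
    intro a' b' τ ha hb hτ h
    subst ha hb
    have : τ = σ := Path.ext (funext hτ)
    rw [← this]
    exact h
  refine hc _ _ _ σ.source σ.target (fun t => ?_) h01
  rw [Path.subpath_zero_one]
  rfl

theorem exists_universal_cover (X : Type u) [TopologicalSpace X] [PathConnectedSpace X]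
    [LocallyPathConnectedSpace X]
    (h : ∀ x : X, ∃ U ∈ 𝓝 x, ∀ (y : X) (γ : Path y y), (∀ t, γ t ∈ U) → γ.Homotopic (Path.refl y)) :
    ∃ (E : Type u) (_ : TopologicalSpace E) (π : E → X), IsCoveringMap π ∧
      Function.Surjective π ∧ SimplyConnectedSpace E := by
  obtain ⟨x₀⟩ : Nonempty X := inferInstance
  obtain ⟨U, e, hU, hm, he⟩ := exists_tracks x₀ h
  let c : X → X → X → FundamentalGroup X x₀ := fun i j y =>
    FundamentalGroup.fromPath ((e j y).trans (e i y).symm)
  have hl : ∀ i j x, x ∈ U i → x ∈ U j → ∀ᶠ y in 𝓝 x, c i j y = c i j x := by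
    intro i j x hi hj
    have h1 : U i ∩ U j ∈ 𝓝 x := ((hU i).inter (hU j)).mem_nhds ⟨hi, hj⟩
    filter_upwards [pathComponentIn_mem_nhds h1] with y hy
    obtain ⟨δ, hδ⟩ : JoinedIn (U i ∩ U j) x y := hy
    have h2 := he i x y δ fun t => (hδ t).1
    have h3 := he j x y δ fun t => (hδ t).2
    change (e j y).trans (e i y).symm = (e j x).trans (e i x).symm
    rw [← h2, ← h3, symm_trans_uc2, Path.Homotopic.Quotient.trans_assoc, cancel_uc2']
  have hc : ∀ i j k x, x ∈ U i → x ∈ U j → x ∈ U k → c i j x * c j k x = c i k x := by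
    intro i j k x _ _ _
    change ((e k x).trans (e j x).symm).trans ((e j x).trans (e i x).symm) =
      (e k x).trans (e i x).symm
    rw [Path.Homotopic.Quotient.trans_assoc, cancel_uc2]
  obtain ⟨E, tE, π, κ, hcov, hκ, hκc, hex⟩ := exists_cover_of_cocycle U hU hm c hl hc
  have hπ : Continuous π := hcov.continuous
  let K : X → E → Path.Homotopic.Quotient x₀ x₀ := fun i a => (κ i a).toPath
  let Φ : ∀ a : E, Path.Homotopic.Quotient x₀ (π a) := fun a =>
    (K (π a) a).trans (e (π a) (π a))
  have hΦ : ∀ i a, π a ∈ U i → Φ a = (K i a).trans (e i (π a)) := by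
    intro i a ha
    have h1 : K i a = (K (π a) a).trans ((e (π a) (π a)).trans (e i (π a)).symm) :=
      hκc i (π a) a ha (hm _)
    rw [h1, Path.Homotopic.Quotient.trans_assoc, Path.Homotopic.Quotient.trans_assoc, Path.Homotopic.Quotient.symm_trans, Path.Homotopic.Quotient.trans_refl]
  have hloc : ∀ a : E, ∃ V ∈ 𝓝 a, ∀ (b b' : E) (τ : Path b b'), (∀ t, τ t ∈ V) →
      (Φ b).trans (Path.Homotopic.Quotient.mk (τ.map hπ)) = Φ b' := by
    intro a
    refine ⟨{b | κ (π a) b = κ (π a) a} ∩ π ⁻¹' U (π a),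
      inter_mem (hκ (π a) a (hm _)) (hπ.continuousAt.preimage_mem_nhds ((hU _).mem_nhds (hm _))),
      fun b b' τ hτ => ?_⟩
    have hb := hτ 0
    have hb' := hτ 1
    rw [τ.source] at hb
    rw [τ.target] at hb'
    have h1 : K (π a) b' = K (π a) b := congrArg FundamentalGroup.toPath (hb'.1.trans hb.1.symm)
    rw [hΦ (π a) b hb.2, hΦ (π a) b' hb'.2, Path.Homotopic.Quotient.trans_assoc,
      he (π a) _ _ (τ.map hπ) fun t => (hτ t).2, h1]
  have hsurj : Function.Surjective π := fun x => by
    obtain ⟨a, ha, -⟩ := hex x x (hm x) 1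
    exact ⟨a, ha.1⟩
  have hpc : PathConnectedSpace E := by
    refine ⟨⟨(hsurj x₀).choose⟩, fun a b => ?_⟩
    obtain ⟨γ, hγ⟩ := Path.Homotopic.Quotient.mk_surjective ((Φ a).symm.trans (Φ b))
    obtain ⟨Γ, hΓ, hΓ0⟩ := hcov.exists_path_lifts (γ : C(unitInterval, X)) a γ.source
    have hΓt : ∀ t, π (Γ t) = γ t := fun t => congrFun hΓ t
    have h1 : π (Γ 1) = π b := (hΓt 1).trans γ.target
    let σ : Path a (Γ 1) := ⟨Γ, hΓ0, rfl⟩
    have h2 := key_uc2 hπ Φ hloc σ
    have h3 : ∀ (y' : X) (δ : Path (π a) y'), y' = π b → (∀ t, δ t = γ t) →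
        (Path.Homotopic.Quotient.mk δ).trans (e y' y').symm = (Path.Homotopic.Quotient.mk γ).trans (e (π b) (π b)).symm := by
      intro y' δ hy hδ
      subst hy
      have : δ = γ := Path.ext (funext hδ)
      rw [this]
    have h4 : K (π (Γ 1)) (Γ 1) = K (π b) b := by
      have h5 : K (π (Γ 1)) (Γ 1) = (Φ (Γ 1)).trans (e (π (Γ 1)) (π (Γ 1))).symm := by
        change _ = ((K (π (Γ 1)) (Γ 1)).trans (e (π (Γ 1)) (π (Γ 1)))).trans _
        rw [Path.Homotopic.Quotient.trans_assoc, Path.Homotopic.Quotient.trans_symm, Path.Homotopic.Quotient.trans_refl]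
      have h6 : K (π b) b = (Φ b).trans (e (π b) (π b)).symm := by
        change _ = ((K (π b) b).trans (e (π b) (π b))).trans _
        rw [Path.Homotopic.Quotient.trans_assoc, Path.Homotopic.Quotient.trans_symm, Path.Homotopic.Quotient.trans_refl]
      rw [h5, h6, ← h2, Path.Homotopic.Quotient.trans_assoc, h3 _ (σ.map hπ) h1 hΓt, hγ, ← Path.Homotopic.Quotient.trans_assoc,
        cancel_uc2']
    have h7 : Γ 1 = b := by
      refine (hex (π b) (π b) (hm _) (κ (π b) b)).unique ⟨h1, ?_⟩ ⟨rfl, rfl⟩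
      rw [h1] at h4
      exact h4
    exact ⟨σ.cast rfl h7.symm⟩
  refine ⟨E, tE, π, hcov, hsurj, ?_⟩
  rw [simply_connected_iff_loops_nullhomotopic]
  refine ⟨hpc, fun a σ => ?_⟩
  have h1 := key_uc2 hπ Φ hloc σ
  have h2 : Path.Homotopic.Quotient.mk (σ.map hπ) = Path.Homotopic.Quotient.refl (π a) := by
    rw [← cancel_uc2 (Φ a) (Path.Homotopic.Quotient.mk (σ.map hπ)), h1, Path.Homotopic.Quotient.symm_trans]
  refine Path.Homotopic.Quotient.exact (hcov.injective_path_homotopic_map a a ?_)
  exact h2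

end Pool.Agent.Lib.Unif
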