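import Pool.Agent.Lib.Unif.C1b
import Pool.Agent.Lib.Unif.C2a
import Pool.Agent.Lib.Unif.C2b

set_option autoImplicit false
set_option linter.unusedSectionVars false

open Set Filter Topology Metric
open scoped ComplexConjugate Manifold ContDiff

namespace Pool.Agent.Lib.Unif

variable {W : Type*} [TopologicalSpace W] [ChartedSpace ℂ W] [RS W] [T2Space W] [SimplyConnectedSpace W]
  {p q x p₀ p₁ p₂ : W} {f f' e φ : W → ℂ} {u v w s g g' : W → ℝ} {r t R T M C : ℝ} {Ω U K D : Set W}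

theorem uniformization (W : Type*) [TopologicalSpace W] [ChartedSpace ℂ W] [RS W] [T2Space W]
    [SimplyConnectedSpace W] :
    (∃ φ : W → ℂ, (∀ x, Hol φ x) ∧ Function.Injective φ ∧ range φ = {z : ℂ | 0 < z.im}) ∨
    (∃ φ : W → ℂ, (∀ x, Hol φ x) ∧ Function.Bijective φ) ∨
    ∀ p₁ p₂ : W, p₁ ≠ p₂ → ∃ φ, Sph p₁ p₂ φ := by
  by_cases hg : ∃ (p : W) (g : W → ℝ), IsGreen univ p g
  · obtain ⟨p, g, h⟩ := hg
    exact Or.inl h.exists_half
  have hn : ∀ p : W, ¬ ∃ g, IsGreen univ p g := fun p h => hg ⟨p, h⟩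
  refine Or.inr (or_iff_not_imp_left.2 fun hb p₁ p₂ hne => ?_)
  obtain ⟨φ, hφ⟩ := exists_mero hne
  have hi := hφ.injOn hn fun x hx => exists_mero hx
  refine ⟨φ, hφ, mapsTo_univ _ _, hi, fun a _ => ?_⟩
  by_contra ha
  have h0 : ∀ x, x ≠ p₂ → φ x ≠ a := fun x hx h => ha ⟨x, hx, h⟩
  obtain ⟨ψ, -, -, h3, h4, -⟩ := hφ.exists_inv hi a
  have h5 : Function.Injective ψ := fun x y h => h4 (h0 x) (h0 y) h
  exact hb ⟨ψ, fun x => h3 x (h0 x), h5, surjective_of_injective hn (fun x => h3 x (h0 x)) h5⟩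

end Pool.Agent.Lib.Unif
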